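import Pool.Agent.HYM.Chi

set_option autoImplicit false

/-!
# HYM/Fe: the functional equation to the left of the critical strip

PROOF of `fe_all`. Both sides are analytic on the convex open set `Re s < 1`
(`s ↦ conj (P (conj s))` is entire: `DifferentiableAt.star_star` / `Complex` conj-conj lemmas;
`chi_diff`). On the strip `0 < Re s < 1` the identity is the field `functional`: use
`conj (Γ z) = Γ (conj z)` (`Complex.Gamma_conj`), `conj (Q^z) = Q^(conj z)` for `Q > 0`,
`Γ(lam s + mu) ≠ 0` and `Q^s ≠ 0`, `(1 - conj s) - 1 = - conj s`. Identity theorem: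
`AnalyticOnNhd.eqOn_of_preconnected_of_eventuallyEq`.

PROOF of `fe_left`. For `Re s < 0`: divide by `(-s)^m (s-1)^m ≠ 0` and use the field `series` at
`1 - conj s` (real part `> 1`): `P (1 - conj s) / (-conj s)^m = LSeries f (1 - conj s)`, whose
conjugate is `∑ conj (f n) n^(-(1-s)) = ∑ conj (f n) n^(s-1)`.

`dsum_cf_summable`: from the field `ram` with a small exponent.
-/

open Complex

open scoped ComplexConjugate

namespace HYM

private theorem ofReal_cpow_conj {Q : ℝ} (hQ : 0 < Q) (z : ℂ) :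
    conj ((Q : ℂ) ^ z) = (Q : ℂ) ^ (conj z) := by
  have h : (Q : ℂ).arg ≠ Real.pi := by
    rw [Complex.arg_ofReal_of_nonneg hQ.le]
    exact Real.pi_pos.ne
  rw [Complex.cpow_conj _ _ h, Complex.conj_ofReal]

/-- the identity on the critical strip -/
private theorem fe_strip (F : Sel) {s : ℂ} (h0 : 0 < s.re) (h1 : s.re < 1) :
    F.P s * (-s) ^ F.m = F.chi s * conj (F.P (1 - conj s)) * (s - 1) ^ F.m := by
  have hf := F.functional s h0 h1
  have hQ : (F.Q : ℂ) ≠ 0 := by exact_mod_cast F.Q_pos.ne'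
  have hQs : (F.Q : ℂ) ^ s ≠ 0 := by
    rw [Complex.cpow_ne_zero_iff]
    exact Or.inl hQ
  have hG : ∀ j, Gamma (F.lam j * s + F.mu j) ≠ 0 := by
    intro j
    apply Complex.Gamma_ne_zero_of_re_pos
    have h2 := F.mu_re j
    have h3 := mul_pos (F.lam_pos j) h0
    rw [Complex.add_re, Complex.re_ofReal_mul]
    linarith
  have hs1 : (s - 1) ^ F.m ≠ 0 := by
    apply pow_ne_zero
    intro h
    have : s = 1 := by linear_combination h
    rw [this, Complex.one_re] at h1
    exact lt_irrefl _ h1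
  have hs0 : (-s) ^ F.m ≠ 0 := by
    apply pow_ne_zero
    intro h
    have : s = 0 := by linear_combination -h
    rw [this, Complex.zero_re] at h0
    exact lt_irrefl _ h0
  have e1 : conj ((F.Q : ℂ) ^ (1 - conj s) * (∏ j, Gamma (F.lam j * (1 - conj s) + F.mu j)) *
        (F.P (1 - conj s) / ((1 - conj s) - 1) ^ F.m)) =
      (F.Q : ℂ) ^ (1 - s) * (∏ j, Gamma (F.lam j * (1 - s) + conj (F.mu j))) *
        (conj (F.P (1 - conj s)) / (-s) ^ F.m) := by
    rw [map_mul, map_mul, map_div₀, map_pow, map_prod, ofReal_cpow_conj F.Q_pos]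
    congr 1
    · congr 1
      · simp
      · refine Finset.prod_congr rfl fun j _ => ?_
        rw [← Complex.Gamma_conj]
        simp
    · congr 1
      simp
  rw [e1] at hf
  have e2 : (F.Q : ℂ) ^ (1 - s) = (F.Q : ℂ) ^ (1 - 2 * s) * (F.Q : ℂ) ^ s := by
    rw [← Complex.cpow_add _ _ hQ]
    congr 1
    ring
  have e3 : ∏ j, (Gamma (F.lam j * (1 - s) + conj (F.mu j)) * (Gamma (F.lam j * s + F.mu j))⁻¹) =
      (∏ j, Gamma (F.lam j * (1 - s) + conj (F.mu j))) *
        (∏ j, Gamma (F.lam j * s + F.mu j))⁻¹ := by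
    rw [Finset.prod_mul_distrib, Finset.prod_inv_distrib]
  have hGp : (∏ j, Gamma (F.lam j * s + F.mu j)) ≠ 0 := Finset.prod_ne_zero_iff.2 fun j _ => hG j
  unfold Sel.chi
  rw [e3]
  rw [e2] at hf
  generalize (∏ j, Gamma (F.lam j * s + F.mu j)) = A at *
  generalize (∏ j, Gamma (F.lam j * (1 - s) + conj (F.mu j))) = B at *
  generalize (F.Q : ℂ) ^ s = q at *
  generalize (F.Q : ℂ) ^ (1 - 2 * s) = q' at *
  generalize conj (F.P (1 - conj s)) = p' at *
  generalize F.P s = p at *
  generalize (-s) ^ F.m = u at *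
  generalize (s - 1) ^ F.m = v at *
  field_simp at hf ⊢
  linear_combination hf

private theorem conjP_diff (F : Sel) : Differentiable ℂ (fun s : ℂ => conj (F.P (1 - conj s))) := by
  intro s
  have h1 : DifferentiableAt ℂ (fun z : ℂ => F.P (1 - z)) (conj s) := by
    have := F.P_diff
    fun_prop
  have h2 := h1.conj_conj
  rw [Complex.conj_conj] at h2
  exact h2

theorem fe_all (F : Sel) (s : ℂ) (hs : s.re < 1) :
    F.P s * (-s) ^ F.m = F.chi s * conj (F.P (1 - conj s)) * (s - 1) ^ F.m := by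
  have hopen : IsOpen {s : ℂ | s.re < 1} := isOpen_lt Complex.continuous_re continuous_const
  have hconv : Convex ℝ {s : ℂ | s.re < 1} := convex_halfSpace_re_lt 1
  have hf : AnalyticOnNhd ℂ (fun s => F.P s * (-s) ^ F.m) {s : ℂ | s.re < 1} := by
    apply DifferentiableOn.analyticOnNhd _ hopen
    have := F.P_diff
    apply Differentiable.differentiableOn
    fun_prop
  have hg : AnalyticOnNhd ℂ (fun s => F.chi s * conj (F.P (1 - conj s)) * (s - 1) ^ F.m)
      {s : ℂ | s.re < 1} := by
    apply DifferentiableOn.analyticOnNhd _ hopen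
    have h1 := (conjP_diff F).differentiableOn (s := {s : ℂ | s.re < 1})
    have h2 := chi_diff F
    have h3 : DifferentiableOn ℂ (fun s : ℂ => (s - 1) ^ F.m) {s : ℂ | s.re < 1} := by fun_prop
    exact (h2.mul h1).mul h3
  have hmem : (1 / 2 : ℂ) ∈ {s : ℂ | s.re < 1} := by
    have : ((1 / 2 : ℝ) : ℂ) = (1 / 2 : ℂ) := by push_cast; rfl
    rw [← this, Set.mem_setOf_eq, Complex.ofReal_re]
    norm_num
  have hev : (fun s => F.P s * (-s) ^ F.m) =ᶠ[nhds (1 / 2 : ℂ)]
      (fun s => F.chi s * conj (F.P (1 - conj s)) * (s - 1) ^ F.m) := by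
    have hn : {s : ℂ | 0 < s.re ∧ s.re < 1} ∈ nhds (1 / 2 : ℂ) := by
      apply IsOpen.mem_nhds
      · exact (isOpen_lt continuous_const Complex.continuous_re).inter hopen
      · refine ⟨?_, hmem⟩
        have : ((1 / 2 : ℝ) : ℂ) = (1 / 2 : ℂ) := by push_cast; rfl
        rw [← this, Complex.ofReal_re]
        norm_num
    filter_upwards [hn] with s hs
    exact fe_strip F hs.1 hs.2
  exact hf.eqOn_of_preconnected_of_eventuallyEq hg hconv.isPreconnected hmem hev hs

theorem dsum_cf_summable (F : Sel) (s : ℂ) (hs : s.re < 0) :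
    Summable (fun n : ℕ => ‖F.cf n * (n : ℂ) ^ (s - 1)‖) := by
  obtain ⟨C, hC⟩ := F.ram (-s.re / 2) (by linarith)
  have hsum : Summable (fun n : ℕ => C * (n : ℝ) ^ (s.re / 2 - 1)) :=
    (Real.summable_nat_rpow.2 (by linarith)).mul_left C
  refine Summable.of_nonneg_of_le (fun n => norm_nonneg _) (fun n => ?_) hsum
  rcases Nat.eq_zero_or_pos n with rfl | hn
  · have h1 := hC 1 le_rfl
    rw [Nat.cast_one, Real.one_rpow, mul_one] at h1
    have hC0 : 0 ≤ C := (norm_nonneg _).trans h1
    have h2 : F.cf 0 = 0 := by simp [Sel.cf]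
    rw [h2, zero_mul, norm_zero]
    positivity
  · have hn' : (0 : ℝ) < n := by exact_mod_cast hn
    have h1 := hC n hn
    have h2 : ‖F.cf n‖ = ‖F.f n‖ := by
      unfold Sel.cf
      rw [if_neg hn.ne', RCLike.norm_conj]
    rw [norm_mul, h2, Complex.norm_natCast_cpow_of_pos hn, Complex.sub_re, Complex.one_re]
    calc ‖F.f n‖ * (n : ℝ) ^ (s.re - 1) ≤ C * (n : ℝ) ^ (-s.re / 2) * (n : ℝ) ^ (s.re - 1) :=
          mul_le_mul_of_nonneg_right h1 (by positivity)
      _ = C * (n : ℝ) ^ (s.re / 2 - 1) := by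
          rw [mul_assoc, ← Real.rpow_add hn']
          congr 2
          ring

theorem fe_left (F : Sel) (s : ℂ) (hs : s.re < 0) : F.L s = F.chi s * dsum F.cf s := by
  have h1 := fe_all F s (by linarith)
  have hs1 : (s - 1) ^ F.m ≠ 0 := by
    apply pow_ne_zero
    intro h
    have : s = 1 := by linear_combination h
    rw [this, Complex.one_re] at hs
    linarith
  have hs0 : (-s) ^ F.m ≠ 0 := by
    apply pow_ne_zero
    intro h
    have : s = 0 := by linear_combination -h
    rw [this, Complex.zero_re] at hs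
    exact lt_irrefl _ hs
  have h2 := F.series (1 - conj s) (by
    rw [Complex.sub_re, Complex.one_re, Complex.conj_re]
    linarith)
  have h3 : dsum F.cf s = conj (LSeries F.f (1 - conj s)) := by
    unfold dsum LSeries
    rw [Complex.conj_tsum]
    apply tsum_congr
    intro n
    rcases Nat.eq_zero_or_pos n with rfl | hn
    · simp [Sel.cf]
    · rw [LSeries.term_of_ne_zero hn.ne', map_div₀]
      have hn' : (0 : ℝ) < n := by exact_mod_cast hn
      have h4 := ofReal_cpow_conj hn' (1 - conj s)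
      rw [Complex.ofReal_natCast] at h4
      rw [h4]
      unfold Sel.cf
      rw [if_neg hn.ne', div_eq_mul_inv, ← Complex.cpow_neg]
      congr 2
      simp
  have h5 : conj (LSeries F.f (1 - conj s)) = conj (F.P (1 - conj s)) / (-s) ^ F.m := by
    rw [h2, map_div₀, map_pow]
    congr 2
    simp
  unfold Sel.L
  rw [h3, h5, div_eq_iff hs1]
  field_simp
  linear_combination h1

end HYM
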