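import Pool.Agent.HYM.LSG
import Pool.Agent.HYM.Fe

set_option autoImplicit false

/-!
# HYM/Blk: mean values of the dyadic blocks of the dual series

PROOFS. Apply `large_sieve` to `a n = blk k n * n^(σ-1)` (a finite sum, `2^k ≤ n < 2^(k+1)`), resp.
`a n = tl K n * n^(-ε-1)`; `n^(ln σ t - 1) = n^(σ-1) n^{it}` for `n ≥ 1`. The coefficient sums:
`∑_{2^k ≤ n < 2^{k+1}} |f n|² n^{2σ-2} (W + n) ≤ C (W + 2^{k+1}) 2^k 2^{kη} 2^{k(2σ-2)} C'` by `ram`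
with exponent `η/2` (`n^{2σ-2} ≤ C_σ 2^{k(2σ-2)}` on the block). Tail, `σ = -ε`, `ram` with exponent
`ε/2`: `∑_{n ≥ 2^K} n^{ε-2-2ε} (W+n) ≤ C_ε` if `W ≤ 2 * 2^K` (`W + n ≤ 3n`, `∑ n^{-1-ε} < ∞`).
-/

open Complex MeasureTheory

open scoped ComplexConjugate

namespace HYM

private theorem blk_zero (F : Sel) {k n : ℕ} (hn : n ∉ Finset.Ico (2 ^ k) (2 ^ (k + 1))) :
    F.blk k n = 0 := by
  unfold Sel.blk
  rw [if_neg]
  rwa [Finset.mem_Ico] at hn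

private theorem blk_norm_le (F : Sel) (k n : ℕ) : ‖F.blk k n‖ ≤ ‖F.f n‖ := by
  unfold Sel.blk
  split_ifs
  · rw [RCLike.norm_conj]
  · rw [norm_zero]; exact norm_nonneg _

theorem blk_summable (F : Sel) (k : ℕ) (s : ℂ) :
    Summable (fun n : ℕ => ‖F.blk k n * (n : ℂ) ^ (s - 1)‖) := by
  apply summable_of_ne_finset_zero (s := Finset.Ico (2 ^ k) (2 ^ (k + 1)))
  intro n hn
  rw [blk_zero F hn, zero_mul, norm_zero]

private theorem tl_eq (F : Sel) (K n : ℕ) : F.tl K n = if 2 ^ K ≤ n then F.cf n else 0 := by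
  unfold Sel.tl Sel.cf
  by_cases h : 2 ^ K ≤ n
  · have hn : n ≠ 0 := by
      have : 0 < 2 ^ K := by positivity
      omega
    rw [if_pos h, if_pos h, if_neg hn]
  · rw [if_neg h, if_neg h]

theorem tl_summable (F : Sel) (K : ℕ) {s : ℂ} (hs : s.re < 0) :
    Summable (fun n : ℕ => ‖F.tl K n * (n : ℂ) ^ (s - 1)‖) := by
  refine Summable.of_nonneg_of_le (fun n => norm_nonneg _) (fun n => ?_) (dsum_cf_summable F s hs)
  rw [tl_eq]
  split_ifs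
  · exact le_rfl
  · rw [zero_mul, norm_zero]; exact norm_nonneg _

private theorem dsum_blk (F : Sel) (k : ℕ) (s : ℂ) :
    dsum (F.blk k) s = ∑ n ∈ Finset.Ico (2 ^ k) (2 ^ (k + 1)), F.blk k n * (n : ℂ) ^ (s - 1) := by
  unfold dsum
  apply tsum_eq_sum
  intro n hn
  rw [blk_zero F hn, zero_mul]

private theorem mem_Ico_pos {k n : ℕ} (hn : n ∈ Finset.Ico (2 ^ k) (2 ^ (k + 1))) : 0 < n := by
  rw [Finset.mem_Ico] at hn
  have : 0 < 2 ^ k := by positivity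
  omega

theorem blk_diff (F : Sel) (k : ℕ) : Differentiable ℂ (dsum (F.blk k)) := by
  have h : dsum (F.blk k) = fun s => ∑ n ∈ Finset.Ico (2 ^ k) (2 ^ (k + 1)),
      F.blk k n * (n : ℂ) ^ (s - 1) := by
    funext s
    exact dsum_blk F k s
  rw [h]
  apply Differentiable.fun_sum
  intro n hn
  apply Differentiable.const_mul
  intro s
  apply DifferentiableAt.const_cpow (by fun_prop)
  left
  exact_mod_cast (mem_Ico_pos hn).ne'

theorem blk_bound (F : Sel) (k : ℕ) (a b : ℝ) : ∃ C : ℝ, 0 < C ∧ ∀ s : ℂ, a ≤ s.re → s.re ≤ b →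
    ‖dsum (F.blk k) s‖ ≤ C := by
  refine ⟨1 + ∑ n ∈ Finset.Ico (2 ^ k) (2 ^ (k + 1)), ‖F.f n‖ * (n : ℝ) ^ (b - 1), ?_, ?_⟩
  · have : 0 ≤ ∑ n ∈ Finset.Ico (2 ^ k) (2 ^ (k + 1)), ‖F.f n‖ * (n : ℝ) ^ (b - 1) :=
      Finset.sum_nonneg fun n _ => by positivity
    linarith
  · intro s _ hb
    rw [dsum_blk]
    have h : ‖∑ n ∈ Finset.Ico (2 ^ k) (2 ^ (k + 1)), F.blk k n * (n : ℂ) ^ (s - 1)‖ ≤
        ∑ n ∈ Finset.Ico (2 ^ k) (2 ^ (k + 1)), ‖F.f n‖ * (n : ℝ) ^ (b - 1) := by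
      refine (norm_sum_le _ _).trans (Finset.sum_le_sum fun n hn => ?_)
      have hn0 := mem_Ico_pos hn
      have hn1 : (1 : ℝ) ≤ n := by exact_mod_cast hn0
      rw [norm_mul, Complex.norm_natCast_cpow_of_pos hn0]
      apply mul_le_mul (blk_norm_le F k n) _ (by positivity) (norm_nonneg _)
      apply Real.rpow_le_rpow_of_exponent_le hn1
      rw [Complex.sub_re, Complex.one_re]
      linarith
    linarith

private theorem ln_sub_re (c t : ℝ) : (ln c t - 1).re = c - 1 := by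
  rw [Complex.sub_re, ln_re, Complex.one_re]

theorem tl_continuous (F : Sel) (K : ℕ) {c : ℝ} (hc : c < 0) :
    Continuous (fun t : ℝ => dsum (F.tl K) (ln c t)) := by
  unfold dsum
  have hsum := tl_summable F K (s := (c : ℂ)) (by rw [Complex.ofReal_re]; exact hc)
  apply continuous_tsum _ hsum
  · intro n t
    rcases Nat.eq_zero_or_pos n with rfl | hn
    · have : F.tl K 0 = 0 := by
        rw [tl_eq]
        simp [Sel.cf]
      rw [this, zero_mul, zero_mul]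
    · rw [norm_mul, norm_mul, Complex.norm_natCast_cpow_of_pos hn,
        Complex.norm_natCast_cpow_of_pos hn, ln_sub_re, Complex.sub_re, Complex.ofReal_re,
        Complex.one_re]
  · intro n
    rcases Nat.eq_zero_or_pos n with rfl | hn
    · have : F.tl K 0 = 0 := by
        rw [tl_eq]
        simp [Sel.cf]
      rw [this]
      simp only [zero_mul]
      exact continuous_const
    · apply Continuous.mul continuous_const
      have h1 : Continuous (fun t : ℝ => ln c t - 1) := by unfold ln; fun_prop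
      apply h1.const_cpow
      left
      exact_mod_cast hn.ne'

/-- `dsum cf = ∑_{k<K} dsum (blk k) + dsum (tl K)`. -/
theorem dsum_split (F : Sel) (K : ℕ) {s : ℂ} (hs : s.re < 0) :
    dsum F.cf s = (∑ k ∈ Finset.range K, dsum (F.blk k) s) + dsum (F.tl K) s := by
  induction K with
  | zero =>
    rw [Finset.sum_range_zero, zero_add]
    unfold dsum
    apply tsum_congr
    intro n
    rw [tl_eq]
    rcases Nat.eq_zero_or_pos n with rfl | hn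
    · simp [Sel.cf]
    · rw [if_pos (by rw [pow_zero]; exact hn)]
  | succ K ih =>
    rw [Finset.sum_range_succ, ih, add_assoc]
    congr 1
    unfold dsum
    rw [← (blk_summable F K s).of_norm.tsum_add (tl_summable F (K + 1) hs).of_norm]
    apply tsum_congr
    intro n
    rw [← add_mul]
    congr 1
    unfold Sel.tl Sel.blk
    by_cases h1 : 2 ^ K ≤ n
    · by_cases h2 : 2 ^ (K + 1) ≤ n
      · rw [if_pos h1, if_neg (by omega), if_pos h2, zero_add]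
      · rw [if_pos h1, if_pos ⟨h1, by omega⟩, if_neg h2, add_zero]
    · have h2 : ¬ 2 ^ (K + 1) ≤ n := by
        have : 2 ^ (K + 1) = 2 * 2 ^ K := by ring
        omega
      rw [if_neg h1, if_neg (fun h => h1 h.1), if_neg h2, add_zero]

private theorem cpow_line {n : ℕ} (hn : 0 < n) (σ t : ℝ) :
    (n : ℂ) ^ (ln σ t - 1) = (n : ℂ) ^ ((σ : ℂ) - 1) * (n : ℂ) ^ ((t : ℂ) * I) := by
  rw [← Complex.cpow_add _ _ (by exact_mod_cast hn.ne')]
  congr 1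
  unfold ln
  ring

private theorem dsum_line {a : ℕ → ℂ} (h0 : a 0 = 0) (σ t : ℝ) :
    dsum a (ln σ t) = ∑' n : ℕ, (a n * (n : ℂ) ^ ((σ : ℂ) - 1)) * (n : ℂ) ^ ((t : ℂ) * I) := by
  unfold dsum
  apply tsum_congr
  intro n
  rcases Nat.eq_zero_or_pos n with rfl | hn
  · rw [h0]; ring
  · rw [cpow_line hn]
    ring

private theorem norm_a {a : ℕ → ℂ} {n : ℕ} (hn : 0 < n) (σ : ℝ) :
    ‖a n * (n : ℂ) ^ ((σ : ℂ) - 1)‖ = ‖a n‖ * (n : ℝ) ^ (σ - 1) := by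
  rw [norm_mul, Complex.norm_natCast_cpow_of_pos hn, Complex.sub_re, Complex.ofReal_re,
    Complex.one_re]

private theorem f_sq_bound (F : Sel) {η : ℝ} (hη : 0 < η) : ∃ C : ℝ, 0 ≤ C ∧ ∀ n : ℕ, 1 ≤ n →
    ‖F.f n‖ ^ 2 ≤ C * (n : ℝ) ^ η := by
  obtain ⟨C, hC⟩ := F.ram (η / 2) (by linarith)
  refine ⟨C ^ 2, sq_nonneg _, fun n hn => ?_⟩
  have hn0 : (0 : ℝ) < n := by exact_mod_cast hn
  calc ‖F.f n‖ ^ 2 ≤ (C * (n : ℝ) ^ (η / 2)) ^ 2 := pow_le_pow_left₀ (norm_nonneg _) (hC n hn) 2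
    _ = C ^ 2 * (n : ℝ) ^ η := by
        rw [mul_pow, ← Real.rpow_natCast, ← Real.rpow_natCast, ← Real.rpow_mul hn0.le]
        congr 2
        push_cast
        ring

private theorem rpow_dyad {N x e : ℝ} (hN : 0 < N) (h1 : N ≤ x) (h2 : x ≤ 2 * N) :
    x ^ e ≤ 2 ^ |e| * N ^ e := by
  rcases le_total 0 e with h | h
  · rw [abs_of_nonneg h, ← Real.mul_rpow (by norm_num) hN.le]
    exact Real.rpow_le_rpow (by linarith) h2 h
  · have h3 : x ^ e ≤ N ^ e := Real.rpow_le_rpow_of_nonpos hN h1 h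
    have h4 : (1 : ℝ) ≤ 2 ^ |e| := Real.one_le_rpow (by norm_num) (abs_nonneg _)
    have h5 : 0 ≤ N ^ e := by positivity
    nlinarith

theorem blk_mean (F : Sel) (σ η : ℝ) (hη : 0 < η) : ∃ C : ℝ, 0 < C ∧ ∀ k : ℕ, ∀ W : ℝ, 1 ≤ W →
    Integrable (fun t : ℝ => Real.exp (-(t / W) ^ 2) * ‖dsum (F.blk k) (ln σ t)‖ ^ 2) ∧
    ∫ t : ℝ, Real.exp (-(t / W) ^ 2) * ‖dsum (F.blk k) (ln σ t)‖ ^ 2 ≤
      C * (W + 2 ^ k) * ((2 : ℝ) ^ k) ^ (2 * σ - 1 + η) := by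
  obtain ⟨C, hC, hls⟩ := large_sieve
  obtain ⟨D, hD, hf⟩ := f_sq_bound F hη
  set e : ℝ := 2 * σ - 2 + η with he
  refine ⟨C * (2 * (D + 1) * 2 ^ |e|), by positivity, fun k W hW => ?_⟩
  have hb0 : F.blk k 0 = 0 := by
    apply blk_zero
    rw [Finset.mem_Ico]
    have : 0 < 2 ^ k := by positivity
    omega
  have h0 : F.blk k 0 * ((0 : ℕ) : ℂ) ^ ((σ : ℂ) - 1) = 0 := by rw [hb0, zero_mul]
  have hfin : ∀ n ∉ Finset.Ico (2 ^ k) (2 ^ (k + 1)),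
      F.blk k n * (n : ℂ) ^ ((σ : ℂ) - 1) = 0 := by
    intro n hn
    rw [blk_zero F hn, zero_mul]
  have h := hls (fun n => F.blk k n * (n : ℂ) ^ ((σ : ℂ) - 1)) h0 (blk_summable F k _)
    (summable_of_ne_finset_zero (s := Finset.Ico (2 ^ k) (2 ^ (k + 1))) (fun n hn => by
      rw [hfin n hn]; simp)) W hW
  simp_rw [← dsum_line hb0 σ] at h
  refine ⟨h.1, h.2.trans ?_⟩
  have hN : (0 : ℝ) < (2 : ℝ) ^ k := by positivity
  have hterm : ∀ n ∈ Finset.Ico (2 ^ k) (2 ^ (k + 1)),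
      ‖F.blk k n * (n : ℂ) ^ ((σ : ℂ) - 1)‖ ^ 2 * (W + n) ≤
        (2 * (D + 1) * 2 ^ |e|) * (W + 2 ^ k) * ((2 : ℝ) ^ k) ^ e := by
    intro n hn
    have hn0 := mem_Ico_pos hn
    have hn1 : (0 : ℝ) < n := by exact_mod_cast hn0
    rw [Finset.mem_Ico] at hn
    have hl : (2 : ℝ) ^ k ≤ n := by exact_mod_cast hn.1
    have hu : (n : ℝ) ≤ 2 * 2 ^ k := by
      have : n ≤ 2 * 2 ^ k := by
        have : 2 ^ (k + 1) = 2 * 2 ^ k := by ring
        omega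
      exact_mod_cast this
    rw [norm_a hn0]
    have h1 : (‖F.blk k n‖ * (n : ℝ) ^ (σ - 1)) ^ 2 ≤ (D + 1) * (2 ^ |e| * ((2 : ℝ) ^ k) ^ e) := by
      have h2 : ‖F.blk k n‖ ^ 2 ≤ D * (n : ℝ) ^ η :=
        (pow_le_pow_left₀ (norm_nonneg _) (blk_norm_le F k n) 2).trans (hf n hn0)
      have h3 : ((n : ℝ) ^ (σ - 1)) ^ 2 = (n : ℝ) ^ (2 * σ - 2) := by
        rw [← Real.rpow_natCast, ← Real.rpow_mul hn1.le]
        congr 1
        push_cast
        ring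
      have h4 : (n : ℝ) ^ η * (n : ℝ) ^ (2 * σ - 2) = (n : ℝ) ^ e := by
        rw [← Real.rpow_add hn1]
        congr 1
        rw [he]; ring
      have h5 := rpow_dyad (e := e) hN hl hu
      rw [mul_pow, h3]
      calc ‖F.blk k n‖ ^ 2 * (n : ℝ) ^ (2 * σ - 2) ≤ D * (n : ℝ) ^ η * (n : ℝ) ^ (2 * σ - 2) :=
            mul_le_mul_of_nonneg_right h2 (by positivity)
        _ = D * (n : ℝ) ^ e := by rw [mul_assoc, h4]
        _ ≤ (D + 1) * (n : ℝ) ^ e := by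
            apply mul_le_mul_of_nonneg_right _ (by positivity)
            linarith
        _ ≤ _ := mul_le_mul_of_nonneg_left h5 (by positivity)
    calc (‖F.blk k n‖ * (n : ℝ) ^ (σ - 1)) ^ 2 * (W + n)
        ≤ ((D + 1) * (2 ^ |e| * ((2 : ℝ) ^ k) ^ e)) * (2 * (W + 2 ^ k)) := by
          apply mul_le_mul h1 _ (by positivity) (by positivity)
          linarith
      _ = _ := by ring
  rw [tsum_eq_sum (s := Finset.Ico (2 ^ k) (2 ^ (k + 1))) (fun n hn => by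
      rw [hfin n hn]; simp), mul_assoc, mul_assoc]
  apply mul_le_mul_of_nonneg_left _ hC.le
  refine (Finset.sum_le_sum hterm).trans ?_
  rw [Finset.sum_const, Nat.card_Ico, nsmul_eq_mul]
  have hcard : ((2 ^ (k + 1) - 2 ^ k : ℕ) : ℝ) = 2 ^ k := by
    have : 2 ^ (k + 1) - 2 ^ k = 2 ^ k := by
      have : 2 ^ (k + 1) = 2 * 2 ^ k := by ring
      omega
    rw [this]
    push_cast
    rfl
  rw [hcard]
  have h6 : ((2 : ℝ) ^ k) ^ (2 * σ - 1 + η) = (2 : ℝ) ^ k * ((2 : ℝ) ^ k) ^ e := by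
    nth_rewrite 2 [← Real.rpow_one ((2 : ℝ) ^ k)]
    rw [← Real.rpow_add hN]
    congr 1
    rw [he]; ring
  rw [h6]
  apply le_of_eq
  ring

theorem tl_mean (F : Sel) {ε : ℝ} (hε : 0 < ε) : ∃ C : ℝ, 0 < C ∧ ∀ K : ℕ, ∀ W : ℝ, 1 ≤ W →
    W ≤ 2 * 2 ^ K →
    Integrable (fun t : ℝ => Real.exp (-(t / W) ^ 2) * ‖dsum (F.tl K) (ln (-ε) t)‖ ^ 2) ∧
    ∫ t : ℝ, Real.exp (-(t / W) ^ 2) * ‖dsum (F.tl K) (ln (-ε) t)‖ ^ 2 ≤ C := by
  obtain ⟨C, hC, hls⟩ := large_sieve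
  obtain ⟨D, hD, hf⟩ := f_sq_bound F hε
  have hsum : Summable (fun n : ℕ => 3 * D * (n : ℝ) ^ (-1 - ε)) :=
    (Real.summable_nat_rpow.2 (by linarith)).mul_left _
  have hnn : 0 ≤ ∑' n : ℕ, 3 * D * (n : ℝ) ^ (-1 - ε) := tsum_nonneg fun n => by positivity
  refine ⟨C * (∑' n : ℕ, 3 * D * (n : ℝ) ^ (-1 - ε)) + 1, by positivity, fun K W hW hWK => ?_⟩
  have hb0 : F.tl K 0 = 0 := by
    rw [tl_eq]
    simp [Sel.cf]
  have h0 : F.tl K 0 * ((0 : ℕ) : ℂ) ^ ((((-ε : ℝ)) : ℂ) - 1) = 0 := by rw [hb0, zero_mul]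
  have htl : ∀ n : ℕ, 0 < n → ‖F.tl K n * (n : ℂ) ^ ((((-ε : ℝ)) : ℂ) - 1)‖ ^ 2 * n ≤
      D * (n : ℝ) ^ (-1 - ε) := by
    intro n hn
    have hn1 : (0 : ℝ) < n := by exact_mod_cast hn
    rw [norm_a hn]
    have h2 : ‖F.tl K n‖ ^ 2 ≤ D * (n : ℝ) ^ ε := by
      refine le_trans (pow_le_pow_left₀ (norm_nonneg _) ?_ 2) (hf n hn)
      unfold Sel.tl
      split_ifs
      · rw [RCLike.norm_conj]
      · rw [norm_zero]; exact norm_nonneg _
    have h3 : (n : ℝ) ^ ε * (((n : ℝ) ^ (-ε - 1)) ^ 2 * n) = (n : ℝ) ^ (-1 - ε) := by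
      rw [← Real.rpow_natCast, ← Real.rpow_mul hn1.le]
      nth_rewrite 3 [← Real.rpow_one (n : ℝ)]
      rw [← Real.rpow_add hn1, ← Real.rpow_add hn1]
      congr 1
      push_cast
      ring
    rw [mul_pow, mul_assoc]
    calc ‖F.tl K n‖ ^ 2 * (((n : ℝ) ^ (-ε - 1)) ^ 2 * n)
        ≤ D * (n : ℝ) ^ ε * (((n : ℝ) ^ (-ε - 1)) ^ 2 * n) :=
          mul_le_mul_of_nonneg_right h2 (by positivity)
      _ = D * ((n : ℝ) ^ ε * (((n : ℝ) ^ (-ε - 1)) ^ 2 * n)) := by ring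
      _ = _ := by rw [h3]
  have hs2 : Summable (fun n : ℕ => ‖F.tl K n * (n : ℂ) ^ ((((-ε : ℝ)) : ℂ) - 1)‖ ^ 2 * n) := by
    have hs3 : Summable (fun n : ℕ => D * (n : ℝ) ^ (-1 - ε)) :=
      (Real.summable_nat_rpow.2 (by linarith)).mul_left _
    refine Summable.of_nonneg_of_le (fun n => by positivity) (fun n => ?_) hs3
    rcases Nat.eq_zero_or_pos n with rfl | hn
    · rw [hb0, zero_mul, norm_zero]
      have : (0 : ℝ) ≤ D * ((0 : ℕ) : ℝ) ^ (-1 - ε) := by positivity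
      simpa using this
    · exact htl n hn
  have h := hls (fun n => F.tl K n * (n : ℂ) ^ ((((-ε : ℝ)) : ℂ) - 1)) h0
    (tl_summable F K (by rw [Complex.ofReal_re]; linarith)) hs2 W hW
  simp_rw [← dsum_line hb0 (-ε)] at h
  refine ⟨h.1, h.2.trans ?_⟩
  have hfin : ∑' n : ℕ, ‖F.tl K n * (n : ℂ) ^ ((((-ε : ℝ)) : ℂ) - 1)‖ ^ 2 * (W + n) ≤
      ∑' n : ℕ, 3 * D * (n : ℝ) ^ (-1 - ε) := by
    have hpt : ∀ n : ℕ, ‖F.tl K n * (n : ℂ) ^ ((((-ε : ℝ)) : ℂ) - 1)‖ ^ 2 * (W + n) ≤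
        3 * D * (n : ℝ) ^ (-1 - ε) := by
      intro n
      by_cases hK : 2 ^ K ≤ n
      · have hn : 0 < n := lt_of_lt_of_le (by positivity) hK
        have hKn : (2 : ℝ) ^ K ≤ n := by exact_mod_cast hK
        have h5 := htl n hn
        calc ‖F.tl K n * (n : ℂ) ^ ((((-ε : ℝ)) : ℂ) - 1)‖ ^ 2 * (W + n)
            ≤ ‖F.tl K n * (n : ℂ) ^ ((((-ε : ℝ)) : ℂ) - 1)‖ ^ 2 * (3 * n) := by
              apply mul_le_mul_of_nonneg_left _ (sq_nonneg _)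
              linarith
          _ = 3 * (‖F.tl K n * (n : ℂ) ^ ((((-ε : ℝ)) : ℂ) - 1)‖ ^ 2 * n) := by ring
          _ ≤ 3 * (D * (n : ℝ) ^ (-1 - ε)) := by linarith
          _ = _ := by ring
      · rw [tl_eq, if_neg hK, zero_mul, norm_zero]
        have : (0 : ℝ) ≤ 3 * D * (n : ℝ) ^ (-1 - ε) := by positivity
        simpa using this
    exact Summable.tsum_le_tsum hpt (Summable.of_nonneg_of_le (fun n => by positivity) hpt hsum)
      hsum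
  have := mul_le_mul_of_nonneg_left hfin hC.le
  linarith

end HYM
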