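import Pool.Agent.HYM.Defs

set_option autoImplicit false

/-!
# HYM/Dyd: dyadic weights

PROOFS. `KT_spec`: `K = Nat.clog 2 ⌈T⌉₊`: `2^K ≥ ⌈T⌉₊ ≥ T`, and `k < K` gives `2^k < ⌈T⌉₊`, so
`2^k < T`. `KT_le`: `K + 1 ≤ 3 + log₂ T ≤ C T^ε`.
`dyad_weight`: (`N = 2^k`) for `|t| ≤ 2^k` the left side is `≤ 2^{-k}` and the term `j = k` is
`≥ 2^{-k} e^{-1}`; for `2^{j-1} < |t| ≤ 2^j`, `k < j ≤ K`, the left side is `≤ 2^{1-j}` and the term `j`
is `≥ 2^{-j} e^{-1}`; for `|t| > 2^K` the left side is `≤ 2^{-K} e^{-(t/T)²} ≤ 2^{-K} e^{-(t/2^K)²}`.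
So `C = 2e` works; we state it with `6`.
`pow_gauss`: `(1+|t|)^q e^{-(t/W)²} ≤ C W^q` for `W ≥ 1`, `q ≥ 0` (`1+|t| ≤ 2 W (1 + |t|/W)`, and
`(1+u)^q e^{-u²}` is bounded).
`int_weight`: `∫ (1+|t|)^(-1+q) e^{-(t/T)²} dt ≤ C T^q` for `q > 0`, `T ≥ 1` (split at `|t| = T`).
-/

open Complex MeasureTheory

namespace HYM

theorem KT_spec (T : ℝ) (hT : 1 ≤ T) : T ≤ 2 ^ KT T ∧ ∀ k, k < KT T → (2 : ℝ) ^ k < T := by
  unfold KT
  constructor
  · have h1 : ⌈T⌉₊ ≤ 2 ^ Nat.clog 2 ⌈T⌉₊ := Nat.le_pow_clog (by norm_num) _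
    calc T ≤ (⌈T⌉₊ : ℝ) := Nat.le_ceil T
      _ ≤ ((2 ^ Nat.clog 2 ⌈T⌉₊ : ℕ) : ℝ) := by exact_mod_cast h1
      _ = _ := by push_cast; rfl
  · intro k hk
    have h1 : 2 ^ k < ⌈T⌉₊ := Nat.pow_lt_of_lt_clog hk
    rw [Nat.lt_ceil] at h1
    push_cast at h1
    exact h1

theorem KT_le {ε : ℝ} (hε : 0 < ε) : ∃ C : ℝ, 0 < C ∧ ∀ T : ℝ, 1 ≤ T →
    (KT T : ℝ) + 1 ≤ C * T ^ ε := by
  have hl2 : 0 < Real.log 2 := Real.log_pos (by norm_num)
  refine ⟨2 + 1 / (ε * Real.log 2), by positivity, fun T hT => ?_⟩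
  have hT0 : 0 < T := by linarith
  have hTe : 1 ≤ T ^ ε := Real.one_le_rpow hT hε.le
  have hlog : Real.log T ≤ T ^ ε / ε := Real.log_le_rpow_div hT0.le hε
  rcases Nat.eq_zero_or_pos (KT T) with h0 | h0
  · rw [h0]
    have : 0 < 1 / (ε * Real.log 2) := by positivity
    push_cast
    nlinarith
  · obtain ⟨k, hk⟩ := Nat.exists_eq_succ_of_ne_zero h0.ne'
    have h1 := (KT_spec T hT).2 k (by omega)
    have h2 : (k : ℝ) * Real.log 2 < Real.log T := by
      have := Real.log_lt_log (by positivity) h1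
      rwa [Real.log_pow] at this
    have h3 : (k : ℝ) ≤ Real.log T / Real.log 2 := by
      rw [le_div_iff₀ hl2]
      exact h2.le
    have h4 : Real.log T / Real.log 2 ≤ 1 / (ε * Real.log 2) * T ^ ε := by
      rw [div_le_iff₀ hl2]
      refine hlog.trans (le_of_eq ?_)
      field_simp
    rw [hk]
    push_cast
    nlinarith

private theorem exp_one_le : Real.exp 1 ≤ 3 := by
  have := Real.exp_one_lt_d9
  linarith

private theorem third_le : (1 / 3 : ℝ) ≤ Real.exp (-1) := by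
  rw [Real.exp_neg, one_div]
  exact inv_anti₀ (Real.exp_pos _) exp_one_le

private theorem term_le_sum {k K : ℕ} (t : ℝ) {j : ℕ} (hj : j ∈ Finset.Icc k K) :
    ((2 : ℝ) ^ j)⁻¹ * Real.exp (-(t / 2 ^ j) ^ 2) ≤
      ∑ j ∈ Finset.Icc k K, ((2 : ℝ) ^ j)⁻¹ * Real.exp (-(t / 2 ^ j) ^ 2) :=
  Finset.single_le_sum (f := fun j => ((2 : ℝ) ^ j)⁻¹ * Real.exp (-(t / 2 ^ j) ^ 2))
    (fun i _ => by positivity) hj

private theorem exp_ge_third {t : ℝ} {j : ℕ} (h : |t| ≤ 2 ^ j) :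
    1 / 3 ≤ Real.exp (-(t / 2 ^ j) ^ 2) := by
  refine third_le.trans (Real.exp_le_exp.2 ?_)
  have h2 : (0 : ℝ) < 2 ^ j := by positivity
  have h1 : |t / 2 ^ j| ≤ 1 := by
    rw [abs_div, abs_of_pos h2, div_le_one h2]
    exact h
  have h3 : (t / 2 ^ j) ^ 2 ≤ 1 := by
    rw [← sq_abs]
    exact pow_le_one₀ (abs_nonneg _) h1
  linarith

theorem dyad_weight {T : ℝ} (hT : 1 ≤ T) {k K : ℕ} (hk : k ≤ K) (hK : T ≤ 2 ^ K) (t : ℝ) :
    (1 + |t|)⁻¹ * min 1 ((1 + |t|) / 2 ^ k) * Real.exp (-(t / T) ^ 2) ≤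
      6 * ∑ j ∈ Finset.Icc k K, ((2 : ℝ) ^ j)⁻¹ * Real.exp (-(t / 2 ^ j) ^ 2) := by
  have hu : 0 < 1 + |t| := by positivity
  have hE1 : Real.exp (-(t / T) ^ 2) ≤ 1 := by
    rw [Real.exp_le_one_iff]
    have := sq_nonneg (t / T)
    linarith
  have hE0 := Real.exp_pos (-(t / T) ^ 2)
  by_cases h1 : |t| ≤ 2 ^ k
  · have hmem : k ∈ Finset.Icc k K := Finset.mem_Icc.2 ⟨le_rfl, hk⟩
    have h2 := term_le_sum t hmem
    have h3 := exp_ge_third h1
    have h4 : (1 + |t|)⁻¹ * min 1 ((1 + |t|) / 2 ^ k) ≤ ((2 : ℝ) ^ k)⁻¹ := by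
      calc (1 + |t|)⁻¹ * min 1 ((1 + |t|) / 2 ^ k) ≤ (1 + |t|)⁻¹ * ((1 + |t|) / 2 ^ k) :=
            mul_le_mul_of_nonneg_left (min_le_right _ _) (by positivity)
        _ = ((2 : ℝ) ^ k)⁻¹ := by field_simp
    have h5 : (0 : ℝ) < ((2 : ℝ) ^ k)⁻¹ := by positivity
    have h6 : (1 + |t|)⁻¹ * min 1 ((1 + |t|) / 2 ^ k) * Real.exp (-(t / T) ^ 2) ≤
        ((2 : ℝ) ^ k)⁻¹ * 1 := mul_le_mul h4 hE1 hE0.le h5.le
    have h7 : ((2 : ℝ) ^ k)⁻¹ * (1 / 3) ≤ ((2 : ℝ) ^ k)⁻¹ * Real.exp (-(t / 2 ^ k) ^ 2) :=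
      mul_le_mul_of_nonneg_left h3 h5.le
    linarith
  · push Not at h1
    by_cases h2 : |t| ≤ 2 ^ K
    · -- smallest j with |t| ≤ 2^j
      classical
      have hex : ∃ j : ℕ, |t| ≤ 2 ^ j := ⟨K, h2⟩
      set j := Nat.find hex with hj
      have hjs : |t| ≤ 2 ^ j := Nat.find_spec hex
      have hjK : j ≤ K := Nat.find_min' hex h2
      have hkj : k < j := by
        by_contra hc
        push Not at hc
        have : |t| ≤ 2 ^ k := hjs.trans (pow_le_pow_right₀ (by norm_num) hc)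
        linarith
      have hjm : (2 : ℝ) ^ (j - 1) < |t| := by
        have := Nat.find_min hex (m := j - 1) (by omega)
        push Not at this
        exact this
      have hj2 : (2 : ℝ) ^ j = 2 * 2 ^ (j - 1) := by
        rw [← pow_succ']
        congr 1
        omega
      have hmem : j ∈ Finset.Icc k K := Finset.mem_Icc.2 ⟨hkj.le, hjK⟩
      have h3 := term_le_sum t hmem
      have h4 := exp_ge_third hjs
      have h5 : (0 : ℝ) < ((2 : ℝ) ^ j)⁻¹ := by positivity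
      have h6 : (1 + |t|)⁻¹ * min 1 ((1 + |t|) / 2 ^ k) ≤ 2 * ((2 : ℝ) ^ j)⁻¹ := by
        calc (1 + |t|)⁻¹ * min 1 ((1 + |t|) / 2 ^ k) ≤ (1 + |t|)⁻¹ * 1 :=
              mul_le_mul_of_nonneg_left (min_le_left _ _) (by positivity)
          _ ≤ ((2 : ℝ) ^ (j - 1))⁻¹ := by
              rw [mul_one]
              apply inv_anti₀ (by positivity)
              linarith
          _ = 2 * ((2 : ℝ) ^ j)⁻¹ := by rw [hj2]; field_simp
      have h7 : (1 + |t|)⁻¹ * min 1 ((1 + |t|) / 2 ^ k) * Real.exp (-(t / T) ^ 2) ≤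
          (2 * ((2 : ℝ) ^ j)⁻¹) * 1 := mul_le_mul h6 hE1 hE0.le (by positivity)
      have h8 : ((2 : ℝ) ^ j)⁻¹ * (1 / 3) ≤ ((2 : ℝ) ^ j)⁻¹ * Real.exp (-(t / 2 ^ j) ^ 2) :=
        mul_le_mul_of_nonneg_left h4 h5.le
      linarith
    · push Not at h2
      have hmem : K ∈ Finset.Icc k K := Finset.mem_Icc.2 ⟨hk, le_rfl⟩
      have h3 := term_le_sum t hmem
      have h5 : (0 : ℝ) < ((2 : ℝ) ^ K)⁻¹ := by positivity
      have h6 : (1 + |t|)⁻¹ * min 1 ((1 + |t|) / 2 ^ k) ≤ ((2 : ℝ) ^ K)⁻¹ := by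
        calc (1 + |t|)⁻¹ * min 1 ((1 + |t|) / 2 ^ k) ≤ (1 + |t|)⁻¹ * 1 :=
              mul_le_mul_of_nonneg_left (min_le_left _ _) (by positivity)
          _ ≤ ((2 : ℝ) ^ K)⁻¹ := by
              rw [mul_one]
              apply inv_anti₀ (by positivity)
              linarith
      have h7 : Real.exp (-(t / T) ^ 2) ≤ Real.exp (-(t / 2 ^ K) ^ 2) := by
        apply Real.exp_le_exp.2
        have hT0 : 0 < T := by linarith
        have : (t / 2 ^ K) ^ 2 ≤ (t / T) ^ 2 := by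
          rw [div_pow, div_pow]
          apply div_le_div_of_nonneg_left (sq_nonneg _) (by positivity)
          exact pow_le_pow_left₀ hT0.le hK 2
        linarith
      have h8 : (1 + |t|)⁻¹ * min 1 ((1 + |t|) / 2 ^ k) * Real.exp (-(t / T) ^ 2) ≤
          ((2 : ℝ) ^ K)⁻¹ * Real.exp (-(t / 2 ^ K) ^ 2) := mul_le_mul h6 h7 hE0.le h5.le
      have h9 : 0 < ((2 : ℝ) ^ K)⁻¹ * Real.exp (-(t / 2 ^ K) ^ 2) := by positivity
      linarith

/-- `(1+u)^q e^{-u²}` is bounded -/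
private theorem pg_aux {q : ℝ} (hq : 0 ≤ q) : ∃ C : ℝ, 0 < C ∧ ∀ u : ℝ, 0 ≤ u →
    (1 + u) ^ q * Real.exp (-u ^ 2) ≤ C := by
  refine ⟨Real.exp (q + q ^ 2 / 4), Real.exp_pos _, fun u hu => ?_⟩
  have h1 : (1 + u) ^ q ≤ Real.exp (q * u) := by
    have h2 : 1 + u ≤ Real.exp u := by
      have := Real.add_one_le_exp u
      linarith
    calc (1 + u) ^ q ≤ (Real.exp u) ^ q := Real.rpow_le_rpow (by linarith) h2 hq
      _ = Real.exp (q * u) := by rw [← Real.exp_mul, mul_comm]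
  calc (1 + u) ^ q * Real.exp (-u ^ 2) ≤ Real.exp (q * u) * Real.exp (-u ^ 2) :=
        mul_le_mul_of_nonneg_right h1 (Real.exp_pos _).le
    _ = Real.exp (q * u - u ^ 2) := by rw [← Real.exp_add]; congr 1
    _ ≤ Real.exp (q + q ^ 2 / 4) := by
        apply Real.exp_le_exp.2
        nlinarith [sq_nonneg (u - q / 2)]

theorem pow_gauss {q : ℝ} (hq : 0 ≤ q) : ∃ C : ℝ, 0 < C ∧ ∀ W : ℝ, 1 ≤ W → ∀ t : ℝ,
    (1 + |t|) ^ q * Real.exp (-(t / W) ^ 2) ≤ C * W ^ q := by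
  obtain ⟨C, hC, h⟩ := pg_aux hq
  refine ⟨C, hC, fun W hW t => ?_⟩
  have hW0 : 0 < W := by linarith
  have h1 := h (|t| / W) (by positivity)
  have h2 : 1 + |t| ≤ W * (1 + |t| / W) := by
    have : W * (1 + |t| / W) = W + |t| := by field_simp
    rw [this]
    linarith
  have h3 : (1 + |t|) ^ q ≤ W ^ q * (1 + |t| / W) ^ q := by
    rw [← Real.mul_rpow hW0.le (by positivity)]
    exact Real.rpow_le_rpow (by positivity) h2 hq
  have h4 : -(t / W) ^ 2 = -(|t| / W) ^ 2 := by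
    rw [div_pow, div_pow, sq_abs]
  rw [h4]
  calc (1 + |t|) ^ q * Real.exp (-(|t| / W) ^ 2)
      ≤ W ^ q * (1 + |t| / W) ^ q * Real.exp (-(|t| / W) ^ 2) :=
        mul_le_mul_of_nonneg_right h3 (Real.exp_pos _).le
    _ = W ^ q * ((1 + |t| / W) ^ q * Real.exp (-(|t| / W) ^ 2)) := by ring
    _ ≤ W ^ q * C := mul_le_mul_of_nonneg_left h1 (by positivity)
    _ = C * W ^ q := by ring

private theorem gauss_T {W : ℝ} (hW : 0 < W) :
    Integrable (fun t : ℝ => Real.exp (-(t / W) ^ 2)) ∧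
      ∫ t : ℝ, Real.exp (-(t / W) ^ 2) = √Real.pi * W := by
  have h1 : (fun t : ℝ => Real.exp (-(t / W) ^ 2)) =
      fun t : ℝ => Real.exp (-(1 / W ^ 2) * t ^ 2) := by
    funext t
    congr 1
    ring
  rw [h1]
  refine ⟨integrable_exp_neg_mul_sq (by positivity), ?_⟩
  rw [integral_gaussian]
  have h2 : Real.pi / (1 / W ^ 2) = Real.pi * W ^ 2 := by field_simp
  rw [h2, Real.sqrt_mul Real.pi_pos.le, Real.sqrt_sq hW.le]

private theorem int_weight_lt {q : ℝ} (hq : 0 < q) (hq1 : q < 1) {T : ℝ} (hT : 0 < T) :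
    Integrable (fun t : ℝ => |t| ^ (q - 1) * Real.exp (-(t / T) ^ 2)) ∧
    ∫ t : ℝ, |t| ^ (q - 1) * Real.exp (-(t / T) ^ 2) = Real.Gamma (q / 2) * T ^ q := by
  have hb : 0 < 1 / T ^ 2 := by positivity
  have hon : IntegrableOn (fun x : ℝ => |x| ^ (q - 1) * Real.exp (-(x / T) ^ 2)) (Set.Ioi 0) := by
    have h1 := integrableOn_rpow_mul_exp_neg_mul_sq hb (show -1 < q - 1 by linarith)
    refine h1.congr_fun ?_ measurableSet_Ioi
    intro x hx
    have hx : 0 < x := hx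
    dsimp only
    rw [abs_of_pos hx]
    congr 2
    ring
  have hval : ∫ x in Set.Ioi (0 : ℝ), |x| ^ (q - 1) * Real.exp (-(x / T) ^ 2) =
      1 / 2 * Real.Gamma (q / 2) * T ^ q := by
    have h1 := integral_rpow_mul_exp_neg_mul_rpow two_pos (show -1 < q - 1 by linarith) hb
    have h2 : ∫ x in Set.Ioi (0 : ℝ), |x| ^ (q - 1) * Real.exp (-(x / T) ^ 2) =
        ∫ x in Set.Ioi (0 : ℝ), x ^ (q - 1) * Real.exp (-(1 / T ^ 2) * x ^ (2 : ℝ)) := by
      apply setIntegral_congr_fun measurableSet_Ioi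
      intro x hx
      have hx : 0 < x := hx
      dsimp only
      rw [abs_of_pos hx, Real.rpow_two]
      congr 2
      ring
    rw [h2, h1]
    have h3 : (1 / T ^ 2) ^ (-(q - 1 + 1) / 2) = T ^ q := by
      rw [one_div, ← Real.rpow_natCast, ← Real.rpow_neg hT.le, ← Real.rpow_mul hT.le]
      congr 1
      push_cast
      ring
    rw [h3, sub_add_cancel]
    ring
  set h : ℝ → ℝ := (Set.Ioi (0 : ℝ)).indicator
    (fun x : ℝ => |x| ^ (q - 1) * Real.exp (-(x / T) ^ 2)) with hh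
  have hint : Integrable h := by
    rw [hh, integrable_indicator_iff measurableSet_Ioi]
    exact hon
  have hint2 : Integrable (fun t => h (-t)) := hint.comp_neg
  have heq : (fun t : ℝ => |t| ^ (q - 1) * Real.exp (-(t / T) ^ 2)) = fun t => h t + h (-t) := by
    funext t
    rcases lt_trichotomy t 0 with ht | ht | ht
    · have h1 : h t = 0 := Set.indicator_of_notMem (show t ∉ Set.Ioi (0 : ℝ) by
        simp only [Set.mem_Ioi, not_lt]; exact ht.le) _
      have h2 : h (-t) = |(-t)| ^ (q - 1) * Real.exp (-(-t / T) ^ 2) :=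
        Set.indicator_of_mem (show -t ∈ Set.Ioi (0 : ℝ) by
          simp only [Set.mem_Ioi]; linarith) _
      rw [h1, h2, zero_add, abs_neg]
      congr 2
      ring
    · subst ht
      have h1 : h 0 = 0 := Set.indicator_of_notMem (show (0 : ℝ) ∉ Set.Ioi (0 : ℝ) by simp) _
      rw [neg_zero, h1, abs_zero, Real.zero_rpow (by linarith)]
      ring
    · have h1 : h (-t) = 0 := Set.indicator_of_notMem (show -t ∉ Set.Ioi (0 : ℝ) by
        simp only [Set.mem_Ioi, not_lt]; linarith) _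
      have h2 : h t = |t| ^ (q - 1) * Real.exp (-(t / T) ^ 2) :=
        Set.indicator_of_mem (show t ∈ Set.Ioi (0 : ℝ) from ht) _
      rw [h1, h2, add_zero]
  rw [heq]
  refine ⟨hint.add hint2, ?_⟩
  rw [integral_add hint hint2, integral_neg_eq_self h]
  have h4 : ∫ t, h t = 1 / 2 * Real.Gamma (q / 2) * T ^ q := by
    rw [← hval, hh, integral_indicator measurableSet_Ioi]
  rw [h4]
  ring

theorem int_weight {q : ℝ} (hq : 0 < q) : ∃ C : ℝ, 0 < C ∧ ∀ T : ℝ, 1 ≤ T →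
    Integrable (fun t : ℝ => (1 + |t|) ^ (-1 + q) * Real.exp (-(t / T) ^ 2)) ∧
    ∫ t : ℝ, (1 + |t|) ^ (-1 + q) * Real.exp (-(t / T) ^ 2) ≤ C * T ^ q := by
  have hmeas : ∀ T : ℝ, AEStronglyMeasurable
      (fun t : ℝ => (1 + |t|) ^ (-1 + q) * Real.exp (-(t / T) ^ 2)) volume := by
    intro T
    apply Continuous.aestronglyMeasurable
    apply Continuous.mul
    · apply Continuous.rpow_const (by fun_prop)
      intro t
      left
      positivity
    · fun_prop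
  by_cases hq1 : q < 1
  · refine ⟨Real.Gamma (q / 2), Real.Gamma_pos_of_pos (by linarith), fun T hT => ?_⟩
    have hT0 : 0 < T := by linarith
    obtain ⟨h1, h2⟩ := int_weight_lt hq hq1 hT0
    have hae : ∀ᵐ t : ℝ, (1 + |t|) ^ (-1 + q) * Real.exp (-(t / T) ^ 2) ≤
        |t| ^ (q - 1) * Real.exp (-(t / T) ^ 2) := by
      have h0 : ∀ᵐ t : ℝ, t ≠ 0 := by
        rw [ae_iff]
        simp
      filter_upwards [h0] with t ht
      apply mul_le_mul_of_nonneg_right _ (Real.exp_pos _).le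
      have e : -1 + q = q - 1 := by ring
      rw [e]
      apply Real.rpow_le_rpow_of_nonpos (abs_pos.2 ht) (by linarith [abs_nonneg t]) (by linarith)
    have hint : Integrable (fun t : ℝ => (1 + |t|) ^ (-1 + q) * Real.exp (-(t / T) ^ 2)) := by
      refine h1.mono' (hmeas T) ?_
      filter_upwards [hae] with t ht
      rw [Real.norm_of_nonneg (by positivity)]
      exact ht
    refine ⟨hint, ?_⟩
    rw [← h2]
    exact integral_mono_ae hint h1 hae
  · push Not at hq1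
    obtain ⟨C, hC, h⟩ := pow_gauss (q := q - 1) (by linarith)
    have hs2 : (0 : ℝ) < √2 := Real.sqrt_pos.2 (by norm_num)
    have hs1 : (1 : ℝ) ≤ √2 := by
      rw [Real.one_le_sqrt]; norm_num
    refine ⟨C * √Real.pi * √2 ^ q, by
      have := Real.sqrt_pos.2 Real.pi_pos
      positivity, fun T hT => ?_⟩
    have hT0 : 0 < T := by linarith
    set W := √2 * T with hW
    have hW0 : 0 < W := by positivity
    have hW1 : 1 ≤ W := by nlinarith
    obtain ⟨h1, h2⟩ := gauss_T hW0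
    have hpt : ∀ t : ℝ, (1 + |t|) ^ (-1 + q) * Real.exp (-(t / T) ^ 2) ≤
        C * W ^ (q - 1) * Real.exp (-(t / W) ^ 2) := by
      intro t
      have e1 : Real.exp (-(t / T) ^ 2) = Real.exp (-(t / W) ^ 2) * Real.exp (-(t / W) ^ 2) := by
        rw [← Real.exp_add]
        congr 1
        rw [hW, div_pow, div_pow, mul_pow, Real.sq_sqrt (by norm_num)]
        field_simp
        ring
      have e : -1 + q = q - 1 := by ring
      rw [e1, e, ← mul_assoc]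
      exact mul_le_mul_of_nonneg_right (h W hW1 t) (Real.exp_pos _).le
    have h3 := h1.const_mul (C * W ^ (q - 1))
    have hint : Integrable (fun t : ℝ => (1 + |t|) ^ (-1 + q) * Real.exp (-(t / T) ^ 2)) := by
      refine h3.mono' (hmeas T) (Filter.Eventually.of_forall fun t => ?_)
      rw [Real.norm_of_nonneg (by positivity)]
      exact hpt t
    refine ⟨hint, ?_⟩
    have h4 : ∫ t : ℝ, (1 + |t|) ^ (-1 + q) * Real.exp (-(t / T) ^ 2) ≤
        ∫ t : ℝ, C * W ^ (q - 1) * Real.exp (-(t / W) ^ 2) := integral_mono hint h3 hpt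
    rw [integral_const_mul, h2] at h4
    refine h4.trans (le_of_eq ?_)
    have e2 : W ^ (q - 1) * W = √2 ^ q * T ^ q := by
      rw [← Real.mul_rpow hs2.le hT0.le, ← hW]
      nth_rewrite 2 [← Real.rpow_one W]
      rw [← Real.rpow_add hW0]
      congr 1
      ring
    calc C * W ^ (q - 1) * (√Real.pi * W) = C * √Real.pi * (W ^ (q - 1) * W) := by ring
      _ = _ := by rw [e2]; ring

end HYM
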