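import Pool.Agent.HYM.Blk
import Pool.Agent.HYM.Dyd

set_option autoImplicit false

/-!
# HYM/Hig: the norm of the high part

PROOF of `high_norm`. `s = 1/2 + it`, `N = 2^k < T`, `D = e^{s²/T²} - e^{s²/N²}`. Then
`|D| ≤ 2 e^{1/4} e^{-(t/T)²}` and, since `e^{s² a} - e^{s² b} = -∫_a^b s² e^{s² v} dv` with `a = T^{-2}`,
`b = N^{-2}`, `|D| ≤ |s|² N^{-2} e^{1/4} e^{-(t/T)²}`; as `|s| ≤ 1+|t|`:
`|D|² ≤ C e^{-2(t/T)²} min 1 ((1+|t|)/N)` (`min(1,x²)² ≤ min(1,x)`).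
`|chi s| ≤ C` (`chi_bound` with exponent `0`), `|1/s| ≤ 2/(1+|t|)·C`. Cauchy-Schwarz over the `K`
blocks:
`∫ (1+|t|)^{1+2ε} |high|² ≤ C K ∑_k ∫ (1+|t|)^{2ε} e^{-(t/T)²} (1+|t|)^{-1} min 1 ((1+|t|)/2^k)
   e^{-(t/T)²} |dsum (blk k)|²`. `pow_gauss`: `(1+|t|)^{2ε} e^{-(t/T)²} ≤ C T^{2ε}`; `dyad_weight`
(`K = KT T`): the rest is `≤ 6 ∑_{j=k}^K 2^{-j} ∫ e^{-(t/2^j)²} |dsum (blk k)|² ≤
C ∑_j 2^{-j} (2^j + 2^k) (2^k)^η ≤ C (K+1) T^η` (`blk_mean` with `σ = 1/2`). Total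
`≤ C (K+1)³ T^{2ε+η} ≤ C T^{10ε}`.
`high_integrable`: bounded by `C_T (1+|t|)^{-1} e^{-(t/T)²}`.
-/

open Complex MeasureTheory

namespace HYM

theorem continuous_ln (c : ℝ) : Continuous (ln c) := by
  unfold ln; fun_prop

theorem ln_half_ne (t : ℝ) : ln (1 / 2) t ≠ 0 := by
  intro h
  have := congrArg Complex.re h
  rw [ln_re, Complex.zero_re] at this
  norm_num at this

theorem chi_half_continuous (F : Sel) : Continuous fun t : ℝ => F.chi (ln (1 / 2) t) := by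
  have h1 : ContinuousOn F.chi {s : ℂ | s.re < 1} := (chi_diff F).continuousOn
  refine h1.comp_continuous (continuous_ln _) fun t => ?_
  show (ln (1 / 2) t).re < 1
  rw [ln_re]; norm_num

theorem high_continuous (F : Sel) {T : ℝ} (hT : 1 ≤ T) : Continuous (F.high T) := by
  have hl := continuous_ln (1 / 2)
  unfold Sel.high
  refine ((chi_half_continuous F).div hl ln_half_ne).mul ?_
  refine continuous_finset_sum _ fun k _ => ?_
  refine ((blk_diff F k).continuous.comp hl).mul ?_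
  fun_prop

theorem norm_exp_half (t v : ℝ) :
    ‖cexp ((ln (1 / 2) t) ^ 2 * (v : ℂ))‖ = Real.exp ((1 / 4 - t ^ 2) * v) := by
  rw [Complex.norm_exp, mul_comm, Complex.re_ofReal_mul, mul_comm]
  congr 2
  simp only [pow_two, Complex.mul_re, ln_re, ln_im]
  norm_num

theorem norm_exp_half_le {t a v : ℝ} (ha : 0 ≤ a) (hav : a ≤ v) (hv : v ≤ 1) :
    ‖cexp ((ln (1 / 2) t) ^ 2 * (v : ℂ))‖ ≤ Real.exp (1 / 4) * Real.exp (-(t ^ 2 * a)) := by
  rw [norm_exp_half, ← Real.exp_add]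
  apply Real.exp_le_exp.2
  have h1 : t ^ 2 * a ≤ t ^ 2 * v := mul_le_mul_of_nonneg_left hav (sq_nonneg t)
  nlinarith

theorem norm_ln_half_sq (t : ℝ) : ‖ln (1 / 2) t‖ ^ 2 = 1 / 4 + t ^ 2 := by
  rw [← Complex.normSq_eq_norm_sq, Complex.normSq_apply, ln_re, ln_im]
  ring

theorem exp_diff_le {t a v : ℝ} (ha : 0 ≤ a) (hav : a ≤ v) (hv : v ≤ 1) :
    ‖cexp ((ln (1 / 2) t) ^ 2 * (a : ℂ)) - cexp ((ln (1 / 2) t) ^ 2 * (v : ℂ))‖ ≤
      (1 / 4 + t ^ 2) * (Real.exp (1 / 4) * Real.exp (-(t ^ 2 * a))) * v := by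
  set s := ln (1 / 2) t with hs
  have hder : ∀ x ∈ Set.Icc a v, HasDerivWithinAt (fun x : ℝ => cexp (s ^ 2 * (x : ℂ)))
      (cexp (s ^ 2 * (x : ℂ)) * s ^ 2) (Set.Icc a v) x := by
    intro x _
    have h1 : HasDerivAt (fun x : ℝ => s ^ 2 * (x : ℂ)) (s ^ 2) x := by
      have := (Complex.ofRealCLM.hasDerivAt (x := x)).const_mul (s ^ 2)
      simpa using this
    exact h1.cexp.hasDerivWithinAt
  have hbd : ∀ x ∈ Set.Icc a v, ‖cexp (s ^ 2 * (x : ℂ)) * s ^ 2‖ ≤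
      (1 / 4 + t ^ 2) * (Real.exp (1 / 4) * Real.exp (-(t ^ 2 * a))) := by
    intro x hx
    rw [norm_mul, norm_pow, hs, norm_ln_half_sq, mul_comm]
    exact mul_le_mul_of_nonneg_left (norm_exp_half_le ha hx.1 (hx.2.trans hv)) (by positivity)
  have := (convex_Icc a v).norm_image_sub_le_of_norm_hasDerivWithin_le hder hbd
    (Set.right_mem_Icc.2 hav) (Set.left_mem_Icc.2 hav)
  refine this.trans ?_
  apply mul_le_mul_of_nonneg_left _ (by positivity)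
  rw [Real.norm_eq_abs, abs_of_nonpos (by linarith)]
  linarith

theorem D_bound {T : ℝ} (hT : 1 ≤ T) {k : ℕ} (hk : (2 : ℝ) ^ k ≤ T) (t : ℝ) :
    ‖cexp ((ln (1 / 2) t) ^ 2 / (T : ℂ) ^ 2) - cexp ((ln (1 / 2) t) ^ 2 / ((2 : ℂ) ^ k) ^ 2)‖ ^ 2 ≤
      4 * Real.exp (1 / 2) * (Real.exp (-(t / T) ^ 2)) ^ 2 * min 1 ((1 + |t|) / 2 ^ k) := by
  have hT0 : 0 < T := by linarith
  have h2k : (1 : ℝ) ≤ 2 ^ k := one_le_pow₀ (by norm_num)
  set N : ℝ := 2 ^ k with hN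
  have hN0 : 0 < N := by linarith
  set a : ℝ := (T ^ 2)⁻¹ with ha
  set v : ℝ := (N ^ 2)⁻¹ with hv
  have ha0 : 0 ≤ a := by positivity
  have hav : a ≤ v := inv_anti₀ (by positivity) (pow_le_pow_left₀ hN0.le hk 2)
  have hv1 : v ≤ 1 := inv_le_one_of_one_le₀ (one_le_pow₀ h2k)
  have e1 : (ln (1 / 2) t) ^ 2 / (T : ℂ) ^ 2 = (ln (1 / 2) t) ^ 2 * (a : ℂ) := by
    rw [ha]; push_cast; rw [div_eq_mul_inv]
  have e2 : (ln (1 / 2) t) ^ 2 / ((2 : ℂ) ^ k) ^ 2 = (ln (1 / 2) t) ^ 2 * (v : ℂ) := by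
    rw [hv, hN]; push_cast; rw [div_eq_mul_inv]
  have e3 : Real.exp (-(t / T) ^ 2) = Real.exp (-(t ^ 2 * a)) := by
    rw [ha, div_pow, div_eq_mul_inv]
  rw [e1, e2, e3]
  set g := Real.exp (-(t ^ 2 * a)) with hg
  have hg0 : 0 < g := Real.exp_pos _
  set E := Real.exp (1 / 4 : ℝ) with hE
  have hE0 : 0 < E := Real.exp_pos _
  have hE2 : Real.exp (1 / 2 : ℝ) = E ^ 2 := by
    rw [hE, ← Real.exp_nat_mul]; norm_num
  rw [hE2]
  set D := ‖cexp ((ln (1 / 2) t) ^ 2 * (a : ℂ)) - cexp ((ln (1 / 2) t) ^ 2 * (v : ℂ))‖ with hD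
  have hD0 : 0 ≤ D := norm_nonneg _
  have hD1 : D ≤ 2 * (E * g) := by
    refine (norm_sub_le _ _).trans ?_
    have := norm_exp_half_le (t := t) ha0 le_rfl (hav.trans hv1)
    have := norm_exp_half_le (t := t) ha0 hav hv1
    linarith
  have hD2 : D ≤ (1 / 4 + t ^ 2) * (E * g) * v := exp_diff_le ha0 hav hv1
  have habs := abs_nonneg t
  rcases le_total 1 ((1 + |t|) / N) with h | h
  · rw [min_eq_left h]
    calc D ^ 2 ≤ (2 * (E * g)) ^ 2 := pow_le_pow_left₀ hD0 hD1 2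
      _ = _ := by ring
  · rw [min_eq_right h]
    set x := (1 + |t|) / N with hx
    have hx0 : 0 ≤ x := by positivity
    have h3 : (1 / 4 + t ^ 2) * v ≤ x ^ 2 := by
      rw [hx, hv, div_pow, div_eq_mul_inv]
      apply mul_le_mul_of_nonneg_right _ (by positivity)
      have := sq_abs t
      nlinarith
    have h4 : D ≤ (E * g) * x ^ 2 := by
      calc D ≤ (E * g) * ((1 / 4 + t ^ 2) * v) := by linarith
        _ ≤ _ := mul_le_mul_of_nonneg_left h3 (by positivity)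
    calc D ^ 2 ≤ ((E * g) * x ^ 2) ^ 2 := pow_le_pow_left₀ hD0 h4 2
      _ = (E * g) ^ 2 * x ^ 4 := by ring
      _ ≤ (E * g) ^ 2 * x := by
          apply mul_le_mul_of_nonneg_left _ (by positivity)
          calc x ^ 4 = x ^ 3 * x := by ring
            _ ≤ 1 * x := mul_le_mul_of_nonneg_right (pow_le_one₀ hx0 h) hx0
            _ = x := one_mul x
      _ ≤ 4 * ((E * g) ^ 2 * x) := by
          have : 0 ≤ (E * g) ^ 2 * x := by positivity
          linarith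
      _ = _ := by ring

theorem chi_half_bound (F : Sel) : ∃ C : ℝ, 0 < C ∧ ∀ t : ℝ,
    ‖F.chi (ln (1 / 2) t) / ln (1 / 2) t‖ ^ 2 ≤ C * ((1 + |t|)⁻¹) ^ 2 := by
  obtain ⟨C, hC, h⟩ := chi_bound F (1 / 2) (1 / 2) (by norm_num)
  refine ⟨8 * C ^ 2, by positivity, fun t => ?_⟩
  have h1 := h (1 / 2) ⟨le_rfl, le_rfl⟩ t
  rw [sub_self, mul_zero, Real.rpow_zero, mul_one] at h1
  rw [norm_div, div_pow, norm_ln_half_sq, inv_pow, ← div_eq_mul_inv,
    div_le_div_iff₀ (by positivity) (by positivity)]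
  have h2 : ‖F.chi (ln (1 / 2) t)‖ ^ 2 ≤ C ^ 2 := pow_le_pow_left₀ (norm_nonneg _) h1 2
  have h3 : (1 + |t|) ^ 2 ≤ 8 * (1 / 4 + t ^ 2) := by
    have := sq_abs t
    nlinarith [sq_nonneg (1 - |t|)]
  calc _ ≤ C ^ 2 * (8 * (1 / 4 + t ^ 2)) := by gcongr
    _ = _ := by ring

theorem high_sq_le (F : Sel) : ∃ C : ℝ, 0 < C ∧ ∀ T : ℝ, 1 ≤ T → ∀ t : ℝ,
    ‖F.high T t‖ ^ 2 ≤ C * ((1 + |t|)⁻¹) ^ 2 * (KT T * ∑ k ∈ Finset.range (KT T),
      ‖dsum (F.blk k) (ln (1 / 2) t)‖ ^ 2 *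
        ((Real.exp (-(t / T) ^ 2)) ^ 2 * min 1 ((1 + |t|) / 2 ^ k))) := by
  obtain ⟨C, hC, h⟩ := chi_half_bound F
  refine ⟨C * (4 * Real.exp (1 / 2)), by positivity, fun T hT t => ?_⟩
  unfold Sel.high
  rw [norm_mul, mul_pow]
  set S := ∑ k ∈ Finset.range (KT T), dsum (F.blk k) (ln (1 / 2) t) *
      (cexp ((ln (1 / 2) t) ^ 2 / (T : ℂ) ^ 2) - cexp ((ln (1 / 2) t) ^ 2 / ((2 : ℂ) ^ k) ^ 2))
    with hS
  have h1 : ‖S‖ ^ 2 ≤ KT T * ∑ k ∈ Finset.range (KT T), ‖dsum (F.blk k) (ln (1 / 2) t) *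
      (cexp ((ln (1 / 2) t) ^ 2 / (T : ℂ) ^ 2) -
        cexp ((ln (1 / 2) t) ^ 2 / ((2 : ℂ) ^ k) ^ 2))‖ ^ 2 := by
    calc ‖S‖ ^ 2 ≤ (∑ k ∈ Finset.range (KT T), ‖dsum (F.blk k) (ln (1 / 2) t) *
        (cexp ((ln (1 / 2) t) ^ 2 / (T : ℂ) ^ 2) -
          cexp ((ln (1 / 2) t) ^ 2 / ((2 : ℂ) ^ k) ^ 2))‖) ^ 2 :=
          pow_le_pow_left₀ (norm_nonneg _) (norm_sum_le _ _) 2
      _ ≤ _ := by
          have := sq_sum_le_card_mul_sum_sq (s := Finset.range (KT T))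
            (f := fun k => ‖dsum (F.blk k) (ln (1 / 2) t) *
              (cexp ((ln (1 / 2) t) ^ 2 / (T : ℂ) ^ 2) -
                cexp ((ln (1 / 2) t) ^ 2 / ((2 : ℂ) ^ k) ^ 2))‖)
          rwa [Finset.card_range] at this
  have h2 : ∑ k ∈ Finset.range (KT T), ‖dsum (F.blk k) (ln (1 / 2) t) *
      (cexp ((ln (1 / 2) t) ^ 2 / (T : ℂ) ^ 2) -
        cexp ((ln (1 / 2) t) ^ 2 / ((2 : ℂ) ^ k) ^ 2))‖ ^ 2 ≤
      (4 * Real.exp (1 / 2)) * ∑ k ∈ Finset.range (KT T), ‖dsum (F.blk k) (ln (1 / 2) t)‖ ^ 2 *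
        ((Real.exp (-(t / T) ^ 2)) ^ 2 * min 1 ((1 + |t|) / 2 ^ k)) := by
    rw [Finset.mul_sum]
    refine Finset.sum_le_sum fun k hk => ?_
    have hk' := (KT_spec T hT).2 k (Finset.mem_range.1 hk)
    rw [norm_mul, mul_pow]
    have := D_bound hT hk'.le t
    calc _ ≤ ‖dsum (F.blk k) (ln (1 / 2) t)‖ ^ 2 *
        (4 * Real.exp (1 / 2) * (Real.exp (-(t / T) ^ 2)) ^ 2 * min 1 ((1 + |t|) / 2 ^ k)) := by
          gcongr
      _ = _ := by ring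
  calc _ ≤ (C * ((1 + |t|)⁻¹) ^ 2) * (KT T * ((4 * Real.exp (1 / 2)) *
        ∑ k ∈ Finset.range (KT T), ‖dsum (F.blk k) (ln (1 / 2) t)‖ ^ 2 *
        ((Real.exp (-(t / T) ^ 2)) ^ 2 * min 1 ((1 + |t|) / 2 ^ k)))) := by
        apply mul_le_mul (h t) (h1.trans _) (by positivity) (by positivity)
        exact mul_le_mul_of_nonneg_left h2 (by positivity)
    _ = _ := by ring

theorem high_integrable (F : Sel) {T : ℝ} (hT : 1 ≤ T) : Integrable (F.high T) := by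
  obtain ⟨C, hC, h⟩ := high_sq_le F
  have hT0 : 0 < T := by linarith
  choose B hB hBd using fun k => blk_bound F k (1 / 2) (1 / 2)
  set A : ℝ := C * (KT T * ∑ k ∈ Finset.range (KT T), B k ^ 2) with hA
  have hA0 : 0 ≤ A := by positivity
  have hbd : ∀ t : ℝ, ‖F.high T t‖ ≤ √A * Real.exp (-(T ^ 2)⁻¹ * t ^ 2) := by
    intro t
    have h1 : ‖F.high T t‖ ^ 2 ≤ A * (Real.exp (-(t / T) ^ 2)) ^ 2 := by
      refine (h T hT t).trans ?_
      have h2 : ((1 + |t|)⁻¹) ^ 2 ≤ 1 :=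
        pow_le_one₀ (by positivity) (inv_le_one_of_one_le₀ (by linarith [abs_nonneg t]))
      have h3 : ∑ k ∈ Finset.range (KT T), ‖dsum (F.blk k) (ln (1 / 2) t)‖ ^ 2 *
          ((Real.exp (-(t / T) ^ 2)) ^ 2 * min 1 ((1 + |t|) / 2 ^ k)) ≤
          ∑ k ∈ Finset.range (KT T), B k ^ 2 * ((Real.exp (-(t / T) ^ 2)) ^ 2 * 1) := by
        refine Finset.sum_le_sum fun k _ => ?_
        have h4 := hBd k (ln (1 / 2) t) (by rw [ln_re]) (by rw [ln_re])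
        have h5 : 0 ≤ min 1 ((1 + |t|) / 2 ^ k) := le_min zero_le_one (by positivity)
        apply mul_le_mul (pow_le_pow_left₀ (norm_nonneg _) h4 2) _ (by positivity) (by positivity)
        exact mul_le_mul_of_nonneg_left (min_le_left _ _) (by positivity)
      rw [← Finset.sum_mul] at h3
      calc _ ≤ C * 1 * (KT T * ((∑ k ∈ Finset.range (KT T), B k ^ 2) *
            ((Real.exp (-(t / T) ^ 2)) ^ 2 * 1))) := by
            apply mul_le_mul _ _ _ (by positivity)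
            · exact mul_le_mul_of_nonneg_left h2 hC.le
            · exact mul_le_mul_of_nonneg_left h3 (by positivity)
            · refine mul_nonneg (by positivity) (Finset.sum_nonneg fun k _ => ?_)
              have h5 : 0 ≤ min 1 ((1 + |t|) / 2 ^ k) := le_min zero_le_one (by positivity)
              positivity
        _ = _ := by rw [hA]; ring
    have e1 : Real.exp (-(T ^ 2)⁻¹ * t ^ 2) = Real.exp (-(t / T) ^ 2) := by
      congr 1; field_simp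
    rw [e1]
    have h6 : ‖F.high T t‖ ^ 2 ≤ (√A * Real.exp (-(t / T) ^ 2)) ^ 2 := by
      rw [mul_pow, Real.sq_sqrt hA0]; exact h1
    exact le_of_sq_le_sq h6 (by positivity)
  have hint : Integrable fun t : ℝ => √A * Real.exp (-(T ^ 2)⁻¹ * t ^ 2) :=
    (integrable_exp_neg_mul_sq (by positivity)).const_mul _
  exact hint.mono' (high_continuous F hT).aestronglyMeasurable (Filter.Eventually.of_forall hbd)

theorem high_norm (F : Sel) {ε : ℝ} (hε : 0 < ε) :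
    ∃ C : ℝ, 0 < C ∧ ∀ T : ℝ, 1 ≤ T →
    Integrable (fun t : ℝ => (1 + |t|) ^ (1 + 2 * ε) * ‖F.high T t‖ ^ 2) ∧
    ∫ t : ℝ, (1 + |t|) ^ (1 + 2 * ε) * ‖F.high T t‖ ^ 2 ≤ C * T ^ (10 * ε) := by
  obtain ⟨C1, hC1, h1⟩ := high_sq_le F
  obtain ⟨C2, hC2, h2⟩ := pow_gauss (q := 2 * ε) (by positivity)
  obtain ⟨C3, hC3, h3⟩ := blk_mean F (1 / 2) ε hε
  obtain ⟨C4, hC4, h4⟩ := KT_le hε
  refine ⟨12 * C1 * C2 * C3 * C4 ^ 3, by positivity, fun T hT => ?_⟩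
  have hT0 : 0 < T := by linarith
  set K := KT T with hK
  obtain ⟨hK1, hK2⟩ := KT_spec T hT
  rw [← hK] at hK1 hK2
  have h4 := h4 T hT
  rw [← hK] at h4
  set maj : ℝ → ℝ := fun t => C1 * (K * ∑ k ∈ Finset.range K, (C2 * T ^ (2 * ε)) *
    (6 * ∑ j ∈ Finset.Icc k K, ((2 : ℝ) ^ j)⁻¹ *
      (Real.exp (-(t / 2 ^ j) ^ 2) * ‖dsum (F.blk k) (ln (1 / 2) t)‖ ^ 2))) with hmaj
  have hle : ∀ t : ℝ, (1 + |t|) ^ (1 + 2 * ε) * ‖F.high T t‖ ^ 2 ≤ maj t := by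
    intro t
    have ht : 0 < 1 + |t| := by positivity
    set g := Real.exp (-(t / T) ^ 2) with hg
    have hg0 : 0 < g := Real.exp_pos _
    have e1 : (1 + |t|) ^ (1 + 2 * ε) * ((1 + |t|)⁻¹) ^ 2 = (1 + |t|) ^ (2 * ε) * (1 + |t|)⁻¹ := by
      rw [Real.rpow_add ht, Real.rpow_one]
      field_simp
    calc (1 + |t|) ^ (1 + 2 * ε) * ‖F.high T t‖ ^ 2
        ≤ (1 + |t|) ^ (1 + 2 * ε) * (C1 * ((1 + |t|)⁻¹) ^ 2 * (K * ∑ k ∈ Finset.range K,
          ‖dsum (F.blk k) (ln (1 / 2) t)‖ ^ 2 * (g ^ 2 * min 1 ((1 + |t|) / 2 ^ k)))) :=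
          mul_le_mul_of_nonneg_left (h1 T hT t) (by positivity)
      _ = C1 * (((1 + |t|) ^ (1 + 2 * ε) * ((1 + |t|)⁻¹) ^ 2) * (K * ∑ k ∈ Finset.range K,
          ‖dsum (F.blk k) (ln (1 / 2) t)‖ ^ 2 * (g ^ 2 * min 1 ((1 + |t|) / 2 ^ k)))) := by ring
      _ = C1 * (K * ∑ k ∈ Finset.range K, ((1 + |t|) ^ (2 * ε) * g) *
          (((1 + |t|)⁻¹ * min 1 ((1 + |t|) / 2 ^ k) * g) *
            ‖dsum (F.blk k) (ln (1 / 2) t)‖ ^ 2)) := by
          rw [e1]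
          simp only [Finset.mul_sum]
          refine Finset.sum_congr rfl fun k _ => ?_
          ring
      _ ≤ maj t := by
          rw [hmaj]
          apply mul_le_mul_of_nonneg_left _ hC1.le
          apply mul_le_mul_of_nonneg_left _ (by positivity)
          refine Finset.sum_le_sum fun k hk => ?_
          have hk' : k ≤ K := (Finset.mem_range.1 hk).le
          have h5 : 0 ≤ min 1 ((1 + |t|) / 2 ^ k) := le_min zero_le_one (by positivity)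
          apply mul_le_mul (h2 T hT t) _ (by positivity) (by positivity)
          have h6 := dyad_weight hT hk' hK1 t
          calc _ ≤ (6 * ∑ j ∈ Finset.Icc k K, ((2 : ℝ) ^ j)⁻¹ * Real.exp (-(t / 2 ^ j) ^ 2)) *
                ‖dsum (F.blk k) (ln (1 / 2) t)‖ ^ 2 :=
                mul_le_mul_of_nonneg_right h6 (by positivity)
            _ = _ := by
                rw [mul_assoc, Finset.sum_mul]
                congr 1
                refine Finset.sum_congr rfl fun j _ => ?_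
                ring
  have hW : ∀ j : ℕ, (1 : ℝ) ≤ 2 ^ j := fun j => one_le_pow₀ (by norm_num)
  have hInt : ∀ k j, Integrable (fun t : ℝ => ((2 : ℝ) ^ j)⁻¹ *
      (Real.exp (-(t / 2 ^ j) ^ 2) * ‖dsum (F.blk k) (ln (1 / 2) t)‖ ^ 2)) := fun k j =>
    (h3 k (2 ^ j) (hW j)).1.const_mul _
  have hInt2 : ∀ k, Integrable (fun t : ℝ => (C2 * T ^ (2 * ε)) *
    (6 * ∑ j ∈ Finset.Icc k K, ((2 : ℝ) ^ j)⁻¹ *
      (Real.exp (-(t / 2 ^ j) ^ 2) * ‖dsum (F.blk k) (ln (1 / 2) t)‖ ^ 2))) := fun k =>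
    ((integrable_finset_sum _ fun j _ => hInt k j).const_mul _).const_mul _
  have hmajI : Integrable maj := by
    rw [hmaj]
    exact ((integrable_finset_sum _ fun k _ => hInt2 k).const_mul _).const_mul _
  have hcont : Continuous fun t : ℝ => (1 + |t|) ^ (1 + 2 * ε) * ‖F.high T t‖ ^ 2 := by
    refine Continuous.mul ?_ ((high_continuous F hT).norm.pow 2)
    refine Continuous.rpow_const (by fun_prop) fun t => Or.inl ?_
    positivity
  have hI : Integrable (fun t : ℝ => (1 + |t|) ^ (1 + 2 * ε) * ‖F.high T t‖ ^ 2) := by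
    refine hmajI.mono' hcont.aestronglyMeasurable (Filter.Eventually.of_forall fun t => ?_)
    rw [Real.norm_eq_abs, abs_of_nonneg (by positivity)]
    exact hle t
  refine ⟨hI, (integral_mono hI hmajI hle).trans ?_⟩
  rw [hmaj]
  rw [integral_const_mul, integral_const_mul, integral_finset_sum _ fun k _ => hInt2 k]
  have hk : ∀ k ∈ Finset.range K, ∫ t : ℝ, (C2 * T ^ (2 * ε)) *
      (6 * ∑ j ∈ Finset.Icc k K, ((2 : ℝ) ^ j)⁻¹ *
      (Real.exp (-(t / 2 ^ j) ^ 2) * ‖dsum (F.blk k) (ln (1 / 2) t)‖ ^ 2)) ≤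
      (C2 * T ^ (2 * ε)) * (6 * ((K + 1) * (2 * C3 * T ^ ε))) := by
    intro k hk
    have hkT := (hK2 k (Finset.mem_range.1 hk)).le
    rw [integral_const_mul, integral_const_mul, integral_finset_sum _ fun j _ => hInt k j]
    apply mul_le_mul_of_nonneg_left _ (by positivity)
    apply mul_le_mul_of_nonneg_left _ (by norm_num)
    have hj : ∀ j ∈ Finset.Icc k K, ∫ t : ℝ, ((2 : ℝ) ^ j)⁻¹ *
        (Real.exp (-(t / 2 ^ j) ^ 2) * ‖dsum (F.blk k) (ln (1 / 2) t)‖ ^ 2) ≤ 2 * C3 * T ^ ε := by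
      intro j hj
      have hkj := (Finset.mem_Icc.1 hj).1
      rw [integral_const_mul]
      have h5 := (h3 k (2 ^ j) (hW j)).2
      have h6 : (2 : ℝ) ^ k ≤ 2 ^ j := pow_le_pow_right₀ (by norm_num) hkj
      have h7 : ((2 : ℝ) ^ k) ^ (2 * (1 / 2 : ℝ) - 1 + ε) ≤ T ^ ε := by
        rw [show (2 * (1 / 2 : ℝ) - 1 + ε) = ε by ring]
        exact Real.rpow_le_rpow (by positivity) hkT hε.le
      have h2j : (0 : ℝ) < 2 ^ j := by positivity
      rw [inv_mul_le_iff₀ h2j]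
      calc _ ≤ C3 * (2 ^ j + 2 ^ k) * ((2 : ℝ) ^ k) ^ (2 * (1 / 2 : ℝ) - 1 + ε) := h5
        _ ≤ C3 * (2 ^ j + 2 ^ j) * T ^ ε := by gcongr
        _ = _ := by ring
    refine (Finset.sum_le_card_nsmul _ _ _ hj).trans ?_
    rw [nsmul_eq_mul]
    apply mul_le_mul_of_nonneg_right _ (by positivity)
    rw [Nat.card_Icc]
    have : K + 1 - k ≤ K + 1 := Nat.sub_le _ _
    exact_mod_cast this
  have hsum := Finset.sum_le_card_nsmul _ _ _ hk
  rw [Finset.card_range, nsmul_eq_mul] at hsum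
  calc _ ≤ C1 * (K * (K * ((C2 * T ^ (2 * ε)) * (6 * ((K + 1) * (2 * C3 * T ^ ε)))))) := by
        apply mul_le_mul_of_nonneg_left _ hC1.le
        exact mul_le_mul_of_nonneg_left hsum (by positivity)
    _ = 12 * C1 * C2 * C3 * (T ^ (2 * ε) * T ^ ε) * (K * K * (K + 1)) := by ring
    _ ≤ 12 * C1 * C2 * C3 * (T ^ (2 * ε) * T ^ ε) * ((K + 1) * (K + 1) * (K + 1)) := by
        have : (0 : ℝ) ≤ K := Nat.cast_nonneg K
        gcongr <;> linarith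
    _ ≤ 12 * C1 * C2 * C3 * (T ^ (2 * ε) * T ^ ε) *
        ((C4 * T ^ ε) * (C4 * T ^ ε) * (C4 * T ^ ε)) := by
        have : (0 : ℝ) ≤ K := Nat.cast_nonneg K
        gcongr
    _ = 12 * C1 * C2 * C3 * C4 ^ 3 * T ^ (6 * ε) := by
        have e1 : T ^ (6 * ε) = T ^ (2 * ε) * T ^ ε * (T ^ ε * T ^ ε * T ^ ε) := by
          rw [← Real.rpow_add hT0, ← Real.rpow_add hT0, ← Real.rpow_add hT0, ← Real.rpow_add hT0]
          congr 1; ring
        rw [e1]; ring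
    _ ≤ _ := by
        apply mul_le_mul_of_nonneg_left _ (by positivity)
        exact Real.rpow_le_rpow_of_exponent_le hT (by linarith)

end HYM
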