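import Pool.Agent.HYM.Blk
import Pool.Agent.HYM.Dyd

set_option autoImplicit false

/-!
# HYM/Low: the norms of the low part

PROOF of `low_norm`. With `s = -ε + it`: `|chi s / s| ≤ C (1+|t|)^{d(1/2+ε)-1}` (`chi_bound`;
`|s| ≥ c_ε (1+|t|)`), `|e^{s²/N²}| ≤ e^{ε²} e^{-(t/N)²}` for `N ≥ 1`. By Cauchy-Schwarz
(`|∑_{K+1 terms}|² ≤ (K+1) ∑ |·|²`)
`∫ (1+|t|)^w |low|² ≤ C (K+1) [∑_{k<K} ∫ (1+|t|)^q e^{-2(t/2^k)²} |dsum (blk k)|²
   + ∫ (1+|t|)^q e^{-2(t/T)²} |dsum (tl K)|²]`, `q = w + d - 2 + 2dε ≥ 0`. By `pow_gauss`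
`(1+|t|)^q e^{-(t/N)²} ≤ C N^q`, and by `blk_mean` (`σ = -ε`, `η = 2ε`, `W = N = 2^k`) the `k`-th term is
`≤ C N^q (2N) N^{-1} ≤ C T^q` (as `2^k < T`); the tail is `≤ C T^q` by `tl_mean` with `W = T`.
Altogether `≤ C (K+1)² T^q ≤ C T^{q+4ε}` by `KT_le` with exponent `2ε`: note `q + 4ε = w + d - 2 +
(2d+4)ε`.
`low_continuous`: each factor is continuous (`chi_diff`, `ln (-ε) t ≠ 0`, `blk_diff`, `tl_continuous`).
`low_integrable`: `|low| ≤ C_T (1+|t|)^q' e^{-(t/T)²}` since all the Dirichlet series are bounded and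
`2^k < T` (or from `low_norm`-type bounds and Cauchy-Schwarz).
-/

open Complex MeasureTheory

namespace HYM

theorem low_deg_nonneg (F : Sel) : 0 ≤ F.deg := by
  unfold Sel.deg
  have := Finset.sum_nonneg (s := Finset.univ) (fun j _ => (F.lam_pos j).le)
  linarith

theorem low_ln_ne {ε : ℝ} (hε : 0 < ε) (t : ℝ) : ln (-ε) t ≠ 0 := by
  intro h
  have h1 := congrArg Complex.re h
  rw [ln_re, Complex.zero_re] at h1
  linarith

theorem low_ln_cont (c : ℝ) : Continuous (ln c) := by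
  unfold ln
  fun_prop

theorem low_ln_lower {ε : ℝ} (hε : 0 < ε) (t : ℝ) :
    min 1 ε / 2 * (1 + |t|) ≤ ‖ln (-ε) t‖ := by
  have h1 : |-ε| ≤ ‖ln (-ε) t‖ := by
    have := abs_re_le_norm (ln (-ε) t)
    rwa [ln_re] at this
  have h2 : |t| ≤ ‖ln (-ε) t‖ := by
    have := abs_im_le_norm (ln (-ε) t)
    rwa [ln_im] at this
  rw [abs_neg, abs_of_pos hε] at h1
  have h3 : min 1 ε ≤ 1 := min_le_left _ _
  have h4 : min 1 ε ≤ ε := min_le_right _ _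
  nlinarith [mul_le_mul_of_nonneg_right h3 (abs_nonneg t)]

theorem low_pre_bound (F : Sel) {ε : ℝ} (hε : 0 < ε) : ∃ C : ℝ, 0 < C ∧ ∀ t : ℝ,
    ‖F.chi (ln (-ε) t) / ln (-ε) t‖ ≤ C * (1 + |t|) ^ (F.deg * (1 / 2 + ε) - 1) := by
  obtain ⟨C, hC, h⟩ := chi_bound F (-ε) (-ε) (by linarith)
  have hm : 0 < min 1 ε := lt_min one_pos hε
  refine ⟨C * (2 / min 1 ε), by positivity, fun t => ?_⟩
  have h1 := h (-ε) ⟨le_rfl, le_rfl⟩ t
  have ht : 0 < 1 + |t| := by linarith [abs_nonneg t]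
  have h2 : 0 < min 1 ε / 2 * (1 + |t|) := by positivity
  rw [norm_div, div_eq_mul_inv]
  refine (mul_le_mul h1 (inv_anti₀ h2 (low_ln_lower hε t)) (by positivity)
    (by positivity)).trans (le_of_eq ?_)
  rw [Real.rpow_sub ht, Real.rpow_one]
  have e1 : 1 / 2 - -ε = 1 / 2 + ε := by ring
  rw [e1]
  field_simp

theorem low_exp_norm {ε N : ℝ} (hN : 1 ≤ N) (t : ℝ) :
    ‖cexp ((ln (-ε) t) ^ 2 / (N : ℂ) ^ 2)‖ ≤ Real.exp (ε ^ 2) * Real.exp (-(t / N) ^ 2) := by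
  have hN0 : 0 < N := by linarith
  have hNc : (N : ℂ) ≠ 0 := ofReal_ne_zero.2 hN0.ne'
  have h1 : (ln (-ε) t) ^ 2 / (N : ℂ) ^ 2 =
      (((ε ^ 2 - t ^ 2) / N ^ 2 : ℝ) : ℂ) + ((-2 * ε * t / N ^ 2 : ℝ) : ℂ) * I := by
    unfold ln
    push_cast
    field_simp
    linear_combination (t : ℂ) ^ 2 * I_sq
  rw [Complex.norm_exp, h1, ← Real.exp_add]
  refine Real.exp_le_exp.2 ?_
  have h2 : ((((ε ^ 2 - t ^ 2) / N ^ 2 : ℝ) : ℂ) + ((-2 * ε * t / N ^ 2 : ℝ) : ℂ) * I).re =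
      (ε ^ 2 - t ^ 2) / N ^ 2 := by
    rw [add_re, ofReal_re, re_ofReal_mul, I_re, mul_zero, add_zero]
  rw [h2, sub_div, div_pow]
  have h3 : ε ^ 2 / N ^ 2 ≤ ε ^ 2 := div_le_self (sq_nonneg _) (one_le_pow₀ hN)
  linarith

theorem low_cs (K : ℕ) (a : ℕ → ℂ) (b : ℂ) :
    ‖(∑ k ∈ Finset.range K, a k) + b‖ ^ 2 ≤
      ((K : ℝ) + 1) * ((∑ k ∈ Finset.range K, ‖a k‖ ^ 2) + ‖b‖ ^ 2) := by
  let f : ℕ → ℝ := fun k => if k < K then ‖a k‖ else ‖b‖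
  have h1 : ∑ k ∈ Finset.range (K + 1), f k = (∑ k ∈ Finset.range K, ‖a k‖) + ‖b‖ := by
    rw [Finset.sum_range_succ]
    congr 1
    · exact Finset.sum_congr rfl fun k hk => if_pos (Finset.mem_range.1 hk)
    · exact if_neg (lt_irrefl K)
  have h2 : ∑ k ∈ Finset.range (K + 1), f k ^ 2 =
      (∑ k ∈ Finset.range K, ‖a k‖ ^ 2) + ‖b‖ ^ 2 := by
    rw [Finset.sum_range_succ]
    congr 1
    · exact Finset.sum_congr rfl fun k hk => by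
        change (if k < K then ‖a k‖ else ‖b‖) ^ 2 = _
        rw [if_pos (Finset.mem_range.1 hk)]
    · change (if K < K then ‖a K‖ else ‖b‖) ^ 2 = _
      rw [if_neg (lt_irrefl K)]
  have h3 := sq_sum_le_card_mul_sum_sq (s := Finset.range (K + 1)) (f := f)
  rw [h1, h2, Finset.card_range] at h3
  have h4 : ‖(∑ k ∈ Finset.range K, a k) + b‖ ≤ (∑ k ∈ Finset.range K, ‖a k‖) + ‖b‖ :=
    (norm_add_le _ _).trans (add_le_add (norm_sum_le _ _) le_rfl)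
  refine (pow_le_pow_left₀ (norm_nonneg _) h4 2).trans (h3.trans (le_of_eq ?_))
  push_cast
  ring

theorem low_continuous (F : Sel) {ε T : ℝ} (hε : 0 < ε) (hT : 1 ≤ T) :
    Continuous (F.low ε T) := by
  unfold Sel.low
  have hl := low_ln_cont (-ε)
  have h1 : Continuous fun t : ℝ => F.chi (ln (-ε) t) := by
    refine (chi_diff F).continuousOn.comp_continuous hl fun t => ?_
    change (ln (-ε) t).re < 1
    rw [ln_re]
    linarith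
  have h2 : ∀ k, Continuous fun t : ℝ => dsum (F.blk k) (ln (-ε) t) := fun k =>
    (blk_diff F k).continuous.comp hl
  have h3 := tl_continuous F (KT T) (c := -ε) (by linarith)
  refine (h1.div hl (low_ln_ne hε)).mul ?_
  refine Continuous.add ?_ ?_
  · refine continuous_finsetSum _ fun k _ => (h2 k).mul ?_
    exact Complex.continuous_exp.comp ((hl.pow 2).div_const _)
  · exact h3.mul (Complex.continuous_exp.comp ((hl.pow 2).div_const _))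

theorem low_norm (F : Sel) {ε w : ℝ} (hε : 0 < ε) (hw : 0 ≤ w + F.deg - 2) :
    ∃ C : ℝ, 0 < C ∧ ∀ T : ℝ, 1 ≤ T →
    Integrable (fun t : ℝ => (1 + |t|) ^ w * ‖F.low ε T t‖ ^ 2) ∧
    ∫ t : ℝ, (1 + |t|) ^ w * ‖F.low ε T t‖ ^ 2 ≤
      C * T ^ (w + F.deg - 2 + (2 * F.deg + 4) * ε) := by
  have hd := low_deg_nonneg F
  obtain ⟨C1, hC1, hpre⟩ := low_pre_bound F hε
  set q : ℝ := w + F.deg - 2 + 2 * F.deg * ε with hq
  have hq0 : 0 ≤ q := by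
    have : 0 ≤ F.deg * ε := mul_nonneg hd hε.le
    linarith
  clear_value q
  obtain ⟨Cg, hCg, hgau⟩ := pow_gauss hq0
  obtain ⟨Cb, hCb, hblk⟩ := blk_mean F (-ε) (2 * ε) (by linarith)
  obtain ⟨Ct, hCt, htl⟩ := tl_mean F hε
  obtain ⟨CK, hCK, hKT⟩ := KT_le (ε := 2 * ε) (by linarith)
  set D : ℝ := C1 ^ 2 * (Real.exp (ε ^ 2) ^ 2 * Cg) with hD
  have hD0 : 0 < D := by positivity
  refine ⟨D * (2 * Cb + Ct) * CK ^ 2, by positivity, fun T hT => ?_⟩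
  obtain ⟨hK1, hK2⟩ := KT_spec T hT
  set K := KT T with hKdef
  have hT0 : 0 < T := by linarith
  -- the comparison functions
  let φ : ℕ → ℝ → ℝ := fun k t => Real.exp (-(t / 2 ^ k) ^ 2) * ‖dsum (F.blk k) (ln (-ε) t)‖ ^ 2
  let ψ : ℝ → ℝ := fun t => Real.exp (-(t / T) ^ 2) * ‖dsum (F.tl K) (ln (-ε) t)‖ ^ 2
  have h2k : ∀ k : ℕ, (1 : ℝ) ≤ 2 ^ k := fun k => one_le_pow₀ (by norm_num)
  have hφ : ∀ k, Integrable (φ k) ∧ ∫ t, φ k t ≤ 2 * Cb := by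
    intro k
    obtain ⟨h1, h2⟩ := hblk k (2 ^ k) (h2k k)
    refine ⟨h1, h2.trans (le_of_eq ?_)⟩
    have e1 : 2 * -ε - 1 + 2 * ε = -1 := by ring
    rw [e1, Real.rpow_neg_one]
    have : ((2 : ℝ) ^ k) ≠ 0 := by positivity
    field_simp
    ring
  have hψ : Integrable ψ ∧ ∫ t, ψ t ≤ Ct := by
    exact htl K T hT (by linarith)
  let B : ℝ → ℝ := fun t => D * ((K : ℝ) + 1) *
    ((∑ k ∈ Finset.range K, T ^ q * φ k t) + T ^ q * ψ t)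
  have hsumint : Integrable fun t => ∑ k ∈ Finset.range K, T ^ q * φ k t :=
    integrable_finsetSum _ fun k _ => (hφ k).1.const_mul _
  have hB : Integrable B := (hsumint.add (hψ.1.const_mul _)).const_mul _
  have hTq : 0 < T ^ q := Real.rpow_pos_of_pos hT0 q
  have key : ∀ (N : ℝ) (t : ℝ) (z : ℂ), 1 ≤ N → N ≤ T →
      (1 + |t|) ^ q * ‖z * cexp ((ln (-ε) t) ^ 2 / (N : ℂ) ^ 2)‖ ^ 2 ≤
        (Real.exp (ε ^ 2) ^ 2 * Cg) * (T ^ q * (Real.exp (-(t / N) ^ 2) * ‖z‖ ^ 2)) := by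
    intro N t z hN hNT
    have h1 := low_exp_norm (ε := ε) hN t
    have h2 := hgau N hN t
    have h3 : N ^ q ≤ T ^ q := Real.rpow_le_rpow (by linarith) hNT hq0
    have ht : 0 ≤ (1 + |t|) ^ q := Real.rpow_nonneg (by linarith [abs_nonneg t]) _
    rw [norm_mul, mul_pow]
    have h4 : ‖cexp ((ln (-ε) t) ^ 2 / (N : ℂ) ^ 2)‖ ^ 2 ≤
        (Real.exp (ε ^ 2) * Real.exp (-(t / N) ^ 2)) ^ 2 := pow_le_pow_left₀ (norm_nonneg _) h1 2
    calc (1 + |t|) ^ q * (‖z‖ ^ 2 * ‖cexp ((ln (-ε) t) ^ 2 / (N : ℂ) ^ 2)‖ ^ 2)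
        ≤ (1 + |t|) ^ q * (‖z‖ ^ 2 * (Real.exp (ε ^ 2) * Real.exp (-(t / N) ^ 2)) ^ 2) := by
          gcongr
      _ = Real.exp (ε ^ 2) ^ 2 * ‖z‖ ^ 2 * Real.exp (-(t / N) ^ 2) *
            ((1 + |t|) ^ q * Real.exp (-(t / N) ^ 2)) := by ring
      _ ≤ Real.exp (ε ^ 2) ^ 2 * ‖z‖ ^ 2 * Real.exp (-(t / N) ^ 2) * (Cg * T ^ q) := by
          exact mul_le_mul_of_nonneg_left (h2.trans (mul_le_mul_of_nonneg_left h3 hCg.le))
            (by positivity)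
      _ = _ := by ring
  have hpt : ∀ t, (1 + |t|) ^ w * ‖F.low ε T t‖ ^ 2 ≤ B t := by
    intro t
    have ht : 0 < 1 + |t| := by linarith [abs_nonneg t]
    have h1 := hpre t
    have h2 := low_cs K (fun k => dsum (F.blk k) (ln (-ε) t) *
      cexp ((ln (-ε) t) ^ 2 / ((2 : ℂ) ^ k) ^ 2))
      (dsum (F.tl K) (ln (-ε) t) * cexp ((ln (-ε) t) ^ 2 / (T : ℂ) ^ 2))
    have h3 : (1 + |t|) ^ w * (C1 * (1 + |t|) ^ (F.deg * (1 / 2 + ε) - 1)) ^ 2 =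
        C1 ^ 2 * (1 + |t|) ^ q := by
      rw [mul_pow, ← Real.rpow_natCast ((1 + |t|) ^ (F.deg * (1 / 2 + ε) - 1)) 2,
        ← Real.rpow_mul ht.le, mul_left_comm, ← Real.rpow_add ht]
      congr 2
      rw [hq]
      push_cast
      ring
    have h4 : ∀ k ∈ Finset.range K, (1 + |t|) ^ q * ‖dsum (F.blk k) (ln (-ε) t) *
        cexp ((ln (-ε) t) ^ 2 / ((2 : ℂ) ^ k) ^ 2)‖ ^ 2 ≤
        (Real.exp (ε ^ 2) ^ 2 * Cg) * (T ^ q * φ k t) := by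
      intro k hk
      have := key (2 ^ k) t (dsum (F.blk k) (ln (-ε) t)) (h2k k) (hK2 k (Finset.mem_range.1 hk)).le
      push_cast at this
      exact this
    have h5 := key T t (dsum (F.tl K) (ln (-ε) t)) hT le_rfl
    have h6 : (1 + |t|) ^ q * ((∑ k ∈ Finset.range K, ‖dsum (F.blk k) (ln (-ε) t) *
        cexp ((ln (-ε) t) ^ 2 / ((2 : ℂ) ^ k) ^ 2)‖ ^ 2) +
        ‖dsum (F.tl K) (ln (-ε) t) * cexp ((ln (-ε) t) ^ 2 / (T : ℂ) ^ 2)‖ ^ 2) ≤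
        (Real.exp (ε ^ 2) ^ 2 * Cg) * ((∑ k ∈ Finset.range K, T ^ q * φ k t) + T ^ q * ψ t) := by
      rw [mul_add, mul_add, Finset.mul_sum, Finset.mul_sum]
      exact add_le_add (Finset.sum_le_sum h4) h5
    unfold Sel.low
    rw [norm_mul, mul_pow, ← hKdef]
    calc (1 + |t|) ^ w * (‖F.chi (ln (-ε) t) / ln (-ε) t‖ ^ 2 *
          ‖(∑ k ∈ Finset.range K, dsum (F.blk k) (ln (-ε) t) *
            cexp ((ln (-ε) t) ^ 2 / ((2 : ℂ) ^ k) ^ 2)) +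
            dsum (F.tl K) (ln (-ε) t) * cexp ((ln (-ε) t) ^ 2 / (T : ℂ) ^ 2)‖ ^ 2)
        ≤ (1 + |t|) ^ w * ((C1 * (1 + |t|) ^ (F.deg * (1 / 2 + ε) - 1)) ^ 2 *
          (((K : ℝ) + 1) * ((∑ k ∈ Finset.range K, ‖dsum (F.blk k) (ln (-ε) t) *
            cexp ((ln (-ε) t) ^ 2 / ((2 : ℂ) ^ k) ^ 2)‖ ^ 2) +
            ‖dsum (F.tl K) (ln (-ε) t) * cexp ((ln (-ε) t) ^ 2 / (T : ℂ) ^ 2)‖ ^ 2))) := by
          gcongr
      _ = ((1 + |t|) ^ w * (C1 * (1 + |t|) ^ (F.deg * (1 / 2 + ε) - 1)) ^ 2) *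
          (((K : ℝ) + 1) * ((∑ k ∈ Finset.range K, ‖dsum (F.blk k) (ln (-ε) t) *
            cexp ((ln (-ε) t) ^ 2 / ((2 : ℂ) ^ k) ^ 2)‖ ^ 2) +
            ‖dsum (F.tl K) (ln (-ε) t) * cexp ((ln (-ε) t) ^ 2 / (T : ℂ) ^ 2)‖ ^ 2)) := by
          ring
      _ = C1 ^ 2 * ((K : ℝ) + 1) * ((1 + |t|) ^ q *
          ((∑ k ∈ Finset.range K, ‖dsum (F.blk k) (ln (-ε) t) *
            cexp ((ln (-ε) t) ^ 2 / ((2 : ℂ) ^ k) ^ 2)‖ ^ 2) +
            ‖dsum (F.tl K) (ln (-ε) t) * cexp ((ln (-ε) t) ^ 2 / (T : ℂ) ^ 2)‖ ^ 2)) := by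
          rw [h3]
          ring
      _ ≤ C1 ^ 2 * ((K : ℝ) + 1) * ((Real.exp (ε ^ 2) ^ 2 * Cg) *
          ((∑ k ∈ Finset.range K, T ^ q * φ k t) + T ^ q * ψ t)) := by
          gcongr
      _ = B t := by
          change _ = D * ((K : ℝ) + 1) * _
          rw [hD]
          ring
  have hnn : ∀ t, 0 ≤ (1 + |t|) ^ w * ‖F.low ε T t‖ ^ 2 := fun t =>
    mul_nonneg (Real.rpow_nonneg (by linarith [abs_nonneg t]) _) (sq_nonneg _)
  have hcont : Continuous fun t : ℝ => (1 + |t|) ^ w * ‖F.low ε T t‖ ^ 2 := by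
    refine Continuous.mul ?_ ((low_continuous F hε hT).norm.pow 2)
    refine Continuous.rpow_const (by fun_prop) fun t => Or.inl ?_
    have := abs_nonneg t
    linarith
  have hint : Integrable (fun t : ℝ => (1 + |t|) ^ w * ‖F.low ε T t‖ ^ 2) := by
    refine hB.mono' hcont.aestronglyMeasurable (Filter.Eventually.of_forall fun t => ?_)
    rw [Real.norm_of_nonneg (hnn t)]
    exact hpt t
  refine ⟨hint, (integral_mono hint hB hpt).trans ?_⟩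
  have hBint : ∫ t, B t = D * ((K : ℝ) + 1) *
      ((∑ k ∈ Finset.range K, T ^ q * ∫ t, φ k t) + T ^ q * ∫ t, ψ t) := by
    change ∫ t, D * ((K : ℝ) + 1) * _ = _
    rw [integral_const_mul, integral_add hsumint (hψ.1.const_mul _),
      integral_finsetSum _ fun k _ => (hφ k).1.const_mul _, integral_const_mul]
    congr 2
    exact Finset.sum_congr rfl fun k _ => integral_const_mul _ _
  rw [hBint]
  have h7 : (∑ k ∈ Finset.range K, T ^ q * ∫ t, φ k t) + T ^ q * ∫ t, ψ t ≤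
      ((K : ℝ) + 1) * (T ^ q * (2 * Cb + Ct)) := by
    have h8 : ∑ k ∈ Finset.range K, T ^ q * ∫ t, φ k t ≤ (K : ℝ) * (T ^ q * (2 * Cb)) := by
      refine (Finset.sum_le_card_nsmul _ _ (T ^ q * (2 * Cb)) fun k _ =>
        mul_le_mul_of_nonneg_left (hφ k).2 hTq.le).trans (le_of_eq ?_)
      rw [Finset.card_range, nsmul_eq_mul]
    have h9 : T ^ q * ∫ t, ψ t ≤ T ^ q * Ct := mul_le_mul_of_nonneg_left hψ.2 hTq.le
    have h10 : 0 ≤ (K : ℝ) * (T ^ q * Ct) := by positivity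
    have h11 : 0 ≤ T ^ q * (2 * Cb) := by positivity
    linarith [h8, h9, h10, h11, show ((K : ℝ) + 1) * (T ^ q * (2 * Cb + Ct)) =
      (K : ℝ) * (T ^ q * (2 * Cb)) + T ^ q * Ct + (K : ℝ) * (T ^ q * Ct) + T ^ q * (2 * Cb) by ring]
  have h12 : (K : ℝ) + 1 ≤ CK * T ^ (2 * ε) := hKT T hT
  have hK0 : 0 ≤ (K : ℝ) + 1 := by positivity
  calc D * ((K : ℝ) + 1) * ((∑ k ∈ Finset.range K, T ^ q * ∫ t, φ k t) + T ^ q * ∫ t, ψ t)
      ≤ D * ((K : ℝ) + 1) * (((K : ℝ) + 1) * (T ^ q * (2 * Cb + Ct))) :=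
        mul_le_mul_of_nonneg_left h7 (by positivity)
    _ = D * (2 * Cb + Ct) * T ^ q * ((K : ℝ) + 1) ^ 2 := by ring
    _ ≤ D * (2 * Cb + Ct) * T ^ q * (CK * T ^ (2 * ε)) ^ 2 :=
        mul_le_mul_of_nonneg_left (pow_le_pow_left₀ hK0 h12 2) (by positivity)
    _ = D * (2 * Cb + Ct) * CK ^ 2 * T ^ (w + F.deg - 2 + (2 * F.deg + 4) * ε) := by
        have e2 : w + F.deg - 2 + (2 * F.deg + 4) * ε = q + 2 * ε + 2 * ε := by
          rw [hq]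
          ring
        rw [e2, Real.rpow_add hT0, Real.rpow_add hT0]
        ring

theorem low_integrable (F : Sel) {ε T : ℝ} (hε : 0 < ε) (hT : 1 ≤ T) :
    Integrable (F.low ε T) := by
  have hd := low_deg_nonneg F
  obtain ⟨C, _, h⟩ := low_norm F (w := 2) hε (by linarith)
  have h1 := (h T hT).1
  have h2 : Integrable fun t : ℝ => (1 + ‖t‖) ^ (-2 : ℝ) :=
    integrable_one_add_norm (by simp)
  refine (h1.add h2).mono' (low_continuous F hε hT).aestronglyMeasurable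
    (Filter.Eventually.of_forall fun t => ?_)
  change ‖F.low ε T t‖ ≤ (1 + |t|) ^ (2 : ℝ) * ‖F.low ε T t‖ ^ 2 + (1 + ‖t‖) ^ (-2 : ℝ)
  have ht : 0 < 1 + |t| := by linarith [abs_nonneg t]
  rw [Real.norm_eq_abs, Real.rpow_neg ht.le, Real.rpow_two]
  set X := ‖F.low ε T t‖
  set y := 1 + |t|
  have h3 : 0 ≤ (y * X - y⁻¹) ^ 2 := sq_nonneg _
  have h4 : y * y⁻¹ = 1 := mul_inv_cancel₀ ht.ne'
  have h5 : (y * X - y⁻¹) ^ 2 = y ^ 2 * X ^ 2 - 2 * X * (y * y⁻¹) + (y ^ 2)⁻¹ := by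
    rw [← inv_pow]
    ring
  rw [h5, h4] at h3
  have h6 : 0 ≤ X := norm_nonneg _
  linarith

end HYM
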