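import Pool.Agent.HYM.EVl
import Pool.Agent.HYM.Blk
import Pool.Agent.HYM.Dyd
import Pool.Agent.HYM.Low
import Pool.Agent.HYM.Hig

set_option autoImplicit false

/-!
# HYM/Dec: the decomposition of the regularised error term

PROOF. `full ε T t = chi s/s * dsum cf s * e^{s²/T²}` (`fe_left`), and by `dsum_split` (`K = KT T`)
`full = low + ∑_{k<K} (chi s/s) dsum (blk k) s (e^{s²/T²} - e^{s²/4^k})`. For each `k` the function
`H s = chi s * dsum (blk k) s * ((e^{s²/T²} - e^{s²/4^k})/s) * x^s` is differentiable for `Re s < 1`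
(at `s = 0` too: `(e^{as²} - e^{bs²})/s` equals `s ψ(s)` with `ψ` entire, and Lean's value at `0` is
`0`; e.g. it is `dslope (fun s => e^{as²} - e^{bs²}) 0` because the derivative at `0` vanishes) and
bounded by `B/(1+t²)` on `-ε ≤ Re s ≤ 1/2` (`chi_bound`, `blk_bound`, Gaussian factor; near `s = 0`
by continuity on a compact set). `shift_lines` moves it from `-ε` to `1/2`.
-/

open Complex MeasureTheory

namespace HYM

private theorem norm_gauss {W R : ℝ} (hW : 1 ≤ W) {s : ℂ} (hs : |s.re| ≤ R) :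
    ‖cexp (s ^ 2 / (W : ℂ) ^ 2)‖ ≤ Real.exp (R ^ 2) * Real.exp (-(s.im / W) ^ 2) := by
  have h0 : (s ^ 2 / (W : ℂ) ^ 2).re = (s.re ^ 2 - s.im ^ 2) / W ^ 2 := by
    have h1 : (W : ℂ) ^ 2 = ((W ^ 2 : ℝ) : ℂ) := by push_cast; rfl
    rw [h1, Complex.div_ofReal_re, pow_two, Complex.mul_re]
    ring
  rw [Complex.norm_exp, h0, ← Real.exp_add, Real.exp_le_exp]
  have hR : s.re ^ 2 ≤ R ^ 2 := sq_le_sq' (by linarith [(abs_le.1 hs).1]) (abs_le.1 hs).2
  have hW2 : 1 ≤ W ^ 2 := by nlinarith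
  have h2 : s.re ^ 2 / W ^ 2 ≤ s.re ^ 2 := div_le_self (sq_nonneg _) hW2
  have h3 : (s.re ^ 2 - s.im ^ 2) / W ^ 2 = s.re ^ 2 / W ^ 2 - (s.im / W) ^ 2 := by
    rw [div_pow]; ring
  rw [h3]
  linarith

/-- the difference of the two Gaussians -/
private noncomputable def dif (W V : ℝ) (s : ℂ) : ℂ :=
  cexp (s ^ 2 / (W : ℂ) ^ 2) - cexp (s ^ 2 / (V : ℂ) ^ 2)

private theorem dif_diff (W V : ℝ) : Differentiable ℂ (dif W V) := by
  unfold dif
  fun_prop

private theorem dif_dslope_diff (W V : ℝ) : Differentiable ℂ (dslope (dif W V) 0) := by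
  intro z
  have h1 := (Complex.differentiableOn_dslope (f := dif W V) (c := (0 : ℂ)) (s := Set.univ)
    Filter.univ_mem).2 (dif_diff W V).differentiableOn
  exact (h1 z (Set.mem_univ z)).differentiableAt Filter.univ_mem

private theorem dif_dslope_of_ne (W V : ℝ) {s : ℂ} (hs : s ≠ 0) :
    dslope (dif W V) 0 s = dif W V s / s := by
  rw [dslope_of_ne _ hs, slope_def_field, sub_zero]
  have : dif W V 0 = 0 := by simp [dif]
  rw [this, sub_zero]

private theorem dif_bound {W V R : ℝ} (hW : 1 ≤ W) (hV : 1 ≤ V) :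
    ∃ M : ℝ, 0 < M ∧ ∀ s : ℂ, |s.re| ≤ R →
      ‖dslope (dif W V) 0 s‖ ≤
        M * (Real.exp (-(s.im / W) ^ 2) + Real.exp (-(s.im / V) ^ 2)) := by
  have hK : IsCompact (Set.Icc (-R) R ×ℂ Set.Icc (-1 : ℝ) 1) :=
    isCompact_Icc.reProdIm isCompact_Icc
  obtain ⟨M0, hM0⟩ := hK.exists_bound_of_continuousOn
    ((dif_dslope_diff W V).continuous.continuousOn)
  refine ⟨|M0| * Real.exp 1 + Real.exp (R ^ 2), by positivity, fun s hs => ?_⟩
  rcases le_total |s.im| 1 with h | h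
  · have h1 := hM0 s (by
      rw [mem_reProdIm]
      exact ⟨abs_le.1 hs, abs_le.1 h⟩)
    have h2 : Real.exp (-1) ≤ Real.exp (-(s.im / W) ^ 2) := by
      rw [Real.exp_le_exp]
      have h3 : |s.im / W| ≤ 1 := by
        rw [abs_div, abs_of_pos (by linarith : 0 < W), div_le_one (by linarith)]
        linarith
      have h4 : (s.im / W) ^ 2 ≤ 1 := by
        rw [← sq_abs]
        nlinarith [abs_nonneg (s.im / W)]
      linarith
    have h5 : Real.exp 1 * Real.exp (-1) = 1 := by rw [← Real.exp_add]; simp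
    have h6 : 0 < Real.exp (-(s.im / V) ^ 2) := Real.exp_pos _
    have h7 : 0 < Real.exp (-(s.im / W) ^ 2) := Real.exp_pos _
    calc ‖dslope (dif W V) 0 s‖ ≤ |M0| := h1.trans (le_abs_self _)
      _ = |M0| * (Real.exp 1 * Real.exp (-1)) := by rw [h5, mul_one]
      _ ≤ |M0| * (Real.exp 1 * Real.exp (-(s.im / W) ^ 2)) := by gcongr
      _ = |M0| * Real.exp 1 * Real.exp (-(s.im / W) ^ 2) := by ring
      _ ≤ (|M0| * Real.exp 1 + Real.exp (R ^ 2)) *
          (Real.exp (-(s.im / W) ^ 2) + Real.exp (-(s.im / V) ^ 2)) := by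
        apply mul_le_mul
        · linarith [Real.exp_pos (R ^ 2)]
        · linarith
        · exact h7.le
        · positivity
  · have hn : 1 ≤ ‖s‖ := h.trans (Complex.abs_im_le_norm s)
    have hs0 : s ≠ 0 := by
      intro h0
      rw [h0, norm_zero] at hn
      linarith
    rw [dif_dslope_of_ne W V hs0, norm_div]
    have h1 : ‖dif W V s‖ ≤ Real.exp (R ^ 2) *
        (Real.exp (-(s.im / W) ^ 2) + Real.exp (-(s.im / V) ^ 2)) := by
      unfold dif
      refine (norm_sub_le _ _).trans ?_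
      rw [mul_add]
      exact add_le_add (norm_gauss hW hs) (norm_gauss hV hs)
    refine (div_le_self (norm_nonneg _) hn).trans (h1.trans ?_)
    apply mul_le_mul_of_nonneg_right _ (by positivity)
    have : 0 ≤ |M0| * Real.exp 1 := by positivity
    linarith

/-- the integrand of one block -/
private noncomputable def Hk (F : Sel) (T x : ℝ) (k : ℕ) (s : ℂ) : ℂ :=
  F.chi s * dsum (F.blk k) s * dslope (dif T (2 ^ k)) 0 s * (x : ℂ) ^ s

private theorem Hk_diff (F : Sel) {T x : ℝ} (hx : 0 < x) (k : ℕ) {s : ℂ} (hs : s.re < 1) :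
    DifferentiableAt ℂ (Hk F T x k) s := by
  have h1 : DifferentiableAt ℂ F.chi s :=
    (chi_diff F s hs).differentiableAt
      ((isOpen_lt Complex.continuous_re continuous_const).mem_nhds hs)
  have h2 : DifferentiableAt ℂ (dsum (F.blk k)) s := blk_diff F k s
  have h3 := dif_dslope_diff T (2 ^ k) s
  have h4 : DifferentiableAt ℂ (fun s : ℂ => (x : ℂ) ^ s) s :=
    differentiableAt_id.const_cpow (Or.inl (by exact_mod_cast hx.ne'))
  exact ((h1.mul h2).mul h3).mul h4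

private theorem deg_nonneg (F : Sel) : 0 ≤ F.deg := by
  unfold Sel.deg
  have := Finset.sum_nonneg (s := Finset.univ) fun j (_ : j ∈ Finset.univ) => (F.lam_pos j).le
  linarith

private theorem Hk_bound (F : Sel) {ε T x : ℝ} (hε : 0 < ε) (hT : 1 ≤ T) (hx : 0 < x) (k : ℕ) :
    ∃ B : ℝ, ∀ s : ℂ, -ε ≤ s.re → s.re ≤ 1 / 2 → ‖Hk F T x k s‖ ≤ B / (1 + s.im ^ 2) := by
  have hV : (1 : ℝ) ≤ 2 ^ k := one_le_pow₀ (by norm_num)
  obtain ⟨C1, hC1, h1⟩ := chi_bound F (-ε) (1 / 2) (by norm_num)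
  obtain ⟨C2, hC2, h2⟩ := blk_bound F k (-ε) (1 / 2)
  obtain ⟨M, hM, h3⟩ := dif_bound (R := ε + 1 / 2) hT hV
  have hd := deg_nonneg F
  set q : ℝ := F.deg * (1 / 2 + ε) with hq
  have hq0 : 0 ≤ q := by positivity
  obtain ⟨C4, hC4, h4⟩ := pow_gauss (q := q + 2) (by linarith)
  refine ⟨C1 * C2 * M * (C4 * T ^ (q + 2) + C4 * (2 ^ k) ^ (q + 2)) * (x ^ (-ε) + x ^ (1 / 2 : ℝ)),
    fun s hs1 hs2 => ?_⟩
  have ht : 0 < 1 + s.im ^ 2 := by positivity
  rw [le_div_iff₀ ht]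
  have hsl : s = ln s.re s.im := by
    unfold ln
    exact (Complex.re_add_im s).symm
  have ha : ‖F.chi s‖ ≤ C1 * (1 + |s.im|) ^ q := by
    have h5 := h1 s.re ⟨hs1, hs2⟩ s.im
    rw [← hsl] at h5
    refine h5.trans (mul_le_mul_of_nonneg_left ?_ hC1.le)
    apply Real.rpow_le_rpow_of_exponent_le
    · linarith [abs_nonneg s.im]
    · rw [hq]
      apply mul_le_mul_of_nonneg_left _ hd
      linarith
  have hb := h2 s hs1 hs2
  have hc := h3 s (by rw [abs_le]; constructor <;> linarith)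
  have hdx : ‖(x : ℂ) ^ s‖ ≤ x ^ (-ε) + x ^ (1 / 2 : ℝ) := by
    rw [Complex.norm_cpow_eq_rpow_re_of_pos hx]
    have e1 : 0 < x ^ (-ε) := Real.rpow_pos_of_pos hx _
    have e2 : 0 < x ^ (1 / 2 : ℝ) := Real.rpow_pos_of_pos hx _
    rcases le_total 1 x with h | h
    · have := Real.rpow_le_rpow_of_exponent_le h hs2
      linarith
    · have := Real.rpow_le_rpow_of_exponent_ge hx h hs1
      linarith
  have ht1 : 1 + s.im ^ 2 ≤ (1 + |s.im|) ^ (2 : ℝ) := by
    rw [Real.rpow_two]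
    nlinarith [abs_nonneg s.im, sq_abs s.im]
  have hp : 0 < 1 + |s.im| := by positivity
  have hpg : ∀ W : ℝ, 1 ≤ W → (1 + |s.im|) ^ q * Real.exp (-(s.im / W) ^ 2) * (1 + s.im ^ 2) ≤
      C4 * W ^ (q + 2) := by
    intro W hW
    have e1 := h4 W hW s.im
    rw [Real.rpow_add hp] at e1
    refine le_trans ?_ e1
    calc (1 + |s.im|) ^ q * Real.exp (-(s.im / W) ^ 2) * (1 + s.im ^ 2)
        ≤ (1 + |s.im|) ^ q * Real.exp (-(s.im / W) ^ 2) * (1 + |s.im|) ^ (2 : ℝ) :=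
          mul_le_mul_of_nonneg_left ht1 (by positivity)
      _ = _ := by ring
  unfold Hk
  rw [norm_mul, norm_mul, norm_mul]
  calc ‖F.chi s‖ * ‖dsum (F.blk k) s‖ * ‖dslope (dif T (2 ^ k)) 0 s‖ * ‖(x : ℂ) ^ s‖ *
        (1 + s.im ^ 2)
      ≤ (C1 * (1 + |s.im|) ^ q) * C2 *
          (M * (Real.exp (-(s.im / T) ^ 2) + Real.exp (-(s.im / 2 ^ k) ^ 2))) *
          (x ^ (-ε) + x ^ (1 / 2 : ℝ)) * (1 + s.im ^ 2) := by
        gcongr
    _ = C1 * C2 * M * ((1 + |s.im|) ^ q * Real.exp (-(s.im / T) ^ 2) * (1 + s.im ^ 2) +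
          (1 + |s.im|) ^ q * Real.exp (-(s.im / 2 ^ k) ^ 2) * (1 + s.im ^ 2)) *
          (x ^ (-ε) + x ^ (1 / 2 : ℝ)) := by ring
    _ ≤ _ := by
        have e1 := hpg T hT
        have e2 := hpg (2 ^ k) hV
        have e3 : 0 < x ^ (-ε) := Real.rpow_pos_of_pos hx _
        have e4 : 0 < x ^ (1 / 2 : ℝ) := Real.rpow_pos_of_pos hx _
        gcongr

private theorem Hk_line {F : Sel} {T x c : ℝ} {k : ℕ} (hc : c ≠ 0) (t : ℝ) :
    Hk F T x k (ln c t) = F.chi (ln c t) / ln c t * (dsum (F.blk k) (ln c t) *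
      (cexp ((ln c t) ^ 2 / (T : ℂ) ^ 2) - cexp ((ln c t) ^ 2 / ((2 : ℂ) ^ k) ^ 2))) *
      (x : ℂ) ^ (ln c t) := by
  have h0 : ln c t ≠ 0 := by
    intro h
    have := congrArg Complex.re h
    rw [ln_re, Complex.zero_re] at this
    exact hc this
  unfold Hk
  rw [dif_dslope_of_ne T (2 ^ k) h0]
  unfold dif
  push_cast
  field_simp

private theorem Hk_integrable (F : Sel) {ε T x c : ℝ} (hε : 0 < ε) (hT : 1 ≤ T) (hx : 0 < x)
    (k : ℕ) (h1 : -ε ≤ c) (h2 : c ≤ 1 / 2) : Integrable (fun t : ℝ => Hk F T x k (ln c t)) := by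
  obtain ⟨B, hB⟩ := Hk_bound F hε hT hx k
  have hcont : Continuous (fun t : ℝ => Hk F T x k (ln c t)) := by
    rw [continuous_iff_continuousAt]
    intro t
    have h3 : ContinuousAt (Hk F T x k) (ln c t) :=
      (Hk_diff F hx k (by rw [ln_re]; linarith)).continuousAt
    have h4 : Continuous (fun t : ℝ => ln c t) := by
      unfold ln
      fun_prop
    exact ContinuousAt.comp (f := fun t : ℝ => ln c t) h3 h4.continuousAt
  have hint : Integrable (fun t : ℝ => B * (1 + t ^ 2)⁻¹) := integrable_inv_one_add_sq.const_mul B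
  refine hint.mono' hcont.aestronglyMeasurable ?_
  filter_upwards with t
  have h := hB (ln c t) (by rw [ln_re]; exact h1) (by rw [ln_re]; exact h2)
  rw [ln_im] at h
  exact h

theorem full_dec (F : Sel) {ε T x : ℝ} (hε : 0 < ε) (hT : 1 ≤ T) (hx : 0 < x) :
    vint (-ε) (F.full ε T) x = vint (-ε) (F.low ε T) x + vint (1 / 2) (F.high T) x := by
  have hlow : Integrable (fun t : ℝ => F.low ε T t * (x : ℂ) ^ (ln (-ε) t)) := by
    have h1 := low_integrable F hε hT
    have h2 : Continuous (fun t : ℝ => (x : ℂ) ^ (ln (-ε) t)) := by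
      have h4 : Continuous (fun t : ℝ => ln (-ε) t) := by
        unfold ln
        fun_prop
      exact h4.const_cpow (Or.inl (by exact_mod_cast hx.ne'))
    refine (h1.norm.mul_const (x ^ (-ε))).mono'
      (h1.aestronglyMeasurable.mul h2.aestronglyMeasurable) ?_
    filter_upwards with t
    rw [norm_mul, Complex.norm_cpow_eq_rpow_re_of_pos hx, ln_re]
  have hpt : ∀ t : ℝ, F.full ε T t * (x : ℂ) ^ (ln (-ε) t) =
      F.low ε T t * (x : ℂ) ^ (ln (-ε) t) +
        ∑ k ∈ Finset.range (KT T), Hk F T x k (ln (-ε) t) := by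
    intro t
    have h1 : (ln (-ε) t).re < 0 := by rw [ln_re]; linarith
    have h2 : ∑ k ∈ Finset.range (KT T), Hk F T x k (ln (-ε) t) =
        F.chi (ln (-ε) t) / ln (-ε) t * (∑ k ∈ Finset.range (KT T), dsum (F.blk k) (ln (-ε) t) *
          (cexp ((ln (-ε) t) ^ 2 / (T : ℂ) ^ 2) - cexp ((ln (-ε) t) ^ 2 / ((2 : ℂ) ^ k) ^ 2))) *
          (x : ℂ) ^ (ln (-ε) t) := by
      rw [Finset.mul_sum, Finset.sum_mul]
      exact Finset.sum_congr rfl fun k _ => Hk_line (by linarith) t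
    rw [h2]
    have h3 : ∑ k ∈ Finset.range (KT T), dsum (F.blk k) (ln (-ε) t) *
          (cexp ((ln (-ε) t) ^ 2 / (T : ℂ) ^ 2) - cexp ((ln (-ε) t) ^ 2 / ((2 : ℂ) ^ k) ^ 2)) =
        (∑ k ∈ Finset.range (KT T), dsum (F.blk k) (ln (-ε) t)) *
          cexp ((ln (-ε) t) ^ 2 / (T : ℂ) ^ 2) -
        ∑ k ∈ Finset.range (KT T), dsum (F.blk k) (ln (-ε) t) *
          cexp ((ln (-ε) t) ^ 2 / ((2 : ℂ) ^ k) ^ 2) := by
      rw [Finset.sum_mul, ← Finset.sum_sub_distrib]
      exact Finset.sum_congr rfl fun k _ => by ring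
    rw [h3]
    unfold Sel.full Sel.low
    rw [fe_left F _ h1, dsum_split F (KT T) h1]
    ring
  have hpt2 : ∀ t : ℝ, F.high T t * (x : ℂ) ^ (ln (1 / 2) t) =
        ∑ k ∈ Finset.range (KT T), Hk F T x k (ln (1 / 2) t) := by
    intro t
    unfold Sel.high
    rw [Finset.mul_sum, Finset.sum_mul]
    exact Finset.sum_congr rfl fun k _ => (Hk_line (by norm_num) t).symm
  unfold vint
  rw [← mul_add]
  congr 1
  simp_rw [hpt, hpt2]
  rw [integral_add hlow (integrable_finsetSum _ fun k _ =>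
    Hk_integrable F hε hT hx k le_rfl (by linarith)), integral_finsetSum _ fun k _ =>
    Hk_integrable F hε hT hx k le_rfl (by linarith), integral_finsetSum _ fun k _ =>
    Hk_integrable F hε hT hx k (by linarith) le_rfl]
  congr 1
  refine Finset.sum_congr rfl fun k _ => ?_
  obtain ⟨B, hB⟩ := Hk_bound F hε hT hx k
  exact shift_lines (by linarith) (fun s _ h2 => Hk_diff F hx k (by linarith)) hB

theorem EV_dec (F : Sel) {ε T x : ℝ} (hε : 0 < ε) (hε2 : ε ≤ 1 / 2) (hT : 1 ≤ T) (hx : 0 < x) :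
    F.EV T x = F.L 0 + (vint (-ε) (F.low ε T) x + vint (1 / 2) (F.high T) x) := by
  rw [EV_left F hε hε2 (by linarith) hx, full_dec F hε hT hx]

end HYM
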