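import Pool.Agent.HYM.Fe
import Pool.Agent.HYM.Dyd

set_option autoImplicit false

/-!
# HYM/Ful: the whole integrand on the line `Re s = -ε`, degree at most 2

PROOF. `L s = chi s * dsum cf s` (`fe_left`), `dsum cf` is bounded on the line (`dsum_cf_summable`),
`|chi s| ≤ C (1+|t|)^{d(1/2+ε)} ≤ C (1+|t|)^{1+2ε}` (`chi_bound`, `d ≤ 2`), `|s| ≥ c (1+|t|)`,
`|e^{s²/T²}| ≤ e^{ε²} e^{-(t/T)²}`. So `|full| ≤ C (1+|t|)^{2ε} e^{-(t/T)²}` and the weighted integral is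
at most `C ∫ (1+|t|)^{-1+6ε} e^{-(t/T)²} dt ≤ C T^{6ε}` (`int_weight`).
-/

open Complex MeasureTheory

namespace HYM

theorem ful_exp (ε T t : ℝ) (hT : 1 ≤ T) :
    ‖cexp ((ln (-ε) t) ^ 2 / (T : ℂ) ^ 2)‖ ≤ Real.exp (ε ^ 2) * Real.exp (-(t / T) ^ 2) := by
  rw [Complex.norm_exp, ← Real.exp_add, Real.exp_le_exp]
  have h1 : ((ln (-ε) t) ^ 2 / (T : ℂ) ^ 2).re = (ε ^ 2 - t ^ 2) / T ^ 2 := by
    have e : (ln (-ε) t) ^ 2 / (T : ℂ) ^ 2 =
        (((ε ^ 2 - t ^ 2) / T ^ 2 : ℝ) : ℂ) + ((-2 * ε * t / T ^ 2 : ℝ) : ℂ) * I := by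
      have hI : I ^ 2 = -1 := Complex.I_sq
      unfold ln
      push_cast
      linear_combination ((t : ℂ) ^ 2 / (T : ℂ) ^ 2) * hI
    rw [e, Complex.add_re, Complex.re_ofReal_mul, Complex.I_re, Complex.ofReal_re]
    ring
  rw [h1, sub_div, div_pow]
  have h2 : ε ^ 2 / T ^ 2 ≤ ε ^ 2 := by
    apply div_le_self (sq_nonneg ε)
    nlinarith
  linarith

theorem ful_dist (ε t : ℝ) (hε : 0 < ε) : min ε 1 / 2 * (1 + |t|) ≤ ‖ln (-ε) t‖ := by
  have h1 : |(ln (-ε) t).re| ≤ ‖ln (-ε) t‖ := Complex.abs_re_le_norm _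
  have h2 : |(ln (-ε) t).im| ≤ ‖ln (-ε) t‖ := Complex.abs_im_le_norm _
  rw [ln_re, abs_neg, abs_of_pos hε] at h1
  rw [ln_im] at h2
  have h3 : min ε 1 ≤ ε := min_le_left _ _
  have h4 : min ε 1 ≤ 1 := min_le_right _ _
  have h5 := abs_nonneg t
  nlinarith

/-- the bound in general degree -/
theorem full_bound_gen (F : Sel) {ε : ℝ} (hε : 0 < ε) :
    ∃ C : ℝ, 0 < C ∧ ∀ T : ℝ, 1 ≤ T → ∀ t : ℝ,
      ‖F.full ε T t‖ ≤ C * (1 + |t|) ^ (F.deg * (1 / 2 + ε) - 1) *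
        Real.exp (-(t / T) ^ 2) := by
  obtain ⟨C₁, hC₁, hchi⟩ := chi_bound F (-ε) (-ε) (by linarith)
  have hsum := dsum_cf_summable F ((-ε : ℝ) : ℂ) (by simpa using hε)
  set M : ℝ := ∑' n : ℕ, ‖F.cf n * (n : ℂ) ^ (((-ε : ℝ) : ℂ) - 1)‖ with hM
  have hM0 : 0 ≤ M := tsum_nonneg fun n => norm_nonneg _
  have hc : 0 < min ε 1 / 2 := by positivity
  refine ⟨C₁ * (M + 1) * (min ε 1 / 2)⁻¹ * Real.exp (ε ^ 2), by positivity, ?_⟩
  intro T hT t
  have hx : 0 < 1 + |t| := by linarith [abs_nonneg t]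
  have hre : (ln (-ε) t).re < 0 := by rw [ln_re]; linarith
  have h1 : ‖F.chi (ln (-ε) t)‖ ≤ C₁ * (1 + |t|) ^ (F.deg * (1 / 2 + ε)) := by
    have := hchi (-ε) ⟨le_refl _, le_refl _⟩ t
    rwa [show (1 / 2 - -ε) = 1 / 2 + ε by ring] at this
  have h2 : ‖dsum F.cf (ln (-ε) t)‖ ≤ M + 1 := by
    have e : ∀ n : ℕ, ‖F.cf n * (n : ℂ) ^ (ln (-ε) t - 1)‖ =
        ‖F.cf n * (n : ℂ) ^ (((-ε : ℝ) : ℂ) - 1)‖ := by
      intro n
      rcases Nat.eq_zero_or_pos n with rfl | hn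
      · simp [Sel.cf]
      · rw [norm_mul, norm_mul, Complex.norm_natCast_cpow_of_pos hn,
          Complex.norm_natCast_cpow_of_pos hn]
        simp [ln]
    have hs' : Summable fun n : ℕ => ‖F.cf n * (n : ℂ) ^ (ln (-ε) t - 1)‖ := by
      simpa only [e] using hsum
    unfold dsum
    refine (norm_tsum_le_tsum_norm hs').trans ?_
    rw [tsum_congr e, ← hM]
    linarith
  have h3 := ful_dist ε t hε
  have h4 := ful_exp ε T t hT
  have h5 : F.L (ln (-ε) t) = F.chi (ln (-ε) t) * dsum F.cf (ln (-ε) t) := fe_left F _ hre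
  have hs0 : 0 < ‖ln (-ε) t‖ := lt_of_lt_of_le (by positivity) h3
  unfold Sel.full
  rw [h5, norm_mul, norm_div, norm_mul]
  have h6 : ‖F.chi (ln (-ε) t)‖ * ‖dsum F.cf (ln (-ε) t)‖ / ‖ln (-ε) t‖ ≤
      C₁ * (1 + |t|) ^ (F.deg * (1 / 2 + ε)) * (M + 1) / (min ε 1 / 2 * (1 + |t|)) := by
    apply div_le_div₀ (by positivity) _ (by positivity) h3
    exact mul_le_mul h1 h2 (norm_nonneg _) (by positivity)
  have h7 : C₁ * (1 + |t|) ^ (F.deg * (1 / 2 + ε)) * (M + 1) / (min ε 1 / 2 * (1 + |t|)) =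
      C₁ * (M + 1) * (min ε 1 / 2)⁻¹ * (1 + |t|) ^ (F.deg * (1 / 2 + ε) - 1) := by
    rw [Real.rpow_sub_one hx.ne']
    field_simp
  calc _ ≤ (C₁ * (M + 1) * (min ε 1 / 2)⁻¹ * (1 + |t|) ^ (F.deg * (1 / 2 + ε) - 1)) *
        (Real.exp (ε ^ 2) * Real.exp (-(t / T) ^ 2)) := by
        apply mul_le_mul (h6.trans h7.le) h4 (norm_nonneg _) (by positivity)
    _ = _ := by ring

theorem full_bound (F : Sel) {ε : ℝ} (hε : 0 < ε) (hdeg : F.deg ≤ 2) :
    ∃ C : ℝ, 0 < C ∧ ∀ T : ℝ, 1 ≤ T → ∀ t : ℝ,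
      ‖F.full ε T t‖ ≤ C * (1 + |t|) ^ (2 * ε) * Real.exp (-(t / T) ^ 2) := by
  obtain ⟨C, hC, h⟩ := full_bound_gen F hε
  refine ⟨C, hC, fun T hT t => (h T hT t).trans ?_⟩
  apply mul_le_mul_of_nonneg_right _ (Real.exp_pos _).le
  apply mul_le_mul_of_nonneg_left _ hC.le
  apply Real.rpow_le_rpow_of_exponent_le (by linarith [abs_nonneg t])
  nlinarith

theorem full_continuous (F : Sel) {ε T : ℝ} (hε : 0 < ε) : Continuous (F.full ε T) := by
  have hln : Continuous (fun t : ℝ => ln (-ε) t) := by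
    unfold ln
    fun_prop
  have hne0 : ∀ t : ℝ, ln (-ε) t ≠ 0 := by
    intro t h
    have := congrArg Complex.re h
    rw [ln_re] at this
    simp at this
    linarith
  have hne1 : ∀ t : ℝ, (ln (-ε) t - 1) ^ F.m ≠ 0 := by
    intro t
    apply pow_ne_zero
    intro h
    have := congrArg Complex.re h
    rw [Complex.sub_re, ln_re] at this
    simp at this
    linarith
  unfold Sel.full Sel.L
  apply Continuous.mul
  · apply Continuous.div _ hln hne0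
    apply Continuous.div _ _ hne1
    · exact F.P_diff.continuous.comp hln
    · exact (hln.sub continuous_const).pow _
  · exact Complex.continuous_exp.comp ((hln.pow 2).div_const _)

theorem ful_deg_nonneg (F : Sel) : 0 ≤ F.deg := by
  unfold Sel.deg
  have : 0 ≤ ∑ j, F.lam j := Finset.sum_nonneg fun j _ => (F.lam_pos j).le
  linarith

theorem full_integrable (F : Sel) {ε T : ℝ} (hε : 0 < ε) (hT : 1 ≤ T) :
    Integrable (F.full ε T) := by
  obtain ⟨C, hC, h⟩ := full_bound_gen F hε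
  have hq : 0 < F.deg * (1 / 2 + ε) + 1 := by
    have := ful_deg_nonneg F
    positivity
  obtain ⟨C', hC', h'⟩ := int_weight hq
  have hint := (h' T hT).1.const_mul C
  refine hint.mono' (full_continuous F hε).aestronglyMeasurable ?_
  filter_upwards with t
  refine (h T hT t).trans ?_
  rw [mul_assoc]
  apply mul_le_mul_of_nonneg_left _ hC.le
  apply mul_le_mul_of_nonneg_right _ (Real.exp_pos _).le
  apply Real.rpow_le_rpow_of_exponent_le (by linarith [abs_nonneg t])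
  linarith

theorem full_norm (F : Sel) {ε : ℝ} (hε : 0 < ε) (hdeg : F.deg ≤ 2) :
    ∃ C : ℝ, 0 < C ∧ ∀ T : ℝ, 1 ≤ T →
    Integrable (fun t : ℝ => (1 + |t|) ^ (-1 + 2 * ε) * ‖F.full ε T t‖ ^ 2) ∧
    ∫ t : ℝ, (1 + |t|) ^ (-1 + 2 * ε) * ‖F.full ε T t‖ ^ 2 ≤ C * T ^ (10 * ε) := by
  obtain ⟨C, hC, h⟩ := full_bound F hε hdeg
  obtain ⟨C', hC', h'⟩ := int_weight (q := 6 * ε) (by positivity)
  refine ⟨C ^ 2 * C', by positivity, ?_⟩
  intro T hT
  obtain ⟨hi, hb⟩ := h' T hT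
  have hpt : ∀ t : ℝ, (1 + |t|) ^ (-1 + 2 * ε) * ‖F.full ε T t‖ ^ 2 ≤
      C ^ 2 * ((1 + |t|) ^ (-1 + 6 * ε) * Real.exp (-(t / T) ^ 2)) := by
    intro t
    have hx : 0 < 1 + |t| := by linarith [abs_nonneg t]
    have h1 := h T hT t
    have h2 : ‖F.full ε T t‖ ^ 2 ≤
        (C * (1 + |t|) ^ (2 * ε) * Real.exp (-(t / T) ^ 2)) ^ 2 :=
      pow_le_pow_left₀ (norm_nonneg _) h1 2
    have h3 : Real.exp (-(t / T) ^ 2) ≤ 1 := by
      rw [Real.exp_le_one_iff]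
      nlinarith [sq_nonneg (t / T)]
    have h4 : 0 < Real.exp (-(t / T) ^ 2) := Real.exp_pos _
    have h5 : (1 + |t|) ^ (-1 + 6 * ε) =
        (1 + |t|) ^ (-1 + 2 * ε) * ((1 + |t|) ^ (2 * ε)) ^ 2 := by
      rw [← Real.rpow_natCast, ← Real.rpow_mul hx.le, ← Real.rpow_add hx]
      congr 1
      push_cast
      ring
    calc (1 + |t|) ^ (-1 + 2 * ε) * ‖F.full ε T t‖ ^ 2
        ≤ (1 + |t|) ^ (-1 + 2 * ε) *
          (C * (1 + |t|) ^ (2 * ε) * Real.exp (-(t / T) ^ 2)) ^ 2 :=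
          mul_le_mul_of_nonneg_left h2 (by positivity)
      _ = C ^ 2 * ((1 + |t|) ^ (-1 + 2 * ε) * ((1 + |t|) ^ (2 * ε)) ^ 2 *
          (Real.exp (-(t / T) ^ 2)) ^ 2) := by ring
      _ ≤ C ^ 2 * ((1 + |t|) ^ (-1 + 2 * ε) * ((1 + |t|) ^ (2 * ε)) ^ 2 *
          Real.exp (-(t / T) ^ 2)) := by
          apply mul_le_mul_of_nonneg_left _ (by positivity)
          apply mul_le_mul_of_nonneg_left _ (by positivity)
          nlinarith
      _ = _ := by rw [h5]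
  have hcont : Continuous (fun t : ℝ => (1 + |t|) ^ (-1 + 2 * ε) * ‖F.full ε T t‖ ^ 2) := by
    apply Continuous.mul
    · apply Continuous.rpow_const (by fun_prop)
      intro t
      left
      have := abs_nonneg t
      positivity
    · exact (full_continuous F hε).norm.pow 2
  have hint : Integrable (fun t : ℝ => (1 + |t|) ^ (-1 + 2 * ε) * ‖F.full ε T t‖ ^ 2) := by
    refine (hi.const_mul (C ^ 2)).mono' hcont.aestronglyMeasurable ?_
    filter_upwards with t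
    rw [Real.norm_eq_abs, abs_of_nonneg (by positivity)]
    exact hpt t
  refine ⟨hint, ?_⟩
  calc ∫ t : ℝ, (1 + |t|) ^ (-1 + 2 * ε) * ‖F.full ε T t‖ ^ 2
      ≤ ∫ t : ℝ, C ^ 2 * ((1 + |t|) ^ (-1 + 6 * ε) * Real.exp (-(t / T) ^ 2)) :=
        integral_mono hint (hi.const_mul _) hpt
    _ = C ^ 2 * ∫ t : ℝ, ((1 + |t|) ^ (-1 + 6 * ε) * Real.exp (-(t / T) ^ 2)) := by
        rw [integral_const_mul]
    _ ≤ C ^ 2 * (C' * T ^ (6 * ε)) := mul_le_mul_of_nonneg_left hb (by positivity)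
    _ ≤ C ^ 2 * (C' * T ^ (10 * ε)) := by
        apply mul_le_mul_of_nonneg_left _ (by positivity)
        apply mul_le_mul_of_nonneg_left _ hC'.le
        exact Real.rpow_le_rpow_of_exponent_le hT (by linarith)
    _ = _ := by ring

end HYM
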