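import Pool.Agent.HYM.Bil

set_option autoImplicit false

/-!
# HYM/Ker: the bilinear inequality

PROOF of `kernel_pt`. Write `a = 1+|t₁|`, `b = 1+|t₂|`, `u = 1+|t₁+t₂|`; `b ≤ a+u`, `a ≤ b+u`. Claim (for
`p ∈ [-1/2, 1/2]`, `δ > 0`): `a^{-p-δ} b^{p-δ}/u ≤ C (u^{-1-2δ} + a^{-1/2-δ} b^{-1/2-δ})`.
Since `(b/a)^p ≤ max ((b/a)^{1/2}, (a/b)^{1/2})` and the right side is symmetric it is enough to treat
`p = 1/2`: `a^{-1/2-δ} b^{1/2-δ}/u`. If `u ≥ b/2` this is at most `2 a^{-1/2-δ} b^{-1/2-δ}`. If `u < b/2`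
then `a ≥ b - u > b/2`, so it is at most `2^{1/2+δ} b^{-2δ}/u ≤ 2^{1/2+δ} u^{-1-2δ}` (as `b > 2u ≥ u`).
PROOF of `bilin_ker`. Schur test: with `H₁ = a^{p+δ} h₁`, `H₂ = b^{-p+δ} h₂` the integrand is at most
`C H₁ H₂ (u^{-1-2δ} + a^{-1/2-δ} b^{-1/2-δ})
  ≤ C/2 (L H₁² (φ(s+t) + φ(t)) + L⁻¹ H₂² (φ(s+t) + φ(s)))`, `φ(v) = (1+|v|)^{-1-2δ}`, for all `L > 0`.
-/

open Complex MeasureTheory

namespace HYM

/-- The main case of `kernel_pt`. -/
theorem kernel_core {δ a b u : ℝ} (hδ : 0 < δ) (ha : 1 ≤ a) (hb : 1 ≤ b) (hu : 1 ≤ u)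
    (hab : b ≤ a + u) :
    a ^ (-(1 / 2 : ℝ) - δ) * b ^ ((1 / 2 : ℝ) - δ) * u⁻¹ ≤
      (2 * (2 : ℝ) ^ ((1 / 2 : ℝ) + δ)) *
        (u ^ (-1 - 2 * δ) + a ^ (-(1 / 2 : ℝ) - δ) * b ^ (-(1 / 2 : ℝ) - δ)) := by
  have ha0 : 0 < a := by linarith
  have hb0 : 0 < b := by linarith
  have hu0 : 0 < u := by linarith
  have h2 : (1 : ℝ) ≤ (2 : ℝ) ^ ((1 / 2 : ℝ) + δ) := Real.one_le_rpow (by norm_num) (by linarith)
  rcases le_or_gt (b / 2) u with h | h
  · have h1 : u⁻¹ ≤ 2 * b⁻¹ := by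
      rw [inv_le_comm₀ hu0 (by positivity)]
      have : (2 * b⁻¹)⁻¹ = b / 2 := by field_simp
      rw [this]
      exact h
    have h3 : b ^ ((1 / 2 : ℝ) - δ) * b⁻¹ = b ^ (-(1 / 2 : ℝ) - δ) := by
      rw [← Real.rpow_neg_one b, ← Real.rpow_add hb0]
      congr 1
      ring
    calc a ^ (-(1 / 2 : ℝ) - δ) * b ^ ((1 / 2 : ℝ) - δ) * u⁻¹
        ≤ a ^ (-(1 / 2 : ℝ) - δ) * b ^ ((1 / 2 : ℝ) - δ) * (2 * b⁻¹) :=
          mul_le_mul_of_nonneg_left h1 (by positivity)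
      _ = 2 * 1 * (a ^ (-(1 / 2 : ℝ) - δ) * b ^ (-(1 / 2 : ℝ) - δ)) := by rw [← h3]; ring
      _ ≤ 2 * (2 : ℝ) ^ ((1 / 2 : ℝ) + δ) * (a ^ (-(1 / 2 : ℝ) - δ) * b ^ (-(1 / 2 : ℝ) - δ)) := by
          apply mul_le_mul_of_nonneg_right _ (by positivity)
          linarith
      _ ≤ _ := by
          apply mul_le_mul_of_nonneg_left _ (by positivity)
          have : 0 < u ^ (-1 - 2 * δ) := by positivity
          linarith
  · have hab2 : b / 2 ≤ a := by linarith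
    have h1 : a ^ (-(1 / 2 : ℝ) - δ) ≤ (2 : ℝ) ^ ((1 / 2 : ℝ) + δ) * b ^ (-(1 / 2 : ℝ) - δ) := by
      calc a ^ (-(1 / 2 : ℝ) - δ) ≤ (b / 2) ^ (-(1 / 2 : ℝ) - δ) :=
            Real.rpow_le_rpow_of_nonpos (by positivity) hab2 (by linarith)
        _ = (2 : ℝ) ^ ((1 / 2 : ℝ) + δ) * b ^ (-(1 / 2 : ℝ) - δ) := by
            rw [Real.div_rpow hb0.le (by norm_num), div_eq_mul_inv, ← Real.rpow_neg (by norm_num),
              mul_comm]
            congr 2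
            ring
    have h3 : b ^ (-(1 / 2 : ℝ) - δ) * b ^ ((1 / 2 : ℝ) - δ) = b ^ (-(2 * δ)) := by
      rw [← Real.rpow_add hb0]
      congr 1
      ring
    have h4 : b ^ (-(2 * δ)) ≤ u ^ (-(2 * δ)) :=
      Real.rpow_le_rpow_of_nonpos hu0 (by linarith) (by linarith)
    have h5 : u ^ (-(2 * δ)) * u⁻¹ = u ^ (-1 - 2 * δ) := by
      rw [← Real.rpow_neg_one u, ← Real.rpow_add hu0]
      congr 1
      ring
    calc a ^ (-(1 / 2 : ℝ) - δ) * b ^ ((1 / 2 : ℝ) - δ) * u⁻¹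
        ≤ ((2 : ℝ) ^ ((1 / 2 : ℝ) + δ) * b ^ (-(1 / 2 : ℝ) - δ)) * b ^ ((1 / 2 : ℝ) - δ) * u⁻¹ := by
          apply mul_le_mul_of_nonneg_right _ (by positivity)
          exact mul_le_mul_of_nonneg_right h1 (by positivity)
      _ = (2 : ℝ) ^ ((1 / 2 : ℝ) + δ) * (b ^ (-(2 * δ)) * u⁻¹) := by rw [← h3]; ring
      _ ≤ (2 : ℝ) ^ ((1 / 2 : ℝ) + δ) * (u ^ (-(2 * δ)) * u⁻¹) := by
          apply mul_le_mul_of_nonneg_left _ (by positivity)
          exact mul_le_mul_of_nonneg_right h4 (by positivity)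
      _ = (2 : ℝ) ^ ((1 / 2 : ℝ) + δ) * u ^ (-1 - 2 * δ) := by rw [h5]
      _ ≤ (2 * (2 : ℝ) ^ ((1 / 2 : ℝ) + δ)) * u ^ (-1 - 2 * δ) := by
          apply mul_le_mul_of_nonneg_right _ (by positivity)
          linarith
      _ ≤ _ := by
          apply mul_le_mul_of_nonneg_left _ (by positivity)
          have : 0 < a ^ (-(1 / 2 : ℝ) - δ) * b ^ (-(1 / 2 : ℝ) - δ) := by positivity
          linarith

/-- monotonicity in the exponent -/
theorem exp_interp {p a b : ℝ} (hp : |p| ≤ 1 / 2) (ha : 0 < a) (hb : 0 < b) :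
    a ^ (-p) * b ^ p ≤ a ^ (-(1 / 2 : ℝ)) * b ^ (1 / 2 : ℝ) + b ^ (-(1 / 2 : ℝ)) * a ^ (1 / 2 : ℝ) := by
  have hp' := abs_le.mp hp
  have hk : ∀ x y : ℝ, 0 < x → 0 < y → ∀ q : ℝ, x ^ (-q) * y ^ q = (y / x) ^ q := by
    intro x y hx hy q
    rw [Real.div_rpow hy.le hx.le, Real.rpow_neg hx.le, div_eq_mul_inv, mul_comm]
  rcases le_total a b with h | h
  · have h1 : (1 : ℝ) ≤ b / a := (one_le_div ha).mpr h
    have h2 : (b / a) ^ p ≤ (b / a) ^ (1 / 2 : ℝ) := Real.rpow_le_rpow_of_exponent_le h1 hp'.2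
    rw [← hk a b ha hb, ← hk a b ha hb] at h2
    have h3 : 0 < b ^ (-(1 / 2 : ℝ)) * a ^ (1 / 2 : ℝ) := by positivity
    linarith
  · have h1 : (1 : ℝ) ≤ a / b := (one_le_div hb).mpr h
    have h2 : (a / b) ^ (-p) ≤ (a / b) ^ (1 / 2 : ℝ) :=
      Real.rpow_le_rpow_of_exponent_le h1 (by linarith)
    rw [← hk b a hb ha, ← hk b a hb ha, neg_neg] at h2
    have h3 : 0 < a ^ (-(1 / 2 : ℝ)) * b ^ (1 / 2 : ℝ) := by positivity
    linarith [mul_comm (b ^ p) (a ^ (-p))]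

theorem kernel_pt {p δ : ℝ} (hp : |p| ≤ 1 / 2) (hδ : 0 < δ) :
    ∃ C : ℝ, 0 < C ∧ ∀ t₁ t₂ : ℝ, (1 + |t₁|) ^ (-p - δ) * (1 + |t₂|) ^ (p - δ) *
      (1 + |t₁ + t₂|)⁻¹ ≤
      C * ((1 + |t₁ + t₂|) ^ (-1 - 2 * δ) +
        (1 + |t₁|) ^ (-(1 / 2) - δ) * (1 + |t₂|) ^ (-(1 / 2) - δ)) := by
  refine ⟨2 * (2 * (2 : ℝ) ^ ((1 / 2 : ℝ) + δ)), by positivity, fun t₁ t₂ => ?_⟩
  have e1 : |t₂| ≤ |t₁| + |t₁ + t₂| := by
    calc |t₂| = |(t₁ + t₂) + (-t₁)| := by congr 1; ring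
      _ ≤ |t₁ + t₂| + |-t₁| := abs_add_le _ _
      _ = |t₁| + |t₁ + t₂| := by rw [abs_neg]; ring
  have e2 : |t₁| ≤ |t₂| + |t₁ + t₂| := by
    calc |t₁| = |(t₁ + t₂) + (-t₂)| := by congr 1; ring
      _ ≤ |t₁ + t₂| + |-t₂| := abs_add_le _ _
      _ = |t₂| + |t₁ + t₂| := by rw [abs_neg]; ring
  have ha : 1 ≤ 1 + |t₁| := by linarith [abs_nonneg t₁]
  have hb : 1 ≤ 1 + |t₂| := by linarith [abs_nonneg t₂]
  have hu : 1 ≤ 1 + |t₁ + t₂| := by linarith [abs_nonneg (t₁ + t₂)]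
  have hab : 1 + |t₂| ≤ (1 + |t₁|) + (1 + |t₁ + t₂|) := by linarith
  have hba : 1 + |t₁| ≤ (1 + |t₂|) + (1 + |t₁ + t₂|) := by linarith
  clear e1 e2
  revert ha hb hu hab hba
  generalize 1 + |t₁| = a
  generalize 1 + |t₂| = b
  generalize 1 + |t₁ + t₂| = u
  intro ha hb hu hab hba
  have ha0 : 0 < a := by linarith
  have hb0 : 0 < b := by linarith
  have hu0 : 0 < u := by linarith
  have k1 := kernel_core hδ ha hb hu hab
  have k2 := kernel_core hδ hb ha hu hba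
  have hi := exp_interp hp ha0 hb0
  have f1 : a ^ (-p - δ) = a ^ (-p) * a ^ (-δ) := by
    rw [← Real.rpow_add ha0]; congr 1
  have f2 : b ^ (p - δ) = b ^ p * b ^ (-δ) := by
    rw [← Real.rpow_add hb0]; congr 1
  have f3 : a ^ (-(1 / 2 : ℝ) - δ) = a ^ (-(1 / 2 : ℝ)) * a ^ (-δ) := by
    rw [← Real.rpow_add ha0]; congr 1
  have f4 : b ^ (-(1 / 2 : ℝ) - δ) = b ^ (-(1 / 2 : ℝ)) * b ^ (-δ) := by
    rw [← Real.rpow_add hb0]; congr 1
  have f5 : a ^ ((1 / 2 : ℝ) - δ) = a ^ (1 / 2 : ℝ) * a ^ (-δ) := by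
    rw [← Real.rpow_add ha0]; congr 1
  have f6 : b ^ ((1 / 2 : ℝ) - δ) = b ^ (1 / 2 : ℝ) * b ^ (-δ) := by
    rw [← Real.rpow_add hb0]; congr 1
  calc a ^ (-p - δ) * b ^ (p - δ) * u⁻¹
      = (a ^ (-p) * b ^ p) * (a ^ (-δ) * b ^ (-δ) * u⁻¹) := by rw [f1, f2]; ring
    _ ≤ (a ^ (-(1 / 2 : ℝ)) * b ^ (1 / 2 : ℝ) + b ^ (-(1 / 2 : ℝ)) * a ^ (1 / 2 : ℝ)) *
        (a ^ (-δ) * b ^ (-δ) * u⁻¹) := mul_le_mul_of_nonneg_right hi (by positivity)
    _ = a ^ (-(1 / 2 : ℝ) - δ) * b ^ ((1 / 2 : ℝ) - δ) * u⁻¹ +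
        b ^ (-(1 / 2 : ℝ) - δ) * a ^ ((1 / 2 : ℝ) - δ) * u⁻¹ := by rw [f3, f4, f5, f6]; ring
    _ ≤ _ := by
        refine (add_le_add k1 k2).trans (le_of_eq ?_)
        ring

/-- real iterated integrals are bounded by iterated lower integrals -/
theorem int_le_of_lint (F : ℝ → ℝ → ℝ) (hF : ∀ s t, 0 ≤ F s t) {B : ℝ} (hB : 0 ≤ B)
    (h : ∫⁻ s, ∫⁻ t, ENNReal.ofReal (F s t) ≤ ENNReal.ofReal B) : ∫ s, ∫ t, F s t ≤ B := by
  by_cases hi : Integrable (fun s => ∫ t, F s t)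
  · have h1 : ENNReal.ofReal (∫ s, ∫ t, F s t) ≤ ENNReal.ofReal B := by
      rw [ofReal_integral_eq_lintegral_ofReal hi
        (Filter.Eventually.of_forall fun s => integral_nonneg fun t => hF s t)]
      refine (lintegral_mono fun s => ?_).trans h
      by_cases hs : Integrable (F s)
      · rw [ofReal_integral_eq_lintegral_ofReal hs (Filter.Eventually.of_forall fun t => hF s t)]
      · rw [integral_undef hs]
        simp
    exact (ENNReal.ofReal_le_ofReal_iff hB).mp h1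
  · rw [integral_undef hi]
    exact hB

theorem phi_integrable {δ : ℝ} (hδ : 0 < δ) : Integrable (fun v : ℝ => (1 + |v|) ^ (-1 - 2 * δ)) := by
  have h := integrable_one_add_norm (E := ℝ) (μ := volume) (r := 1 + 2 * δ) (by simp; linarith)
  refine h.congr (Filter.Eventually.of_forall fun v => ?_)
  simp only [Real.norm_eq_abs]
  congr 1
  ring

/-- the final optimisation -/
theorem opt_sqrt {K A B I : ℝ} (hK : 0 ≤ K) (hA : 0 ≤ A) (hB : 0 ≤ B)
    (h : ∀ L : ℝ, 0 < L → I ≤ K * (L * A + L⁻¹ * B)) : I ≤ 2 * K * √A * √B := by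
  have h1 : ∀ η : ℝ, 0 < η → I ≤ 2 * K * (√A + η) * (√B + η) := by
    intro η hη
    have hA1 : 0 < √A + η := by positivity
    have hB1 : 0 < √B + η := by positivity
    refine (h ((√B + η) / (√A + η)) (by positivity)).trans ?_
    have e1 : (√B + η) / (√A + η) * A ≤ (√A + η) * (√B + η) := by
      rw [div_mul_eq_mul_div, div_le_iff₀ hA1]
      have : A ≤ (√A + η) * (√A + η) := by
        nlinarith [Real.mul_self_sqrt hA, Real.sqrt_nonneg A]
      nlinarith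
    have e2 : ((√B + η) / (√A + η))⁻¹ * B ≤ (√A + η) * (√B + η) := by
      rw [inv_div, div_mul_eq_mul_div, div_le_iff₀ hB1]
      have : B ≤ (√B + η) * (√B + η) := by
        nlinarith [Real.mul_self_sqrt hB, Real.sqrt_nonneg B]
      nlinarith
    calc K * ((√B + η) / (√A + η) * A + ((√B + η) / (√A + η))⁻¹ * B)
        ≤ K * ((√A + η) * (√B + η) + (√A + η) * (√B + η)) :=
          mul_le_mul_of_nonneg_left (add_le_add e1 e2) hK
      _ = 2 * K * (√A + η) * (√B + η) := by ring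
  have hc : Filter.Tendsto (fun η : ℝ => 2 * K * (√A + η) * (√B + η)) (nhdsWithin 0 (Set.Ioi 0))
      (nhds (2 * K * (√A + 0) * (√B + 0))) := by
    apply Filter.Tendsto.mono_left _ nhdsWithin_le_nhds
    apply Continuous.tendsto
    fun_prop
  rw [add_zero, add_zero] at hc
  refine ge_of_tendsto hc ?_
  filter_upwards [self_mem_nhdsWithin] with η hη
  exact h1 η hη

theorem bilin_ker {p δ : ℝ} (hp : |p| ≤ 1 / 2) (hδ : 0 < δ) :
    ∃ C : ℝ, 0 < C ∧ ∀ h₁ h₂ : ℝ → ℝ, (∀ t, 0 ≤ h₁ t) → (∀ t, 0 ≤ h₂ t) →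
    Integrable h₁ → Integrable h₂ →
    Integrable (fun t : ℝ => (1 + |t|) ^ (2 * p + 2 * δ) * h₁ t ^ 2) →
    Integrable (fun t : ℝ => (1 + |t|) ^ (-(2 * p) + 2 * δ) * h₂ t ^ 2) →
    ∫ t₁ : ℝ, ∫ t₂ : ℝ, h₁ t₁ * h₂ t₂ * (1 + |t₁ + t₂|)⁻¹ ≤
      C * √(∫ t : ℝ, (1 + |t|) ^ (2 * p + 2 * δ) * h₁ t ^ 2) *
        √(∫ t : ℝ, (1 + |t|) ^ (-(2 * p) + 2 * δ) * h₂ t ^ 2) := by
  obtain ⟨C, hC0, hC⟩ := kernel_pt hp hδ
  set Φ : ℝ := ∫ v : ℝ, (1 + |v|) ^ (-1 - 2 * δ) with hΦ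
  have hφi := phi_integrable hδ
  have hφ0 : ∀ v : ℝ, 0 < (1 + |v|) ^ (-1 - 2 * δ) := fun v => by positivity
  have hΦ0 : 0 ≤ Φ := integral_nonneg fun v => (hφ0 v).le
  refine ⟨2 * (C * Φ) + 1, by positivity, ?_⟩
  intro h₁ h₂ p₁ p₂ i₁ i₂ j₁ j₂
  set A : ℝ := ∫ t : ℝ, (1 + |t|) ^ (2 * p + 2 * δ) * h₁ t ^ 2 with hA
  set B : ℝ := ∫ t : ℝ, (1 + |t|) ^ (-(2 * p) + 2 * δ) * h₂ t ^ 2 with hB
  have hA0 : 0 ≤ A := integral_nonneg fun t => by positivity
  have hB0 : 0 ≤ B := integral_nonneg fun t => by positivity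
  have hmain : ∀ L : ℝ, 0 < L →
      ∫ t₁ : ℝ, ∫ t₂ : ℝ, h₁ t₁ * h₂ t₂ * (1 + |t₁ + t₂|)⁻¹ ≤ (C * Φ) * (L * A + L⁻¹ * B) := by
    intro L hL
    apply int_le_of_lint _ (fun s t => by have := p₁ s; have := p₂ t; positivity) (by positivity)
    -- pointwise
    set H₁ : ℝ → ℝ := fun s => (1 + |s|) ^ (2 * p + 2 * δ) * h₁ s ^ 2 with hH₁
    set H₂ : ℝ → ℝ := fun t => (1 + |t|) ^ (-(2 * p) + 2 * δ) * h₂ t ^ 2 with hH₂
    set φ : ℝ → ℝ := fun v => (1 + |v|) ^ (-1 - 2 * δ) with hφ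
    have hpt : ∀ s t : ℝ, h₁ s * h₂ t * (1 + |s + t|)⁻¹ ≤
        (C / 2 * L) * H₁ s * (φ (s + t) + φ t) + (C / 2 * L⁻¹) * H₂ t * (φ (s + t) + φ s) := by
      intro s t
      have ha : 0 < 1 + |s| := by positivity
      have hb : 0 < 1 + |t| := by positivity
      have hu : 0 < 1 + |s + t| := by positivity
      have h1 := hC s t
      set x : ℝ := (1 + |s|) ^ (p + δ) * h₁ s with hx
      set y : ℝ := (1 + |t|) ^ (-p + δ) * h₂ t with hy
      have hx0 : 0 ≤ x := by have := p₁ s; positivity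
      have hy0 : 0 ≤ y := by have := p₂ t; positivity
      have hxx : x ^ 2 = H₁ s := by
        rw [hx, mul_pow, hH₁]
        simp only
        congr 1
        rw [← Real.rpow_natCast, ← Real.rpow_mul ha.le]
        congr 1
        push_cast
        ring
      have hyy : y ^ 2 = H₂ t := by
        rw [hy, mul_pow, hH₂]
        simp only
        congr 1
        rw [← Real.rpow_natCast, ← Real.rpow_mul hb.le]
        congr 1
        push_cast
        ring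
      have e1 : h₁ s = (1 + |s|) ^ (-p - δ) * x := by
        rw [hx, ← mul_assoc, ← Real.rpow_add ha]
        have : -p - δ + (p + δ) = 0 := by ring
        rw [this, Real.rpow_zero, one_mul]
      have e2 : h₂ t = (1 + |t|) ^ (p - δ) * y := by
        rw [hy, ← mul_assoc, ← Real.rpow_add hb]
        have : p - δ + (-p + δ) = 0 := by ring
        rw [this, Real.rpow_zero, one_mul]
      have h2 : h₁ s * h₂ t * (1 + |s + t|)⁻¹ ≤
          C * (x * y * φ (s + t) + x * y *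
            ((1 + |s|) ^ (-(1 / 2 : ℝ) - δ) * (1 + |t|) ^ (-(1 / 2 : ℝ) - δ))) := by
        calc h₁ s * h₂ t * (1 + |s + t|)⁻¹
            = (x * y) * ((1 + |s|) ^ (-p - δ) * (1 + |t|) ^ (p - δ) * (1 + |s + t|)⁻¹) := by
              rw [e1, e2]; ring
          _ ≤ (x * y) * (C * ((1 + |s + t|) ^ (-1 - 2 * δ) +
              (1 + |s|) ^ (-(1 / 2 : ℝ) - δ) * (1 + |t|) ^ (-(1 / 2 : ℝ) - δ))) :=
              mul_le_mul_of_nonneg_left h1 (by positivity)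
          _ = _ := by rw [hφ]; ring
      refine h2.trans ?_
      have h3 : x * y * φ (s + t) ≤ (L * x ^ 2 + L⁻¹ * y ^ 2) / 2 * φ (s + t) := by
        apply mul_le_mul_of_nonneg_right _ (hφ0 _).le
        have hLL : L * L⁻¹ = 1 := mul_inv_cancel₀ hL.ne'
        have hs : 0 ≤ L⁻¹ * (L * x - y) ^ 2 := by positivity
        have : L⁻¹ * (L * x - y) ^ 2 = (L * L⁻¹) * L * x ^ 2 - 2 * (L * L⁻¹) * (x * y) + L⁻¹ * y ^ 2 := by
          ring
        rw [this, hLL] at hs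
        linarith
      set α : ℝ := (1 + |s|) ^ (-(1 / 2 : ℝ) - δ) with hα
      set β : ℝ := (1 + |t|) ^ (-(1 / 2 : ℝ) - δ) with hβ
      have hαα : α ^ 2 = φ s := by
        rw [hα, hφ, ← Real.rpow_natCast, ← Real.rpow_mul ha.le]
        congr 1
        push_cast
        ring
      have hββ : β ^ 2 = φ t := by
        rw [hβ, hφ, ← Real.rpow_natCast, ← Real.rpow_mul hb.le]
        congr 1
        push_cast
        ring
      have h4 : x * y * (α * β) ≤ (L * (x * β) ^ 2 + L⁻¹ * (y * α) ^ 2) / 2 := by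
        have hLL : L * L⁻¹ = 1 := mul_inv_cancel₀ hL.ne'
        have hs : 0 ≤ L⁻¹ * (L * (x * β) - y * α) ^ 2 := by positivity
        have : L⁻¹ * (L * (x * β) - y * α) ^ 2 = (L * L⁻¹) * L * (x * β) ^ 2 -
            2 * (L * L⁻¹) * (x * y * (α * β)) + L⁻¹ * (y * α) ^ 2 := by
          ring
        rw [this, hLL] at hs
        linarith
      calc C * (x * y * φ (s + t) + x * y * (α * β))
          ≤ C * ((L * x ^ 2 + L⁻¹ * y ^ 2) / 2 * φ (s + t) +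
              (L * (x * β) ^ 2 + L⁻¹ * (y * α) ^ 2) / 2) :=
            mul_le_mul_of_nonneg_left (add_le_add h3 h4) hC0.le
        _ = (C / 2 * L) * x ^ 2 * (φ (s + t) + β ^ 2) +
            (C / 2 * L⁻¹) * y ^ 2 * (φ (s + t) + α ^ 2) := by ring
        _ = _ := by rw [hxx, hyy, hαα, hββ]
    have hH₁0 : ∀ s, 0 ≤ H₁ s := fun s => by simp only [hH₁]; positivity
    have hH₂0 : ∀ s, 0 ≤ H₂ s := fun s => by simp only [hH₂]; positivity
    have hφc : Continuous φ := by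
      rw [hφ]
      apply Continuous.rpow_const
      · fun_prop
      · intro v
        left
        positivity
    have hsh : ∀ s : ℝ, ∫⁻ t, ENNReal.ofReal (φ (s + t) + φ t) = ENNReal.ofReal (2 * Φ) := by
      intro s
      have : Integrable (fun t => φ (s + t) + φ t) := (hφi.comp_add_left s).add hφi
      rw [← ofReal_integral_eq_lintegral_ofReal this
        (Filter.Eventually.of_forall fun t => add_nonneg (hφ0 _).le (hφ0 _).le)]
      rw [integral_add (hφi.comp_add_left s) hφi, integral_add_left_eq_self φ s]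
      rw [two_mul]
    have hsh2 : ∀ t : ℝ, ∫⁻ s, ENNReal.ofReal (φ (s + t) + φ s) = ENNReal.ofReal (2 * Φ) := by
      intro t
      rw [← hsh t]
      apply lintegral_congr
      intro s
      rw [add_comm s t]
    have hm₁ : AEMeasurable (fun s => ENNReal.ofReal (H₁ s)) :=
      j₁.aestronglyMeasurable.aemeasurable.ennreal_ofReal
    have hm₂ : AEMeasurable (fun s => ENNReal.ofReal (H₂ s)) :=
      j₂.aestronglyMeasurable.aemeasurable.ennreal_ofReal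
    calc ∫⁻ s, ∫⁻ t, ENNReal.ofReal (h₁ s * h₂ t * (1 + |s + t|)⁻¹)
        ≤ ∫⁻ s, ∫⁻ t, (ENNReal.ofReal (C / 2 * L) * ENNReal.ofReal (H₁ s) *
            ENNReal.ofReal (φ (s + t) + φ t) +
            ENNReal.ofReal (C / 2 * L⁻¹) * ENNReal.ofReal (H₂ t) *
            ENNReal.ofReal (φ (s + t) + φ s)) := by
          apply lintegral_mono
          intro s
          apply lintegral_mono
          intro t
          simp only
          rw [← ENNReal.ofReal_mul (by positivity), ← ENNReal.ofReal_mul (by have := hH₁0 s; positivity),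
            ← ENNReal.ofReal_mul (by positivity), ← ENNReal.ofReal_mul (by have := hH₂0 t; positivity),
            ← ENNReal.ofReal_add (by have := hH₁0 s; have := hφ0 (s + t); have := hφ0 t; positivity)
              (by have := hH₂0 t; have := hφ0 (s + t); have := hφ0 s; positivity)]
          exact ENNReal.ofReal_le_ofReal (hpt s t)
      _ = ∫⁻ s, (∫⁻ t, ENNReal.ofReal (C / 2 * L) * ENNReal.ofReal (H₁ s) *
            ENNReal.ofReal (φ (s + t) + φ t)) +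
            ∫⁻ t, ENNReal.ofReal (C / 2 * L⁻¹) * ENNReal.ofReal (H₂ t) *
            ENNReal.ofReal (φ (s + t) + φ s) := by
          apply lintegral_congr
          intro s
          apply lintegral_add_left
          have a1 : Measurable (fun a : ℝ => ENNReal.ofReal (φ (s + a) + φ a)) :=
            ((hφc.comp (continuous_const.add continuous_id)).add hφc).measurable.ennreal_ofReal
          exact a1.const_mul _
      _ = ∫⁻ s, (ENNReal.ofReal (C / 2 * L) * ENNReal.ofReal (H₁ s) * ENNReal.ofReal (2 * Φ)) +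
            ∫⁻ t, ENNReal.ofReal (C / 2 * L⁻¹) * ENNReal.ofReal (H₂ t) *
            ENNReal.ofReal (φ (s + t) + φ s) := by
          apply lintegral_congr
          intro s
          congr 1
          rw [lintegral_const_mul' _ _ (by finiteness), hsh s]
      _ = (∫⁻ s, ENNReal.ofReal (C / 2 * L) * ENNReal.ofReal (H₁ s) * ENNReal.ofReal (2 * Φ)) +
            ∫⁻ s, ∫⁻ t, ENNReal.ofReal (C / 2 * L⁻¹) * ENNReal.ofReal (H₂ t) *
            ENNReal.ofReal (φ (s + t) + φ s) := by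
          apply lintegral_add_left'
          exact (hm₁.const_mul _).mul_const _
      _ = (∫⁻ s, ENNReal.ofReal (C / 2 * L) * ENNReal.ofReal (H₁ s) * ENNReal.ofReal (2 * Φ)) +
            ∫⁻ t, ∫⁻ s, ENNReal.ofReal (C / 2 * L⁻¹) * ENNReal.ofReal (H₂ t) *
            ENNReal.ofReal (φ (s + t) + φ s) := by
          congr 1
          apply lintegral_lintegral_swap
          have a1 : AEMeasurable (fun z : ℝ × ℝ => ENNReal.ofReal (C / 2 * L⁻¹) *
              ENNReal.ofReal (H₂ z.2)) ((volume : Measure ℝ).prod volume) :=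
            (hm₂.comp_snd).const_mul _
          have a2 : AEMeasurable (fun z : ℝ × ℝ => ENNReal.ofReal (φ (z.1 + z.2) + φ z.1))
              ((volume : Measure ℝ).prod volume) :=
            ((hφc.comp (continuous_fst.add continuous_snd)).add
              (hφc.comp continuous_fst)).measurable.ennreal_ofReal.aemeasurable
          exact a1.mul a2
      _ = (∫⁻ s, ENNReal.ofReal (C / 2 * L) * ENNReal.ofReal (H₁ s) * ENNReal.ofReal (2 * Φ)) +
            ∫⁻ t, ENNReal.ofReal (C / 2 * L⁻¹) * ENNReal.ofReal (H₂ t) * ENNReal.ofReal (2 * Φ) := by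
          congr 1
          apply lintegral_congr
          intro t
          rw [lintegral_const_mul' _ _ (by finiteness), hsh2 t]
      _ = ENNReal.ofReal ((C * Φ) * (L * A + L⁻¹ * B)) := by
          rw [lintegral_mul_const' _ _ (by finiteness), lintegral_mul_const' _ _ (by finiteness),
            lintegral_const_mul' _ _ (by finiteness), lintegral_const_mul' _ _ (by finiteness),
            ← ofReal_integral_eq_lintegral_ofReal j₁ (Filter.Eventually.of_forall hH₁0),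
            ← ofReal_integral_eq_lintegral_ofReal j₂ (Filter.Eventually.of_forall hH₂0)]
          rw [← ENNReal.ofReal_mul (by positivity), ← ENNReal.ofReal_mul (by positivity),
            ← ENNReal.ofReal_mul (by positivity), ← ENNReal.ofReal_mul (by positivity),
            ← ENNReal.ofReal_add (by positivity) (by positivity)]
          congr 1
          rw [← hA, ← hB]
          ring
  refine (opt_sqrt (by positivity) hA0 hB0 hmain).trans ?_
  apply mul_le_mul_of_nonneg_right _ (Real.sqrt_nonneg _)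
  apply mul_le_mul_of_nonneg_right _ (Real.sqrt_nonneg _)
  linarith

theorem bilin {c₁ c₂ p δ : ℝ} (hc : 0 < 1 + c₁ + c₂) (hp : |p| ≤ 1 / 2) (hδ : 0 < δ) :
    ∃ C : ℝ, 0 < C ∧ ∀ T : ℝ, 0 < T → ∀ Lam₁ Lam₂ : ℝ → ℂ, Integrable Lam₁ → Integrable Lam₂ →
    Integrable (fun t : ℝ => (1 + |t|) ^ (2 * p + 2 * δ) * ‖Lam₁ t‖ ^ 2) →
    Integrable (fun t : ℝ => (1 + |t|) ^ (-(2 * p) + 2 * δ) * ‖Lam₂ t‖ ^ 2) →
    ‖∫ x in (0 : ℝ)..T, vint c₁ Lam₁ x * vint c₂ Lam₂ x‖ ≤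
      C * T ^ (1 + c₁ + c₂) * √(∫ t : ℝ, (1 + |t|) ^ (2 * p + 2 * δ) * ‖Lam₁ t‖ ^ 2) *
        √(∫ t : ℝ, (1 + |t|) ^ (-(2 * p) + 2 * δ) * ‖Lam₂ t‖ ^ 2) := by
  obtain ⟨C1, hC1, h1⟩ := vint_mul_bound hc
  obtain ⟨C2, hC2, h2⟩ := bilin_ker hp hδ
  refine ⟨C1 * C2, by positivity, ?_⟩
  intro T hT L1 L2 i1 i2 j1 j2
  refine (h1 T hT L1 L2 i1 i2).trans ?_
  have := h2 (fun t => ‖L1 t‖) (fun t => ‖L2 t‖) (fun t => norm_nonneg _) (fun t => norm_nonneg _)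
    i1.norm i2.norm j1 j2
  calc C1 * T ^ (1 + c₁ + c₂) * ∫ t₁ : ℝ, ∫ t₂ : ℝ, ‖L1 t₁‖ * ‖L2 t₂‖ * (1 + |t₁ + t₂|)⁻¹
      ≤ C1 * T ^ (1 + c₁ + c₂) * (C2 * √(∫ t : ℝ, (1 + |t|) ^ (2 * p + 2 * δ) * ‖L1 t‖ ^ 2) *
        √(∫ t : ℝ, (1 + |t|) ^ (-(2 * p) + 2 * δ) * ‖L2 t‖ ^ 2)) :=
        mul_le_mul_of_nonneg_left this (by positivity)
    _ = _ := by ring

theorem vint_sq {c δ : ℝ} (hc : 0 < 1 + 2 * c) (hδ : 0 < δ) :
    ∃ C : ℝ, 0 < C ∧ ∀ T : ℝ, 0 < T → ∀ Lam : ℝ → ℂ, Integrable Lam →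
    Integrable (fun t : ℝ => (1 + |t|) ^ (2 * δ) * ‖Lam t‖ ^ 2) →
    ∫ x in (0 : ℝ)..T, ‖vint c Lam x‖ ^ 2 ≤
      C * T ^ (1 + 2 * c) * ∫ t : ℝ, (1 + |t|) ^ (2 * δ) * ‖Lam t‖ ^ 2 := by
  have hc' : 0 < 1 + c + c := by linarith
  obtain ⟨C, hC0, hC⟩ := bilin (c₁ := c) (c₂ := c) (p := 0) hc' (by norm_num) hδ
  refine ⟨C, hC0, ?_⟩
  intro T hT Lam hi hj
  set Lam' : ℝ → ℂ := fun t => (starRingEnd ℂ) (Lam (-t)) with hLam'
  have hn : ∀ t, ‖Lam' t‖ = ‖Lam (-t)‖ := fun t => by rw [hLam']; simp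
  have hi' : Integrable Lam' := by
    have h := hi.comp_neg
    exact (Complex.conjCLE.toContinuousLinearMap.integrable_comp h)
  have hj2 : Integrable (fun t : ℝ => (1 + |t|) ^ (2 * δ) * ‖Lam' t‖ ^ 2) := by
    have h := hj.comp_neg
    refine h.congr (Filter.Eventually.of_forall fun t => ?_)
    simp only [hn, abs_neg]
  have hint : ∫ t : ℝ, (1 + |t|) ^ (2 * δ) * ‖Lam' t‖ ^ 2 =
      ∫ t : ℝ, (1 + |t|) ^ (2 * δ) * ‖Lam t‖ ^ 2 := by
    rw [← integral_neg_eq_self (fun t : ℝ => (1 + |t|) ^ (2 * δ) * ‖Lam t‖ ^ 2)]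
    apply integral_congr_ae
    refine Filter.Eventually.of_forall fun t => ?_
    simp only [hn, abs_neg]
  have e1 : (2 : ℝ) * 0 + 2 * δ = 2 * δ := by ring
  have e2 : -((2 : ℝ) * 0) + 2 * δ = 2 * δ := by ring
  have h := hC T hT Lam Lam' hi hi' (by rw [e1]; exact hj) (by rw [e2]; exact hj2)
  rw [e1, e2, hint] at h
  set M : ℝ := ∫ t : ℝ, (1 + |t|) ^ (2 * δ) * ‖Lam t‖ ^ 2 with hM
  have hM0 : 0 ≤ M := integral_nonneg fun t => by positivity
  have e3 : (1 : ℝ) + c + c = 1 + 2 * c := by ring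
  rw [e3, mul_assoc (C * T ^ (1 + 2 * c)), Real.mul_self_sqrt hM0] at h
  refine le_trans ?_ h
  have h5 : ∫ x in (0 : ℝ)..T, vint c Lam x * vint c Lam' x =
      ((∫ x in (0 : ℝ)..T, ‖vint c Lam x‖ ^ 2 : ℝ) : ℂ) := by
    rw [← intervalIntegral.integral_ofReal]
    rw [intervalIntegral.integral_of_le hT.le, intervalIntegral.integral_of_le hT.le]
    apply setIntegral_congr_fun measurableSet_Ioc
    intro x hx
    simp only
    rw [hLam', ← vint_conj hx.1, Complex.mul_conj, Complex.normSq_eq_norm_sq]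
  rw [h5, Complex.norm_real]
  exact Real.le_norm_self _

end HYM
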