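import Pool.Agent.HYM.Apx
import Pool.Agent.HYM.Dec
import Pool.Agent.HYM.Ful
import Pool.Agent.HYM.Ker

set_option autoImplicit false

/-!
# HYM/MainA: the hybrid first moment for the degrees 2 and 3
-/

open Complex MeasureTheory

namespace HYM

theorem vint_mul_ii {c₁ c₂ T : ℝ} (hc : 0 < 1 + c₁ + c₂) (hT : 0 ≤ T) {Lam₁ Lam₂ : ℝ → ℂ}
    (h₁ : Integrable Lam₁) (h₂ : Integrable Lam₂) :
    IntervalIntegrable (fun x => vint c₁ Lam₁ x * vint c₂ Lam₂ x) volume 0 T := by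
  have hr : IntervalIntegrable (fun x : ℝ => x ^ (c₁ + c₂) *
      ((∫ t : ℝ, ‖Lam₁ t‖) * ∫ t : ℝ, ‖Lam₂ t‖)) volume 0 T :=
    (intervalIntegral.intervalIntegrable_rpow' (by linarith)).mul_const _
  refine hr.mono_fun' ?_ ?_
  · rw [Set.uIoc_of_le hT]
    refine ContinuousOn.aestronglyMeasurable ?_ measurableSet_Ioc
    refine ContinuousOn.mul ?_ ?_
    · exact (vint_continuousOn h₁).mono (fun x hx => hx.1)
    · exact (vint_continuousOn h₂).mono (fun x hx => hx.1)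
  · rw [Set.uIoc_of_le hT]
    refine (ae_restrict_iff' measurableSet_Ioc).2 (Filter.Eventually.of_forall fun x hx => ?_)
    have hx0 : 0 < x := hx.1
    show ‖vint c₁ Lam₁ x * vint c₂ Lam₂ x‖ ≤ x ^ (c₁ + c₂) *
      ((∫ t : ℝ, ‖Lam₁ t‖) * ∫ t : ℝ, ‖Lam₂ t‖)
    rw [norm_mul, Real.rpow_add hx0]
    calc ‖vint c₁ Lam₁ x‖ * ‖vint c₂ Lam₂ x‖
        ≤ (x ^ c₁ * ∫ t : ℝ, ‖Lam₁ t‖) * (x ^ c₂ * ∫ t : ℝ, ‖Lam₂ t‖) :=
          mul_le_mul (vint_norm_le hx0) (vint_norm_le hx0) (norm_nonneg _)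
            (mul_nonneg (Real.rpow_nonneg hx0.le _)
              (integral_nonneg fun t => norm_nonneg _))
      _ = _ := by ring

theorem vint_ii {c T : ℝ} (hc : 0 < 1 + c) (hT : 0 ≤ T) {Lam : ℝ → ℂ} (h : Integrable Lam) :
    IntervalIntegrable (vint c Lam) volume 0 T := by
  have hr : IntervalIntegrable (fun x : ℝ => x ^ c * (∫ t : ℝ, ‖Lam t‖)) volume 0 T :=
    (intervalIntegral.intervalIntegrable_rpow' (by linarith)).mul_const _
  refine hr.mono_fun' ?_ ?_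
  · rw [Set.uIoc_of_le hT]
    exact ContinuousOn.aestronglyMeasurable ((vint_continuousOn h).mono (fun x hx => hx.1))
      measurableSet_Ioc
  · rw [Set.uIoc_of_le hT]
    exact (ae_restrict_iff' measurableSet_Ioc).2
      (Filter.Eventually.of_forall fun x hx => vint_norm_le hx.1)

theorem vint_sq_ii {c T : ℝ} (hc : 0 < 1 + 2 * c) (hT : 0 ≤ T) {Lam : ℝ → ℂ}
    (h : Integrable Lam) :
    IntervalIntegrable (fun x => ‖vint c Lam x‖ ^ 2) volume 0 T := by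
  have h1 := (vint_mul_ii (c₁ := c) (c₂ := c) (T := T) (by linarith) hT h h).norm
  refine h1.congr fun x _ => ?_
  simp only [norm_mul]
  ring

/-- `x ↦ EV T x - L 0`, written as low part plus high part. -/
noncomputable def Sel.X (F : Sel) (ε T x : ℝ) : ℂ :=
  vint (-ε) (F.low ε T) x + vint (1 / 2) (F.high T) x

theorem X_ii (F : Sel) {ε T : ℝ} (hε : 0 < ε) (hε4 : ε ≤ 1 / 4) (hT : 1 ≤ T) :
    IntervalIntegrable (F.X ε T) volume 0 T :=
  (vint_ii (by linarith) (by linarith) (low_integrable F hε hT)).add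
    (vint_ii (by norm_num) (by linarith) (high_integrable F hT))

theorem X_sq_ii (F : Sel) {ε T : ℝ} (hε : 0 < ε) (hε4 : ε ≤ 1 / 4) (hT : 1 ≤ T) :
    IntervalIntegrable (fun x => ‖F.X ε T x‖ ^ 2) volume 0 T := by
  have h1 := vint_sq_ii (c := -ε) (T := T) (by linarith) (by linarith) (low_integrable F hε hT)
  have h2 := vint_sq_ii (c := 1 / 2) (T := T) (by norm_num) (by linarith) (high_integrable F hT)
  refine ((h1.const_mul 2).add (h2.const_mul 2)).mono_fun' ?_ ?_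
  · rw [Set.uIoc_of_le (by linarith)]
    refine ContinuousOn.aestronglyMeasurable ?_ measurableSet_Ioc
    refine (ContinuousOn.norm (ContinuousOn.add ?_ ?_)).pow 2
    · exact (vint_continuousOn (low_integrable F hε hT)).mono (fun x hx => hx.1)
    · exact (vint_continuousOn (high_integrable F hT)).mono (fun x hx => hx.1)
  · refine Filter.Eventually.of_forall fun x => ?_
    simp only [Sel.X, Real.norm_eq_abs, abs_pow, abs_norm]
    have h := norm_add_le (vint (-ε) (F.low ε T) x) (vint (1 / 2) (F.high T) x)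
    nlinarith [sq_nonneg (‖vint (-ε) (F.low ε T) x‖ - ‖vint (1 / 2) (F.high T) x‖),
      norm_nonneg (vint (-ε) (F.low ε T) x + vint (1 / 2) (F.high T) x),
      norm_nonneg (vint (-ε) (F.low ε T) x), norm_nonneg (vint (1 / 2) (F.high T) x)]

/-- The mean square of the regularised error term. -/
theorem X_msq (F : Sel) (h2 : 2 ≤ F.deg) (h3 : F.deg ≤ 3) {ε : ℝ} (hε : 0 < ε)
    (hε4 : ε ≤ 1 / 4) :
    ∃ C : ℝ, 0 < C ∧ ∀ T : ℝ, 1 ≤ T →
      ∫ x in (0 : ℝ)..T, ‖F.X ε T x‖ ^ 2 ≤ C * T ^ (2 + 10 * ε) := by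
  obtain ⟨C₁, hC₁, H₁⟩ := vint_sq (c := -ε) (δ := ε) (by linarith) hε
  obtain ⟨C₂, hC₂, H₂⟩ := vint_sq (c := 1 / 2) (δ := ε) (by norm_num) hε
  obtain ⟨C₃, hC₃, H₃⟩ := low_norm F (w := 2 * ε) hε (by linarith)
  obtain ⟨C₄, hC₄, H₄⟩ := high_norm F hε
  refine ⟨2 * (C₁ * C₃) + 2 * (C₂ * C₄), by positivity, fun T hT => ?_⟩
  have hT0 : 0 < T := by linarith
  obtain ⟨i3, b3⟩ := H₃ T hT
  obtain ⟨i4, b4⟩ := H₄ T hT
  have i4' : Integrable (fun t : ℝ => (1 + |t|) ^ (2 * ε) * ‖F.high T t‖ ^ 2) := by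
    refine i4.mono' ?_ ?_
    · refine Continuous.aestronglyMeasurable ?_
      refine Continuous.mul ?_ ((high_continuous F hT).norm.pow 2)
      exact Continuous.rpow_const (by fun_prop) (fun t => Or.inl (by positivity))
    · refine Filter.Eventually.of_forall fun t => ?_
      rw [Real.norm_eq_abs, abs_of_nonneg (by positivity)]
      refine mul_le_mul_of_nonneg_right ?_ (by positivity)
      exact Real.rpow_le_rpow_of_exponent_le (by linarith [abs_nonneg t]) (by linarith)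
  have b4' : ∫ t : ℝ, (1 + |t|) ^ (2 * ε) * ‖F.high T t‖ ^ 2 ≤ C₄ * T ^ (10 * ε) := by
    refine le_trans (integral_mono i4' i4 fun t => ?_) b4
    refine mul_le_mul_of_nonneg_right ?_ (by positivity)
    exact Real.rpow_le_rpow_of_exponent_le (by linarith [abs_nonneg t]) (by linarith)
  have c1 := H₁ T hT0 _ (low_integrable F hε hT) i3
  have c2 := H₂ T hT0 _ (high_integrable F hT) i4'
  have s1 := vint_sq_ii (c := -ε) (T := T) (by linarith) (by linarith) (low_integrable F hε hT)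
  have s2 := vint_sq_ii (c := 1 / 2) (T := T) (by norm_num) (by linarith) (high_integrable F hT)
  have key : ∫ x in (0 : ℝ)..T, ‖F.X ε T x‖ ^ 2 ≤
      ∫ x in (0 : ℝ)..T, (2 * ‖vint (-ε) (F.low ε T) x‖ ^ 2 +
        2 * ‖vint (1 / 2) (F.high T) x‖ ^ 2) := by
    refine intervalIntegral.integral_mono_on hT0.le (X_sq_ii F hε hε4 hT)
      ((s1.const_mul 2).add (s2.const_mul 2)) fun x _ => ?_
    simp only [Sel.X]
    have h := norm_add_le (vint (-ε) (F.low ε T) x) (vint (1 / 2) (F.high T) x)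
    nlinarith [sq_nonneg (‖vint (-ε) (F.low ε T) x‖ - ‖vint (1 / 2) (F.high T) x‖),
      norm_nonneg (vint (-ε) (F.low ε T) x + vint (1 / 2) (F.high T) x),
      norm_nonneg (vint (-ε) (F.low ε T) x), norm_nonneg (vint (1 / 2) (F.high T) x)]
  rw [intervalIntegral.integral_add (s1.const_mul 2) (s2.const_mul 2),
    intervalIntegral.integral_const_mul, intervalIntegral.integral_const_mul] at key
  have e1 : ∫ x in (0 : ℝ)..T, ‖vint (-ε) (F.low ε T) x‖ ^ 2 ≤ C₁ * C₃ * T ^ (2 + 10 * ε) := by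
    refine c1.trans ?_
    calc C₁ * T ^ (1 + 2 * -ε) * ∫ t : ℝ, (1 + |t|) ^ (2 * ε) * ‖F.low ε T t‖ ^ 2
        ≤ C₁ * T ^ (1 + 2 * -ε) * (C₃ * T ^ (2 * ε + F.deg - 2 + (2 * F.deg + 4) * ε)) :=
          mul_le_mul_of_nonneg_left b3 (by positivity)
      _ = C₁ * C₃ * T ^ ((1 + 2 * -ε) + (2 * ε + F.deg - 2 + (2 * F.deg + 4) * ε)) := by
          rw [Real.rpow_add hT0 (1 + 2 * -ε), mul_mul_mul_comm]
      _ ≤ C₁ * C₃ * T ^ (2 + 10 * ε) := by
          refine mul_le_mul_of_nonneg_left ?_ (by positivity)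
          refine Real.rpow_le_rpow_of_exponent_le hT ?_
          nlinarith
  have e2 : ∫ x in (0 : ℝ)..T, ‖vint (1 / 2) (F.high T) x‖ ^ 2 ≤
      C₂ * C₄ * T ^ (2 + 10 * ε) := by
    refine c2.trans ?_
    calc C₂ * T ^ (1 + 2 * (1 / 2 : ℝ)) * ∫ t : ℝ, (1 + |t|) ^ (2 * ε) * ‖F.high T t‖ ^ 2
        ≤ C₂ * T ^ (1 + 2 * (1 / 2 : ℝ)) * (C₄ * T ^ (10 * ε)) :=
          mul_le_mul_of_nonneg_left b4' (by positivity)
      _ = C₂ * C₄ * T ^ ((1 + 2 * (1 / 2 : ℝ)) + 10 * ε) := by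
          rw [Real.rpow_add hT0 (1 + 2 * (1 / 2 : ℝ)), mul_mul_mul_comm]
      _ = C₂ * C₄ * T ^ (2 + 10 * ε) := by
          congr 2; norm_num
  linarith

/-- From the mean square to the mean. -/
theorem X_mean (F : Sel) (h2 : 2 ≤ F.deg) (h3 : F.deg ≤ 3) {ε : ℝ} (hε : 0 < ε)
    (hε4 : ε ≤ 1 / 4) :
    ∃ C : ℝ, 0 < C ∧ ∀ T : ℝ, 1 ≤ T →
      ∫ x in (0 : ℝ)..T, ‖F.X ε T x‖ ≤ C * T ^ (3 / 2 + 5 * ε) := by
  obtain ⟨C, hC, H⟩ := X_msq F h2 h3 hε hε4
  refine ⟨1 + C, by positivity, fun T hT => ?_⟩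
  have hT0 : 0 < T := by linarith
  have hl : 0 < T ^ (1 / 2 + 5 * ε) := by positivity
  have key : ∫ x in (0 : ℝ)..T, ‖F.X ε T x‖ ≤
      ∫ x in (0 : ℝ)..T, (T ^ (1 / 2 + 5 * ε) + (T ^ (1 / 2 + 5 * ε))⁻¹ * ‖F.X ε T x‖ ^ 2) := by
    refine intervalIntegral.integral_mono_on hT0.le (X_ii F hε hε4 hT).norm
      (intervalIntegrable_const.add ((X_sq_ii F hε hε4 hT).const_mul _)) fun x _ => ?_
    have h := norm_nonneg (F.X ε T x)
    rw [← sub_nonneg]
    have : T ^ (1 / 2 + 5 * ε) + (T ^ (1 / 2 + 5 * ε))⁻¹ * ‖F.X ε T x‖ ^ 2 - ‖F.X ε T x‖ =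
        (T ^ (1 / 2 + 5 * ε))⁻¹ * ((T ^ (1 / 2 + 5 * ε) - ‖F.X ε T x‖ / 2) ^ 2 +
          3 / 4 * ‖F.X ε T x‖ ^ 2) := by
      field_simp
      ring
    rw [this]
    positivity
  rw [intervalIntegral.integral_add intervalIntegrable_const
    ((X_sq_ii F hε hε4 hT).const_mul _), intervalIntegral.integral_const,
    intervalIntegral.integral_const_mul] at key
  have e1 : (T - 0) • T ^ (1 / 2 + 5 * ε) = T ^ (3 / 2 + 5 * ε) := by
    rw [sub_zero, smul_eq_mul]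
    nth_rewrite 1 [← Real.rpow_one T]
    rw [← Real.rpow_add hT0]
    congr 1; ring
  have e2 : (T ^ (1 / 2 + 5 * ε))⁻¹ * ∫ x in (0 : ℝ)..T, ‖F.X ε T x‖ ^ 2 ≤
      C * T ^ (3 / 2 + 5 * ε) := by
    calc (T ^ (1 / 2 + 5 * ε))⁻¹ * ∫ x in (0 : ℝ)..T, ‖F.X ε T x‖ ^ 2
        ≤ (T ^ (1 / 2 + 5 * ε))⁻¹ * (C * T ^ (2 + 10 * ε)) :=
          mul_le_mul_of_nonneg_left (H T hT) (by positivity)
      _ = C * T ^ (3 / 2 + 5 * ε) := by
          rw [← Real.rpow_neg hT0.le, mul_left_comm, ← Real.rpow_add hT0]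
          congr 2; ring
  rw [e1] at key
  linarith

/-- The main bilinear estimate. -/
theorem XX_bound (F G : Sel) (hF : F.deg = 2) (hG : G.deg = 3) {ε : ℝ} (hε : 0 < ε)
    (hε4 : ε ≤ 1 / 4) :
    ∃ C : ℝ, 0 < C ∧ ∀ T : ℝ, 1 ≤ T →
      ‖∫ x in (0 : ℝ)..T, F.X ε T x * G.X ε T x‖ ≤ C * T ^ (3 / 2 + 10 * ε) := by
  -- full × high
  obtain ⟨A₁, hA₁, HA₁⟩ := bilin (c₁ := -ε) (c₂ := 1 / 2) (p := -(1 / 2)) (δ := ε)
    (by linarith) (by rw [abs_neg, abs_of_pos] <;> norm_num) hε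
  -- high × low
  obtain ⟨A₂, hA₂, HA₂⟩ := bilin (c₁ := 1 / 2) (c₂ := -ε) (p := 1 / 2) (δ := ε)
    (by linarith) (by rw [abs_of_pos]; norm_num) hε
  -- low × low
  obtain ⟨A₃, hA₃, HA₃⟩ := bilin (c₁ := -ε) (c₂ := -ε) (p := 1 / 2) (δ := ε)
    (by linarith) (by rw [abs_of_pos]; norm_num) hε
  obtain ⟨B₁, hB₁, HB₁⟩ := full_norm F hε hF.le
  obtain ⟨B₂, hB₂, HB₂⟩ := high_norm G hε
  obtain ⟨B₃, hB₃, HB₃⟩ := high_norm F hε
  obtain ⟨B₄, hB₄, HB₄⟩ := low_norm G (ε := ε) (w := -1 + 2 * ε) hε (by rw [hG]; linarith)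
  obtain ⟨B₅, hB₅, HB₅⟩ := low_norm F (ε := ε) (w := 1 + 2 * ε) hε (by rw [hF]; linarith)
  rw [hG] at HB₄
  rw [hF] at HB₅
  refine ⟨A₁ * √B₁ * √B₂ + A₂ * √B₃ * √B₄ + A₃ * √B₅ * √B₄, by positivity, fun T hT => ?_⟩
  have hT0 : 0 < T := by linarith
  have r1 : (2 * (1 / 2 : ℝ) + 2 * ε) = 1 + 2 * ε := by ring
  have r2 : (-(2 * (1 / 2 : ℝ)) + 2 * ε) = -1 + 2 * ε := by ring
  have r3 : (2 * (-(1 / 2) : ℝ) + 2 * ε) = -1 + 2 * ε := by ring
  have r4 : (-(2 * (-(1 / 2) : ℝ)) + 2 * ε) = 1 + 2 * ε := by ring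
  rw [r3, r4] at HA₁
  rw [r1, r2] at HA₂ HA₃
  obtain ⟨i1, b1⟩ := HB₁ T hT
  obtain ⟨i2, b2⟩ := HB₂ T hT
  obtain ⟨i3, b3⟩ := HB₃ T hT
  obtain ⟨i4, b4⟩ := HB₄ T hT
  obtain ⟨i5, b5⟩ := HB₅ T hT
  have fi := full_integrable F hε hT (T := T)
  have li := low_integrable F hε hT
  have hi := high_integrable F hT
  have lj := low_integrable G hε hT
  have hj := high_integrable G hT
  have q1 := HA₁ T hT0 _ _ fi hj i1 i2
  have q2 := HA₂ T hT0 _ _ hi lj i3 i4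
  have q3 := HA₃ T hT0 _ _ li lj i5 i4
  have m1 := vint_mul_ii (c₁ := -ε) (c₂ := 1 / 2) (T := T) (by linarith) hT0.le fi hj
  have m2 := vint_mul_ii (c₁ := 1 / 2) (c₂ := -ε) (T := T) (by linarith) hT0.le hi lj
  have m3 := vint_mul_ii (c₁ := -ε) (c₂ := -ε) (T := T) (by linarith) hT0.le li lj
  have split : ∫ x in (0 : ℝ)..T, F.X ε T x * G.X ε T x =
      (∫ x in (0 : ℝ)..T, vint (-ε) (F.full ε T) x * vint (1 / 2) (G.high T) x) +
      ((∫ x in (0 : ℝ)..T, vint (1 / 2) (F.high T) x * vint (-ε) (G.low ε T) x) +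
      ∫ x in (0 : ℝ)..T, vint (-ε) (F.low ε T) x * vint (-ε) (G.low ε T) x) := by
    rw [← intervalIntegral.integral_add m2 m3, ← intervalIntegral.integral_add m1 (m2.add m3)]
    refine intervalIntegral.integral_congr_ae (Filter.Eventually.of_forall fun x hx => ?_)
    rw [Set.uIoc_of_le hT0.le] at hx
    have hd := full_dec F hε hT hx.1
    simp only [Sel.X]
    rw [hd]
    ring
  rw [split]
  refine (norm_add_le _ _).trans ?_
  have q4 := norm_add_le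
    (∫ x in (0 : ℝ)..T, vint (1 / 2) (F.high T) x * vint (-ε) (G.low ε T) x)
    (∫ x in (0 : ℝ)..T, vint (-ε) (F.low ε T) x * vint (-ε) (G.low ε T) x)
  -- helper: product of powers
  have hp : ∀ (A B B' c e e' I J : ℝ), 0 < A → 0 < B → 0 < B' → I ≤ B * T ^ e → J ≤ B' * T ^ e' →
      c + e / 2 + e' / 2 ≤ 3 / 2 + 10 * ε →
      A * T ^ c * √I * √J ≤ A * √B * √B' * T ^ (3 / 2 + 10 * ε) := by
    intro A B B' c e e' I J hA hB hB' hI hJ he
    have hs : ∀ u : ℝ, √(T ^ u) = T ^ (u / 2) := by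
      intro u
      rw [Real.sqrt_eq_rpow, ← Real.rpow_mul hT0.le]
      congr 1; ring
    have h1 : √I ≤ √B * T ^ (e / 2) := by
      refine (Real.sqrt_le_sqrt hI).trans ?_
      rw [Real.sqrt_mul hB.le, hs]
    have h2 : √J ≤ √B' * T ^ (e' / 2) := by
      refine (Real.sqrt_le_sqrt hJ).trans ?_
      rw [Real.sqrt_mul hB'.le, hs]
    calc A * T ^ c * √I * √J ≤ A * T ^ c * (√B * T ^ (e / 2)) * (√B' * T ^ (e' / 2)) := by
          gcongr
      _ = A * √B * √B' * T ^ (c + e / 2 + e' / 2) := by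
          rw [Real.rpow_add hT0, Real.rpow_add hT0]; ring
      _ ≤ _ := by
          refine mul_le_mul_of_nonneg_left ?_ (by positivity)
          exact Real.rpow_le_rpow_of_exponent_le hT he
  have z1 := q1.trans (hp A₁ B₁ B₂ (1 + -ε + 1 / 2) (10 * ε) (10 * ε) _ _ hA₁ hB₁ hB₂ b1 b2
    (by linarith))
  have z2 := q2.trans (hp A₂ B₃ B₄ (1 + 1 / 2 + -ε) (10 * ε) _ _ _ hA₂ hB₃ hB₄ b3 b4
    (by linarith))
  have z3 := q3.trans (hp A₃ B₅ B₄ (1 + -ε + -ε) _ _ _ _ hA₃ hB₅ hB₄ b5 b4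
    (by linarith))
  calc _ ≤ _ := add_le_add z1 (q4.trans (add_le_add z2 z3))
    _ = _ := by ring

/-- The integral of the product of the regularised error terms over `[0, T]`. -/
theorem EVEV_bound (F G : Sel) (hF : F.deg = 2) (hG : G.deg = 3) {ε : ℝ} (hε : 0 < ε)
    (hε4 : ε ≤ 1 / 4) :
    ∃ C : ℝ, 0 < C ∧ ∀ T : ℝ, 1 ≤ T →
      IntervalIntegrable (fun x => F.EV T x * G.EV T x) volume 0 T ∧
      ‖∫ x in (0 : ℝ)..T, F.EV T x * G.EV T x‖ ≤ C * T ^ (3 / 2 + 10 * ε) := by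
  obtain ⟨C₁, hC₁, H₁⟩ := XX_bound F G hF hG hε hε4
  obtain ⟨C₂, hC₂, H₂⟩ := X_mean F hF.ge (by rw [hF]; norm_num) hε hε4
  obtain ⟨C₃, hC₃, H₃⟩ := X_mean G (by rw [hG]; norm_num) hG.le hε hε4
  refine ⟨‖F.L 0‖ * ‖G.L 0‖ + ‖G.L 0‖ * C₂ + ‖F.L 0‖ * C₃ + C₁, by positivity, fun T hT => ?_⟩
  have hT0 : 0 < T := by linarith
  have iF := X_ii F hε hε4 hT
  have iG := X_ii G hε hε4 hT
  have iFG : IntervalIntegrable (fun x => F.X ε T x * G.X ε T x) volume 0 T := by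
    have m2 := vint_mul_ii (c₁ := 1 / 2) (c₂ := -ε) (T := T) (by linarith) hT0.le
      (high_integrable F hT) (low_integrable G hε hT)
    have m3 := vint_mul_ii (c₁ := -ε) (c₂ := -ε) (T := T) (by linarith) hT0.le
      (low_integrable F hε hT) (low_integrable G hε hT)
    have m4 := vint_mul_ii (c₁ := -ε) (c₂ := 1 / 2) (T := T) (by linarith) hT0.le
      (low_integrable F hε hT) (high_integrable G hT)
    have m5 := vint_mul_ii (c₁ := 1 / 2) (c₂ := 1 / 2) (T := T) (by norm_num) hT0.le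
      (high_integrable F hT) (high_integrable G hT)
    refine ((m2.add m3).add (m4.add m5)).congr fun x _ => ?_
    simp only [Sel.X, Pi.add_apply]
    ring
  have hfun : ∀ x ∈ Set.uIoc 0 T, F.EV T x * G.EV T x =
      ((F.L 0 * G.L 0 + G.L 0 * F.X ε T x) + F.L 0 * G.X ε T x) + F.X ε T x * G.X ε T x := by
    intro x hx
    rw [Set.uIoc_of_le hT0.le] at hx
    rw [EV_dec F hε (by linarith) hT hx.1, EV_dec G hε (by linarith) hT hx.1]
    simp only [Sel.X]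
    ring
  have i1 : IntervalIntegrable (fun _ : ℝ => F.L 0 * G.L 0) volume 0 T :=
    intervalIntegrable_const
  have i2 := iF.const_mul (G.L 0)
  have i3 := iG.const_mul (F.L 0)
  refine ⟨(((i1.add i2).add i3).add iFG).congr ?_, ?_⟩
  · exact fun x hx => (hfun x hx).symm
  rw [intervalIntegral.integral_congr_ae (Filter.Eventually.of_forall hfun),
    intervalIntegral.integral_add ((i1.add i2).add i3) iFG,
    intervalIntegral.integral_add (i1.add i2) i3, intervalIntegral.integral_add i1 i2,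
    intervalIntegral.integral_const, intervalIntegral.integral_const_mul,
    intervalIntegral.integral_const_mul]
  have n1 : ‖(T - 0) • (F.L 0 * G.L 0)‖ ≤ ‖F.L 0‖ * ‖G.L 0‖ * T ^ (3 / 2 + 10 * ε) := by
    rw [sub_zero, norm_smul, norm_mul, Real.norm_eq_abs, abs_of_pos hT0, mul_comm]
    refine mul_le_mul_of_nonneg_left ?_ (by positivity)
    nth_rewrite 1 [← Real.rpow_one T]
    exact Real.rpow_le_rpow_of_exponent_le hT (by linarith)
  have hexp : T ^ (3 / 2 + 5 * ε) ≤ T ^ (3 / 2 + 10 * ε) :=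
    Real.rpow_le_rpow_of_exponent_le hT (by linarith)
  have n2 : ‖G.L 0 * ∫ x in (0 : ℝ)..T, F.X ε T x‖ ≤
      ‖G.L 0‖ * C₂ * T ^ (3 / 2 + 10 * ε) := by
    rw [norm_mul, mul_assoc]
    refine mul_le_mul_of_nonneg_left ?_ (norm_nonneg _)
    refine (intervalIntegral.norm_integral_le_integral_norm hT0.le).trans ((H₂ T hT).trans ?_)
    exact mul_le_mul_of_nonneg_left hexp hC₂.le
  have n3 : ‖F.L 0 * ∫ x in (0 : ℝ)..T, G.X ε T x‖ ≤
      ‖F.L 0‖ * C₃ * T ^ (3 / 2 + 10 * ε) := by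
    rw [norm_mul, mul_assoc]
    refine mul_le_mul_of_nonneg_left ?_ (norm_nonneg _)
    refine (intervalIntegral.norm_integral_le_integral_norm hT0.le).trans ((H₃ T hT).trans ?_)
    exact mul_le_mul_of_nonneg_left hexp hC₃.le
  have n4 := H₁ T hT
  refine (norm_add_le _ _).trans ?_
  refine (add_le_add ((norm_add_le _ _).trans (add_le_add (norm_add_le _ _) le_rfl)) le_rfl).trans
    ?_
  calc _ ≤ (‖F.L 0‖ * ‖G.L 0‖ * T ^ (3 / 2 + 10 * ε) + ‖G.L 0‖ * C₂ * T ^ (3 / 2 + 10 * ε) +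
        ‖F.L 0‖ * C₃ * T ^ (3 / 2 + 10 * ε)) + C₁ * T ^ (3 / 2 + 10 * ε) :=
        add_le_add (add_le_add (add_le_add n1 n2) n3) n4
    _ = _ := by ring

/-- The mean of the regularised error term. -/
theorem EV_mean (F : Sel) (h2 : 2 ≤ F.deg) (h3 : F.deg ≤ 3) {ε : ℝ} (hε : 0 < ε)
    (hε4 : ε ≤ 1 / 4) :
    ∃ C : ℝ, 0 < C ∧ ∀ T : ℝ, 1 ≤ T → IntervalIntegrable (F.EV T) volume 0 T ∧
      ∫ x in (0 : ℝ)..T, ‖F.EV T x‖ ≤ C * T ^ (3 / 2 + 5 * ε) := by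
  obtain ⟨C, hC, H⟩ := X_mean F h2 h3 hε hε4
  refine ⟨‖F.L 0‖ + C, by positivity, fun T hT => ?_⟩
  have hT0 : 0 < T := by linarith
  have iF := X_ii F hε hε4 hT
  have i1 : IntervalIntegrable (fun _ : ℝ => F.L 0) volume 0 T := intervalIntegrable_const
  have hfun : ∀ x ∈ Set.uIoc 0 T, F.EV T x = F.L 0 + F.X ε T x := by
    intro x hx
    rw [Set.uIoc_of_le hT0.le] at hx
    rw [EV_dec F hε (by linarith) hT hx.1]
    rfl
  have iE : IntervalIntegrable (F.EV T) volume 0 T :=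
    (i1.add iF).congr fun x hx => (hfun x hx).symm
  refine ⟨iE, ?_⟩
  have i1n : IntervalIntegrable (fun _ : ℝ => ‖F.L 0‖) volume 0 T := intervalIntegrable_const
  have k : ∫ x in (0 : ℝ)..T, ‖F.EV T x‖ ≤ ∫ x in (0 : ℝ)..T, (‖F.L 0‖ + ‖F.X ε T x‖) := by
    refine intervalIntegral.integral_mono_on_of_le_Ioo hT0.le iE.norm (i1n.add iF.norm)
      fun x hx => ?_
    rw [hfun x (by rw [Set.uIoc_of_le hT0.le]; exact ⟨hx.1, hx.2.le⟩)]
    exact norm_add_le _ _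
  rw [intervalIntegral.integral_add i1n iF.norm, intervalIntegral.integral_const] at k
  have h1 : (T - 0) • ‖F.L 0‖ ≤ ‖F.L 0‖ * T ^ (3 / 2 + 5 * ε) := by
    rw [sub_zero, smul_eq_mul, mul_comm]
    refine mul_le_mul_of_nonneg_left ?_ (norm_nonneg _)
    nth_rewrite 1 [← Real.rpow_one T]
    exact Real.rpow_le_rpow_of_exponent_le hT (by linarith)
  have h4 := H T hT
  linarith

theorem mainA (F G : Sel) (hF : F.deg = 2) (hG : G.deg = 3) (ε : ℝ) (hε : 0 < ε) :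
    ∃ C : ℝ, ∀ T : ℝ, 1 ≤ T →
      ‖∫ x in (1 : ℝ)..T, F.E x * G.E x‖ ≤ C * T ^ (3 / 2 + ε) := by
  -- choose a small exponent
  obtain ⟨η, hη, hη4, hηε⟩ : ∃ η : ℝ, 0 < η ∧ η ≤ 1 / 4 ∧ 10 * η ≤ ε :=
    ⟨min (ε / 10) (1 / 4), lt_min (by positivity) (by norm_num), min_le_right _ _, by
      have := min_le_left (ε / 10) (1 / 4)
      linarith⟩
  obtain ⟨C₁, hC₁, H₁⟩ := EVEV_bound F G hF hG hη hη4
  obtain ⟨C₂, hC₂, H₂⟩ := EV_mean F hF.ge (by rw [hF]; norm_num) hη hη4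
  obtain ⟨C₃, hC₃, H₃⟩ := EV_mean G (by rw [hG]; norm_num) hG.le hη hη4
  obtain ⟨D₁, hD₁, K₁⟩ := E_sub_EV F hη
  obtain ⟨D₂, hD₂, K₂⟩ := E_sub_EV G hη
  obtain ⟨M₁, hM₁, N₁⟩ := EV_crude F
  obtain ⟨M₂, hM₂, N₂⟩ := EV_crude G
  refine ⟨C₁ + 4 * M₁ * M₂ + D₁ * C₃ + D₂ * C₂ + D₁ * D₂, fun T hT => ?_⟩
  have hT0 : 0 < T := by linarith
  obtain ⟨ii, b1⟩ := H₁ T hT
  obtain ⟨i2, b2⟩ := H₂ T hT
  obtain ⟨i3, b3⟩ := H₃ T hT
  have i2' : IntervalIntegrable (F.EV T) volume 1 T :=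
    i2.mono_set (by rw [Set.uIcc_of_le hT, Set.uIcc_of_le hT0.le]; exact Set.Icc_subset_Icc (by norm_num) le_rfl)
  have i3' : IntervalIntegrable (G.EV T) volume 1 T :=
    i3.mono_set (by rw [Set.uIcc_of_le hT, Set.uIcc_of_le hT0.le]; exact Set.Icc_subset_Icc (by norm_num) le_rfl)
  have ii1 : IntervalIntegrable (fun x => F.EV T x * G.EV T x) volume 0 1 :=
    ii.mono_set (by rw [Set.uIcc_of_le hT0.le, Set.uIcc_of_le zero_le_one]; exact Set.Icc_subset_Icc le_rfl hT)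
  have ii2 : IntervalIntegrable (fun x => F.EV T x * G.EV T x) volume 1 T :=
    ii.mono_set (by rw [Set.uIcc_of_le hT, Set.uIcc_of_le hT0.le]; exact Set.Icc_subset_Icc (by norm_num) le_rfl)
  -- differences
  set rF : ℝ → ℂ := fun x => F.E x - F.EV T x with hrF
  set rG : ℝ → ℂ := fun x => G.E x - G.EV T x with hrG
  have bF : ∀ x, 1 ≤ x → x ≤ T → ‖rF x‖ ≤ D₁ * T ^ η := fun x h1 h2 => K₁ T hT x h1 h2
  have bG : ∀ x, 1 ≤ x → x ≤ T → ‖rG x‖ ≤ D₂ * T ^ η := fun x h1 h2 => K₂ T hT x h1 h2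
  have mEF : AEStronglyMeasurable (F.EV T) (volume.restrict (Set.Ioc 1 T)) := by
    have := i2'.1.aestronglyMeasurable
    simpa using this
  have mEG : AEStronglyMeasurable (G.EV T) (volume.restrict (Set.Ioc 1 T)) := by
    have := i3'.1.aestronglyMeasurable
    simpa using this
  have mrF : AEStronglyMeasurable rF (volume.restrict (Set.Ioc 1 T)) :=
    (E_measurable F).aestronglyMeasurable.sub mEF
  have mrG : AEStronglyMeasurable rG (volume.restrict (Set.Ioc 1 T)) :=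
    (E_measurable G).aestronglyMeasurable.sub mEG
  have ae1 : ∀ (P : ℝ → Prop), (∀ x, 1 ≤ x → x ≤ T → P x) →
      ∀ᵐ x ∂(volume.restrict (Set.uIoc 1 T)), P x := by
    intro P hP
    rw [Set.uIoc_of_le hT]
    exact (ae_restrict_iff' measurableSet_Ioc).2
      (Filter.Eventually.of_forall fun x hx => hP x hx.1.le hx.2)
  have j1 : IntervalIntegrable (fun x => rF x * G.EV T x) volume 1 T := by
    refine (i3'.norm.const_mul (D₁ * T ^ η)).mono_fun' ?_ ?_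
    · rw [Set.uIoc_of_le hT]; exact mrF.mul mEG
    · refine ae1 _ fun x h1 h2 => ?_
      show ‖rF x * G.EV T x‖ ≤ D₁ * T ^ η * ‖G.EV T x‖
      rw [norm_mul]
      exact mul_le_mul_of_nonneg_right (bF x h1 h2) (norm_nonneg _)
  have j2 : IntervalIntegrable (fun x => F.EV T x * rG x) volume 1 T := by
    refine (i2'.norm.const_mul (D₂ * T ^ η)).mono_fun' ?_ ?_
    · rw [Set.uIoc_of_le hT]; exact mEF.mul mrG
    · refine ae1 _ fun x h1 h2 => ?_
      show ‖F.EV T x * rG x‖ ≤ D₂ * T ^ η * ‖F.EV T x‖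
      rw [norm_mul, mul_comm]
      exact mul_le_mul_of_nonneg_right (bG x h1 h2) (norm_nonneg _)
  have j3 : IntervalIntegrable (fun x => rF x * rG x) volume 1 T := by
    refine (intervalIntegrable_const (c := (D₁ * T ^ η) * (D₂ * T ^ η))).mono_fun' ?_ ?_
    · rw [Set.uIoc_of_le hT]; exact mrF.mul mrG
    · refine ae1 _ fun x h1 h2 => ?_
      show ‖rF x * rG x‖ ≤ (D₁ * T ^ η) * (D₂ * T ^ η)
      rw [norm_mul]
      exact mul_le_mul (bF x h1 h2) (bG x h1 h2) (norm_nonneg _) (by positivity)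
  have split : ∫ x in (1 : ℝ)..T, F.E x * G.E x =
      (((∫ x in (0 : ℝ)..T, F.EV T x * G.EV T x) - ∫ x in (0 : ℝ)..1, F.EV T x * G.EV T x) +
      (∫ x in (1 : ℝ)..T, rF x * G.EV T x)) + (∫ x in (1 : ℝ)..T, F.EV T x * rG x) +
      ∫ x in (1 : ℝ)..T, rF x * rG x := by
    rw [← intervalIntegral.integral_add_adjacent_intervals ii1 ii2, add_sub_cancel_left,
      ← intervalIntegral.integral_add ii2 j1, ← intervalIntegral.integral_add (ii2.add j1) j2,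
      ← intervalIntegral.integral_add ((ii2.add j1).add j2) j3]
    refine intervalIntegral.integral_congr fun x _ => ?_
    simp only [hrF, hrG]
    ring
  have e32 : T ^ (3 / 2 + 10 * η) ≤ T ^ (3 / 2 + ε) :=
    Real.rpow_le_rpow_of_exponent_le hT (by linarith)
  have eη : T ^ η * T ^ (3 / 2 + 5 * η) ≤ T ^ (3 / 2 + ε) := by
    rw [← Real.rpow_add hT0]
    exact Real.rpow_le_rpow_of_exponent_le hT (by linarith)
  have n1 : ‖∫ x in (0 : ℝ)..T, F.EV T x * G.EV T x‖ ≤ C₁ * T ^ (3 / 2 + ε) :=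
    b1.trans (mul_le_mul_of_nonneg_left e32 hC₁.le)
  have n2 : ‖∫ x in (0 : ℝ)..1, F.EV T x * G.EV T x‖ ≤ 4 * M₁ * M₂ * T ^ (3 / 2 + ε) := by
    have h := intervalIntegral.norm_integral_le_of_norm_le_const
      (a := (0 : ℝ)) (b := 1) (f := fun x => F.EV T x * G.EV T x) (C := (M₁ * 2) * (M₂ * 2))
      (fun x hx => by
        rw [Set.uIoc_of_le zero_le_one] at hx
        rw [norm_mul]
        have h1 : 1 + x ^ 2 ≤ 2 := by nlinarith [hx.1, hx.2]
        refine mul_le_mul ((N₁ T hT x hx.1).trans ?_) ((N₂ T hT x hx.1).trans ?_)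
          (norm_nonneg _) (by positivity)
        · exact mul_le_mul_of_nonneg_left h1 hM₁.le
        · exact mul_le_mul_of_nonneg_left h1 hM₂.le)
    have hone : 1 ≤ T ^ (3 / 2 + ε) := Real.one_le_rpow hT (by linarith)
    calc _ ≤ _ := h
      _ = 4 * M₁ * M₂ * 1 := by norm_num; ring
      _ ≤ _ := mul_le_mul_of_nonneg_left hone (by positivity)
  have n3 : ‖∫ x in (1 : ℝ)..T, rF x * G.EV T x‖ ≤ D₁ * C₃ * T ^ (3 / 2 + ε) := by
    have h : ‖∫ x in (1 : ℝ)..T, rF x * G.EV T x‖ ≤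
        ∫ x in (1 : ℝ)..T, (D₁ * T ^ η) * ‖G.EV T x‖ := by
      refine (intervalIntegral.norm_integral_le_integral_norm hT).trans ?_
      refine intervalIntegral.integral_mono_on hT j1.norm (i3'.norm.const_mul _) fun x hx => ?_
      rw [norm_mul]
      exact mul_le_mul_of_nonneg_right (bF x hx.1 hx.2) (norm_nonneg _)
    rw [intervalIntegral.integral_const_mul] at h
    have h5 : ∫ x in (1 : ℝ)..T, ‖G.EV T x‖ ≤ ∫ x in (0 : ℝ)..T, ‖G.EV T x‖ :=
      intervalIntegral.integral_mono_interval (by norm_num) hT le_rfl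
        (Filter.Eventually.of_forall fun x => norm_nonneg _) i3.norm
    calc _ ≤ _ := h
      _ ≤ (D₁ * T ^ η) * (C₃ * T ^ (3 / 2 + 5 * η)) :=
          mul_le_mul_of_nonneg_left (h5.trans b3) (by positivity)
      _ = D₁ * C₃ * (T ^ η * T ^ (3 / 2 + 5 * η)) := by ring
      _ ≤ _ := mul_le_mul_of_nonneg_left eη (by positivity)
  have n4 : ‖∫ x in (1 : ℝ)..T, F.EV T x * rG x‖ ≤ D₂ * C₂ * T ^ (3 / 2 + ε) := by
    have h : ‖∫ x in (1 : ℝ)..T, F.EV T x * rG x‖ ≤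
        ∫ x in (1 : ℝ)..T, (D₂ * T ^ η) * ‖F.EV T x‖ := by
      refine (intervalIntegral.norm_integral_le_integral_norm hT).trans ?_
      refine intervalIntegral.integral_mono_on hT j2.norm (i2'.norm.const_mul _) fun x hx => ?_
      rw [norm_mul, mul_comm]
      exact mul_le_mul_of_nonneg_right (bG x hx.1 hx.2) (norm_nonneg _)
    rw [intervalIntegral.integral_const_mul] at h
    have h5 : ∫ x in (1 : ℝ)..T, ‖F.EV T x‖ ≤ ∫ x in (0 : ℝ)..T, ‖F.EV T x‖ :=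
      intervalIntegral.integral_mono_interval (by norm_num) hT le_rfl
        (Filter.Eventually.of_forall fun x => norm_nonneg _) i2.norm
    calc _ ≤ _ := h
      _ ≤ (D₂ * T ^ η) * (C₂ * T ^ (3 / 2 + 5 * η)) :=
          mul_le_mul_of_nonneg_left (h5.trans b2) (by positivity)
      _ = D₂ * C₂ * (T ^ η * T ^ (3 / 2 + 5 * η)) := by ring
      _ ≤ _ := mul_le_mul_of_nonneg_left eη (by positivity)
  have n5 : ‖∫ x in (1 : ℝ)..T, rF x * rG x‖ ≤ D₁ * D₂ * T ^ (3 / 2 + ε) := by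
    have h := intervalIntegral.norm_integral_le_of_norm_le_const
      (a := (1 : ℝ)) (b := T) (f := fun x => rF x * rG x) (C := (D₁ * T ^ η) * (D₂ * T ^ η))
      (fun x hx => by
        rw [Set.uIoc_of_le hT] at hx
        rw [norm_mul]
        exact mul_le_mul (bF x hx.1.le hx.2) (bG x hx.1.le hx.2) (norm_nonneg _) (by positivity))
    have habs : |T - 1| ≤ T := by rw [abs_of_nonneg (by linarith)]; linarith
    calc _ ≤ _ := h
      _ ≤ (D₁ * T ^ η) * (D₂ * T ^ η) * T := mul_le_mul_of_nonneg_left habs (by positivity)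
      _ = D₁ * D₂ * (T ^ η * T ^ η * T ^ (1 : ℝ)) := by rw [Real.rpow_one]; ring
      _ = D₁ * D₂ * T ^ (η + η + 1) := by rw [Real.rpow_add hT0, Real.rpow_add hT0]
      _ ≤ _ := by
        refine mul_le_mul_of_nonneg_left ?_ (by positivity)
        exact Real.rpow_le_rpow_of_exponent_le hT (by linarith)
  rw [split]
  calc _ ≤ (((‖∫ x in (0 : ℝ)..T, F.EV T x * G.EV T x‖ +
        ‖∫ x in (0 : ℝ)..1, F.EV T x * G.EV T x‖) +
        ‖∫ x in (1 : ℝ)..T, rF x * G.EV T x‖) + ‖∫ x in (1 : ℝ)..T, F.EV T x * rG x‖) +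
        ‖∫ x in (1 : ℝ)..T, rF x * rG x‖ := by
        refine (norm_add_le _ _).trans (add_le_add ?_ le_rfl)
        refine (norm_add_le _ _).trans (add_le_add ?_ le_rfl)
        refine (norm_add_le _ _).trans (add_le_add ?_ le_rfl)
        exact norm_sub_le _ _
    _ ≤ (((C₁ * T ^ (3 / 2 + ε) + 4 * M₁ * M₂ * T ^ (3 / 2 + ε)) +
        D₁ * C₃ * T ^ (3 / 2 + ε)) + D₂ * C₂ * T ^ (3 / 2 + ε)) + D₁ * D₂ * T ^ (3 / 2 + ε) :=
        add_le_add (add_le_add (add_le_add (add_le_add n1 n2) n3) n4) n5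
    _ = _ := by ring

end HYM
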