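import Pool.Agent.HYM.GamB

set_option autoImplicit false

/-!
# HYM/Chi: the factor of the functional equation

PROOF of `chi_diff`: `Γ(lam (1-s) + conj mu)` is differentiable where its argument has positive real
part (`lam > 0`, `Re mu ≥ 0`, `Re s < 1`), `(Γ ·)⁻¹` is entire
(`Complex.differentiable_one_div_Gamma`), `Q^(1-2s)` is entire as `Q > 0`.

PROOF of `chi_bound`: for `s = c + it`, `conj (lam (1-s) + conj mu) = a + iy` with
`a = lam (1-c) + Re mu > 0`, `y = lam t + Im mu`, and `lam s + mu = b + iy`, `b = lam c + Re mu`.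
`‖Γ (conj z)‖ = ‖Γ z‖`. By `gam_ratio` each factor is at most `C (1+|y|)^(lam (1-2c))`, and
`(1+|y|)` and `(1+|t|)` are comparable (`1+|y| ≤ C(1+|t|)`, `1+|t| ≤ C(1+|y|)` since `lam > 0`); the
exponents stay in a compact set for `c ∈ [a, b]`. `‖Q^(1-2s)‖ = Q^(1-2c)` is bounded. Multiply over
`j`: `∑ lam j (1-2c) = deg (1/2 - c)`.
-/

open Complex

open scoped ComplexConjugate

namespace HYM

theorem chi_diff (F : Sel) : DifferentiableOn ℂ F.chi {s : ℂ | s.re < 1} := by
  intro s hs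
  have hs : s.re < 1 := hs
  apply DifferentiableAt.differentiableWithinAt
  have hQ : (F.Q : ℂ) ≠ 0 := by exact_mod_cast F.Q_pos.ne'
  have h1 : DifferentiableAt ℂ (fun s : ℂ => (F.Q : ℂ) ^ (1 - 2 * s)) s := by
    apply DifferentiableAt.const_cpow
    · fun_prop
    · exact Or.inl hQ
  have h2 : ∀ j, DifferentiableAt ℂ (fun s : ℂ => Gamma (F.lam j * (1 - s) + conj (F.mu j)) *
      (Gamma (F.lam j * s + F.mu j))⁻¹) s := by
    intro j
    apply DifferentiableAt.mul
    · have h3 : DifferentiableAt ℂ Gamma (F.lam j * (1 - s) + conj (F.mu j)) := by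
        apply Complex.differentiableAt_Gamma
        intro m hm
        have h4 := congrArg Complex.re hm
        have h5 := F.mu_re j
        have h6 := mul_pos (F.lam_pos j) (show 0 < 1 - s.re by linarith)
        rw [Complex.add_re, Complex.re_ofReal_mul, Complex.conj_re, Complex.sub_re, Complex.one_re,
          Complex.neg_re, Complex.natCast_re] at h4
        have h7 : (0 : ℝ) ≤ m := Nat.cast_nonneg m
        linarith
      have h4 : DifferentiableAt ℂ (fun s : ℂ => (F.lam j : ℂ) * (1 - s) + conj (F.mu j)) s := by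
        fun_prop
      exact h3.comp s h4
    · have h3 : DifferentiableAt ℂ (fun z : ℂ => (Gamma z)⁻¹) (F.lam j * s + F.mu j) :=
        Complex.differentiable_one_div_Gamma _
      have h4 : DifferentiableAt ℂ (fun s : ℂ => (F.lam j : ℂ) * s + F.mu j) s := by
        fun_prop
      exact DifferentiableAt.comp (g := fun z : ℂ => (Gamma z)⁻¹)
        (f := fun s : ℂ => (F.lam j : ℂ) * s + F.mu j) s h3 h4
  have h3 : DifferentiableAt ℂ (fun s : ℂ => ∏ j, (Gamma (F.lam j * (1 - s) + conj (F.mu j)) *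
      (Gamma (F.lam j * s + F.mu j))⁻¹)) s :=
    DifferentiableAt.fun_finsetProd fun j _ => h2 j
  exact ((differentiableAt_const _).mul h1).mul h3

private theorem rpow_le_add {Q x u v : ℝ} (hQ : 0 < Q) (hu : u ≤ x) (hv : x ≤ v) :
    Q ^ x ≤ Q ^ u + Q ^ v := by
  have h1 : 0 < Q ^ u := Real.rpow_pos_of_pos hQ _
  have h2 : 0 < Q ^ v := Real.rpow_pos_of_pos hQ _
  rcases le_total 1 Q with h | h
  · have := Real.rpow_le_rpow_of_exponent_le h hv
    linarith
  · have := Real.rpow_le_rpow_of_exponent_ge hQ h hu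
    linarith

private theorem comp_rpow {K u v e E : ℝ} (hK : 1 ≤ K) (hu : 0 < u) (hv : 0 < v)
    (h1 : u ≤ K * v) (h2 : v ≤ K * u) (he : |e| ≤ E) : u ^ e ≤ K ^ E * v ^ e := by
  have hK0 : 0 < K := by linarith
  have hle : K ^ |e| ≤ K ^ E := Real.rpow_le_rpow_of_exponent_le hK he
  have hve : 0 ≤ v ^ e := (Real.rpow_pos_of_pos hv e).le
  refine le_trans ?_ (mul_le_mul_of_nonneg_right hle hve)
  rcases le_total 0 e with h | h
  · rw [abs_of_nonneg h, ← Real.mul_rpow hK0.le hv.le]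
    exact Real.rpow_le_rpow hu.le h1 h
  · rw [abs_of_nonpos h]
    have h3 : K ^ (-e) * v ^ e = (v / K) ^ e := by
      rw [Real.div_rpow hv.le hK0.le, Real.rpow_neg hK0.le]
      field_simp
    rw [h3]
    apply Real.rpow_le_rpow_of_nonpos (by positivity) _ h
    rw [div_le_iff₀ hK0]
    linarith

private theorem factor_bound (F : Sel) (a b : ℝ) (hb : b < 1) (j : Fin F.r) :
    ∃ C : ℝ, 0 < C ∧ ∀ c ∈ Set.Icc a b, ∀ t : ℝ,
      ‖Gamma (F.lam j * (1 - ln c t) + conj (F.mu j)) * (Gamma (F.lam j * ln c t + F.mu j))⁻¹‖ ≤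
        C * (1 + |t|) ^ (F.lam j * (1 - 2 * c)) := by
  have hl := F.lam_pos j
  have hm := F.mu_re j
  obtain ⟨C, hC, hb'⟩ := gam_ratio (F.lam j * (1 - b) + (F.mu j).re)
    (F.lam j * (1 - a) + (F.mu j).re) (F.lam j * a + (F.mu j).re) (F.lam j * b + (F.mu j).re)
    (by have := mul_pos hl (show 0 < 1 - b by linarith); linarith)
  set K : ℝ := 1 + F.lam j + |(F.mu j).im| + (F.lam j)⁻¹ * (1 + |(F.mu j).im|) with hK
  have hli : 0 < (F.lam j)⁻¹ := inv_pos.2 hl
  have hK1 : 1 ≤ K := by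
    have : 0 ≤ (F.lam j)⁻¹ * (1 + |(F.mu j).im|) := by positivity
    have := abs_nonneg (F.mu j).im
    rw [hK]; linarith
  have hK0 : 0 < K := by linarith
  refine ⟨C * K ^ (F.lam j * (1 + 2 * (|a| + |b|))), by positivity, ?_⟩
  intro c hc t
  have e1 : (F.lam j : ℂ) * (1 - ln c t) + conj (F.mu j) =
      conj (((F.lam j * (1 - c) + (F.mu j).re : ℝ) : ℂ) +
        ((F.lam j * t + (F.mu j).im : ℝ) : ℂ) * I) := by
    apply Complex.ext
    · simp [ln]
    · simp [ln]
      ring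
  have e2 : (F.lam j : ℂ) * ln c t + F.mu j =
      ((F.lam j * c + (F.mu j).re : ℝ) : ℂ) + ((F.lam j * t + (F.mu j).im : ℝ) : ℂ) * I := by
    apply Complex.ext <;> simp [ln]
  rw [norm_mul, e1, e2, Complex.Gamma_conj, RCLike.norm_conj]
  have h1 := hb' (F.lam j * (1 - c) + (F.mu j).re)
    ⟨by have := mul_le_mul_of_nonneg_left (show 1 - b ≤ 1 - c by linarith [hc.2]) hl.le; linarith,
      by have := mul_le_mul_of_nonneg_left (show 1 - c ≤ 1 - a by linarith [hc.1]) hl.le; linarith⟩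
    (F.lam j * c + (F.mu j).re)
    ⟨by have := mul_le_mul_of_nonneg_left hc.1 hl.le; linarith,
      by have := mul_le_mul_of_nonneg_left hc.2 hl.le; linarith⟩
    (F.lam j * t + (F.mu j).im)
  refine h1.trans ?_
  have e3 : F.lam j * (1 - c) + (F.mu j).re - (F.lam j * c + (F.mu j).re) =
      F.lam j * (1 - 2 * c) := by ring
  rw [e3, mul_assoc]
  apply mul_le_mul_of_nonneg_left _ hC.le
  have ht := abs_nonneg t
  have hmu := abs_nonneg (F.mu j).im
  apply comp_rpow hK1 (by positivity) (by positivity)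
  · have h2 : |F.lam j * t + (F.mu j).im| ≤ F.lam j * |t| + |(F.mu j).im| := by
      refine (abs_add_le _ _).trans ?_
      rw [abs_mul, abs_of_pos hl]
    have h3 : 0 ≤ (F.lam j)⁻¹ * (1 + |(F.mu j).im|) := by positivity
    have h4 : 0 ≤ |(F.mu j).im| * |t| := by positivity
    have h5 : 0 ≤ (F.lam j)⁻¹ * (1 + |(F.mu j).im|) * |t| := by positivity
    rw [hK]
    nlinarith
  · have h2 : F.lam j * |t| ≤ |F.lam j * t + (F.mu j).im| + |(F.mu j).im| := by
      have : F.lam j * t = (F.lam j * t + (F.mu j).im) - (F.mu j).im := by ring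
      calc F.lam j * |t| = |F.lam j * t| := by rw [abs_mul, abs_of_pos hl]
        _ = |(F.lam j * t + (F.mu j).im) - (F.mu j).im| := by rw [← this]
        _ ≤ _ := abs_sub _ _
    set Y := |F.lam j * t + (F.mu j).im| with hY
    have hY0 : 0 ≤ Y := abs_nonneg _
    have h3 : |t| ≤ (F.lam j)⁻¹ * (Y + |(F.mu j).im|) := by
      rw [inv_mul_eq_div, le_div_iff₀ hl]
      linarith
    have h4 : (F.lam j)⁻¹ * (Y + |(F.mu j).im|) ≤
        (F.lam j)⁻¹ * (1 + |(F.mu j).im|) * (1 + Y) := by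
      have : 0 ≤ (F.lam j)⁻¹ * (1 + |(F.mu j).im| * Y) := by positivity
      nlinarith
    have h5 : 1 ≤ (1 + F.lam j + |(F.mu j).im|) * (1 + Y) := by
      have : 0 ≤ F.lam j + |(F.mu j).im| := by positivity
      nlinarith
    rw [hK, add_mul]
    linarith
  · rw [abs_mul, abs_of_pos hl]
    apply mul_le_mul_of_nonneg_left _ hl.le
    have h2 : |c| ≤ |a| + |b| := by
      rw [abs_le]
      constructor
      · have := neg_abs_le a
        have := abs_nonneg b
        linarith [hc.1]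
      · have := le_abs_self b
        have := abs_nonneg a
        linarith [hc.2]
    calc |1 - 2 * c| ≤ |(1 : ℝ)| + |2 * c| := abs_sub _ _
      _ = 1 + 2 * |c| := by rw [abs_one, abs_mul, abs_two]
      _ ≤ _ := by linarith

theorem chi_bound (F : Sel) (a b : ℝ) (hb : b < 1) :
    ∃ C : ℝ, 0 < C ∧ ∀ c ∈ Set.Icc a b, ∀ t : ℝ,
      ‖F.chi (ln c t)‖ ≤ C * (1 + |t|) ^ (F.deg * (1 / 2 - c)) := by
  choose C hC hbd using fun j => factor_bound F a b hb j
  have hQ := F.Q_pos
  refine ⟨(F.Q ^ (1 - 2 * b) + F.Q ^ (1 - 2 * a)) * ∏ j, C j,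
    mul_pos (by positivity) (Finset.prod_pos fun j _ => hC j), ?_⟩
  intro c hc t
  have ht : 0 < 1 + |t| := by positivity
  unfold Sel.chi
  rw [norm_mul, norm_mul, F.om_norm, one_mul, norm_prod, mul_assoc]
  have h1 : ‖(F.Q : ℂ) ^ (1 - 2 * ln c t)‖ ≤ F.Q ^ (1 - 2 * b) + F.Q ^ (1 - 2 * a) := by
    rw [Complex.norm_cpow_eq_rpow_re_of_pos hQ]
    have : (1 - 2 * ln c t).re = 1 - 2 * c := by simp [ln]
    rw [this]
    exact rpow_le_add hQ (by linarith [hc.2]) (by linarith [hc.1])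
  apply mul_le_mul h1 _ (Finset.prod_nonneg fun j _ => norm_nonneg _) (by positivity)
  have h2 : (1 + |t|) ^ (F.deg * (1 / 2 - c)) = ∏ j, (1 + |t|) ^ (F.lam j * (1 - 2 * c)) := by
    rw [← Real.rpow_sum_of_pos ht, ← Finset.sum_mul]
    congr 1
    unfold Sel.deg
    ring
  rw [h2, ← Finset.prod_mul_distrib]
  exact Finset.prod_le_prod (fun j _ => norm_nonneg _) (fun j _ => hbd j c hc t)

end HYM
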