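import Pool.Agent.HYM.Apx

set_option autoImplicit false

/-!
# HYM/LOne: the error term and its regularisation in mean

PROOF. `E x - EV V x = ∫ kV V y (E x - E (x e^{-y})) dy` (`EV_eq`, `kV_integral`), so the integral is at
most `∫ kV V y J(y) dy`, `J(y) = ∫_1^T |E x - E (x e^{-y})| dx`. Claim `J(y) ≤ C T³ |y| e^{3|y|}`:
(i) `|S x - S (x c)| ≤ |A x - A (x c)|` with `A x = ∑_{n ≤ x} ‖f n‖` monotone and `≤ C x²`; shift the
variable in the integral of the smaller one.
(ii) `|res x - res (x e^{-y})| ≤ C T^{3/2} |y| e^{2|y|}` from the circle.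
Finally `|y| e^{3|y|} ≤ V⁻¹ e^{4V|y|}` for `V ≥ 1`.
-/

open Complex MeasureTheory

namespace HYM

/-- the sum of the absolute values -/
noncomputable def Aa (F : Sel) (x : ℝ) : ℝ := ∑ n ∈ Finset.Icc 1 ⌊x⌋₊, ‖F.f n‖

theorem Aa_mono (F : Sel) : Monotone (Aa F) := by
  intro x y h
  unfold Aa
  refine Finset.sum_le_sum_of_subset_of_nonneg ?_ (fun _ _ _ => norm_nonneg _)
  exact Finset.Icc_subset_Icc_right (Nat.floor_mono h)

theorem Aa_nonneg (F : Sel) (x : ℝ) : 0 ≤ Aa F x := Finset.sum_nonneg fun _ _ => norm_nonneg _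

theorem Aa_crude (F : Sel) : ∃ C : ℝ, 0 < C ∧ ∀ x : ℝ, 0 ≤ x → Aa F x ≤ C * x ^ 2 := by
  obtain ⟨C, hC⟩ := F.ram 1 one_pos
  have h1 := hC 1 le_rfl
  rw [Nat.cast_one, Real.one_rpow, mul_one] at h1
  have hC0 : 0 ≤ C := (norm_nonneg _).trans h1
  refine ⟨C + 1, by linarith, fun x hx => ?_⟩
  unfold Aa
  have h2 : ∑ n ∈ Finset.Icc 1 ⌊x⌋₊, ‖F.f n‖ ≤ ∑ _n ∈ Finset.Icc 1 ⌊x⌋₊, C * x := by
    apply Finset.sum_le_sum
    intro n hn
    rw [Finset.mem_Icc] at hn
    refine (hC n hn.1).trans ?_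
    rw [Real.rpow_one]
    apply mul_le_mul_of_nonneg_left _ hC0
    exact (Nat.le_floor_iff hx).1 hn.2
  refine h2.trans ?_
  rw [Finset.sum_const, Nat.card_Icc, nsmul_eq_mul, Nat.add_sub_cancel]
  have h3 : (⌊x⌋₊ : ℝ) ≤ x := Nat.floor_le hx
  have h4 : (⌊x⌋₊ : ℝ) * (C * x) ≤ x * (C * x) :=
    mul_le_mul_of_nonneg_right h3 (by positivity)
  have h5 : 0 ≤ x ^ 2 := by positivity
  nlinarith

theorem S_sub_le (F : Sel) {u v : ℝ} (h : u ≤ v) : ‖F.S v - F.S u‖ ≤ Aa F v - Aa F u := by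
  have hfl : ⌊u⌋₊ ≤ ⌊v⌋₊ := Nat.floor_mono h
  have h2 : Finset.Icc 1 ⌊v⌋₊ = Finset.Icc 1 ⌊u⌋₊ ∪ Finset.Icc (⌊u⌋₊ + 1) ⌊v⌋₊ := by
    ext n
    simp only [Finset.mem_union, Finset.mem_Icc]
    omega
  have h3 : Disjoint (Finset.Icc 1 ⌊u⌋₊) (Finset.Icc (⌊u⌋₊ + 1) ⌊v⌋₊) := by
    rw [Finset.disjoint_left]
    intro n hn hn2
    rw [Finset.mem_Icc] at hn hn2
    omega
  unfold Sel.S Aa
  rw [h2, Finset.sum_union h3, Finset.sum_union h3, add_sub_cancel_left, add_sub_cancel_left]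
  exact norm_sum_le _ _

theorem S_sub_abs (F : Sel) (u v : ℝ) : ‖F.S v - F.S u‖ ≤ |Aa F v - Aa F u| := by
  rcases le_total u v with h | h
  · exact (S_sub_le F h).trans (le_abs_self _)
  · rw [norm_sub_rev, abs_sub_comm]
    exact (S_sub_le F h).trans (le_abs_self _)

theorem Aa_ii (F : Sel) (a b : ℝ) : IntervalIntegrable (Aa F) volume a b :=
  (Aa_mono F).intervalIntegrable

theorem Aa_int_le (F : Sel) {a b : ℝ} (h : a ≤ b) :
    ∫ x in a..b, Aa F x ≤ (b - a) * Aa F b := by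
  have h1 : ∫ x in a..b, Aa F x ≤ ∫ _x in a..b, Aa F b :=
    intervalIntegral.integral_mono_on h (Aa_ii F a b) intervalIntegrable_const
      fun x hx => Aa_mono F hx.2
  rw [intervalIntegral.integral_const, smul_eq_mul] at h1
  exact h1

theorem Aa_shift (F : Sel) : ∃ C : ℝ, 0 < C ∧ ∀ T : ℝ, 1 ≤ T → ∀ y : ℝ,
    ∫ x in (1 : ℝ)..T, |Aa F x - Aa F (x * Real.exp (-y))| ≤
      C * T ^ 3 * (|y| * Real.exp (3 * |y|)) := by
  obtain ⟨C, hC, hA⟩ := Aa_crude F
  refine ⟨C, hC, fun T hT y => ?_⟩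
  have hT0 : 0 < T := by linarith
  set c : ℝ := Real.exp (-y) with hc
  have hc0 : 0 < c := Real.exp_pos _
  have hsub : ∫ x in (1 : ℝ)..T, Aa F (x * c) = c⁻¹ * ∫ u in c..(T * c), Aa F u := by
    rw [intervalIntegral.integral_comp_mul_right (fun u => Aa F u) hc0.ne', one_mul, smul_eq_mul]
  have hmc : Monotone fun x : ℝ => Aa F (x * c) := fun x x' h =>
    Aa_mono F (mul_le_mul_of_nonneg_right h hc0.le)
  have hii : IntervalIntegrable (fun x : ℝ => Aa F (x * c)) volume 1 T := hmc.intervalIntegrable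
  have hnn : ∀ a b : ℝ, a ≤ b → 0 ≤ ∫ u in a..b, Aa F u := fun a b h =>
    intervalIntegral.integral_nonneg h fun u _ => Aa_nonneg F u
  rcases le_total 0 y with hy | hy
  · have hc1 : c ≤ 1 := by rw [hc]; exact Real.exp_le_one_iff.2 (by linarith)
    have hTc : T * c ≤ T := by nlinarith
    have e1 : ∫ x in (1 : ℝ)..T, |Aa F x - Aa F (x * c)| =
        ∫ x in (1 : ℝ)..T, (Aa F x - Aa F (x * c)) := by
      refine intervalIntegral.integral_congr fun x hx => ?_
      rw [Set.uIcc_of_le hT] at hx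
      have hx0 : 0 ≤ x := by linarith [hx.1]
      exact abs_of_nonneg (sub_nonneg.2 (Aa_mono F (by nlinarith)))
    rw [e1, intervalIntegral.integral_sub (Aa_ii F 1 T) hii, hsub]
    have h1 : ∫ u in c..(T * c), Aa F u ≤ c⁻¹ * ∫ u in c..(T * c), Aa F u := by
      have h2 : 1 ≤ c⁻¹ := (one_le_inv₀ hc0).2 hc1
      have h3 := hnn c (T * c) (by nlinarith)
      nlinarith
    have h4 : (∫ u in (1 : ℝ)..T, Aa F u) - ∫ u in c..(T * c), Aa F u =
        (∫ u in (T * c)..T, Aa F u) - ∫ u in c..(1 : ℝ), Aa F u := by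
      have h5 := intervalIntegral.integral_add_adjacent_intervals (Aa_ii F c 1) (Aa_ii F 1 T)
      have h6 := intervalIntegral.integral_add_adjacent_intervals (Aa_ii F c (T * c))
        (Aa_ii F (T * c) T)
      linarith
    have h7 := hnn c 1 hc1
    have h8 := Aa_int_le F hTc
    have h9 := hA T hT0.le
    have h10 : 1 - c ≤ y := by
      have := Real.add_one_le_exp (-y)
      rw [hc]; linarith
    have h11 : (T - T * c) * Aa F T ≤ (T * y) * (C * T ^ 2) := by
      refine mul_le_mul ?_ h9 (Aa_nonneg F T) (by positivity)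
      nlinarith
    have h12 : C * T ^ 3 * (y * 1) ≤ C * T ^ 3 * (|y| * Real.exp (3 * |y|)) := by
      refine mul_le_mul_of_nonneg_left ?_ (by positivity)
      exact mul_le_mul (le_abs_self y) (Real.one_le_exp (by positivity)) zero_le_one (abs_nonneg y)
    calc (∫ u in (1 : ℝ)..T, Aa F u) - c⁻¹ * ∫ u in c..(T * c), Aa F u
        ≤ (T - T * c) * Aa F T := by linarith
      _ ≤ (T * y) * (C * T ^ 2) := h11
      _ = C * T ^ 3 * (y * 1) := by ring
      _ ≤ _ := h12
  · have hc1 : 1 ≤ c := by rw [hc]; exact Real.one_le_exp (by linarith)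
    have hTc : T ≤ T * c := by nlinarith
    have e1 : ∫ x in (1 : ℝ)..T, |Aa F x - Aa F (x * c)| =
        ∫ x in (1 : ℝ)..T, (Aa F (x * c) - Aa F x) := by
      refine intervalIntegral.integral_congr fun x hx => ?_
      rw [Set.uIcc_of_le hT] at hx
      have hx0 : 0 ≤ x := by linarith [hx.1]
      have h0 : Aa F x ≤ Aa F (x * c) := Aa_mono F (by nlinarith)
      show |Aa F x - Aa F (x * c)| = Aa F (x * c) - Aa F x
      rw [abs_sub_comm]
      exact abs_of_nonneg (sub_nonneg.2 h0)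
    rw [e1, intervalIntegral.integral_sub hii (Aa_ii F 1 T), hsub]
    have h1 : c⁻¹ * ∫ u in c..(T * c), Aa F u ≤ ∫ u in c..(T * c), Aa F u := by
      have h2 : c⁻¹ ≤ 1 := inv_le_one_of_one_le₀ hc1
      have h3 := hnn c (T * c) (by nlinarith)
      nlinarith
    have h4 : (∫ u in c..(T * c), Aa F u) - (∫ u in (1 : ℝ)..T, Aa F u) =
        (∫ u in T..(T * c), Aa F u) - ∫ u in (1 : ℝ)..c, Aa F u := by
      have h5 := intervalIntegral.integral_add_adjacent_intervals (Aa_ii F 1 c)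
        (Aa_ii F c (T * c))
      have h6 := intervalIntegral.integral_add_adjacent_intervals (Aa_ii F 1 T)
        (Aa_ii F T (T * c))
      linarith
    have h7 := hnn 1 c hc1
    have h8 := Aa_int_le F hTc
    have h9 := hA (T * c) (by positivity)
    have hay : |y| = -y := abs_of_nonpos hy
    have hcy : c = Real.exp |y| := by rw [hay]
    have h10 : c - 1 ≤ |y| * c := by
      have := Real.add_one_le_exp (-|y|)
      have h2 : Real.exp (-|y|) * Real.exp |y| = 1 := by rw [← Real.exp_add]; simp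
      rw [hcy]
      have h3 := Real.exp_pos |y|
      nlinarith
    have h11 : (T * c - T) * Aa F (T * c) ≤ (T * (|y| * c)) * (C * (T * c) ^ 2) := by
      refine mul_le_mul ?_ h9 (Aa_nonneg F _) (by positivity)
      nlinarith
    have h12 : c ^ 3 = Real.exp (3 * |y|) := by
      rw [hcy, ← Real.exp_nat_mul]
      norm_num
    calc c⁻¹ * (∫ u in c..(T * c), Aa F u) - (∫ u in (1 : ℝ)..T, Aa F u)
        ≤ (T * c - T) * Aa F (T * c) := by linarith
      _ ≤ (T * (|y| * c)) * (C * (T * c) ^ 2) := h11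
      _ = C * T ^ 3 * (|y| * c ^ 3) := by ring
      _ = _ := by rw [h12]

theorem res_diff2 (F : Sel) : ∃ C : ℝ, 0 < C ∧
    ∀ T : ℝ, 1 ≤ T → ∀ x : ℝ, 1 ≤ x → x ≤ T → ∀ y : ℝ,
      ‖F.res x - F.res (x * Real.exp (-y))‖ ≤ C * T ^ 2 * (|y| * Real.exp (3 * |y|)) := by
  obtain ⟨M, hM, hL⟩ := EVq_Lbound F
  refine ⟨4 * M, by positivity, ?_⟩
  intro T hT x hx hxT y
  have hx0 : 0 < x := by linarith
  have hT0 : 0 < T := by linarith
  have hx' : 0 < x * Real.exp (-y) := mul_pos hx0 (Real.exp_pos _)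
  have hci : ∀ u : ℝ, 0 < u → CircleIntegrable (fun z => F.L z * (u : ℂ) ^ z / z) 1 (1 / 2) := by
    intro u hu
    refine ContinuousOn.circleIntegrable (by norm_num) ?_
    refine ((EVq_Lcont F).mul ?_).div continuousOn_id fun z hz => (EVq_sph hz).2.2.2.1
    exact fun z _ => ((differentiableAt_id).const_cpow
      (Or.inl (by exact_mod_cast hu.ne'))).continuousAt.continuousWithinAt
  have e0 : F.res x - F.res (x * Real.exp (-y)) = (2 * (Real.pi : ℂ) * I)⁻¹ *
      ∮ z in C(1, 1 / 2), (F.L z * (x : ℂ) ^ z / z -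
        F.L z * ((x * Real.exp (-y) : ℝ) : ℂ) ^ z / z) := by
    rw [circleIntegral.integral_sub (hci x hx0) (hci _ hx'), mul_sub]
    rfl
  rw [e0]
  have hbound : ∀ z ∈ Metric.sphere (1 : ℂ) (1 / 2), ‖F.L z * (x : ℂ) ^ z / z -
      F.L z * ((x * Real.exp (-y) : ℝ) : ℂ) ^ z / z‖
      ≤ 4 * M * (T ^ 2 * (|y| * Real.exp (3 * |y|))) := by
    intro z hz
    obtain ⟨hz1, hz2, -, -, hz5⟩ := EVq_sph hz
    have hz6 : ‖z‖ ≤ 3 / 2 := by
      rw [mem_sphere_iff_norm] at hz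
      have := norm_add_le (z - 1) 1
      rw [sub_add_cancel, hz, norm_one] at this
      linarith
    rw [cpow_mul_exp hx0]
    have e1 : F.L z * (x : ℂ) ^ z / z - F.L z * ((x : ℂ) ^ z * cexp (-(y * z))) / z =
        F.L z * ((x : ℂ) ^ z * (1 - cexp (-(y * z)))) / z := by ring
    rw [e1, norm_div, norm_mul, norm_mul, Complex.norm_cpow_eq_rpow_re_of_pos hx0]
    have h1 : ‖F.L z‖ ≤ M := hL z hz
    have h2 : x ^ z.re ≤ T ^ 2 := by
      have h3 : x ^ z.re ≤ x ^ (2 : ℝ) := Real.rpow_le_rpow_of_exponent_le hx (by linarith)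
      rw [Real.rpow_two] at h3
      exact h3.trans (pow_le_pow_left₀ hx0.le hxT 2)
    have h3 : ‖1 - cexp (-(y * z))‖ ≤ 2 * (|y| * Real.exp (3 * |y|)) := by
      refine (norm_one_sub_cexp_le _).trans ?_
      have h4 : ‖(y : ℂ) * z‖ ≤ 2 * |y| := by
        rw [norm_mul, Complex.norm_real, Real.norm_eq_abs]
        nlinarith [abs_nonneg y]
      have h5 : ‖(y : ℂ) * z‖ ≤ 3 * |y| := by
        have := abs_nonneg y
        linarith
      calc ‖(y : ℂ) * z‖ * Real.exp ‖(y : ℂ) * z‖ ≤ (2 * |y|) * Real.exp (3 * |y|) :=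
            mul_le_mul h4 (Real.exp_le_exp.2 h5) (Real.exp_pos _).le (by positivity)
        _ = _ := by ring
    have h5 : 0 ≤ |y| * Real.exp (3 * |y|) := by positivity
    rw [div_le_iff₀ (by linarith)]
    calc ‖F.L z‖ * (x ^ z.re * ‖1 - cexp (-(y * z))‖)
        ≤ M * (T ^ 2 * (2 * (|y| * Real.exp (3 * |y|)))) := by
          refine mul_le_mul h1 (mul_le_mul h2 h3 (norm_nonneg _) (by positivity))
            (by positivity) hM.le
      _ = (4 * M * (T ^ 2 * (|y| * Real.exp (3 * |y|)))) * (1 / 2) := by ring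
      _ ≤ _ := mul_le_mul_of_nonneg_left hz5 (by positivity)
  have hint := circleIntegral.norm_two_pi_i_inv_smul_integral_le_of_norm_le_const
    (by norm_num) hbound
  rw [smul_eq_mul] at hint
  refine hint.trans ?_
  have h6 : 0 ≤ M * (T ^ 2 * (|y| * Real.exp (3 * |y|))) := by positivity
  nlinarith

theorem S_meas2 (F : Sel) : Measurable F.S := EVq_S_meas F

theorem E_J (F : Sel) : ∃ C : ℝ, 0 < C ∧ ∀ T : ℝ, 1 ≤ T → ∀ y : ℝ,
    ∫ x in Set.Ioc (1 : ℝ) T, ‖F.E x - F.E (x * Real.exp (-y))‖ ≤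
      C * T ^ 3 * (|y| * Real.exp (3 * |y|)) := by
  obtain ⟨C1, hC1, h1⟩ := Aa_shift F
  obtain ⟨C2, hC2, h2⟩ := res_diff2 F
  refine ⟨C1 + C2, by positivity, fun T hT y => ?_⟩
  have hT0 : 0 < T := by linarith
  have hmc : Monotone fun x : ℝ => Aa F (x * Real.exp (-y)) := fun x x' h =>
    Aa_mono F (mul_le_mul_of_nonneg_right h (Real.exp_pos _).le)
  have hii : IntervalIntegrable (fun x : ℝ => |Aa F x - Aa F (x * Real.exp (-y))|) volume 1 T :=
    ((Aa_ii F 1 T).sub hmc.intervalIntegrable).abs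
  set R : ℝ := C2 * T ^ 2 * (|y| * Real.exp (3 * |y|)) with hR
  have hR0 : 0 ≤ R := by positivity
  have hi2 : IntegrableOn (fun x : ℝ => |Aa F x - Aa F (x * Real.exp (-y))|)
      (Set.Ioc (1 : ℝ) T) volume := (intervalIntegrable_iff_integrableOn_Ioc_of_le hT).1 hii
  have hi3 : IntegrableOn (fun x : ℝ => |Aa F x - Aa F (x * Real.exp (-y))| + R)
      (Set.Ioc (1 : ℝ) T) volume :=
    hi2.add (integrableOn_const (by rw [Real.volume_Ioc]; exact ENNReal.ofReal_ne_top))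
  have hle : ∫ x in Set.Ioc (1 : ℝ) T, ‖F.E x - F.E (x * Real.exp (-y))‖ ≤
      ∫ x in Set.Ioc (1 : ℝ) T, (|Aa F x - Aa F (x * Real.exp (-y))| + R) := by
    refine integral_mono_of_nonneg (Filter.Eventually.of_forall fun _ => norm_nonneg _) hi3 ?_
    refine (ae_restrict_mem measurableSet_Ioc).mono fun x hx => ?_
    have e : F.E x - F.E (x * Real.exp (-y)) = (F.S x - F.S (x * Real.exp (-y))) -
        (F.res x - F.res (x * Real.exp (-y))) := by
      unfold Sel.E; ring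
    simp only
    rw [e]
    exact (norm_sub_le _ _).trans (add_le_add (S_sub_abs F _ _) (h2 T hT x hx.1.le hx.2 y))
  refine hle.trans ?_
  have e2 : ∫ x in Set.Ioc (1 : ℝ) T, (|Aa F x - Aa F (x * Real.exp (-y))| + R) =
      (∫ x in (1 : ℝ)..T, |Aa F x - Aa F (x * Real.exp (-y))|) + (T - 1) * R := by
    rw [← intervalIntegral.integral_of_le hT, intervalIntegral.integral_add hii
      intervalIntegrable_const, intervalIntegral.integral_const, smul_eq_mul]
  rw [e2]
  have h3 := h1 T hT y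
  have h4 : (T - 1) * R ≤ C2 * T ^ 3 * (|y| * Real.exp (3 * |y|)) := by
    calc (T - 1) * R ≤ T * R := mul_le_mul_of_nonneg_right (by linarith) hR0
      _ = _ := by rw [hR]; ring
  calc (∫ x in (1 : ℝ)..T, |Aa F x - Aa F (x * Real.exp (-y))|) + (T - 1) * R
      ≤ C1 * T ^ 3 * (|y| * Real.exp (3 * |y|)) + C2 * T ^ 3 * (|y| * Real.exp (3 * |y|)) :=
        add_le_add h3 h4
    _ = _ := by ring

theorem E_L1 (F : Sel) : ∃ C : ℝ, 0 < C ∧ ∀ T : ℝ, 1 ≤ T → ∀ V : ℝ, 1 ≤ V →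
    ∫ x in (1 : ℝ)..T, ‖F.E x - F.EV V x‖ ≤ C * T ^ 3 / V := by
  obtain ⟨C, hC, hJ⟩ := E_J F
  obtain ⟨C0, hC0, hcr⟩ := E_crude F
  refine ⟨C * (Ka 4 + 1), by have := Ka_nonneg 4; positivity, fun T hT V hV => ?_⟩
  have hT0 : 0 < T := by linarith
  have hV0 : 0 < V := by linarith
  set μ : Measure ℝ := volume.restrict (Set.Ioc (1 : ℝ) T) with hμ
  set g : ℝ → ℝ → ℝ := fun x y => kV V y * ‖F.E x - F.E (x * Real.exp (-y))‖ with hg
  have hg0 : ∀ x y, 0 ≤ g x y := fun x y => mul_nonneg (kV_pos hV0 y).le (norm_nonneg _)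
  have hpt : ∀ x ∈ Set.Ioc (1 : ℝ) T, ‖F.E x - F.EV V x‖ ≤ ∫ y : ℝ, g x y := by
    intro x hx
    have hx0 : 0 < x := by linarith [hx.1]
    have hkint : Integrable fun y : ℝ => (kV V y : ℂ) * F.E x :=
      ((kV_integrable hV0).ofReal).mul_const _
    have hEV : F.E x - F.EV V x =
        ∫ y : ℝ, (kV V y : ℂ) * (F.E x - F.E (x * Real.exp (-y))) := by
      have h3 : ∀ y : ℝ, (kV V y : ℂ) * (F.E x - F.E (x * Real.exp (-y))) =
          (kV V y : ℂ) * F.E x - (kV V y : ℂ) * F.E (x * Real.exp (-y)) := fun y => by ring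
      simp only [h3]
      rw [integral_sub hkint (kE_integrable F hV0 hx0), ← EV_eq F hV0 hx0]
      congr 1
      rw [integral_mul_const]
      have h4 : ∫ y : ℝ, (kV V y : ℂ) = ((∫ y : ℝ, kV V y : ℝ) : ℂ) := integral_ofReal
      rw [h4, kV_integral hV0, Complex.ofReal_one, one_mul]
    rw [hEV]
    refine (norm_integral_le_integral_norm _).trans (le_of_eq ?_)
    refine integral_congr_ae (Filter.Eventually.of_forall fun y => ?_)
    simp only [hg]
    rw [norm_mul, Complex.norm_real, Real.norm_eq_abs, abs_of_pos (kV_pos hV0 y)]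
  have hk1 : Measurable (kV V) := (EVq_kV_cont V).measurable
  have hmeas : Measurable (Function.uncurry g) := by
    have h1 : Measurable fun p : ℝ × ℝ => F.E p.1 := (E_measurable F).comp measurable_fst
    have h2 : Measurable fun p : ℝ × ℝ => F.E (p.1 * Real.exp (-p.2)) := by
      refine (E_measurable F).comp ?_
      fun_prop
    have h3 : Measurable fun p : ℝ × ℝ => kV V p.2 * ‖F.E p.1 - F.E (p.1 * Real.exp (-p.2))‖ :=
      (hk1.comp measurable_snd).mul (h1.sub h2).norm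
    exact h3
  have hint : Integrable (Function.uncurry g) (μ.prod volume) := by
    have hd : Integrable (fun p : ℝ × ℝ => (2 * (C0 * (1 + T ^ 2))) *
        (kV V p.2 * Real.exp (2 * |p.2|))) (μ.prod volume) := by
      have h1 : Integrable (fun _ : ℝ => 2 * (C0 * (1 + T ^ 2))) μ := by
        rw [hμ]
        exact integrableOn_const (by rw [Real.volume_Ioc]; exact ENNReal.ofReal_ne_top)
      exact h1.mul_prod (kV_exp_integrable hV0 2)
    refine hd.mono' hmeas.aestronglyMeasurable ?_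
    have h2 : ∀ᵐ p ∂(μ.prod (volume : Measure ℝ)), p.1 ∈ Set.Ioc (1 : ℝ) T := by
      have h3 : ∀ᵐ x ∂μ, x ∈ Set.Ioc (1 : ℝ) T := ae_restrict_mem measurableSet_Ioc
      exact (Measure.quasiMeasurePreserving_fst (μ := μ) (ν := volume)).ae h3
    filter_upwards [h2] with p hp
    have hx0 : 0 < p.1 := by linarith [hp.1]
    have h4 : ‖F.E p.1‖ ≤ C0 * (1 + T ^ 2) := by
      refine (hcr _ hx0).trans (mul_le_mul_of_nonneg_left ?_ hC0.le)
      have := pow_le_pow_left₀ hx0.le hp.2 2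
      linarith
    have h5 : ‖F.E (p.1 * Real.exp (-p.2))‖ ≤ C0 * (1 + T ^ 2) * Real.exp (2 * |p.2|) := by
      refine (E_comp_bound F hC0 hcr hx0 p.2).trans ?_
      refine mul_le_mul_of_nonneg_right (mul_le_mul_of_nonneg_left ?_ hC0.le) (Real.exp_pos _).le
      have := pow_le_pow_left₀ hx0.le hp.2 2
      linarith
    have h6 : 1 ≤ Real.exp (2 * |p.2|) := Real.one_le_exp (by positivity)
    have h7 : 0 ≤ C0 * (1 + T ^ 2) := by positivity
    show ‖kV V p.2 * ‖F.E p.1 - F.E (p.1 * Real.exp (-p.2))‖‖ ≤ _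
    rw [norm_mul, norm_norm, Real.norm_eq_abs, abs_of_pos (kV_pos hV0 p.2)]
    have h8 : ‖F.E p.1 - F.E (p.1 * Real.exp (-p.2))‖ ≤
        2 * (C0 * (1 + T ^ 2)) * Real.exp (2 * |p.2|) := by
      refine (norm_sub_le _ _).trans ?_
      nlinarith
    calc kV V p.2 * ‖F.E p.1 - F.E (p.1 * Real.exp (-p.2))‖
        ≤ kV V p.2 * (2 * (C0 * (1 + T ^ 2)) * Real.exp (2 * |p.2|)) :=
          mul_le_mul_of_nonneg_left h8 (kV_pos hV0 p.2).le
      _ = _ := by ring
  have hstep1 : ∫ x in (1 : ℝ)..T, ‖F.E x - F.EV V x‖ ≤ ∫ x, ∫ y, g x y ∂volume ∂μ := by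
    rw [intervalIntegral.integral_of_le hT]
    refine integral_mono_of_nonneg (Filter.Eventually.of_forall fun _ => norm_nonneg _)
      hint.integral_prod_left ?_
    exact (ae_restrict_mem measurableSet_Ioc).mono fun x hx => hpt x hx
  refine hstep1.trans ?_
  rw [integral_integral_swap hint]
  have hin : ∀ y : ℝ, ∫ x, g x y ∂μ ≤ C * T ^ 3 / V * (kV V y * Real.exp (4 * V * |y|)) := by
    intro y
    have h1 : ∫ x, g x y ∂μ = kV V y * ∫ x, ‖F.E x - F.E (x * Real.exp (-y))‖ ∂μ := by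
      simp only [hg]
      rw [integral_const_mul]
    have h2 := hJ T hT y
    have h3 : |y| * Real.exp (3 * |y|) ≤ V⁻¹ * Real.exp (4 * V * |y|) := by
      have h4 : V * |y| ≤ Real.exp (V * |y|) := by
        have := Real.add_one_le_exp (V * |y|)
        linarith
      have h5 : Real.exp (3 * |y|) ≤ Real.exp (3 * V * |y|) :=
        Real.exp_le_exp.2 (by nlinarith [abs_nonneg y])
      have h6 : Real.exp (4 * V * |y|) = Real.exp (V * |y|) * Real.exp (3 * V * |y|) := by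
        rw [← Real.exp_add]; congr 1; ring
      rw [h6, ← mul_assoc]
      refine mul_le_mul ?_ h5 (Real.exp_pos _).le (by positivity)
      rw [inv_mul_eq_div, le_div_iff₀ hV0]
      linarith
    rw [h1]
    calc kV V y * ∫ x, ‖F.E x - F.E (x * Real.exp (-y))‖ ∂μ
        ≤ kV V y * (C * T ^ 3 * (V⁻¹ * Real.exp (4 * V * |y|))) :=
          mul_le_mul_of_nonneg_left (h2.trans (mul_le_mul_of_nonneg_left h3 (by positivity)))
            (kV_pos hV0 y).le
      _ = _ := by ring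
  have hfin : ∫ y, ∫ x, g x y ∂μ ≤ ∫ y : ℝ, C * T ^ 3 / V * (kV V y * Real.exp (4 * V * |y|)) := by
    refine integral_mono_of_nonneg (Filter.Eventually.of_forall fun y =>
      integral_nonneg fun x => hg0 x y) ((kV_exp_integrable hV0 (4 * V)).const_mul _)
      (Filter.Eventually.of_forall hin)
  refine hfin.trans ?_
  rw [integral_const_mul, kV_scale hV0 4]
  have hK := Ka_nonneg 4
  have h7 : 0 ≤ C * T ^ 3 / V := by positivity
  calc C * T ^ 3 / V * Ka 4 ≤ C * T ^ 3 / V * (Ka 4 + 1) :=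
        mul_le_mul_of_nonneg_left (by linarith) h7
    _ = _ := by ring

end HYM
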