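import Pool.Agent.HYM.MainA
import Pool.Agent.HYM.LOne
import Pool.Agent.HYM.Ms

set_option autoImplicit false

/-!
# HYM/MainB: the hybrid first moment for the degree 2 and products of two functions of degree ≤ 2
-/

open Complex MeasureTheory

namespace HYM

/-- If `K.f` is the Dirichlet convolution of `G.f` and `H.f` then `K.L = G.L * H.L`. -/
theorem L_mul (G H K : Sel)
    (hK : ∀ n : ℕ, 1 ≤ n → K.f n = ∑ p ∈ n.divisorsAntidiagonal, G.f p.1 * H.f p.2)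
    {s : ℂ} (hs : s ≠ 1) : K.L s = G.L s * H.L s := by
  have hA : ∀ s : ℂ, 1 < s.re → K.P s * (s - 1) ^ (G.m + H.m) =
      G.P s * H.P s * (s - 1) ^ K.m := by
    intro s hs
    have hs1 : s - 1 ≠ 0 := by
      intro h
      have : s = 1 := by linear_combination h
      rw [this] at hs
      simp at hs
    have h1 : LSeries K.f s = LSeries G.f s * LSeries H.f s := by
      rw [← LSeries_convolution' (G.summable s hs) (H.summable s hs)]
      refine LSeries_congr (fun {n} hn => ?_) s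
      rw [hK n (Nat.one_le_iff_ne_zero.2 hn), LSeries.convolution_def]
    rw [K.series s hs, G.series s hs, H.series s hs] at h1
    have h2 : K.P s = G.P s / (s - 1) ^ G.m * (H.P s / (s - 1) ^ H.m) * (s - 1) ^ K.m := by
      rw [← h1]
      field_simp
    rw [h2, pow_add]
    field_simp
  have hall : (fun s : ℂ => K.P s * (s - 1) ^ (G.m + H.m)) =
      fun s : ℂ => G.P s * H.P s * (s - 1) ^ K.m := by
    have e1 : AnalyticOnNhd ℂ (fun s : ℂ => K.P s * (s - 1) ^ (G.m + H.m)) Set.univ := by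
      have h : Differentiable ℂ (fun s : ℂ => K.P s * (s - 1) ^ (G.m + H.m)) :=
        K.P_diff.mul ((differentiable_id.sub_const 1).pow _)
      exact h.differentiableOn.analyticOnNhd isOpen_univ
    have e2 : AnalyticOnNhd ℂ (fun s : ℂ => G.P s * H.P s * (s - 1) ^ K.m) Set.univ := by
      have h : Differentiable ℂ (fun s : ℂ => G.P s * H.P s * (s - 1) ^ K.m) :=
        (G.P_diff.mul H.P_diff).mul ((differentiable_id.sub_const 1).pow _)
      exact h.differentiableOn.analyticOnNhd isOpen_univ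
    refine e1.eq_of_eventuallyEq e2 (z₀ := 2) ?_
    have ho : IsOpen {s : ℂ | 1 < s.re} := isOpen_lt continuous_const continuous_re
    filter_upwards [ho.mem_nhds (show (2 : ℂ) ∈ {s : ℂ | 1 < s.re} by simp)] with s hs
    exact hA s hs
  have h : K.P s * (s - 1) ^ (G.m + H.m) = G.P s * H.P s * (s - 1) ^ K.m := congrFun hall s
  have hs1 : s - 1 ≠ 0 := sub_ne_zero.2 hs
  unfold Sel.L
  rw [pow_add] at h
  field_simp
  linear_combination h

/-- The integrand of the regularised error term on the critical line. -/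
noncomputable def Sel.Lam (K : Sel) (V t : ℝ) : ℂ :=
  K.L (ln (1 / 2) t) / ln (1 / 2) t * cexp ((ln (1 / 2) t) ^ 2 / (V : ℂ) ^ 2)

theorem ln_half_ne_one (t : ℝ) : ln (1 / 2) t ≠ 1 := by
  intro h
  have := congrArg Complex.re h
  rw [ln_re] at this
  norm_num at this

theorem ln_continuous (c : ℝ) : Continuous (fun t : ℝ => ln c t) := by
  unfold ln
  fun_prop

theorem ln_half_norm (t : ℝ) : (1 + |t|) / 3 ≤ ‖ln (1 / 2) t‖ := by
  have h1 : |t| ≤ ‖ln (1 / 2) t‖ := by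
    have := Complex.abs_im_le_norm (ln (1 / 2) t)
    rwa [ln_im] at this
  have h2 : 1 / 2 ≤ ‖ln (1 / 2) t‖ := by
    have := Complex.abs_re_le_norm (ln (1 / 2) t)
    rw [ln_re] at this
    rwa [abs_of_pos (by norm_num : (0 : ℝ) < 1 / 2)] at this
  linarith

theorem L_half_continuous (K : Sel) : Continuous (fun t : ℝ => K.L (ln (1 / 2) t)) := by
  unfold Sel.L
  refine Continuous.div (K.P_diff.continuous.comp (ln_continuous _))
    (((ln_continuous _).sub continuous_const).pow _) fun t => ?_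
  exact pow_ne_zero _ (sub_ne_zero.2 (ln_half_ne_one t))

theorem gauss_half_norm {V : ℝ} (hV : 1 ≤ V) (t : ℝ) :
    ‖cexp ((ln (1 / 2) t) ^ 2 / (V : ℂ) ^ 2)‖ ≤ Real.exp 1 * Real.exp (-(t / V) ^ 2) := by
  rw [Complex.norm_exp, ← Real.exp_add]
  refine Real.exp_le_exp.2 ?_
  have h : ((ln (1 / 2) t) ^ 2 / (V : ℂ) ^ 2).re = (1 / 4 - t ^ 2) / V ^ 2 := by
    have : (ln (1 / 2) t) ^ 2 / (V : ℂ) ^ 2 =
        (((1 / 4 - t ^ 2) / V ^ 2 : ℝ) : ℂ) + ((t / V ^ 2 : ℝ) : ℂ) * I := by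
      unfold ln
      push_cast
      ring_nf
      rw [I_sq]
      ring
    rw [this, Complex.add_re, Complex.ofReal_re, Complex.re_ofReal_mul, Complex.I_re, mul_zero,
      add_zero]
  rw [h, div_pow, sub_div]
  have h2 : 1 / 4 / V ^ 2 ≤ 1 := by
    rw [div_le_one (by positivity)]
    nlinarith
  linarith

theorem Lam_continuous (K : Sel) (V : ℝ) : Continuous (K.Lam V) := by
  unfold Sel.Lam
  refine Continuous.mul (Continuous.div (L_half_continuous K) (ln_continuous _) ln_half_ne) ?_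
  exact Complex.continuous_exp.comp (((ln_continuous _).pow 2).div_const _)

/-- The first absolute moment of `K.Lam` for a product `K.L = G.L * H.L`. -/
theorem Lam_L1 (G H K : Sel) (hG : G.deg ≤ 2) (hH : H.deg ≤ 2)
    (hK : ∀ n : ℕ, 1 ≤ n → K.f n = ∑ p ∈ n.divisorsAntidiagonal, G.f p.1 * H.f p.2)
    {ε : ℝ} (hε : 0 < ε) :
    ∃ C : ℝ, 0 < C ∧ ∀ V : ℝ, 1 ≤ V → Integrable (K.Lam V) ∧
      ∫ t : ℝ, ‖K.Lam V t‖ ≤ C * V ^ ε := by
  obtain ⟨C₁, hC₁, H₁⟩ := ms_half G hG hε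
  obtain ⟨C₂, hC₂, H₂⟩ := ms_half H hH hε
  refine ⟨3 * Real.exp 1 * (C₁ + C₂), by positivity, fun V hV => ?_⟩
  obtain ⟨i1, b1⟩ := H₁ V hV
  obtain ⟨i2, b2⟩ := H₂ V hV
  have hpt : ∀ t : ℝ, ‖K.Lam V t‖ ≤ 3 * Real.exp 1 *
      ((1 + |t|)⁻¹ * Real.exp (-(t / V) ^ 2) * ‖G.L (ln (1 / 2) t)‖ ^ 2 +
        (1 + |t|)⁻¹ * Real.exp (-(t / V) ^ 2) * ‖H.L (ln (1 / 2) t)‖ ^ 2) := by
    intro t
    unfold Sel.Lam
    rw [norm_mul, norm_div, L_mul G H K hK (ln_half_ne_one t), norm_mul]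
    have h1 := ln_half_norm t
    have ht : 0 < 1 + |t| := by positivity
    have h2 : ‖G.L (ln (1 / 2) t)‖ * ‖H.L (ln (1 / 2) t)‖ / ‖ln (1 / 2) t‖ ≤
        (‖G.L (ln (1 / 2) t)‖ ^ 2 + ‖H.L (ln (1 / 2) t)‖ ^ 2) * (3 * (1 + |t|)⁻¹) := by
      rw [div_eq_mul_inv]
      have h3 : ‖ln (1 / 2) t‖⁻¹ ≤ 3 * (1 + |t|)⁻¹ := by
        rw [inv_le_comm₀ (lt_of_lt_of_le (by positivity) h1) (by positivity), mul_inv, inv_inv]
        linarith
      refine mul_le_mul ?_ h3 (by positivity) (by positivity)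
      nlinarith [sq_nonneg (‖G.L (ln (1 / 2) t)‖ - ‖H.L (ln (1 / 2) t)‖),
        norm_nonneg (G.L (ln (1 / 2) t)), norm_nonneg (H.L (ln (1 / 2) t))]
    calc _ ≤ ((‖G.L (ln (1 / 2) t)‖ ^ 2 + ‖H.L (ln (1 / 2) t)‖ ^ 2) * (3 * (1 + |t|)⁻¹)) *
          (Real.exp 1 * Real.exp (-(t / V) ^ 2)) :=
          mul_le_mul h2 (gauss_half_norm hV t) (norm_nonneg _) (by positivity)
      _ = _ := by ring
  have hint : Integrable (K.Lam V) :=
    ((i1.add i2).const_mul (3 * Real.exp 1)).mono' (Lam_continuous K V).aestronglyMeasurable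
      (Filter.Eventually.of_forall hpt)
  refine ⟨hint, ?_⟩
  calc ∫ t : ℝ, ‖K.Lam V t‖ ≤ ∫ t : ℝ, 3 * Real.exp 1 *
      ((1 + |t|)⁻¹ * Real.exp (-(t / V) ^ 2) * ‖G.L (ln (1 / 2) t)‖ ^ 2 +
        (1 + |t|)⁻¹ * Real.exp (-(t / V) ^ 2) * ‖H.L (ln (1 / 2) t)‖ ^ 2) :=
        integral_mono hint.norm ((i1.add i2).const_mul (3 * Real.exp 1)) hpt
    _ = 3 * Real.exp 1 * ((∫ t : ℝ, (1 + |t|)⁻¹ * Real.exp (-(t / V) ^ 2) *
        ‖G.L (ln (1 / 2) t)‖ ^ 2) + ∫ t : ℝ, (1 + |t|)⁻¹ * Real.exp (-(t / V) ^ 2) *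
        ‖H.L (ln (1 / 2) t)‖ ^ 2) := by
        rw [integral_const_mul, integral_add i1 i2]
    _ ≤ 3 * Real.exp 1 * (C₁ * V ^ ε + C₂ * V ^ ε) :=
        mul_le_mul_of_nonneg_left (add_le_add b1 b2) (by positivity)
    _ = _ := by ring

/-- The Gaussian weight against a shifted kernel. -/
theorem kernel_shift {ε : ℝ} (hε : 0 < ε) : ∃ C : ℝ, 0 < C ∧ ∀ V : ℝ, 1 ≤ V → ∀ u : ℝ,
    Integrable (fun t : ℝ => (1 + |t|) ^ (2 * ε) * Real.exp (-(t / V) ^ 2) *
      (1 + |u + t|)⁻¹) ∧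
    ∫ t : ℝ, (1 + |t|) ^ (2 * ε) * Real.exp (-(t / V) ^ 2) * (1 + |u + t|)⁻¹ ≤
      C * V ^ (3 * ε) := by
  obtain ⟨C₀, hC₀, H₀⟩ := pow_gauss (q := 2 * ε) (by positivity)
  -- `∫ (1+|t|)^(-1-ε)`
  have hi0 : Integrable (fun t : ℝ => (1 + |t|) ^ (-(1 + ε))) := by
    have := integrable_one_add_norm (E := ℝ) (μ := volume) (r := 1 + ε) (by simp; exact hε)
    simpa [Real.norm_eq_abs] using this
  set M : ℝ := ∫ t : ℝ, (1 + |t|) ^ (-(1 + ε)) with hM
  have hM0 : 0 ≤ M := integral_nonneg fun t => by positivity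
  refine ⟨C₀ * (2 : ℝ) ^ (3 * ε) * (M + √(2 * Real.pi)), by positivity, fun V hV u => ?_⟩
  have hV0 : 0 < V := by linarith
  set W : ℝ := √2 * V with hW
  have hs2 : √2 ^ 2 = (2 : ℝ) := Real.sq_sqrt (by norm_num)
  have hs1 : 1 ≤ √2 := by
    rw [Real.le_sqrt (by norm_num) (by norm_num)]; norm_num
  have hs3 : √2 ≤ 2 := by
    rw [Real.sqrt_le_left (by norm_num)]; norm_num
  have hW1 : 1 ≤ W := by nlinarith
  have hW2 : W ≤ 2 * V := by nlinarith
  have hsplit : ∀ t : ℝ, Real.exp (-(t / V) ^ 2) =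
      Real.exp (-(t / W) ^ 2) * Real.exp (-(t / W) ^ 2) := by
    intro t
    rw [← Real.exp_add]
    congr 1
    rw [hW, div_pow, div_pow, mul_pow, hs2]
    field_simp
    ring
  have hg : Integrable (fun t : ℝ => Real.exp (-(t / W) ^ 2)) := by
    have := integrable_exp_neg_mul_sq (b := (W ^ 2)⁻¹) (by positivity)
    refine this.congr (Filter.Eventually.of_forall fun t => ?_)
    simp only
    congr 1
    rw [div_pow]; ring
  have hgi : ∫ t : ℝ, Real.exp (-(t / W) ^ 2) = √(2 * Real.pi) * V := by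
    have h1 : ∀ t : ℝ, Real.exp (-(t / W) ^ 2) = Real.exp (-(W ^ 2)⁻¹ * t ^ 2) := by
      intro t; congr 1; rw [div_pow]; ring
    simp_rw [h1]
    rw [integral_gaussian, hW, mul_pow, hs2]
    rw [show Real.pi / (2 * V ^ 2)⁻¹ = (2 * Real.pi) * V ^ 2 by field_simp,
      Real.sqrt_mul (by positivity), Real.sqrt_sq hV0.le]
  have hi1 : Integrable (fun t : ℝ => (1 + |u + t|) ^ (-(1 + ε))) := hi0.comp_add_left u
  have hi1v : ∫ t : ℝ, (1 + |u + t|) ^ (-(1 + ε)) = M :=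
    integral_add_left_eq_self (fun t : ℝ => (1 + |t|) ^ (-(1 + ε))) u
  have hpt : ∀ t : ℝ, (1 + |t|) ^ (2 * ε) * Real.exp (-(t / V) ^ 2) * (1 + |u + t|)⁻¹ ≤
      C₀ * (2 * V) ^ (2 * ε) * ((2 * V) ^ ε * (1 + |u + t|) ^ (-(1 + ε)) +
        V⁻¹ * Real.exp (-(t / W) ^ 2)) := by
    intro t
    have h1 : (1 + |t|) ^ (2 * ε) * Real.exp (-(t / W) ^ 2) ≤ C₀ * (2 * V) ^ (2 * ε) :=
      (H₀ W hW1 t).trans (mul_le_mul_of_nonneg_left
        (Real.rpow_le_rpow (by linarith) hW2 (by positivity)) hC₀.le)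
    have hut : 0 < 1 + |u + t| := by positivity
    have h2 : Real.exp (-(t / W) ^ 2) * (1 + |u + t|)⁻¹ ≤
        (2 * V) ^ ε * (1 + |u + t|) ^ (-(1 + ε)) + V⁻¹ * Real.exp (-(t / W) ^ 2) := by
      have he : Real.exp (-(t / W) ^ 2) ≤ 1 := Real.exp_le_one_iff.2 (by
        have := sq_nonneg (t / W); linarith)
      rcases le_or_gt |u + t| V with h | h
      · have h3 : (1 + |u + t|)⁻¹ ≤ (2 * V) ^ ε * (1 + |u + t|) ^ (-(1 + ε)) := by
          rw [neg_add, Real.rpow_add hut, Real.rpow_neg_one, mul_left_comm]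
          refine le_mul_of_one_le_right (by positivity) ?_
          rw [Real.rpow_neg hut.le, ← div_eq_mul_inv, one_le_div (by positivity)]
          exact Real.rpow_le_rpow hut.le (by linarith) hε.le
        have h4 : 0 ≤ V⁻¹ * Real.exp (-(t / W) ^ 2) := by positivity
        calc _ ≤ 1 * (1 + |u + t|)⁻¹ := mul_le_mul_of_nonneg_right he (by positivity)
          _ ≤ _ := by linarith
      · have h3 : (1 + |u + t|)⁻¹ ≤ V⁻¹ := inv_anti₀ hV0 (by linarith)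
        have h4 : 0 ≤ (2 * V) ^ ε * (1 + |u + t|) ^ (-(1 + ε)) := by positivity
        calc _ ≤ Real.exp (-(t / W) ^ 2) * V⁻¹ := mul_le_mul_of_nonneg_left h3 (by positivity)
          _ ≤ _ := by linarith
    calc _ = ((1 + |t|) ^ (2 * ε) * Real.exp (-(t / W) ^ 2)) *
          (Real.exp (-(t / W) ^ 2) * (1 + |u + t|)⁻¹) := by rw [hsplit]; ring
      _ ≤ _ := mul_le_mul h1 h2 (by positivity) (by positivity)
  have hbi : Integrable (fun t : ℝ => C₀ * (2 * V) ^ (2 * ε) *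
      ((2 * V) ^ ε * (1 + |u + t|) ^ (-(1 + ε)) + V⁻¹ * Real.exp (-(t / W) ^ 2))) :=
    ((hi1.const_mul _).add (hg.const_mul _)).const_mul _
  have hcont : Continuous (fun t : ℝ => (1 + |t|) ^ (2 * ε) * Real.exp (-(t / V) ^ 2) *
      (1 + |u + t|)⁻¹) := by
    refine Continuous.mul (Continuous.mul ?_ (by fun_prop)) ?_
    · exact Continuous.rpow_const (by fun_prop) (fun t => Or.inl (by positivity))
    · exact Continuous.inv₀ (by fun_prop) (fun t => by positivity)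
  have hint : Integrable (fun t : ℝ => (1 + |t|) ^ (2 * ε) * Real.exp (-(t / V) ^ 2) *
      (1 + |u + t|)⁻¹) := by
    refine hbi.mono' hcont.aestronglyMeasurable (Filter.Eventually.of_forall fun t => ?_)
    rw [Real.norm_eq_abs, abs_of_nonneg (by positivity)]
    exact hpt t
  refine ⟨hint, ?_⟩
  calc _ ≤ ∫ t : ℝ, C₀ * (2 * V) ^ (2 * ε) *
      ((2 * V) ^ ε * (1 + |u + t|) ^ (-(1 + ε)) + V⁻¹ * Real.exp (-(t / W) ^ 2)) :=
        integral_mono hint hbi hpt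
    _ = C₀ * (2 * V) ^ (2 * ε) * ((2 * V) ^ ε * M + √(2 * Real.pi)) := by
        rw [integral_const_mul, integral_add (hi1.const_mul _) (hg.const_mul _),
          integral_const_mul, integral_const_mul, hi1v, hgi]
        field_simp
    _ ≤ C₀ * (2 * V) ^ (2 * ε) * ((2 * V) ^ ε * M + (2 * V) ^ ε * √(2 * Real.pi)) := by
        refine mul_le_mul_of_nonneg_left ?_ (by positivity)
        have h1 : 1 ≤ (2 * V) ^ ε := Real.one_le_rpow (by linarith) hε.le
        have h2 : 0 ≤ √(2 * Real.pi) := Real.sqrt_nonneg _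
        nlinarith
    _ = C₀ * (2 : ℝ) ^ (3 * ε) * (M + √(2 * Real.pi)) * V ^ (3 * ε) := by
        have h1 : (2 * V) ^ (2 * ε) * (2 * V) ^ ε = (2 : ℝ) ^ (3 * ε) * V ^ (3 * ε) := by
          rw [← Real.rpow_add (by positivity), ← Real.mul_rpow (by norm_num) hV0.le]
          congr 1; ring
        calc _ = C₀ * ((2 * V) ^ (2 * ε) * (2 * V) ^ ε) * (M + √(2 * Real.pi)) := by ring
          _ = _ := by rw [h1]; ring

/-- The main estimate for the regularised error terms. -/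
theorem EVEV_boundB (F G H K : Sel) (hF : F.deg ≤ 2) (hG : G.deg ≤ 2) (hH : H.deg ≤ 2)
    (hK : ∀ n : ℕ, 1 ≤ n → K.f n = ∑ p ∈ n.divisorsAntidiagonal, G.f p.1 * H.f p.2)
    {ε : ℝ} (hε : 0 < ε) (hε4 : ε ≤ 1 / 4) :
    ∃ C : ℝ, 0 < C ∧ ∀ V : ℝ, 1 ≤ V → ∀ T : ℝ, 1 ≤ T →
      IntervalIntegrable (fun x => F.EV V x * K.EV V x) volume 0 T ∧
      ‖∫ x in (0 : ℝ)..T, F.EV V x * K.EV V x‖ ≤ C * T ^ (3 / 2 : ℝ) * V ^ (4 * ε) := by
  obtain ⟨A, hA, HA⟩ := vint_mul_bound (c₁ := 1 / 2) (c₂ := -ε) (by linarith)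
  obtain ⟨B₁, hB₁, HB₁⟩ := Lam_L1 G H K hG hH hK hε
  obtain ⟨B₂, hB₂, HB₂⟩ := full_bound F hε hF
  obtain ⟨B₃, hB₃, HB₃⟩ := kernel_shift hε
  refine ⟨‖F.L 0‖ * B₁ + A * B₁ * B₂ * B₃, by positivity, fun V hV T hT => ?_⟩
  have hT0 : 0 < T := by linarith
  have hV0 : 0 < V := by linarith
  obtain ⟨iL, bL⟩ := HB₁ V hV
  have iF := full_integrable F hε hV (T := V)
  have m1 := vint_mul_ii (c₁ := 1 / 2) (c₂ := -ε) (T := T) (by linarith) hT0.le iL iF
  have m0 := vint_ii (c := 1 / 2) (T := T) (by norm_num) hT0.le iL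
  have hfun : ∀ x ∈ Set.uIoc 0 T, F.EV V x * K.EV V x =
      F.L 0 * vint (1 / 2) (K.Lam V) x + vint (1 / 2) (K.Lam V) x * vint (-ε) (F.full ε V) x := by
    intro x hx
    rw [Set.uIoc_of_le hT0.le] at hx
    rw [EV_left F hε (by linarith) hV0 hx.1]
    have : K.EV V x = vint (1 / 2) (K.Lam V) x := rfl
    rw [this]
    ring
  have i1 := m0.const_mul (F.L 0)
  refine ⟨(i1.add m1).congr fun x hx => (hfun x hx).symm, ?_⟩
  rw [intervalIntegral.integral_congr_ae (Filter.Eventually.of_forall hfun),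
    intervalIntegral.integral_add i1 m1, intervalIntegral.integral_const_mul]
  have hVε : V ^ ε ≤ V ^ (4 * ε) := Real.rpow_le_rpow_of_exponent_le hV (by linarith)
  have n1 : ‖F.L 0 * ∫ x in (0 : ℝ)..T, vint (1 / 2) (K.Lam V) x‖ ≤
      ‖F.L 0‖ * B₁ * T ^ (3 / 2 : ℝ) * V ^ (4 * ε) := by
    rw [norm_mul]
    have h1 : ‖∫ x in (0 : ℝ)..T, vint (1 / 2) (K.Lam V) x‖ ≤
        (T ^ (1 / 2 : ℝ) * (B₁ * V ^ ε)) * |T - 0| := by
      refine intervalIntegral.norm_integral_le_of_norm_le_const fun x hx => ?_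
      rw [Set.uIoc_of_le hT0.le] at hx
      refine (vint_norm_le hx.1).trans (mul_le_mul ?_ bL
        (integral_nonneg fun t => norm_nonneg _) (by positivity))
      exact Real.rpow_le_rpow hx.1.le hx.2 (by norm_num)
    rw [sub_zero, abs_of_pos hT0] at h1
    calc _ ≤ ‖F.L 0‖ * ((T ^ (1 / 2 : ℝ) * (B₁ * V ^ ε)) * T) :=
          mul_le_mul_of_nonneg_left h1 (norm_nonneg _)
      _ = ‖F.L 0‖ * B₁ * (T ^ (1 / 2 : ℝ) * T ^ (1 : ℝ)) * V ^ ε := by
          rw [Real.rpow_one]; ring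
      _ = ‖F.L 0‖ * B₁ * T ^ (3 / 2 : ℝ) * V ^ ε := by
          rw [← Real.rpow_add hT0]; norm_num
      _ ≤ _ := mul_le_mul_of_nonneg_left hVε (by positivity)
  have n2 : ‖∫ x in (0 : ℝ)..T, vint (1 / 2) (K.Lam V) x * vint (-ε) (F.full ε V) x‖ ≤
      A * B₁ * B₂ * B₃ * T ^ (3 / 2 : ℝ) * V ^ (4 * ε) := by
    have h1 := HA T hT0 _ _ iL iF
    have hin : ∀ t₁ : ℝ, ∫ t₂ : ℝ, ‖K.Lam V t₁‖ * ‖F.full ε V t₂‖ * (1 + |t₁ + t₂|)⁻¹ ≤
        ‖K.Lam V t₁‖ * (B₂ * B₃ * V ^ (3 * ε)) := by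
      intro t₁
      obtain ⟨ki, kb⟩ := HB₃ V hV t₁
      calc _ ≤ ∫ t₂ : ℝ, (‖K.Lam V t₁‖ * B₂) * ((1 + |t₂|) ^ (2 * ε) *
            Real.exp (-(t₂ / V) ^ 2) * (1 + |t₁ + t₂|)⁻¹) := by
            refine integral_mono_of_nonneg (Filter.Eventually.of_forall fun t => by positivity)
              (ki.const_mul _) (Filter.Eventually.of_forall fun t₂ => ?_)
            have := HB₂ V hV t₂
            calc _ = ‖F.full ε V t₂‖ * (‖K.Lam V t₁‖ * (1 + |t₁ + t₂|)⁻¹) := by ring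
              _ ≤ (B₂ * (1 + |t₂|) ^ (2 * ε) * Real.exp (-(t₂ / V) ^ 2)) *
                  (‖K.Lam V t₁‖ * (1 + |t₁ + t₂|)⁻¹) :=
                  mul_le_mul_of_nonneg_right this (by positivity)
              _ = _ := by ring
        _ = (‖K.Lam V t₁‖ * B₂) * ∫ t₂ : ℝ, ((1 + |t₂|) ^ (2 * ε) *
            Real.exp (-(t₂ / V) ^ 2) * (1 + |t₁ + t₂|)⁻¹) := by rw [integral_const_mul]
        _ ≤ (‖K.Lam V t₁‖ * B₂) * (B₃ * V ^ (3 * ε)) :=
            mul_le_mul_of_nonneg_left kb (by positivity)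
        _ = _ := by ring
    have hout : ∫ t₁ : ℝ, ∫ t₂ : ℝ, ‖K.Lam V t₁‖ * ‖F.full ε V t₂‖ * (1 + |t₁ + t₂|)⁻¹ ≤
        (B₁ * V ^ ε) * (B₂ * B₃ * V ^ (3 * ε)) := by
      calc _ ≤ ∫ t₁ : ℝ, ‖K.Lam V t₁‖ * (B₂ * B₃ * V ^ (3 * ε)) := by
            refine integral_mono_of_nonneg (Filter.Eventually.of_forall fun t₁ => ?_)
              (iL.norm.mul_const _) (Filter.Eventually.of_forall hin)
            exact integral_nonneg fun t₂ => by positivity
        _ = (∫ t₁ : ℝ, ‖K.Lam V t₁‖) * (B₂ * B₃ * V ^ (3 * ε)) := by rw [integral_mul_const]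
        _ ≤ _ := mul_le_mul_of_nonneg_right bL (by positivity)
    calc _ ≤ _ := h1
      _ ≤ A * T ^ (1 + 1 / 2 + -ε) * ((B₁ * V ^ ε) * (B₂ * B₃ * V ^ (3 * ε))) :=
          mul_le_mul_of_nonneg_left hout (by positivity)
      _ = A * B₁ * B₂ * B₃ * T ^ (1 + 1 / 2 + -ε) * (V ^ ε * V ^ (3 * ε)) := by
          generalize T ^ (1 + 1 / 2 + -ε) = y
          ring
      _ = A * B₁ * B₂ * B₃ * T ^ (1 + 1 / 2 + -ε) * V ^ (4 * ε) := by
          rw [← Real.rpow_add hV0]; congr 2; ring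
      _ ≤ _ := by
          refine mul_le_mul_of_nonneg_right (mul_le_mul_of_nonneg_left ?_ (by positivity))
            (by positivity)
          exact Real.rpow_le_rpow_of_exponent_le hT (by linarith)
  refine (norm_add_le _ _).trans ((add_le_add n1 n2).trans (le_of_eq ?_))
  ring

theorem mainB (F G H K : Sel) (hF : F.deg ≤ 2) (hG : G.deg ≤ 2) (hH : H.deg ≤ 2)
    (hK : ∀ n : ℕ, 1 ≤ n → K.f n = ∑ p ∈ n.divisorsAntidiagonal, G.f p.1 * H.f p.2)
    (ε : ℝ) (hε : 0 < ε) :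
    ∃ C : ℝ, ∀ T : ℝ, 1 ≤ T →
      ‖∫ x in (1 : ℝ)..T, F.E x * K.E x‖ ≤ C * T ^ (3 / 2 + ε) := by
  obtain ⟨η, hη, hη4, hηε⟩ : ∃ η : ℝ, 0 < η ∧ η ≤ 1 / 4 ∧ 20 * η ≤ ε :=
    ⟨min (ε / 20) (1 / 4), lt_min (by positivity) (by norm_num), min_le_right _ _, by
      have := min_le_left (ε / 20) (1 / 4)
      linarith⟩
  obtain ⟨C₁, hC₁, H₁⟩ := EVEV_boundB F G H K hF hG hH hK hη hη4
  obtain ⟨D₁, hD₁, K₁⟩ := E_L1 F
  obtain ⟨D₂, hD₂, K₂⟩ := E_L1 K
  obtain ⟨M₁, hM₁, N₁⟩ := EV_crude F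
  obtain ⟨M₂, hM₂, N₂⟩ := EV_crude K
  obtain ⟨M₃, hM₃, N₃⟩ := E_crude K
  refine ⟨C₁ + 4 * M₁ * M₂ + 2 * M₃ * D₁ + 2 * M₁ * D₂, fun T hT => ?_⟩
  have hT0 : 0 < T := by linarith
  set V : ℝ := T ^ 5 with hVd
  have hV : 1 ≤ V := one_le_pow₀ hT
  have hV0 : 0 < V := by linarith
  obtain ⟨ii, b1⟩ := H₁ V hV T hT
  have ii1 : IntervalIntegrable (fun x => F.EV V x * K.EV V x) volume 0 1 :=
    ii.mono_set (by rw [Set.uIcc_of_le hT0.le, Set.uIcc_of_le zero_le_one]; exact Set.Icc_subset_Icc le_rfl hT)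
  have ii2 : IntervalIntegrable (fun x => F.EV V x * K.EV V x) volume 1 T :=
    ii.mono_set (by rw [Set.uIcc_of_le hT, Set.uIcc_of_le hT0.le]; exact Set.Icc_subset_Icc (by norm_num) le_rfl)
  -- integrability of the single functions on [1, T]
  have iEVF : IntervalIntegrable (F.EV V) volume 1 T := by
    have iF := full_integrable F hη hV (T := V)
    have m : IntervalIntegrable (vint (-η) (F.full η V)) volume 0 T :=
      vint_ii (by linarith) hT0.le iF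
    have m' : IntervalIntegrable (vint (-η) (F.full η V)) volume 1 T :=
      m.mono_set (by rw [Set.uIcc_of_le hT, Set.uIcc_of_le hT0.le]; exact Set.Icc_subset_Icc (by norm_num) le_rfl)
    refine ((intervalIntegrable_const (c := F.L 0)).add m').congr fun x hx => ?_
    rw [Set.uIoc_of_le hT] at hx
    exact (EV_left F hη (by linarith) hV0 (by linarith [hx.1])).symm
  have iEVK : IntervalIntegrable (K.EV V) volume 1 T := by
    obtain ⟨B₁, hB₁, HB₁⟩ := Lam_L1 G H K hG hH hK hη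
    have m : IntervalIntegrable (vint (1 / 2) (K.Lam V)) volume 0 T :=
      vint_ii (by norm_num) hT0.le (HB₁ V hV).1
    exact m.mono_set (by rw [Set.uIcc_of_le hT, Set.uIcc_of_le hT0.le]; exact Set.Icc_subset_Icc (by norm_num) le_rfl)
  have ae1 : ∀ (P : ℝ → Prop), (∀ x, 1 ≤ x → x ≤ T → P x) →
      ∀ᵐ x ∂(volume.restrict (Set.uIoc 1 T)), P x := by
    intro P hP
    rw [Set.uIoc_of_le hT]
    exact (ae_restrict_iff' measurableSet_Ioc).2
      (Filter.Eventually.of_forall fun x hx => hP x hx.1.le hx.2)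
  have iE : ∀ A : Sel, IntervalIntegrable A.E volume 1 T := by
    intro A
    obtain ⟨M, hM, N⟩ := E_crude A
    refine (intervalIntegrable_const (c := M * (1 + T ^ 2))).mono_fun' ?_ ?_
    · exact (E_measurable A).aestronglyMeasurable
    · refine ae1 _ fun x h1 h2 => (N x (by linarith)).trans ?_
      refine mul_le_mul_of_nonneg_left ?_ hM.le
      nlinarith
  set rF : ℝ → ℂ := fun x => F.E x - F.EV V x with hrF
  set rK : ℝ → ℂ := fun x => K.E x - K.EV V x with hrK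
  have irF : IntervalIntegrable rF volume 1 T := (iE F).sub iEVF
  have irK : IntervalIntegrable rK volume 1 T := (iE K).sub iEVK
  have bK : ∀ x, 1 ≤ x → x ≤ T → ‖K.E x‖ ≤ 2 * M₃ * T ^ 2 := by
    intro x h1 h2
    refine (N₃ x (by linarith)).trans ?_
    have : 1 + x ^ 2 ≤ 2 * T ^ 2 := by nlinarith
    nlinarith
  have bF : ∀ x, 1 ≤ x → x ≤ T → ‖F.EV V x‖ ≤ 2 * M₁ * T ^ 2 := by
    intro x h1 h2
    refine (N₁ V hV x (by linarith)).trans ?_
    have : 1 + x ^ 2 ≤ 2 * T ^ 2 := by nlinarith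
    nlinarith
  have mK : AEStronglyMeasurable K.E (volume.restrict (Set.uIoc 1 T)) :=
    (E_measurable K).aestronglyMeasurable
  have mrF : AEStronglyMeasurable rF (volume.restrict (Set.uIoc 1 T)) := by
    rw [Set.uIoc_of_le hT]; exact irF.1.aestronglyMeasurable
  have mrK : AEStronglyMeasurable rK (volume.restrict (Set.uIoc 1 T)) := by
    rw [Set.uIoc_of_le hT]; exact irK.1.aestronglyMeasurable
  have mEVF : AEStronglyMeasurable (F.EV V) (volume.restrict (Set.uIoc 1 T)) := by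
    rw [Set.uIoc_of_le hT]; exact iEVF.1.aestronglyMeasurable
  have j1 : IntervalIntegrable (fun x => rF x * K.E x) volume 1 T := by
    refine (irF.norm.mul_const (2 * M₃ * T ^ 2)).mono_fun' (mrF.mul mK) ?_
    refine ae1 _ fun x h1 h2 => ?_
    show ‖rF x * K.E x‖ ≤ ‖rF x‖ * (2 * M₃ * T ^ 2)
    rw [norm_mul]
    exact mul_le_mul_of_nonneg_left (bK x h1 h2) (norm_nonneg _)
  have j2 : IntervalIntegrable (fun x => F.EV V x * rK x) volume 1 T := by
    refine (irK.norm.const_mul (2 * M₁ * T ^ 2)).mono_fun' (mEVF.mul mrK) ?_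
    refine ae1 _ fun x h1 h2 => ?_
    show ‖F.EV V x * rK x‖ ≤ (2 * M₁ * T ^ 2) * ‖rK x‖
    rw [norm_mul]
    exact mul_le_mul_of_nonneg_right (bF x h1 h2) (norm_nonneg _)
  have split : ∫ x in (1 : ℝ)..T, F.E x * K.E x =
      ((∫ x in (0 : ℝ)..T, F.EV V x * K.EV V x) - ∫ x in (0 : ℝ)..1, F.EV V x * K.EV V x) +
      (∫ x in (1 : ℝ)..T, rF x * K.E x) + (∫ x in (1 : ℝ)..T, F.EV V x * rK x) := by
    rw [← intervalIntegral.integral_add_adjacent_intervals ii1 ii2, add_sub_cancel_left,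
      ← intervalIntegral.integral_add ii2 j1, ← intervalIntegral.integral_add (ii2.add j1) j2]
    refine intervalIntegral.integral_congr fun x _ => ?_
    simp only [hrF, hrK]
    ring
  have hone : 1 ≤ T ^ (3 / 2 + ε) := Real.one_le_rpow hT (by linarith)
  have n1 : ‖∫ x in (0 : ℝ)..T, F.EV V x * K.EV V x‖ ≤ C₁ * T ^ (3 / 2 + ε) := by
    refine b1.trans ?_
    have : V ^ (4 * η) = T ^ (20 * η) := by
      rw [hVd, ← Real.rpow_natCast, ← Real.rpow_mul hT0.le]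
      congr 1; push_cast; ring
    rw [this, mul_assoc, ← Real.rpow_add hT0]
    refine mul_le_mul_of_nonneg_left ?_ hC₁.le
    exact Real.rpow_le_rpow_of_exponent_le hT (by linarith)
  have n2 : ‖∫ x in (0 : ℝ)..1, F.EV V x * K.EV V x‖ ≤ 4 * M₁ * M₂ * T ^ (3 / 2 + ε) := by
    have h := intervalIntegral.norm_integral_le_of_norm_le_const
      (a := (0 : ℝ)) (b := 1) (f := fun x => F.EV V x * K.EV V x) (C := (M₁ * 2) * (M₂ * 2))
      (fun x hx => by
        rw [Set.uIoc_of_le zero_le_one] at hx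
        rw [norm_mul]
        have h1 : 1 + x ^ 2 ≤ 2 := by nlinarith [hx.1, hx.2]
        refine mul_le_mul ((N₁ V hV x hx.1).trans ?_) ((N₂ V hV x hx.1).trans ?_)
          (norm_nonneg _) (by positivity)
        · exact mul_le_mul_of_nonneg_left h1 hM₁.le
        · exact mul_le_mul_of_nonneg_left h1 hM₂.le)
    calc _ ≤ _ := h
      _ = 4 * M₁ * M₂ * 1 := by norm_num; ring
      _ ≤ _ := mul_le_mul_of_nonneg_left hone (by positivity)
  have hTV : T ^ 2 * (T ^ 3 / V) = 1 := by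
    rw [hVd]; field_simp
  have n3 : ‖∫ x in (1 : ℝ)..T, rF x * K.E x‖ ≤ 2 * M₃ * D₁ * T ^ (3 / 2 + ε) := by
    have h : ‖∫ x in (1 : ℝ)..T, rF x * K.E x‖ ≤
        ∫ x in (1 : ℝ)..T, ‖rF x‖ * (2 * M₃ * T ^ 2) := by
      refine (intervalIntegral.norm_integral_le_integral_norm hT).trans ?_
      refine intervalIntegral.integral_mono_on hT j1.norm (irF.norm.mul_const _) fun x hx => ?_
      rw [norm_mul]
      exact mul_le_mul_of_nonneg_left (bK x hx.1 hx.2) (norm_nonneg _)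
    rw [intervalIntegral.integral_mul_const] at h
    calc _ ≤ _ := h
      _ ≤ (D₁ * T ^ 3 / V) * (2 * M₃ * T ^ 2) :=
          mul_le_mul_of_nonneg_right (K₁ T hT V hV) (by positivity)
      _ = 2 * M₃ * D₁ * (T ^ 2 * (T ^ 3 / V)) := by ring
      _ = 2 * M₃ * D₁ * 1 := by rw [hTV]
      _ ≤ _ := mul_le_mul_of_nonneg_left hone (by positivity)
  have n4 : ‖∫ x in (1 : ℝ)..T, F.EV V x * rK x‖ ≤ 2 * M₁ * D₂ * T ^ (3 / 2 + ε) := by
    have h : ‖∫ x in (1 : ℝ)..T, F.EV V x * rK x‖ ≤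
        ∫ x in (1 : ℝ)..T, (2 * M₁ * T ^ 2) * ‖rK x‖ := by
      refine (intervalIntegral.norm_integral_le_integral_norm hT).trans ?_
      refine intervalIntegral.integral_mono_on hT j2.norm (irK.norm.const_mul _) fun x hx => ?_
      rw [norm_mul]
      exact mul_le_mul_of_nonneg_right (bF x hx.1 hx.2) (norm_nonneg _)
    rw [intervalIntegral.integral_const_mul] at h
    calc _ ≤ _ := h
      _ ≤ (2 * M₁ * T ^ 2) * (D₂ * T ^ 3 / V) :=
          mul_le_mul_of_nonneg_left (K₂ T hT V hV) (by positivity)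
      _ = 2 * M₁ * D₂ * (T ^ 2 * (T ^ 3 / V)) := by ring
      _ = 2 * M₁ * D₂ * 1 := by rw [hTV]
      _ ≤ _ := mul_le_mul_of_nonneg_left hone (by positivity)
  rw [split]
  calc _ ≤ ((‖∫ x in (0 : ℝ)..T, F.EV V x * K.EV V x‖ +
        ‖∫ x in (0 : ℝ)..1, F.EV V x * K.EV V x‖) +
        ‖∫ x in (1 : ℝ)..T, rF x * K.E x‖) + ‖∫ x in (1 : ℝ)..T, F.EV V x * rK x‖ := by
        refine (norm_add_le _ _).trans (add_le_add ?_ le_rfl)
        refine (norm_add_le _ _).trans (add_le_add ?_ le_rfl)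
        exact norm_sub_le _ _
    _ ≤ ((C₁ * T ^ (3 / 2 + ε) + 4 * M₁ * M₂ * T ^ (3 / 2 + ε)) +
        2 * M₃ * D₁ * T ^ (3 / 2 + ε)) + 2 * M₁ * D₂ * T ^ (3 / 2 + ε) :=
        add_le_add (add_le_add (add_le_add n1 n2) n3) n4
    _ = _ := by ring

end HYM
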