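import Pool.Agent.HYM.Defs

set_option autoImplicit false

/-!
# HYM/Bil: the integral of a product of two inverse Mellin integrals

PROOF. On `(0, T]` the integrand `Λ₁(t₁) Λ₂(t₂) x^{s₁+s₂}`, `s_j = c_j + i t_j`, is absolutely integrable
over `(0,T] × ℝ²` since `∫_0^T x^{c₁+c₂} dx < ∞` (`c₁ + c₂ > -1`). Fubini and
`∫_0^T x^{s₁+s₂} dx = T^{1+s₁+s₂}/(1+s₁+s₂)` (`integral_cpow`). `|1+s₁+s₂| ≥ κ (1 + |t₁+t₂|)` with
`κ = min (1, 1+c₁+c₂)/2`.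
-/

open Complex MeasureTheory

namespace HYM

theorem bil_cpow {x : ℝ} (hx : 0 < x) (c t : ℝ) :
    (x : ℂ) ^ (ln c t) = ((x ^ c : ℝ) : ℂ) * cexp ((t : ℂ) * I * (Real.log x : ℂ)) := by
  unfold ln
  rw [cpow_add _ _ (ofReal_ne_zero.2 hx.ne'), ofReal_cpow hx.le]
  congr 1
  rw [cpow_def_of_ne_zero (ofReal_ne_zero.2 hx.ne'), ← ofReal_log hx.le, mul_comm]

theorem bil_exp_norm (t y : ℝ) : ‖cexp ((t : ℂ) * I * (y : ℂ))‖ = 1 := by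
  have : (t : ℂ) * I * (y : ℂ) = ((t * y : ℝ) : ℂ) * I := by
    push_cast
    ring
  rw [this, norm_exp_ofReal_mul_I]

theorem bil_norm {x : ℝ} (hx : 0 < x) (c t : ℝ) : ‖(x : ℂ) ^ (ln c t)‖ = x ^ c := by
  rw [norm_cpow_eq_rpow_re_of_pos hx, ln_re]

theorem bil_integrable {c : ℝ} {Lam : ℝ → ℂ} (h : Integrable Lam) {x : ℝ} (hx : 0 < x) :
    Integrable fun t : ℝ => Lam t * (x : ℂ) ^ (ln c t) := by
  have h1 : Continuous fun t : ℝ => (x : ℂ) ^ (ln c t) := by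
    simp only [bil_cpow hx]
    fun_prop
  exact h.mul_bdd (c := x ^ c) h1.aestronglyMeasurable
    (Filter.Eventually.of_forall fun t => (bil_norm hx c t).le)

theorem vint_norm_le {c : ℝ} {Lam : ℝ → ℂ} {x : ℝ} (hx : 0 < x) :
    ‖vint c Lam x‖ ≤ x ^ c * ∫ t : ℝ, ‖Lam t‖ := by
  unfold vint
  rw [norm_mul]
  have h1 : ‖∫ t : ℝ, Lam t * (x : ℂ) ^ (ln c t)‖ ≤ x ^ c * ∫ t : ℝ, ‖Lam t‖ := by
    refine (norm_integral_le_integral_norm _).trans (le_of_eq ?_)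
    rw [← integral_const_mul]
    refine integral_congr_ae (Filter.Eventually.of_forall fun t => ?_)
    change ‖Lam t * (x : ℂ) ^ (ln c t)‖ = _
    rw [norm_mul, bil_norm hx, mul_comm]
  have h2 : ‖(2 * (Real.pi : ℂ))⁻¹‖ ≤ 1 := by
    rw [norm_inv, norm_mul, Complex.norm_real, Real.norm_of_nonneg Real.pi_pos.le]
    have := Real.pi_gt_three
    rw [Complex.norm_ofNat]
    exact inv_le_one_of_one_le₀ (by linarith)
  exact (mul_le_mul h2 h1 (norm_nonneg _) zero_le_one).trans (one_mul _).le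

/-- `x ↦ vint c Lam x` is continuous for `x > 0`. -/
theorem vint_continuousOn {c : ℝ} {Lam : ℝ → ℂ} (h : Integrable Lam) :
    ContinuousOn (vint c Lam) (Set.Ioi 0) := by
  intro x0 hx0
  refine ContinuousAt.continuousWithinAt ?_
  have hx0' : (0 : ℝ) < x0 := hx0
  refine ContinuousAt.mul continuousAt_const ?_
  have hb : ∀ᶠ x in nhds x0, 0 < x ∧ x ^ c ≤ x0 ^ c + 1 := by
    have h1 : ContinuousAt (fun x : ℝ => x ^ c) x0 :=
      Real.continuousAt_rpow_const x0 c (Or.inl hx0'.ne')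
    have h2 := h1.eventually (gt_mem_nhds (show x0 ^ c < x0 ^ c + 1 by linarith))
    filter_upwards [h2, lt_mem_nhds hx0'] with x h3 h4
    exact ⟨h4, h3.le⟩
  refine continuousAt_of_dominated (bound := fun t => ‖Lam t‖ * (x0 ^ c + 1)) ?_ ?_ ?_ ?_
  · filter_upwards [hb] with x hx
    exact (bil_integrable h hx.1).1
  · filter_upwards [hb] with x hx
    refine Filter.Eventually.of_forall fun t => ?_
    rw [norm_mul, bil_norm hx.1]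
    exact mul_le_mul_of_nonneg_left hx.2 (norm_nonneg _)
  · exact h.norm.mul_const _
  · refine Filter.Eventually.of_forall fun t => ?_
    refine ContinuousAt.mul continuousAt_const ?_
    exact (continuousAt_ofReal_cpow_const x0 (ln c t) (Or.inr hx0'.ne'))

theorem bil_add (c₁ c₂ t₁ t₂ : ℝ) : ln c₁ t₁ + ln c₂ t₂ = ln (c₁ + c₂) (t₁ + t₂) := by
  unfold ln
  push_cast
  ring

theorem bil_kernel_lower {c₁ c₂ : ℝ} (hc : 0 < 1 + c₁ + c₂) (t₁ t₂ : ℝ) :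
    min 1 (1 + c₁ + c₂) / 2 * (1 + |t₁ + t₂|) ≤ ‖1 + ln c₁ t₁ + ln c₂ t₂‖ := by
  have h1 : |1 + c₁ + c₂| ≤ ‖1 + ln c₁ t₁ + ln c₂ t₂‖ := by
    refine le_trans (le_of_eq ?_) (abs_re_le_norm _)
    simp [ln_re]
  have h2 : |t₁ + t₂| ≤ ‖1 + ln c₁ t₁ + ln c₂ t₂‖ := by
    refine le_trans (le_of_eq ?_) (abs_im_le_norm _)
    simp [ln_im]
  rw [abs_of_pos hc] at h1
  have h3 : min 1 (1 + c₁ + c₂) ≤ 1 := min_le_left _ _
  have h4 : min 1 (1 + c₁ + c₂) ≤ 1 + c₁ + c₂ := min_le_right _ _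
  have h5 : 0 ≤ |t₁ + t₂| := abs_nonneg _
  nlinarith [mul_le_mul_of_nonneg_right h3 h5]

theorem bil_kernel_ne {c₁ c₂ : ℝ} (hc : 0 < 1 + c₁ + c₂) (t₁ t₂ : ℝ) :
    1 + ln c₁ t₁ + ln c₂ t₂ ≠ 0 := by
  have h1 := bil_kernel_lower hc t₁ t₂
  have h2 : 0 < min 1 (1 + c₁ + c₂) / 2 * (1 + |t₁ + t₂|) := by
    have : 0 < min 1 (1 + c₁ + c₂) := lt_min one_pos hc
    positivity
  exact norm_pos_iff.1 (h2.trans_le h1)

theorem bil_kernel_bound {c₁ c₂ T : ℝ} (hc : 0 < 1 + c₁ + c₂) (hT : 0 < T) (t₁ t₂ : ℝ) :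
    ‖(T : ℂ) ^ (1 + ln c₁ t₁ + ln c₂ t₂) / (1 + ln c₁ t₁ + ln c₂ t₂)‖ ≤
      T ^ (1 + c₁ + c₂) * (2 / min 1 (1 + c₁ + c₂)) * (1 + |t₁ + t₂|)⁻¹ := by
  have h1 := bil_kernel_lower hc t₁ t₂
  have hm : 0 < min 1 (1 + c₁ + c₂) := lt_min one_pos hc
  have h2 : 0 < min 1 (1 + c₁ + c₂) / 2 * (1 + |t₁ + t₂|) := by positivity
  have hre : (1 + ln c₁ t₁ + ln c₂ t₂).re = 1 + c₁ + c₂ := by simp [ln_re]
  rw [norm_div, norm_cpow_eq_rpow_re_of_pos hT, hre, mul_assoc, div_eq_mul_inv]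
  refine mul_le_mul_of_nonneg_left ?_ (Real.rpow_nonneg hT.le _)
  refine (inv_anti₀ h2 h1).trans (le_of_eq ?_)
  rw [mul_inv, inv_div]

theorem bil_kernel_cont {c₁ c₂ T : ℝ} (hc : 0 < 1 + c₁ + c₂) (hT : 0 < T) :
    Continuous fun z : ℝ × ℝ =>
      (T : ℂ) ^ (1 + ln c₁ z.1 + ln c₂ z.2) / (1 + ln c₁ z.1 + ln c₂ z.2) := by
  refine Continuous.div ?_ ?_ fun z => bil_kernel_ne hc z.1 z.2
  · refine Continuous.const_cpow ?_ (Or.inl (ofReal_ne_zero.2 hT.ne'))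
    unfold ln
    fun_prop
  · unfold ln
    fun_prop

theorem bil_kernel_integrable {c₁ c₂ T : ℝ} (hc : 0 < 1 + c₁ + c₂) (hT : 0 < T)
    {Lam₁ Lam₂ : ℝ → ℂ} (h₁ : Integrable Lam₁) (h₂ : Integrable Lam₂) :
    Integrable (fun z : ℝ × ℝ => Lam₁ z.1 * Lam₂ z.2 *
      ((T : ℂ) ^ (1 + ln c₁ z.1 + ln c₂ z.2) / (1 + ln c₁ z.1 + ln c₂ z.2)))
      (volume.prod volume) := by
  refine (h₁.mul_prod h₂).mul_bdd (c := T ^ (1 + c₁ + c₂) * (2 / min 1 (1 + c₁ + c₂)))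
    (bil_kernel_cont hc hT).aestronglyMeasurable (Filter.Eventually.of_forall fun z => ?_)
  refine (bil_kernel_bound hc hT z.1 z.2).trans ?_
  have hm : 0 < min 1 (1 + c₁ + c₂) := lt_min one_pos hc
  have h3 : (1 + |z.1 + z.2|)⁻¹ ≤ 1 := inv_le_one_of_one_le₀ (by linarith [abs_nonneg (z.1 + z.2)])
  have h4 : 0 ≤ T ^ (1 + c₁ + c₂) * (2 / min 1 (1 + c₁ + c₂)) :=
    mul_nonneg (Real.rpow_nonneg hT.le _) (by positivity)
  exact (mul_le_mul_of_nonneg_left h3 h4).trans (mul_one _).le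

theorem bil_inner {c₁ c₂ T : ℝ} (hc : 0 < 1 + c₁ + c₂) (t₁ t₂ : ℝ) :
    ∫ x in (0 : ℝ)..T, (x : ℂ) ^ (ln c₁ t₁ + ln c₂ t₂) =
      (T : ℂ) ^ (1 + ln c₁ t₁ + ln c₂ t₂) / (1 + ln c₁ t₁ + ln c₂ t₂) := by
  have hre : (ln c₁ t₁ + ln c₂ t₂).re = c₁ + c₂ := by simp [ln_re]
  rw [integral_cpow (Or.inl (by rw [hre]; linarith))]
  have h1 : ln c₁ t₁ + ln c₂ t₂ + 1 = 1 + ln c₁ t₁ + ln c₂ t₂ := by ring
  rw [h1, ofReal_zero, zero_cpow (bil_kernel_ne hc t₁ t₂), sub_zero]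

theorem bil_prod {c₁ c₂ T : ℝ} (hc : 0 < 1 + c₁ + c₂) (hT : 0 < T) {Lam₁ Lam₂ : ℝ → ℂ}
    (h₁ : Integrable Lam₁) (h₂ : Integrable Lam₂) :
    ∫ x in (0 : ℝ)..T, vint c₁ Lam₁ x * vint c₂ Lam₂ x =
      ((2 * (Real.pi : ℂ))⁻¹) ^ 2 * ∫ z : ℝ × ℝ, Lam₁ z.1 * Lam₂ z.2 *
        ((T : ℂ) ^ (1 + ln c₁ z.1 + ln c₂ z.2) / (1 + ln c₁ z.1 + ln c₂ z.2))
        ∂(volume.prod volume) := by
  rw [intervalIntegral.integral_of_le hT.le]
  have e1 : ∀ x ∈ Set.Ioc 0 T, vint c₁ Lam₁ x * vint c₂ Lam₂ x =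
      ((2 * (Real.pi : ℂ))⁻¹) ^ 2 * ∫ z : ℝ × ℝ,
        Lam₁ z.1 * Lam₂ z.2 * (x : ℂ) ^ (ln c₁ z.1 + ln c₂ z.2) ∂(volume.prod volume) := by
    intro x hx
    have h3 : ∀ z : ℝ × ℝ, Lam₁ z.1 * Lam₂ z.2 * (x : ℂ) ^ (ln c₁ z.1 + ln c₂ z.2) =
        (Lam₁ z.1 * (x : ℂ) ^ (ln c₁ z.1)) * (Lam₂ z.2 * (x : ℂ) ^ (ln c₂ z.2)) := by
      intro z
      rw [cpow_add _ _ (ofReal_ne_zero.2 hx.1.ne')]
      ring
    simp only [h3]
    rw [integral_prod_mul (fun t => Lam₁ t * (x : ℂ) ^ (ln c₁ t))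
      (fun t => Lam₂ t * (x : ℂ) ^ (ln c₂ t))]
    unfold vint
    ring
  rw [setIntegral_congr_fun measurableSet_Ioc e1, integral_const_mul]
  congr 1
  have hint : Integrable (fun q : ℝ × (ℝ × ℝ) =>
      Lam₁ q.2.1 * Lam₂ q.2.2 * (q.1 : ℂ) ^ (ln c₁ q.2.1 + ln c₂ q.2.2))
      ((volume.restrict (Set.Ioc 0 T)).prod (volume.prod volume)) := by
    have h4 : Integrable (fun x : ℝ => ((x ^ (c₁ + c₂) : ℝ) : ℂ))
        (volume.restrict (Set.Ioc 0 T)) := by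
      have := (intervalIntegral.intervalIntegrable_rpow' (a := 0) (b := T)
        (show -1 < c₁ + c₂ by linarith)).1
      exact this.ofReal
    have h5 := h4.mul_prod (h₁.mul_prod h₂)
    have h6 : Measurable fun q : ℝ × (ℝ × ℝ) =>
        cexp (((q.2.1 + q.2.2 : ℝ) : ℂ) * I * (Real.log q.1 : ℂ)) := by
      fun_prop
    have h7 := h5.mul_bdd (c := 1) h6.aestronglyMeasurable
      (Filter.Eventually.of_forall fun q => (bil_exp_norm (q.2.1 + q.2.2) (Real.log q.1)).le)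
    refine h7.congr ?_
    have h8 : ∀ᵐ q : ℝ × (ℝ × ℝ) ∂((volume.restrict (Set.Ioc 0 T)).prod (volume.prod volume)),
        q.1 ∈ Set.Ioc 0 T := by
      have := (Measure.quasiMeasurePreserving_fst (μ := (volume : Measure ℝ).restrict (Set.Ioc 0 T))
        (ν := (volume : Measure ℝ).prod (volume : Measure ℝ))).ae
        (ae_restrict_mem (measurableSet_Ioc))
      exact this
    filter_upwards [h8] with q hq
    rw [bil_add, bil_cpow hq.1]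
    ring
  rw [integral_integral_swap hint]
  refine integral_congr_ae (Filter.Eventually.of_forall fun z => ?_)
  change ∫ x in Set.Ioc 0 T, Lam₁ z.1 * Lam₂ z.2 * (x : ℂ) ^ (ln c₁ z.1 + ln c₂ z.2) = _
  rw [integral_const_mul, ← intervalIntegral.integral_of_le hT.le, bil_inner hc]

theorem vint_mul {c₁ c₂ T : ℝ} (hc : 0 < 1 + c₁ + c₂) (hT : 0 < T) {Lam₁ Lam₂ : ℝ → ℂ}
    (h₁ : Integrable Lam₁) (h₂ : Integrable Lam₂) :
    ∫ x in (0 : ℝ)..T, vint c₁ Lam₁ x * vint c₂ Lam₂ x =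
      ((2 * (Real.pi : ℂ))⁻¹) ^ 2 * ∫ t₁ : ℝ, ∫ t₂ : ℝ, Lam₁ t₁ * Lam₂ t₂ *
        ((T : ℂ) ^ (1 + ln c₁ t₁ + ln c₂ t₂) / (1 + ln c₁ t₁ + ln c₂ t₂)) := by
  rw [bil_prod hc hT h₁ h₂, integral_prod _ (bil_kernel_integrable hc hT h₁ h₂)]

theorem vint_mul_bound {c₁ c₂ : ℝ} (hc : 0 < 1 + c₁ + c₂) :
    ∃ C : ℝ, 0 < C ∧ ∀ T : ℝ, 0 < T → ∀ Lam₁ Lam₂ : ℝ → ℂ, Integrable Lam₁ → Integrable Lam₂ →
    ‖∫ x in (0 : ℝ)..T, vint c₁ Lam₁ x * vint c₂ Lam₂ x‖ ≤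
      C * T ^ (1 + c₁ + c₂) *
        ∫ t₁ : ℝ, ∫ t₂ : ℝ, ‖Lam₁ t₁‖ * ‖Lam₂ t₂‖ * (1 + |t₁ + t₂|)⁻¹ := by
  have hm : 0 < min 1 (1 + c₁ + c₂) := lt_min one_pos hc
  refine ⟨2 / min 1 (1 + c₁ + c₂), by positivity, fun T hT Lam₁ Lam₂ h₁ h₂ => ?_⟩
  have hint : Integrable (fun z : ℝ × ℝ => ‖Lam₁ z.1‖ * ‖Lam₂ z.2‖ * (1 + |z.1 + z.2|)⁻¹)
      (volume.prod volume) := by
    have h3 : Continuous fun z : ℝ × ℝ => (1 + |z.1 + z.2|)⁻¹ := by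
      refine Continuous.inv₀ (by fun_prop) fun z => ?_
      have := abs_nonneg (z.1 + z.2)
      linarith
    refine (h₁.norm.mul_prod h₂.norm).mul_bdd (c := 1) h3.aestronglyMeasurable
      (Filter.Eventually.of_forall fun z => ?_)
    have h4 : 0 ≤ |z.1 + z.2| := abs_nonneg _
    rw [Real.norm_of_nonneg (by positivity)]
    exact inv_le_one_of_one_le₀ (by linarith)
  rw [bil_prod hc hT h₁ h₂, ← integral_prod _ hint, norm_mul]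
  have h2 : ‖((2 * (Real.pi : ℂ))⁻¹) ^ 2‖ ≤ 1 := by
    rw [norm_pow, norm_inv, norm_mul, Complex.norm_real, Real.norm_of_nonneg Real.pi_pos.le,
      Complex.norm_ofNat]
    have := Real.pi_gt_three
    exact pow_le_one₀ (by positivity) (inv_le_one_of_one_le₀ (by linarith))
  have h3 : ‖∫ z : ℝ × ℝ, Lam₁ z.1 * Lam₂ z.2 *
        ((T : ℂ) ^ (1 + ln c₁ z.1 + ln c₂ z.2) / (1 + ln c₁ z.1 + ln c₂ z.2))
        ∂(volume.prod volume)‖ ≤ 2 / min 1 (1 + c₁ + c₂) * T ^ (1 + c₁ + c₂) *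
      ∫ z : ℝ × ℝ, ‖Lam₁ z.1‖ * ‖Lam₂ z.2‖ * (1 + |z.1 + z.2|)⁻¹ ∂(volume.prod volume) := by
    rw [← integral_const_mul]
    refine norm_integral_le_of_norm_le (hint.const_mul _)
      (Filter.Eventually.of_forall fun z => ?_)
    rw [norm_mul, norm_mul]
    refine (mul_le_mul_of_nonneg_left (bil_kernel_bound hc hT z.1 z.2) (by positivity)).trans
      (le_of_eq ?_)
    ring
  exact (mul_le_mul h2 h3 (norm_nonneg _) zero_le_one).trans (one_mul _).le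

/-- The conjugate of `vint`. -/
theorem vint_conj {c : ℝ} {Lam : ℝ → ℂ} {x : ℝ} (hx : 0 < x) :
    (starRingEnd ℂ) (vint c Lam x) = vint c (fun t => (starRingEnd ℂ) (Lam (-t))) x := by
  unfold vint
  rw [map_mul, map_inv₀, map_mul, conj_ofReal, map_ofNat, ← integral_conj]
  congr 1
  rw [← integral_neg_eq_self]
  refine integral_congr_ae (Filter.Eventually.of_forall fun t => ?_)
  change (starRingEnd ℂ) (Lam (-t) * (x : ℂ) ^ (ln c (-t))) = _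
  rw [map_mul]
  congr 1
  rw [bil_cpow hx, bil_cpow hx, map_mul, conj_ofReal, ← exp_conj]
  congr 2
  rw [map_mul, map_mul, conj_ofReal, conj_ofReal, conj_I]
  push_cast
  ring

end HYM
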