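import Pool.Agent.HYM.Fe

set_option autoImplicit false

/-!
# HYM/Gro: polynomial growth in vertical strips

PROOF. Enlarge the strip: `a ≤ -1`, `b ≥ 2`. On `Re s = b`: `|LSeries f s| ≤ ∑ ‖f n‖ n^(-b) < ∞`, so
`P s = (s-1)^m LSeries f s` is polynomially bounded. On `Re s = a`: `P s = (s-1)^m L s`,
`L s = chi s * dsum cf s` (`fe_left`), `dsum` is bounded there and `chi` is polynomially bounded
(`chi_bound`). Let `g s = P s / (s - (b+1))^K` with `K` large: bounded on both lines. By `P_order`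
`‖g s‖ ≤ exp (B' exp (c |Im s|))`-like growth with `c < π/(b-a)`: use
`PhragmenLindelof.vertical_strip`. Hence `g` is bounded in the strip.
-/

open Complex

namespace HYM

/-- bound on a line to the right of `1` -/
theorem gro_right (F : Sel) (b : ℝ) (hb : 1 < b) :
    ∃ C : ℝ, 0 ≤ C ∧ ∀ s : ℂ, s.re = b → ‖F.P s‖ ≤ C * (1 + |s.im|) ^ F.m := by
  have hb1 : 1 < (b : ℂ).re := by simpa using hb
  have hsum := (F.summable (b : ℂ) hb1).norm
  set M : ℝ := ∑' n, ‖LSeries.term F.f (b : ℂ) n‖ with hM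
  have hM0 : 0 ≤ M := tsum_nonneg fun n => norm_nonneg _
  refine ⟨(b + 1) ^ F.m * M, by positivity, ?_⟩
  intro s hs
  have hs1 : 1 < s.re := by rw [hs]; exact hb
  have hne : s - 1 ≠ 0 := by
    intro h
    have := congrArg Complex.re h
    simp at this
    linarith
  have hser := F.series s hs1
  have hP : F.P s = (s - 1) ^ F.m * LSeries F.f s := by
    rw [hser]
    field_simp
  have h1 : ‖LSeries F.f s‖ ≤ M := by
    have e : ∀ n, ‖LSeries.term F.f s n‖ = ‖LSeries.term F.f (b : ℂ) n‖ := by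
      intro n
      rw [LSeries.norm_term_eq, LSeries.norm_term_eq, hs]
      simp
    unfold LSeries
    refine (norm_tsum_le_tsum_norm (F.summable s hs1).norm).trans ?_
    rw [hM]
    exact le_of_eq (tsum_congr e)
  have h2 : ‖s - 1‖ ≤ (b + 1) * (1 + |s.im|) := by
    have h3 : ‖s - 1‖ ≤ |(s - 1).re| + |(s - 1).im| := Complex.norm_le_abs_re_add_abs_im _
    have h4 : |(s - 1).re| ≤ b + 1 := by
      simp only [Complex.sub_re, Complex.one_re, hs]
      rw [abs_le]
      constructor <;> linarith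
    have h5 : |(s - 1).im| = |s.im| := by simp
    rw [h5] at h3
    have h6 : 0 ≤ |s.im| := abs_nonneg _
    nlinarith
  rw [hP, norm_mul, norm_pow]
  calc ‖s - 1‖ ^ F.m * ‖LSeries F.f s‖ ≤ ((b + 1) * (1 + |s.im|)) ^ F.m * M := by
        apply mul_le_mul _ h1 (norm_nonneg _) (by positivity)
        exact pow_le_pow_left₀ (norm_nonneg _) h2 _
    _ = (b + 1) ^ F.m * M * (1 + |s.im|) ^ F.m := by
        rw [mul_pow]
        ring

/-- bound on a line to the left of `0` -/
theorem gro_left (F : Sel) (a : ℝ) (ha : a < 0) :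
    ∃ C : ℝ, ∃ K : ℕ, 0 ≤ C ∧ ∀ s : ℂ, s.re = a → ‖F.P s‖ ≤ C * (1 + |s.im|) ^ K := by
  obtain ⟨C, hC, hchi⟩ := chi_bound F a a (by linarith)
  have hsum := dsum_cf_summable F (a : ℂ) (by simpa using ha)
  set M : ℝ := ∑' n : ℕ, ‖F.cf n * (n : ℂ) ^ ((a : ℂ) - 1)‖ with hM
  have hM0 : 0 ≤ M := tsum_nonneg fun n => norm_nonneg _
  obtain ⟨K₀, hK₀⟩ := exists_nat_ge (F.deg * (1 / 2 - a))
  refine ⟨(1 - a) ^ F.m * (C * M), F.m + K₀, by
    have : 0 ≤ 1 - a := by linarith
    positivity, ?_⟩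
  intro s hs
  have hs0 : s.re < 0 := by rw [hs]; exact ha
  have hne : s - 1 ≠ 0 := by
    intro h
    have := congrArg Complex.re h
    simp at this
    linarith
  have hL : F.L s = F.chi s * dsum F.cf s := fe_left F s hs0
  have hP : F.P s = (s - 1) ^ F.m * (F.chi s * dsum F.cf s) := by
    rw [← hL]
    unfold Sel.L
    field_simp
  have hsln : s = ln a s.im := by
    apply Complex.ext
    · simp [ln, hs]
    · simp [ln]
  have h1 : ‖F.chi s‖ ≤ C * (1 + |s.im|) ^ K₀ := by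
    have h2 := hchi a ⟨le_refl _, le_refl _⟩ s.im
    rw [← hsln] at h2
    refine h2.trans ?_
    apply mul_le_mul_of_nonneg_left _ hC.le
    rw [← Real.rpow_natCast]
    exact Real.rpow_le_rpow_of_exponent_le (by linarith [abs_nonneg s.im]) hK₀
  have h2 : ‖dsum F.cf s‖ ≤ M := by
    have e : ∀ n : ℕ, ‖F.cf n * (n : ℂ) ^ (s - 1)‖ = ‖F.cf n * (n : ℂ) ^ ((a : ℂ) - 1)‖ := by
      intro n
      rcases Nat.eq_zero_or_pos n with rfl | hn
      · simp [Sel.cf]
      · rw [norm_mul, norm_mul, Complex.norm_natCast_cpow_of_pos hn,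
          Complex.norm_natCast_cpow_of_pos hn]
        simp [hs]
    have hs' : Summable fun n : ℕ => ‖F.cf n * (n : ℂ) ^ (s - 1)‖ := by
      simpa only [e] using hsum
    unfold dsum
    refine (norm_tsum_le_tsum_norm hs').trans ?_
    rw [hM]
    exact le_of_eq (tsum_congr e)
  have h3 : ‖s - 1‖ ≤ (1 - a) * (1 + |s.im|) := by
    have h3 : ‖s - 1‖ ≤ |(s - 1).re| + |(s - 1).im| := Complex.norm_le_abs_re_add_abs_im _
    have h4 : |(s - 1).re| ≤ 1 - a := by
      simp only [Complex.sub_re, Complex.one_re, hs]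
      rw [abs_le]
      constructor <;> linarith
    have h5 : |(s - 1).im| = |s.im| := by simp
    rw [h5] at h3
    have h6 : 0 ≤ |s.im| := abs_nonneg _
    nlinarith
  have h1a : 0 ≤ 1 - a := by linarith
  rw [hP, norm_mul, norm_mul, norm_pow]
  calc ‖s - 1‖ ^ F.m * (‖F.chi s‖ * ‖dsum F.cf s‖)
      ≤ ((1 - a) * (1 + |s.im|)) ^ F.m * ((C * (1 + |s.im|) ^ K₀) * M) := by
        apply mul_le_mul _ _ (by positivity) (by positivity)
        · exact pow_le_pow_left₀ (norm_nonneg _) h3 _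
        · exact mul_le_mul h1 h2 (norm_nonneg _) (by positivity)
    _ = (1 - a) ^ F.m * (C * M) * (1 + |s.im|) ^ (F.m + K₀) := by
        rw [mul_pow, pow_add]
        ring

/-- the growth hypothesis of Phragmen-Lindelof -/
theorem gro_order (F : Sel) (a b : ℝ) (c : ℝ) (hc : 0 < c) :
    ∃ A B' R : ℝ, ∀ s : ℂ, a ≤ s.re → s.re ≤ b → R ≤ |s.im| →
      ‖F.P s‖ ≤ A * Real.exp (B' * Real.exp (c * |s.im|)) := by
  obtain ⟨A, B, hAB⟩ := F.P_order
  set M : ℝ := |a| + |b| + 1 with hM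
  have hM1 : 1 ≤ M := by
    have := abs_nonneg a
    have := abs_nonneg b
    linarith
  have hB1 : B ≤ |B| := le_abs_self B
  have hB0 : 0 ≤ |B| := abs_nonneg B
  -- eventually `x ^ |B| ≤ exp (c x)`
  have ht := tendsto_rpow_mul_exp_neg_mul_atTop_nhds_zero |B| c hc
  have hev : ∀ᶠ x : ℝ in Filter.atTop, x ^ |B| * Real.exp (-c * x) ≤ 1 := by
    have := ht.eventually (gt_mem_nhds (zero_lt_one : (0 : ℝ) < 1))
    exact this.mono fun x hx => hx.le
  obtain ⟨R₀, hR₀⟩ := Filter.eventually_atTop.1 hev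
  refine ⟨|A|, (2 : ℝ) ^ |B|, max R₀ M, ?_⟩
  intro s hsa hsb hR
  have hR1 : R₀ ≤ |s.im| := le_trans (le_max_left _ _) hR
  have hR2 : M ≤ |s.im| := le_trans (le_max_right _ _) hR
  have hx1 : 1 ≤ |s.im| := by linarith
  have hn1 : |s.im| ≤ ‖s‖ := Complex.abs_im_le_norm s
  have hn2 : ‖s‖ ≤ 2 * |s.im| := by
    have h1 : ‖s‖ ≤ |s.re| + |s.im| := Complex.norm_le_abs_re_add_abs_im _
    have h2 : |s.re| ≤ M := by
      rw [abs_le]
      have h3 := neg_abs_le a
      have h4 := le_abs_self b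
      have h5 := abs_nonneg a
      have h6 := abs_nonneg b
      constructor <;> linarith
    linarith
  have hpow : ‖s‖ ^ B ≤ (2 : ℝ) ^ |B| * Real.exp (c * |s.im|) := by
    calc ‖s‖ ^ B ≤ ‖s‖ ^ |B| :=
          Real.rpow_le_rpow_of_exponent_le (by linarith) hB1
      _ ≤ (2 * |s.im|) ^ |B| := Real.rpow_le_rpow (norm_nonneg _) hn2 hB0
      _ = (2 : ℝ) ^ |B| * |s.im| ^ |B| := Real.mul_rpow (by norm_num) (abs_nonneg _)
      _ ≤ (2 : ℝ) ^ |B| * Real.exp (c * |s.im|) := by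
          apply mul_le_mul_of_nonneg_left _ (by positivity)
          have h1 := hR₀ |s.im| hR1
          have h2 : |s.im| ^ |B| = (|s.im| ^ |B| * Real.exp (-c * |s.im|)) *
              Real.exp (c * |s.im|) := by
            rw [mul_assoc, ← Real.exp_add]
            simp
          rw [h2]
          have h3 : 0 < Real.exp (c * |s.im|) := Real.exp_pos _
          nlinarith
  calc ‖F.P s‖ ≤ A * Real.exp (‖s‖ ^ B) := hAB s
    _ ≤ |A| * Real.exp (‖s‖ ^ B) := by
        exact mul_le_mul_of_nonneg_right (le_abs_self A) (Real.exp_pos _).le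
    _ ≤ |A| * Real.exp ((2 : ℝ) ^ |B| * Real.exp (c * |s.im|)) := by
        apply mul_le_mul_of_nonneg_left _ (abs_nonneg A)
        exact Real.exp_le_exp.2 hpow

theorem gro_core (F : Sel) (a b : ℝ) (ha : a ≤ -1) (hb : 2 ≤ b) :
    ∃ C : ℝ, ∃ K : ℕ, 0 < C ∧ ∀ s : ℂ, a ≤ s.re → s.re ≤ b →
      ‖F.P s‖ ≤ C * (1 + |s.im|) ^ K := by
  obtain ⟨C₁, hC₁, h₁⟩ := gro_right F b (by linarith)
  obtain ⟨C₂, K₂, hC₂, h₂⟩ := gro_left F a (by linarith)
  set K : ℕ := F.m + K₂ with hK
  set D : ℂ := ((b + 1 : ℝ) : ℂ) with hD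
  have hdist : ∀ s : ℂ, s.re ≤ b → 1 ≤ ‖s - D‖ := by
    intro s hs
    have h1 : |(s - D).re| ≤ ‖s - D‖ := Complex.abs_re_le_norm _
    have h2 : (s - D).re = s.re - (b + 1) := by simp [hD]
    rw [h2] at h1
    have h3 : 1 ≤ |s.re - (b + 1)| := by
      rw [le_abs]
      right
      linarith
    linarith
  have hdist2 : ∀ s : ℂ, s.re ≤ b → (1 + |s.im|) / 2 ≤ ‖s - D‖ := by
    intro s hs
    have h1 := hdist s hs
    have h2 : |(s - D).im| ≤ ‖s - D‖ := Complex.abs_im_le_norm _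
    have h3 : (s - D).im = s.im := by simp [hD]
    rw [h3] at h2
    linarith
  have hne : ∀ s : ℂ, s.re ≤ b → s - D ≠ 0 := by
    intro s hs h
    have := hdist s hs
    rw [h, norm_zero] at this
    linarith
  set g : ℂ → ℂ := fun s => F.P s / (s - D) ^ K with hg
  set C : ℝ := (C₁ + C₂) * 2 ^ K with hC
  have hCC : 0 ≤ C := by positivity
  have hbd : ∀ s : ℂ, s.re ≤ b → ∀ C' : ℝ, 0 ≤ C' → C' ≤ C₁ + C₂ → ∀ k : ℕ, k ≤ K →
      ‖F.P s‖ ≤ C' * (1 + |s.im|) ^ k → ‖g s‖ ≤ C := by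
    intro s hs C' hC'0 hC' k hk hPs
    have hx : 1 ≤ 1 + |s.im| := by linarith [abs_nonneg s.im]
    have h1 : ‖F.P s‖ ≤ (C₁ + C₂) * (1 + |s.im|) ^ K := by
      refine hPs.trans ?_
      apply mul_le_mul hC' (pow_le_pow_right₀ hx hk) (by positivity) (by positivity)
    have h2 : ((1 + |s.im|) / 2) ^ K ≤ ‖s - D‖ ^ K :=
      pow_le_pow_left₀ (by positivity) (hdist2 s hs) K
    have h3 : 0 < ‖s - D‖ ^ K := by
      have := hdist s hs
      positivity
    show ‖F.P s / (s - D) ^ K‖ ≤ C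
    rw [norm_div, norm_pow, div_le_iff₀ h3]
    refine h1.trans ?_
    rw [hC]
    have h4 : (1 + |s.im|) ^ K = 2 ^ K * ((1 + |s.im|) / 2) ^ K := by
      rw [← mul_pow]
      congr 1
      ring
    rw [h4]
    calc (C₁ + C₂) * (2 ^ K * ((1 + |s.im|) / 2) ^ K)
        = (C₁ + C₂) * 2 ^ K * ((1 + |s.im|) / 2) ^ K := by ring
      _ ≤ (C₁ + C₂) * 2 ^ K * ‖s - D‖ ^ K :=
          mul_le_mul_of_nonneg_left h2 (by positivity)
  have hmain : ∀ s : ℂ, a ≤ s.re → s.re ≤ b → ‖g s‖ ≤ C := by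
    intro s hsa hsb
    have hab : 0 < b - a := by linarith
    have hpi : 0 < Real.pi / (b - a) := div_pos Real.pi_pos hab
    obtain ⟨A, B', R, hABR⟩ := gro_order F a b (Real.pi / (b - a) / 2) (by positivity)
    refine PhragmenLindelof.vertical_strip (a := a) (b := b) (f := g) ?_ ?_ ?_ ?_ hsa hsb
    · apply DifferentiableOn.diffContOnCl
      have hcl : closure (Complex.re ⁻¹' Set.Ioo a b) ⊆ {s : ℂ | s.re ≤ b} := by
        apply closure_minimal
        · intro z hz
          exact hz.2.le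
        · exact isClosed_le Complex.continuous_re continuous_const
      intro z hz
      have hz' : z.re ≤ b := hcl hz
      refine DifferentiableAt.differentiableWithinAt ?_
      apply DifferentiableAt.div (F.P_diff z)
      · fun_prop
      · exact pow_ne_zero _ (hne z hz')
    · refine ⟨Real.pi / (b - a) / 2, by linarith, B', ?_⟩
      apply Asymptotics.IsBigO.of_bound A
      rw [Filter.eventually_inf_principal]
      have hev : ∀ᶠ z : ℂ in Filter.comap (_root_.abs ∘ Complex.im) Filter.atTop,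
          R ≤ |z.im| := by
        have := Filter.tendsto_comap (f := (_root_.abs ∘ Complex.im)) (x := Filter.atTop)
        exact this.eventually (Filter.eventually_ge_atTop R)
      filter_upwards [hev] with z hz hzS
      have h1 := hABR z hzS.1.le hzS.2.le hz
      have h2 : ‖g z‖ ≤ ‖F.P z‖ := by
        show ‖F.P z / (z - D) ^ K‖ ≤ _
        rw [norm_div, norm_pow]
        apply div_le_self (norm_nonneg _)
        exact one_le_pow₀ (hdist z hzS.2.le)
      rw [Real.norm_eq_abs, abs_of_pos (Real.exp_pos _)]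
      exact h2.trans h1
    · intro z hz
      exact hbd z (by linarith) C₂ hC₂ (by linarith) K₂ (by omega) (h₂ z hz)
    · intro z hz
      exact hbd z (by linarith) C₁ hC₁ (by linarith) F.m (by omega) (h₁ z hz)
  have hW : 0 < |a| + |b| + (b + 2) := by positivity
  refine ⟨C * (|a| + |b| + (b + 2)) ^ K + 1, K, by positivity, ?_⟩
  intro s hsa hsb
  have hg1 := hmain s hsa hsb
  have hP : F.P s = g s * (s - D) ^ K := by
    show F.P s = F.P s / (s - D) ^ K * (s - D) ^ K
    rw [div_mul_cancel₀ _ (pow_ne_zero _ (hne s hsb))]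
  have h2 : ‖s - D‖ ≤ (|a| + |b| + (b + 2)) * (1 + |s.im|) := by
    have h3 : ‖s - D‖ ≤ |(s - D).re| + |(s - D).im| := Complex.norm_le_abs_re_add_abs_im _
    have h4 : (s - D).re = s.re - (b + 1) := by simp [hD]
    have h5 : (s - D).im = s.im := by simp [hD]
    rw [h4, h5] at h3
    have h6 := neg_abs_le a
    have h7 := le_abs_self b
    have h8 := abs_nonneg a
    have h9 := abs_nonneg b
    have h10 : |s.re - (b + 1)| ≤ |a| + |b| + (b + 1) := by
      rw [abs_le]
      constructor <;> linarith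
    have h11 := abs_nonneg s.im
    nlinarith
  have hx : 1 ≤ 1 + |s.im| := by linarith [abs_nonneg s.im]
  rw [hP, norm_mul, norm_pow]
  calc ‖g s‖ * ‖s - D‖ ^ K ≤ C * ((|a| + |b| + (b + 2)) * (1 + |s.im|)) ^ K := by
        apply mul_le_mul hg1 _ (by positivity) hCC
        exact pow_le_pow_left₀ (norm_nonneg _) h2 _
    _ = C * (|a| + |b| + (b + 2)) ^ K * (1 + |s.im|) ^ K := by
        rw [mul_pow]
        ring
    _ ≤ (C * (|a| + |b| + (b + 2)) ^ K + 1) * (1 + |s.im|) ^ K := by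
        apply mul_le_mul_of_nonneg_right _ (by positivity)
        linarith

theorem P_growth (F : Sel) (a b : ℝ) :
    ∃ C : ℝ, ∃ K : ℕ, 0 < C ∧ ∀ s : ℂ, a ≤ s.re → s.re ≤ b →
      ‖F.P s‖ ≤ C * (1 + |s.im|) ^ K := by
  obtain ⟨C, K, hC, h⟩ := gro_core F (min a (-1)) (max b 2) (min_le_right _ _) (le_max_right _ _)
  exact ⟨C, K, hC, fun s h1 h2 => h s ((min_le_left _ _).trans h1) (h2.trans (le_max_left _ _))⟩

end HYM
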