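import Pool.Agent.HYM.Defs

set_option autoImplicit false

/-!
# HYM/GP: the Gaussian Perron formula

PROOFS. `kV_integral`, `kV_mgf`: Gaussian integrals (`integral_gaussian`,
`integral_cexp_quadratic` or `fourierIntegral_gaussian`): `∫ V/(2√π) e^{-V²y²/4 - zy} dy
= e^{z²/V²}`.
`perron_pos`: for `c > 0`, `1/s = ∫_0^∞ e^{-su} du` (`Re s = c > 0`), Fubini (the double integral
converges absolutely: `|e^{s²/V²}| = e^{(c²-t²)/V²}`), and the inner Gaussian integral
`(1/2π) ∫ exp (s²/V² + (y-u) s) dt = kV V (y-u)` (with `s = c + it`; independent of `c`). So the left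
side is `∫_0^∞ kV V (y-u) du = ∫_{-∞}^y kV V = Phi V y`.
`perron_neg`: for `c < 0` substitute `t → -t`: `ln c (-t) = - ln (-c) t`, so the integral is
`- ∫ exp (w²/V² - y w)/w dt` with `w = ln (-c) t`, i.e. `-(Phi V (-y)) = Phi V y - 1`
(`Phi V y + Phi V (-y) = 1` by symmetry of `kV` and `kV_integral`).
-/

open Complex MeasureTheory

namespace HYM

theorem kV_pos {V : ℝ} (hV : 0 < V) (y : ℝ) : 0 < kV V y := by
  unfold kV
  have : 0 < √Real.pi := Real.sqrt_pos.2 Real.pi_pos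
  positivity

private theorem kV_eq (V y : ℝ) :
    kV V y = V / (2 * √Real.pi) * Real.exp (-(V ^ 2 / 4) * y ^ 2) := by
  unfold kV
  congr 2
  ring

private theorem kV_cont (V : ℝ) : Continuous (kV V) := by
  unfold kV
  fun_prop

theorem kV_integrable {V : ℝ} (hV : 0 < V) : Integrable (kV V) := by
  have h : kV V = fun y => V / (2 * √Real.pi) * Real.exp (-(V ^ 2 / 4) * y ^ 2) := by
    funext y
    exact kV_eq V y
  rw [h]
  exact (integrable_exp_neg_mul_sq (by positivity)).const_mul _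

theorem kV_exp_integrable {V : ℝ} (hV : 0 < V) (a : ℝ) :
    Integrable (fun y : ℝ => kV V y * Real.exp (a * |y|)) := by
  have h1 : Integrable (fun y : ℝ => V / (2 * √Real.pi) * Real.exp (2 * a ^ 2 / V ^ 2) *
      Real.exp (-(V ^ 2 / 8) * y ^ 2)) :=
    (integrable_exp_neg_mul_sq (by positivity)).const_mul _
  have hc : Continuous (fun y : ℝ => kV V y * Real.exp (a * |y|)) :=
    (kV_cont V).mul (by fun_prop)
  refine h1.mono' hc.aestronglyMeasurable ?_
  filter_upwards with y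
  have hk := kV_pos hV y
  rw [Real.norm_of_nonneg (by positivity), kV_eq, mul_assoc, mul_assoc, ← Real.exp_add,
    ← Real.exp_add]
  have : 0 < √Real.pi := Real.sqrt_pos.2 Real.pi_pos
  apply mul_le_mul_of_nonneg_left _ (by positivity)
  apply Real.exp_le_exp.2
  have h2 : 0 ≤ (V * |y| / 2 - 2 * a / V) ^ 2 := sq_nonneg _
  have h3 : (V * |y| / 2 - 2 * a / V) ^ 2 = V ^ 2 * |y| ^ 2 / 4 - 2 * a * |y| +
      4 * a ^ 2 / V ^ 2 := by
    field_simp
    ring
  rw [h3, sq_abs] at h2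
  have h4 : 4 * a ^ 2 / V ^ 2 = 2 * (2 * a ^ 2 / V ^ 2) := by ring
  rw [h4] at h2
  linarith

private theorem gauss_cexp {V : ℝ} (hV : 0 < V) (c d : ℂ) :
    ∫ x : ℝ, cexp (-((V : ℂ) ^ 2 / 4) * x ^ 2 + c * x + d) =
      ((2 * √Real.pi / V : ℝ) : ℂ) * cexp (d + c ^ 2 / (V : ℂ) ^ 2) := by
  have hVc : (V : ℂ) ≠ 0 := by exact_mod_cast hV.ne'
  have hb : (-((V : ℂ) ^ 2 / 4)).re < 0 := by
    have : (-((V : ℂ) ^ 2 / 4)) = ((-(V ^ 2 / 4) : ℝ) : ℂ) := by push_cast; ring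
    rw [this, Complex.ofReal_re]
    have : 0 < V ^ 2 / 4 := by positivity
    linarith
  rw [integral_cexp_quadratic hb c d]
  have h1 : (Real.pi : ℂ) / -(-((V : ℂ) ^ 2 / 4)) = ((4 * Real.pi / V ^ 2 : ℝ) : ℂ) := by
    push_cast
    rw [neg_neg]
    field_simp
  rw [h1]
  have h2 : (((4 * Real.pi / V ^ 2 : ℝ) : ℂ)) ^ (1 / 2 : ℂ) = ((2 * √Real.pi / V : ℝ) : ℂ) := by
    have h3 : (1 / 2 : ℂ) = ((1 / 2 : ℝ) : ℂ) := by push_cast; rfl
    rw [h3, ← Complex.ofReal_cpow (by positivity), ← Real.sqrt_eq_rpow]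
    congr 1
    rw [Real.sqrt_div (by positivity), Real.sqrt_sq hV.le, Real.sqrt_mul (by norm_num)]
    have : √(4 : ℝ) = 2 := by
      rw [show (4 : ℝ) = 2 ^ 2 by norm_num]
      exact Real.sqrt_sq (by norm_num)
    rw [this]
  rw [h2]
  congr 2
  field_simp
  ring

theorem kV_mgf {V : ℝ} (hV : 0 < V) (z : ℂ) :
    ∫ y : ℝ, (kV V y : ℂ) * cexp (-(z * y)) = cexp (z ^ 2 / (V : ℂ) ^ 2) := by
  have h1 : ∀ y : ℝ, (kV V y : ℂ) * cexp (-(z * y)) =
      ((V / (2 * √Real.pi) : ℝ) : ℂ) * cexp (-((V : ℂ) ^ 2 / 4) * y ^ 2 + (-z) * y + 0) := by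
    intro y
    rw [kV_eq]
    push_cast
    rw [mul_assoc, ← Complex.exp_add]
    congr 2
    ring
  simp_rw [h1]
  rw [integral_const_mul, gauss_cexp hV, ← mul_assoc, ← Complex.ofReal_mul]
  have hp : √Real.pi ≠ 0 := (Real.sqrt_pos.2 Real.pi_pos).ne'
  have h2 : V / (2 * √Real.pi) * (2 * √Real.pi / V) = 1 := by field_simp
  rw [h2, Complex.ofReal_one, one_mul]
  congr 1
  ring

theorem kV_integral {V : ℝ} (hV : 0 < V) : ∫ y : ℝ, kV V y = 1 := by
  have h := kV_mgf hV 0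
  simp only [zero_mul, neg_zero, Complex.exp_zero, mul_one] at h
  rw [integral_complex_ofReal] at h
  have h2 : ((∫ y : ℝ, kV V y : ℝ) : ℂ) = ((1 : ℝ) : ℂ) := by
    rw [h]
    simp
  exact_mod_cast h2

theorem Phi_le_one {V : ℝ} (hV : 0 < V) (y : ℝ) : 0 ≤ Phi V y ∧ Phi V y ≤ 1 := by
  unfold Phi
  constructor
  · exact setIntegral_nonneg measurableSet_Iic fun u _ => (kV_pos hV u).le
  · rw [← kV_integral hV]
    exact setIntegral_le_integral (kV_integrable hV)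
      (Filter.Eventually.of_forall fun u => (kV_pos hV u).le)

private theorem gauss_line {V : ℝ} (hV : 0 < V) (c w : ℝ) :
    (2 * (Real.pi : ℂ))⁻¹ * ∫ t : ℝ, cexp ((ln c t) ^ 2 / (V : ℂ) ^ 2 + w * ln c t) =
      (kV V w : ℂ) := by
  have hVc : (V : ℂ) ≠ 0 := by exact_mod_cast hV.ne'
  have hV' : 0 < 2 / V := by positivity
  have h1 : ∀ t : ℝ, cexp ((ln c t) ^ 2 / (V : ℂ) ^ 2 + w * ln c t) =
      cexp (-(((2 / V : ℝ) : ℂ) ^ 2 / 4) * t ^ 2 + (2 * c / (V : ℂ) ^ 2 + w) * I * t +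
        ((c : ℂ) ^ 2 / (V : ℂ) ^ 2 + w * c)) := by
    intro t
    congr 1
    unfold ln
    push_cast
    have hI : I ^ 2 = -1 := Complex.I_sq
    field_simp
    linear_combination 4 * (t : ℂ) ^ 2 * hI
  simp_rw [h1]
  rw [gauss_cexp hV', kV_eq]
  have h2 : ((c : ℂ) ^ 2 / (V : ℂ) ^ 2 + w * c) + ((2 * c / (V : ℂ) ^ 2 + w) * I) ^ 2 /
      (((2 / V : ℝ) : ℂ)) ^ 2 = ((-(V ^ 2 / 4) * w ^ 2 : ℝ) : ℂ) := by
    rw [mul_pow, Complex.I_sq]
    push_cast
    field_simp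
    ring
  rw [h2, ← Complex.ofReal_exp, ← Complex.ofReal_mul]
  have h3 : (2 * (Real.pi : ℂ))⁻¹ = (((2 * Real.pi)⁻¹ : ℝ) : ℂ) := by push_cast; rfl
  rw [h3, ← Complex.ofReal_mul]
  congr 1
  rw [← mul_assoc]
  congr 1
  have hp : 0 < √Real.pi := Real.sqrt_pos.2 Real.pi_pos
  have hp2 : √Real.pi ^ 2 = Real.pi := Real.sq_sqrt Real.pi_pos.le
  have hp3 : Real.pi ≠ 0 := Real.pi_ne_zero
  field_simp
  linear_combination hp2

private theorem Phi_eq (V y : ℝ) : Phi V y = ∫ u in Set.Ioi (0 : ℝ), kV V (y - u) := by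
  unfold Phi
  rw [← integral_Ici_eq_integral_Ioi, ← integral_indicator measurableSet_Iic,
    ← integral_indicator measurableSet_Ici,
    ← integral_sub_left_eq_self (fun x => (Set.Iic y).indicator (kV V) x) volume y]
  congr 1
  funext u
  by_cases hu : 0 ≤ u
  · rw [Set.indicator_of_mem (show y - u ∈ Set.Iic y by simpa using hu),
      Set.indicator_of_mem (show u ∈ Set.Ici (0 : ℝ) from hu)]
  · rw [Set.indicator_of_notMem (show y - u ∉ Set.Iic y by simpa using hu),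
      Set.indicator_of_notMem (show u ∉ Set.Ici (0 : ℝ) from hu)]

private theorem ln_ne {c : ℝ} (hc : c ≠ 0) (t : ℝ) : ln c t ≠ 0 := by
  intro h
  have := congrArg Complex.re h
  rw [ln_re, Complex.zero_re] at this
  exact hc this

private theorem norm_line (V c y t : ℝ) :
    ‖cexp ((ln c t) ^ 2 / (V : ℂ) ^ 2 + y * ln c t)‖ =
      Real.exp ((c ^ 2 - t ^ 2) / V ^ 2 + y * c) := by
  rw [Complex.norm_exp]
  congr 1
  have h1 : (ln c t) ^ 2 / (V : ℂ) ^ 2 + y * ln c t =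
      (((c ^ 2 - t ^ 2) / V ^ 2 + y * c : ℝ) : ℂ) + ((2 * c * t / V ^ 2 + y * t : ℝ) : ℂ) * I := by
    unfold ln
    push_cast
    have hI : I ^ 2 = -1 := Complex.I_sq
    linear_combination ((t : ℂ) ^ 2 / (V : ℂ) ^ 2) * hI
  rw [h1, Complex.add_re, Complex.ofReal_re, Complex.re_ofReal_mul, Complex.I_re, mul_zero,
    add_zero]

private theorem gauss_real_integrable {V : ℝ} (hV : 0 < V) (d : ℝ) :
    Integrable (fun t : ℝ => Real.exp ((d - t ^ 2) / V ^ 2)) := by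
  have h1 : (fun t : ℝ => Real.exp ((d - t ^ 2) / V ^ 2)) =
      fun t : ℝ => Real.exp (d / V ^ 2) * Real.exp (-(1 / V ^ 2) * t ^ 2) := by
    funext t
    rw [← Real.exp_add]
    congr 1
    ring
  rw [h1]
  exact (integrable_exp_neg_mul_sq (by positivity)).const_mul _

theorem perron_pos {V c : ℝ} (hV : 0 < V) (hc : 0 < c) (y : ℝ) :
    (2 * (Real.pi : ℂ))⁻¹ * ∫ t : ℝ, cexp ((ln c t) ^ 2 / (V : ℂ) ^ 2 + y * ln c t) / ln c t =
      (Phi V y : ℂ) := by
  have hinv : ∀ t : ℝ, cexp ((ln c t) ^ 2 / (V : ℂ) ^ 2 + y * ln c t) / ln c t =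
      ∫ u in Set.Ioi (0 : ℝ), cexp ((ln c t) ^ 2 / (V : ℂ) ^ 2 + ((y - u : ℝ) : ℂ) * ln c t) := by
    intro t
    have h1 : ∀ u : ℝ, cexp ((ln c t) ^ 2 / (V : ℂ) ^ 2 + ((y - u : ℝ) : ℂ) * ln c t) =
        cexp ((ln c t) ^ 2 / (V : ℂ) ^ 2 + y * ln c t) * cexp (-(ln c t) * u) := by
      intro u
      rw [← Complex.exp_add]
      congr 1
      push_cast
      ring
    simp_rw [h1]
    rw [integral_const_mul, integral_exp_mul_complex_Ioi (by
      rw [Complex.neg_re, ln_re]; linarith)]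
    simp only [Complex.ofReal_zero, mul_zero, Complex.exp_zero]
    have := ln_ne hc.ne' t
    field_simp
  simp_rw [hinv]
  have hint : Integrable (Function.uncurry fun (t : ℝ) (u : ℝ) =>
      cexp ((ln c t) ^ 2 / (V : ℂ) ^ 2 + ((y - u : ℝ) : ℂ) * ln c t))
      (volume.prod (volume.restrict (Set.Ioi (0 : ℝ)))) := by
    have h1 : Integrable (fun t : ℝ => Real.exp ((c ^ 2 - t ^ 2) / V ^ 2)) :=
      gauss_real_integrable hV _
    have h2 : Integrable (fun u : ℝ => Real.exp (y * c) * Real.exp (-c * u))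
        (volume.restrict (Set.Ioi (0 : ℝ))) :=
      (integrableOn_exp_mul_Ioi (by linarith) 0).const_mul _
    have h3 := h1.mul_prod h2
    refine h3.mono' ?_ ?_
    · apply Continuous.aestronglyMeasurable
      unfold ln
      fun_prop
    · filter_upwards with z
      obtain ⟨t, u⟩ := z
      simp only [Function.uncurry]
      rw [norm_line, ← Real.exp_add, ← Real.exp_add]
      apply le_of_eq
      congr 1
      ring
  rw [integral_integral_swap hint, ← integral_const_mul]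
  simp_rw [gauss_line hV]
  rw [Phi_eq]
  exact integral_complex_ofReal

private theorem Phi_neg {V : ℝ} (hV : 0 < V) (y : ℝ) : Phi V y + Phi V (-y) = 1 := by
  have h1 : Phi V (-y) = ∫ u in Set.Ioi y, kV V u := by
    unfold Phi
    have h2 : ∀ u, kV V (-u) = kV V u := by
      intro u
      unfold kV
      congr 2
      ring
    have h3 := integral_comp_neg_Iic (-y) (kV V)
    simp_rw [h2] at h3
    rw [neg_neg] at h3
    exact h3
  rw [h1]
  unfold Phi
  rw [intervalIntegral.integral_Iic_add_Ioi (kV_integrable hV).integrableOn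
    (kV_integrable hV).integrableOn, kV_integral hV]

theorem perron_neg {V c : ℝ} (hV : 0 < V) (hc : c < 0) (y : ℝ) :
    (2 * (Real.pi : ℂ))⁻¹ * ∫ t : ℝ, cexp ((ln c t) ^ 2 / (V : ℂ) ^ 2 + y * ln c t) / ln c t =
      (Phi V y : ℂ) - 1 := by
  have h1 : ∫ t : ℝ, cexp ((ln c t) ^ 2 / (V : ℂ) ^ 2 + y * ln c t) / ln c t =
      -∫ t : ℝ, cexp ((ln (-c) t) ^ 2 / (V : ℂ) ^ 2 + ((-y : ℝ) : ℂ) * ln (-c) t) /
        ln (-c) t := by
    rw [← integral_neg_eq_self, ← integral_neg]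
    congr 1
    funext t
    have h2 : ln c (-t) = - ln (-c) t := by
      unfold ln
      push_cast
      ring
    rw [h2, div_neg]
    congr 3
    push_cast
    ring
  rw [h1, mul_neg, perron_pos hV (by linarith) (-y)]
  have h3 := Phi_neg hV y
  have h4 : (Phi V y : ℂ) + (Phi V (-y) : ℂ) = 1 := by
    exact_mod_cast h3
  linear_combination -h4

end HYM
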