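import Pool.Agent.HYM.Shf
import Pool.Agent.HYM.GP

set_option autoImplicit false

/-!
# HYM/SRes: the residue theorem for a vertical strip

PROOF of `strip_res`. Induction on `m` under the weaker hypothesis
`‖G s‖ ≤ B (1 + ‖s - w‖)^m / (1 + t²)`: for `m ≥ 2` split off `G w / (s - w)^m`, whose integrals vanish,
the rest is `dslope G w s / (s - w)^(m-1)`; for `m = 1` split off `G w e^{(s-w)²} / (s - w)`
(`perron_pos`, `perron_neg`); for `m = 0` Cauchy and `shift_lines`.
-/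

open Complex MeasureTheory

namespace HYM

/-- the difference of the two sides -/
private noncomputable def Lm (a b w ρ : ℝ) (F : ℂ → ℂ) : ℂ :=
  (2 * (Real.pi : ℂ))⁻¹ * (∫ t : ℝ, F (ln b t)) - (2 * (Real.pi : ℂ))⁻¹ * (∫ t : ℝ, F (ln a t)) -
    (2 * (Real.pi : ℂ) * I)⁻¹ * ∮ z in C((w : ℂ), ρ), F z

private structure Nc (a b w ρ : ℝ) (F : ℂ → ℂ) : Prop where
  la : Integrable fun t : ℝ => F (ln a t)
  lb : Integrable fun t : ℝ => F (ln b t)
  ci : CircleIntegrable F w ρ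

variable {a b w ρ : ℝ}

private lemma Lm_add {F F' : ℂ → ℂ} (h : Nc a b w ρ F) (h' : Nc a b w ρ F') :
    Lm a b w ρ (fun s => F s + F' s) = Lm a b w ρ F + Lm a b w ρ F' := by
  unfold Lm
  rw [integral_add h.la h'.la, integral_add h.lb h'.lb, circleIntegral.integral_add h.ci h'.ci]
  ring

private lemma Lm_mul (c : ℂ) (F : ℂ → ℂ) :
    Lm a b w ρ (fun s => c * F s) = c * Lm a b w ρ F := by
  unfold Lm
  rw [integral_const_mul, integral_const_mul, circleIntegral.integral_const_mul]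
  ring

private lemma ln_ne {c : ℝ} (hc : c ≠ w) (t : ℝ) : ln c t ≠ (w : ℂ) := by
  intro h
  have := congrArg Complex.re h
  rw [ln_re, ofReal_re] at this
  exact hc this

private lemma norm_ln_sub {c : ℝ} (t : ℝ) : |c - w| ≤ ‖ln c t - w‖ := by
  have h := Complex.abs_re_le_norm (ln c t - w)
  rwa [sub_re, ln_re, ofReal_re] at h

private lemma mem_strip (hρa : ρ ≤ w - a) (hρb : ρ ≤ b - w) {s : ℂ} (hs : ‖s - w‖ ≤ ρ) :
    a ≤ s.re ∧ s.re ≤ b := by
  have h := (Complex.abs_re_le_norm (s - w)).trans hs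
  rw [sub_re, ofReal_re, abs_le] at h
  constructor <;> linarith [h.1, h.2]

private lemma Lm_congr (hρ : 0 < ρ) (hρa : ρ ≤ w - a) (hρb : ρ ≤ b - w) {F F' : ℂ → ℂ}
    (h : ∀ s : ℂ, s ≠ w → F s = F' s) : Lm a b w ρ F = Lm a b w ρ F' := by
  unfold Lm
  have h1 : (fun t : ℝ => F (ln b t)) = fun t : ℝ => F' (ln b t) := by
    funext t; exact h _ (ln_ne (by linarith) t)
  have h2 : (fun t : ℝ => F (ln a t)) = fun t : ℝ => F' (ln a t) := by
    funext t; exact h _ (ln_ne (by linarith) t)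
  have h3 : (∮ z in C((w : ℂ), ρ), F z) = ∮ z in C((w : ℂ), ρ), F' z := by
    refine circleIntegral.integral_congr hρ.le fun z hz => h z ?_
    rintro rfl
    rw [mem_sphere_iff_norm, sub_self, norm_zero] at hz
    linarith
  rw [h1, h2, h3]

private lemma Nc_of (hρ : 0 < ρ) (hρa : ρ ≤ w - a) (hρb : ρ ≤ b - w) {F : ℂ → ℂ} {B : ℝ}
    (hc : ∀ s : ℂ, a ≤ s.re → s.re ≤ b → s ≠ w → ContinuousAt F s)
    (hB : ∀ s : ℂ, a ≤ s.re → s.re ≤ b → ρ ≤ ‖s - w‖ → ‖F s‖ ≤ B / (1 + s.im ^ 2)) :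
    Nc a b w ρ F := by
  have key : ∀ c : ℝ, a ≤ c → c ≤ b → ρ ≤ |c - w| → Integrable fun t : ℝ => F (ln c t) := by
    intro c hca hcb hcw
    have hcw' : c ≠ w := by
      rintro rfl
      rw [sub_self, abs_zero] at hcw
      linarith
    have hcont : Continuous (fun t : ℝ => F (ln c t)) := by
      rw [continuous_iff_continuousAt]
      intro t
      have h1 : ContinuousAt F (ln c t) := hc _ (by rw [ln_re]; exact hca)
        (by rw [ln_re]; exact hcb) (ln_ne hcw' t)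
      have h2 : Continuous (fun t : ℝ => ln c t) := by
        unfold ln
        fun_prop
      exact ContinuousAt.comp (f := fun t : ℝ => ln c t) h1 h2.continuousAt
    have hint : Integrable (fun t : ℝ => B * (1 + t ^ 2)⁻¹) := integrable_inv_one_add_sq.const_mul B
    refine hint.mono' hcont.aestronglyMeasurable ?_
    filter_upwards with t
    have h := hB (ln c t) (by rw [ln_re]; exact hca) (by rw [ln_re]; exact hcb)
      (hcw.trans (norm_ln_sub t))
    rw [ln_im] at h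
    exact h
  refine ⟨key a le_rfl (by linarith) ?_, key b (by linarith) le_rfl ?_, ?_⟩
  · rw [abs_of_nonpos (by linarith)]; linarith
  · rw [abs_of_nonneg (by linarith)]; linarith
  · refine ContinuousOn.circleIntegrable hρ.le fun s hs => ?_
    rw [mem_sphere_iff_norm] at hs
    have h1 := mem_strip hρa hρb hs.le
    refine (hc s h1.1 h1.2 ?_).continuousWithinAt
    rintro rfl
    rw [sub_self, norm_zero] at hs
    linarith

/-- dividing by `s - w` -/
private lemma ds_bound (hρ : 0 < ρ) (hρa : ρ ≤ w - a) (hρb : ρ ≤ b - w) {G : ℂ → ℂ} {B : ℝ}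
    (hd : ∀ s : ℂ, a ≤ s.re → s.re ≤ b → DifferentiableAt ℂ G s) {n : ℕ}
    (hB : ∀ s : ℂ, a ≤ s.re → s.re ≤ b →
      ‖G s - G w‖ ≤ B * (1 + ‖s - w‖) ^ (n + 1) / (1 + s.im ^ 2)) :
    (∀ s : ℂ, a ≤ s.re → s.re ≤ b → DifferentiableAt ℂ (dslope G w) s) ∧
    ∃ B' : ℝ, ∀ s : ℂ, a ≤ s.re → s.re ≤ b →
      ‖dslope G w s‖ ≤ B' * (1 + ‖s - w‖) ^ n / (1 + s.im ^ 2) := by
  have hdiff : ∀ s : ℂ, a ≤ s.re → s.re ≤ b → DifferentiableAt ℂ (dslope G w) s := by
    intro s hs1 hs2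
    by_cases hsw : s = w
    · subst hsw
      have hnh : Metric.ball (w : ℂ) ρ ∈ nhds (w : ℂ) := Metric.ball_mem_nhds _ hρ
      have h1 : DifferentiableOn ℂ G (Metric.ball (w : ℂ) ρ) := by
        intro z hz
        rw [mem_ball_iff_norm] at hz
        have h2 := mem_strip hρa hρb hz.le
        exact (hd z h2.1 h2.2).differentiableWithinAt
      have h2 := (Complex.differentiableOn_dslope hnh).2 h1
      exact h2.differentiableAt hnh
    · exact (differentiableAt_dslope_of_ne hsw).2 (hd s hs1 hs2)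
  refine ⟨hdiff, ?_⟩
  have hcomp : IsCompact (Metric.closedBall (w : ℂ) ρ) := isCompact_closedBall _ _
  have hcont : ContinuousOn (dslope G w) (Metric.closedBall (w : ℂ) ρ) := by
    intro z hz
    rw [mem_closedBall_iff_norm] at hz
    have h2 := mem_strip hρa hρb hz
    exact (hdiff z h2.1 h2.2).continuousAt.continuousWithinAt
  obtain ⟨M, hM⟩ := hcomp.exists_bound_of_continuousOn hcont
  have hM0 : 0 ≤ M := (norm_nonneg _).trans (hM w (Metric.mem_closedBall_self hρ.le))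
  have him : ∀ s : ℂ, |s.im| ≤ ‖s - w‖ := by
    intro s
    have h := Complex.abs_im_le_norm (s - w)
    rwa [sub_im, ofReal_im, sub_zero] at h
  refine ⟨M * (1 + ρ ^ 2) + |B| * (1 + 1 / ρ), fun s hs1 hs2 => ?_⟩
  have hpos : 0 < 1 + s.im ^ 2 := by positivity
  have h1v : 1 ≤ (1 + ‖s - w‖) ^ n := one_le_pow₀ (by linarith [norm_nonneg (s - w)])
  rw [le_div_iff₀ hpos]
  by_cases hsw : ‖s - w‖ ≤ ρ
  · have h1 := hM s (by rw [mem_closedBall_iff_norm]; exact hsw)
    have h2 : s.im ^ 2 ≤ ρ ^ 2 := by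
      rw [← sq_abs]
      exact pow_le_pow_left₀ (abs_nonneg _) ((him s).trans hsw) 2
    calc ‖dslope G w s‖ * (1 + s.im ^ 2) ≤ M * (1 + ρ ^ 2) := by gcongr
      _ ≤ M * (1 + ρ ^ 2) + |B| * (1 + 1 / ρ) := by
          have : 0 ≤ |B| * (1 + 1 / ρ) := by positivity
          linarith
      _ ≤ (M * (1 + ρ ^ 2) + |B| * (1 + 1 / ρ)) * (1 + ‖s - w‖) ^ n := by
          refine le_mul_of_one_le_right ?_ h1v
          positivity
  · rw [not_le] at hsw
    have hne : s ≠ w := by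
      rintro rfl
      rw [sub_self, norm_zero] at hsw
      linarith
    have hv : 0 < ‖s - w‖ := hρ.trans hsw
    have h1 : dslope G w s = (s - w)⁻¹ * (G s - G w) := by
      rw [dslope_of_ne _ hne, slope_def_field, div_eq_inv_mul]
    rw [h1, norm_mul, norm_inv]
    have h2 := hB s hs1 hs2
    rw [le_div_iff₀ hpos] at h2
    have h3 : 1 + ‖s - w‖ ≤ (1 + 1 / ρ) * ‖s - w‖ := by
      have : 1 ≤ 1 / ρ * ‖s - w‖ := by
        rw [one_div, ← div_eq_inv_mul, le_div_iff₀ hρ]; linarith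
      linarith
    calc ‖s - w‖⁻¹ * ‖G s - G w‖ * (1 + s.im ^ 2)
        = ‖s - w‖⁻¹ * (‖G s - G w‖ * (1 + s.im ^ 2)) := by ring
      _ ≤ ‖s - w‖⁻¹ * (B * (1 + ‖s - w‖) ^ (n + 1)) := by gcongr
      _ ≤ ‖s - w‖⁻¹ * (|B| * (1 + ‖s - w‖) ^ (n + 1)) := by
          gcongr
          exact le_abs_self B
      _ = ‖s - w‖⁻¹ * (|B| * (1 + ‖s - w‖) ^ n) * (1 + ‖s - w‖) := by ring
      _ ≤ ‖s - w‖⁻¹ * (|B| * (1 + ‖s - w‖) ^ n) * ((1 + 1 / ρ) * ‖s - w‖) := by gcongr
      _ = |B| * (1 + 1 / ρ) * (1 + ‖s - w‖) ^ n := by field_simp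
      _ ≤ (M * (1 + ρ ^ 2) + |B| * (1 + 1 / ρ)) * (1 + ‖s - w‖) ^ n := by
          gcongr
          have : 0 ≤ M * (1 + ρ ^ 2) := by positivity
          linarith

/-- negative powers on a line -/
private lemma line_pow {c : ℝ} (hc : c ≠ 0) (n : ℕ)
    (hi : Integrable fun t : ℝ => ((ln c t) ^ (n + 2))⁻¹) :
    ∫ t : ℝ, ((ln c t) ^ (n + 2))⁻¹ = 0 := by
  have hne : ∀ t, ln c t ≠ 0 := by
    intro t h
    have := congrArg Complex.re h
    rw [ln_re, zero_re] at this
    exact hc this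
  have hln : ∀ t : ℝ, HasDerivAt (fun t : ℝ => ln c t) I t := by
    intro t
    unfold ln
    have h1 : HasDerivAt (fun t : ℝ => (t : ℂ)) 1 t := HasDerivAt.ofReal_comp (hasDerivAt_id t)
    simpa using (h1.mul_const I).const_add (c : ℂ)
  have hder : ∀ t : ℝ, HasDerivAt (fun t : ℝ => ((ln c t) ^ (n + 1))⁻¹)
      ((-(n + 1) * I) * ((ln c t) ^ (n + 2))⁻¹) t := by
    intro t
    have h1 := ((hln t).pow (n + 1)).inv (pow_ne_zero _ (hne t))
    refine h1.congr_deriv ?_
    have h2 := hne t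
    have e1 : ((fun t : ℝ => ln c t) ^ (n + 1)) t = ln c t ^ (n + 1) := rfl
    rw [e1, Nat.add_sub_cancel]
    field_simp
    push_cast
    ring
  have hnorm : ∀ t : ℝ, |t| ≤ ‖ln c t‖ := by
    intro t
    have h := Complex.abs_im_le_norm (ln c t)
    rwa [ln_im] at h
  have hlim : ∀ l : Filter ℝ, Filter.Tendsto (fun t : ℝ => |t|) l Filter.atTop →
      Filter.Tendsto (fun t : ℝ => ((ln c t) ^ (n + 1))⁻¹) l (nhds 0) := by
    intro l hl
    rw [tendsto_zero_iff_norm_tendsto_zero]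
    simp only [norm_inv, norm_pow]
    have h1 : Filter.Tendsto (fun t : ℝ => ‖ln c t‖) l Filter.atTop :=
      Filter.tendsto_atTop_mono hnorm hl
    exact ((Filter.tendsto_pow_atTop (Nat.succ_ne_zero n)).comp h1).inv_tendsto_atTop
  have h1 := integral_of_hasDerivAt_of_tendsto hder (hi.const_mul _)
    (hlim _ Filter.tendsto_abs_atBot_atTop) (hlim _ Filter.tendsto_abs_atTop_atTop)
  rw [integral_const_mul, sub_zero, mul_eq_zero] at h1
  rcases h1 with h | h
  · exfalso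
    rw [mul_eq_zero] at h
    rcases h with h | h
    · have : ((n : ℂ) + 1) ≠ 0 := by exact_mod_cast Nat.succ_ne_zero n
      exact this (neg_eq_zero.1 h)
    · exact I_ne_zero h
  · exact h

/-- negative powers -/
private lemma Lm_pow (hρ : 0 < ρ) (hρa : ρ ≤ w - a) (hρb : ρ ≤ b - w) (n : ℕ) :
    Nc a b w ρ (fun s => ((s - w) ^ (n + 2))⁻¹) ∧
      Lm a b w ρ (fun s => ((s - w) ^ (n + 2))⁻¹) = 0 := by
  have hN : Nc a b w ρ (fun s => ((s - w) ^ (n + 2))⁻¹) := by
    refine Nc_of (B := (1 + 1 / ρ ^ 2) / ρ ^ n) hρ hρa hρb ?_ ?_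
    · intro s _ _ hs
      have h1 : (s - w) ^ (n + 2) ≠ 0 := pow_ne_zero _ (sub_ne_zero.2 hs)
      exact ContinuousAt.inv₀ (by fun_prop) h1
    · intro s _ _ hs
      have hv : 0 < ‖s - w‖ := hρ.trans_le hs
      rw [norm_inv, norm_pow, le_div_iff₀ (by positivity), div_eq_mul_inv]
      have h1 : s.im ^ 2 ≤ ‖s - w‖ ^ 2 := by
        have h := Complex.abs_im_le_norm (s - w)
        rw [sub_im, ofReal_im, sub_zero] at h
        rw [← sq_abs]
        exact pow_le_pow_left₀ (abs_nonneg _) h 2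
      have h2 : 1 + s.im ^ 2 ≤ (1 + 1 / ρ ^ 2) * ‖s - w‖ ^ 2 := by
        have h3 : 1 ≤ 1 / ρ ^ 2 * ‖s - w‖ ^ 2 := by
          rw [one_div, ← div_eq_inv_mul, le_div_iff₀ (by positivity), one_mul]
          exact pow_le_pow_left₀ hρ.le hs 2
        linarith
      calc (‖s - w‖ ^ (n + 2))⁻¹ * (1 + s.im ^ 2)
          ≤ (‖s - w‖ ^ (n + 2))⁻¹ * ((1 + 1 / ρ ^ 2) * ‖s - w‖ ^ 2) := by gcongr
        _ = (1 + 1 / ρ ^ 2) * (‖s - w‖ ^ n)⁻¹ := by
            rw [pow_add]; field_simp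
        _ ≤ (1 + 1 / ρ ^ 2) * (ρ ^ n)⁻¹ := by gcongr
  refine ⟨hN, ?_⟩
  have hlw : ∀ c t : ℝ, ln c t - w = ln (c - w) t := by
    intro c t
    unfold ln
    push_cast
    ring
  unfold Lm
  have h1 : ∫ t : ℝ, ((ln b t - w) ^ (n + 2))⁻¹ = 0 := by
    have h := hN.lb
    simp only [hlw] at h ⊢
    exact line_pow (by linarith) n h
  have h2 : ∫ t : ℝ, ((ln a t - w) ^ (n + 2))⁻¹ = 0 := by
    have h := hN.la
    simp only [hlw] at h ⊢
    exact line_pow (by linarith) n h
  have h3 : (∮ z in C((w : ℂ), ρ), ((z - w) ^ (n + 2))⁻¹) = 0 := by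
    have h := circleIntegral.integral_sub_zpow_of_ne (n := -((n : ℤ) + 2)) (by omega) (w : ℂ) w ρ
    rw [← h]
    refine circleIntegral.integral_congr hρ.le fun z _ => ?_
    rw [zpow_neg]
    norm_cast
  rw [h1, h2, h3]
  simp

/-- the Gaussian kernel -/
private lemma Lm_exp (hρ : 0 < ρ) (hρa : ρ ≤ w - a) (hρb : ρ ≤ b - w) :
    Nc a b w ρ (fun s => cexp ((s - w) ^ 2) / (s - w)) ∧
      Lm a b w ρ (fun s => cexp ((s - w) ^ 2) / (s - w)) = 0 := by
  have hE : ∀ s : ℂ, a ≤ s.re → s.re ≤ b →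
      ‖cexp ((s - w) ^ 2)‖ ≤ Real.exp ((b - a) ^ 2) / (1 + s.im ^ 2) := by
    intro s h1 h2
    have h3 : ((s - w) ^ 2).re = (s.re - w) ^ 2 - s.im ^ 2 := by
      rw [sq, mul_re, sub_re, sub_im, ofReal_re, ofReal_im]
      ring
    rw [Complex.norm_exp, h3, Real.exp_sub]
    have h4 : (s.re - w) ^ 2 ≤ (b - a) ^ 2 := by
      rw [← sq_abs (s.re - w)]
      refine pow_le_pow_left₀ (abs_nonneg _) ?_ 2
      rw [abs_le]
      constructor <;> linarith
    have h5 : 1 + s.im ^ 2 ≤ Real.exp (s.im ^ 2) := by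
      have := Real.add_one_le_exp (s.im ^ 2)
      linarith
    gcongr
  have hN : Nc a b w ρ (fun s => cexp ((s - w) ^ 2) / (s - w)) := by
    refine Nc_of (B := Real.exp ((b - a) ^ 2) / ρ) hρ hρa hρb ?_ ?_
    · intro s _ _ hs
      exact ContinuousAt.div (by fun_prop) (by fun_prop) (sub_ne_zero.2 hs)
    · intro s h1 h2 hs
      rw [norm_div, div_right_comm]
      have := hE s h1 h2
      gcongr
  refine ⟨hN, ?_⟩
  have hlw : ∀ c t : ℝ, ln c t - w = ln (c - w) t := by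
    intro c t
    unfold ln
    push_cast
    ring
  have h1 := perron_pos (V := 1) one_pos (c := b - w) (by linarith) 0
  have h2 := perron_neg (V := 1) one_pos (c := a - w) (by linarith) 0
  simp only [ofReal_one, one_pow, div_one, ofReal_zero, zero_mul, add_zero, ← hlw] at h1 h2
  have h3 : (∮ z in C((w : ℂ), ρ), cexp ((z - w) ^ 2) / (z - w)) = 2 * Real.pi * I := by
    have hdf : Differentiable ℂ fun z : ℂ => cexp ((z - w) ^ 2) := by fun_prop
    have h := (hdf.diffContOnCl (s := Metric.ball (w : ℂ) ρ)).circleIntegral_sub_inv_smul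
      (w := (w : ℂ)) (Metric.mem_ball_self hρ)
    simp only [smul_eq_mul, sub_self, ne_eq, OfNat.ofNat_ne_zero, not_false_eq_true, zero_pow,
      exp_zero, mul_one] at h
    rw [← h]
    refine circleIntegral.integral_congr hρ.le fun z _ => ?_
    rw [div_eq_inv_mul]
  unfold Lm
  rw [h1, h2, h3, inv_mul_cancel₀ two_pi_I_ne_zero]
  ring

private lemma strip_aux (hρ : 0 < ρ) (hρa : ρ ≤ w - a) (hρb : ρ ≤ b - w) (m : ℕ) :
    ∀ (G : ℂ → ℂ) (B : ℝ), (∀ s : ℂ, a ≤ s.re → s.re ≤ b → DifferentiableAt ℂ G s) →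
    (∀ s : ℂ, a ≤ s.re → s.re ≤ b → ‖G s‖ ≤ B * (1 + ‖s - w‖) ^ m / (1 + s.im ^ 2)) →
    Nc a b w ρ (fun s => G s / (s - w) ^ m) ∧ Lm a b w ρ (fun s => G s / (s - w) ^ m) = 0 := by
  have haw : a ≤ w := by linarith
  have hwb : w ≤ b := by linarith
  have him : ∀ s : ℂ, |s.im| ≤ ‖s - w‖ := by
    intro s
    have h := Complex.abs_im_le_norm (s - w)
    rwa [sub_im, ofReal_im, sub_zero] at h
  -- integrability
  have hN : ∀ (m : ℕ) (G : ℂ → ℂ) (B : ℝ),
      (∀ s : ℂ, a ≤ s.re → s.re ≤ b → DifferentiableAt ℂ G s) →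
      (∀ s : ℂ, a ≤ s.re → s.re ≤ b → ‖G s‖ ≤ B * (1 + ‖s - w‖) ^ m / (1 + s.im ^ 2)) →
      Nc a b w ρ (fun s => G s / (s - w) ^ m) := by
    intro m G B hd hB
    refine Nc_of (B := |B| * (1 + 1 / ρ) ^ m) hρ hρa hρb ?_ ?_
    · intro s h1 h2 hs
      exact (hd s h1 h2).continuousAt.div (by fun_prop) (pow_ne_zero _ (sub_ne_zero.2 hs))
    · intro s h1 h2 hs
      have hv : 0 < ‖s - w‖ := hρ.trans_le hs
      rw [norm_div, norm_pow, div_le_iff₀ (by positivity)]
      have h3 : 1 + ‖s - w‖ ≤ (1 + 1 / ρ) * ‖s - w‖ := by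
        have : 1 ≤ 1 / ρ * ‖s - w‖ := by
          rw [one_div, ← div_eq_inv_mul, le_div_iff₀ hρ]; linarith
        linarith
      calc ‖G s‖ ≤ B * (1 + ‖s - w‖) ^ m / (1 + s.im ^ 2) := hB s h1 h2
        _ ≤ |B| * ((1 + 1 / ρ) * ‖s - w‖) ^ m / (1 + s.im ^ 2) := by
            gcongr
            exact le_abs_self B
        _ = |B| * (1 + 1 / ρ) ^ m / (1 + s.im ^ 2) * ‖s - w‖ ^ m := by
            rw [mul_pow]; ring
  induction m with
  | zero =>
      intro G B hd hB
      refine ⟨hN 0 G B hd hB, ?_⟩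
      have hB' : ∀ s : ℂ, a ≤ s.re → s.re ≤ b → ‖G s‖ ≤ B / (1 + s.im ^ 2) := by
        intro s h1 h2
        simpa using hB s h1 h2
      have h1 := shift_lines (by linarith) hd hB'
      have h2 : (∮ z in C((w : ℂ), ρ), G z) = 0 := by
        refine Complex.circleIntegral_eq_zero_of_differentiable_on_off_countable hρ.le
          Set.countable_empty ?_ ?_
        · intro z hz
          rw [mem_closedBall_iff_norm] at hz
          have h3 := mem_strip hρa hρb hz
          exact (hd z h3.1 h3.2).continuousAt.continuousWithinAt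
        · intro z hz
          have hz' := hz.1
          rw [mem_ball_iff_norm] at hz'
          have h3 := mem_strip hρa hρb hz'.le
          exact hd z h3.1 h3.2
      unfold Lm
      simp only [pow_zero, div_one]
      rw [h1, h2]
      ring
  | succ m ih =>
      intro G B hd hB
      refine ⟨hN (m + 1) G B hd hB, ?_⟩
      rcases m with _ | m
      · -- a simple pole
        set E : ℂ → ℂ := fun s => cexp ((s - w) ^ 2) with hE
        set H : ℂ → ℂ := fun s => G s - G w * E s with hH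
        have hHw : H w = 0 := by
          simp [hH, hE]
        have hHd : ∀ s : ℂ, a ≤ s.re → s.re ≤ b → DifferentiableAt ℂ H s := by
          intro s h1 h2
          refine (hd s h1 h2).sub (DifferentiableAt.const_mul ?_ _)
          exact (by fun_prop : Differentiable ℂ fun s : ℂ => cexp ((s - w) ^ 2)) s
        have hHB : ∀ s : ℂ, a ≤ s.re → s.re ≤ b →
            ‖H s - H w‖ ≤ (B + ‖G w‖ * Real.exp ((b - a) ^ 2)) * (1 + ‖s - w‖) ^ (0 + 1)
              / (1 + s.im ^ 2) := by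
          intro s h1 h2
          rw [hHw, sub_zero]
          have h3 : ((s - w) ^ 2).re = (s.re - w) ^ 2 - s.im ^ 2 := by
            rw [sq, mul_re, sub_re, sub_im, ofReal_re, ofReal_im]
            ring
          have h4 : (s.re - w) ^ 2 ≤ (b - a) ^ 2 := by
            rw [← sq_abs (s.re - w)]
            refine pow_le_pow_left₀ (abs_nonneg _) ?_ 2
            rw [abs_le]
            constructor <;> linarith
          have h5 : 1 + s.im ^ 2 ≤ Real.exp (s.im ^ 2) := by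
            have := Real.add_one_le_exp (s.im ^ 2)
            linarith
          have h6 : ‖E s‖ ≤ Real.exp ((b - a) ^ 2) / (1 + s.im ^ 2) := by
            rw [hE]
            simp only
            rw [Complex.norm_exp, h3, Real.exp_sub]
            gcongr
          have h7 := hB s h1 h2
          have h8 : 1 ≤ (1 + ‖s - w‖) ^ (0 + 1) := by
            rw [zero_add, pow_one]; linarith [norm_nonneg (s - w)]
          have hpos : 0 < 1 + s.im ^ 2 := by positivity
          calc ‖H s‖ ≤ ‖G s‖ + ‖G w * E s‖ := norm_sub_le _ _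
            _ ≤ B * (1 + ‖s - w‖) ^ (0 + 1) / (1 + s.im ^ 2)
                + ‖G w‖ * (Real.exp ((b - a) ^ 2) / (1 + s.im ^ 2)) := by
                rw [norm_mul]
                gcongr
            _ ≤ B * (1 + ‖s - w‖) ^ (0 + 1) / (1 + s.im ^ 2)
                + ‖G w‖ * (Real.exp ((b - a) ^ 2) / (1 + s.im ^ 2)) * (1 + ‖s - w‖) ^ (0 + 1) := by
                have := le_mul_of_one_le_right
                  (a := ‖G w‖ * (Real.exp ((b - a) ^ 2) / (1 + s.im ^ 2))) (by positivity) h8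
                linarith
            _ = _ := by ring
        obtain ⟨h1, B', h2⟩ := ds_bound hρ hρa hρb hHd hHB
        have h3 := ih (dslope H w) B' h1 h2
        have h4 := Lm_exp hρ hρa hρb
        have h5 : Lm a b w ρ (fun s => G s / (s - w) ^ (0 + 1))
            = Lm a b w ρ (fun s => G w * (E s / (s - w)) + dslope H w s / (s - w) ^ 0) := by
          refine Lm_congr hρ hρa hρb fun s hs => ?_
          have h6 : s - w ≠ 0 := sub_ne_zero.2 hs
          rw [dslope_of_ne _ hs, slope_def_field, hHw]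
          simp only [hH]
          field_simp
          ring
        have h6 : Nc a b w ρ (fun s => G w * (E s / (s - w))) :=
          ⟨h4.1.la.const_mul _, h4.1.lb.const_mul _, h4.1.ci.const_mul _⟩
        rw [h5, Lm_add h6 h3.1, h3.2, Lm_mul, h4.2]
        ring
      · -- a multiple pole
        have hGB : ∀ s : ℂ, a ≤ s.re → s.re ≤ b →
            ‖G s - G w‖ ≤ (B + ‖G w‖) * (1 + ‖s - w‖) ^ (m + 1 + 1) / (1 + s.im ^ 2) := by
          intro s h1 h2
          have hpos : 0 < 1 + s.im ^ 2 := by positivity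
          have h7 := hB s h1 h2
          have h8 : 1 + s.im ^ 2 ≤ (1 + ‖s - w‖) ^ (m + 1 + 1) := by
            have h9 : s.im ^ 2 ≤ ‖s - w‖ ^ 2 := by
              rw [← sq_abs]
              exact pow_le_pow_left₀ (abs_nonneg _) (him s) 2
            calc 1 + s.im ^ 2 ≤ (1 + ‖s - w‖) ^ 2 := by nlinarith [norm_nonneg (s - w)]
              _ ≤ (1 + ‖s - w‖) ^ (m + 1 + 1) :=
                pow_le_pow_right₀ (by linarith [norm_nonneg (s - w)]) (by omega)
          have h9 : ‖G w‖ ≤ ‖G w‖ * (1 + ‖s - w‖) ^ (m + 1 + 1) / (1 + s.im ^ 2) := by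
            rw [le_div_iff₀ hpos]
            gcongr
          calc ‖G s - G w‖ ≤ ‖G s‖ + ‖G w‖ := norm_sub_le _ _
            _ ≤ B * (1 + ‖s - w‖) ^ (m + 1 + 1) / (1 + s.im ^ 2)
                + ‖G w‖ * (1 + ‖s - w‖) ^ (m + 1 + 1) / (1 + s.im ^ 2) := add_le_add h7 h9
            _ = _ := by ring
        obtain ⟨h1, B', h2⟩ := ds_bound hρ hρa hρb hd hGB
        have h3 := ih (dslope G w) B' h1 h2
        have h4 := Lm_pow hρ hρa hρb m
        have h5 : Lm a b w ρ (fun s => G s / (s - w) ^ (m + 1 + 1))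
            = Lm a b w ρ (fun s => G w * ((s - w) ^ (m + 2))⁻¹
                + dslope G w s / (s - w) ^ (m + 1)) := by
          refine Lm_congr hρ hρa hρb fun s hs => ?_
          have h6 : s - w ≠ 0 := sub_ne_zero.2 hs
          rw [dslope_of_ne _ hs, slope_def_field]
          field_simp
          ring
        have h6 : Nc a b w ρ (fun s => G w * ((s - w) ^ (m + 2))⁻¹) :=
          ⟨h4.1.la.const_mul _, h4.1.lb.const_mul _, h4.1.ci.const_mul _⟩
        rw [h5, Lm_add h6 h3.1, h3.2, Lm_mul, h4.2]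
        ring

theorem strip_res {G : ℂ → ℂ} {a b w B ρ : ℝ} (hρ : 0 < ρ) (hρa : ρ ≤ w - a) (hρb : ρ ≤ b - w)
    (hd : ∀ s : ℂ, a ≤ s.re → s.re ≤ b → DifferentiableAt ℂ G s)
    (hB : ∀ s : ℂ, a ≤ s.re → s.re ≤ b → ‖G s‖ ≤ B / (1 + s.im ^ 2)) (m : ℕ) :
    (2 * (Real.pi : ℂ))⁻¹ * (∫ t : ℝ, G (ln b t) / (ln b t - w) ^ m) -
      (2 * (Real.pi : ℂ))⁻¹ * (∫ t : ℝ, G (ln a t) / (ln a t - w) ^ m) =
      (2 * (Real.pi : ℂ) * I)⁻¹ * ∮ z in C((w : ℂ), ρ), G z / (z - w) ^ m := by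
  have h := (strip_aux hρ hρa hρb m G |B| hd fun s h1 h2 => by
    refine (hB s h1 h2).trans ?_
    have h3 : 1 ≤ (1 + ‖s - w‖) ^ m := one_le_pow₀ (by linarith [norm_nonneg (s - w)])
    have h4 : B ≤ |B| * (1 + ‖s - w‖) ^ m :=
      (le_abs_self B).trans (le_mul_of_one_le_right (abs_nonneg B) h3)
    gcongr).2
  exact sub_eq_zero.1 h

end HYM
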