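import Pool.Agent.HYM.Jms
import Pool.Agent.HYM.SRes
import Pool.Agent.HYM.Gro
import Pool.Agent.HYM.Blk

set_option autoImplicit false

/-!
# HYM/Afe: an approximate functional equation on the critical line

`RR s = P s / (s+2)^m = rr s * L s`, `rr s = ((s-1)/(s+2))^m`, is analytic for `Re s > -2` and
polynomially bounded; `|rr| ≤ 1` for `Re s ≥ -1/2` and `|rr (1/2+it)| ≥ 5^(-m)`.

PROOF of `afe`. (1) `strip_res` in the variable `w` (pole `w = 0`, order 1) for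
`w ↦ RR (s+w) U^w e^{w²}`, `s = 1/2 + it`, on the strip `-1/2-ε ≤ Re w ≤ 1/2+2ε` (radius `ρ = 1/4`, Cauchy's
formula on the circle), gives `RR s = Jop (1/2+2ε) U (RR ∘ ln (1+2ε)) t - Jop (-1/2-ε) U (RR ∘ ln (-ε)) t`
(`s + w = ln (1/2+σ) (t+v)`).
(2) On `Re z = 1+2ε`: `RR z = rr z ∑ f(n) n^{-z} = rr z (∑_{k<K} Dk z + Dtail z)`,
`Dk z = ∑_{2^k ≤ n < 2^(k+1)} f(n) n^{-z} = conj (dsum (blk k) (1 - conj z))`. For each `k < K` move `w` from
`Re w = 1/2+2ε` to `Re w = ε` (`shift_lines`: no pole; `H w = rr(s+w) Dk(s+w) U^w e^{w²}/w`).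
(3) On `Re z = -ε`: `RR z = rr z chi z dsum cf z` (`fe_left`), `dsum_split`; for `k < K` move `w` from
`Re w = -1/2-ε` to `Re w = -ε` (`Re (s+w)` from `-ε` to `1/2-ε`, `chi` is analytic there).
-/

open Complex MeasureTheory

open scoped ComplexConjugate

namespace HYM

noncomputable def Sel.rr (F : Sel) (s : ℂ) : ℂ := ((s - 1) / (s + 2)) ^ F.m

noncomputable def Sel.RR (F : Sel) (s : ℂ) : ℂ := F.P s / (s + 2) ^ F.m

/-- direct Dirichlet series attached to conjugate coefficients `a` : `∑ conj (a n) n^(-z)` -/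
noncomputable def ddir (a : ℕ → ℂ) (z : ℂ) : ℂ := conj (dsum a (1 - conj z))

private lemma one_le_norm_add_two {s : ℂ} (hs : -1 ≤ s.re) : 1 ≤ ‖s + 2‖ := by
  have h1 : |(s + 2).re| ≤ ‖s + 2‖ := Complex.abs_re_le_norm _
  have h2 : (s + 2).re = s.re + 2 := by simp
  rw [h2] at h1
  have h3 := le_abs_self (s.re + 2)
  linarith

private lemma add_two_ne {s : ℂ} (hs : -1 ≤ s.re) : s + 2 ≠ 0 := by
  intro h
  have := one_le_norm_add_two hs
  rw [h, norm_zero] at this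
  linarith

theorem rr_le (F : Sel) {s : ℂ} (hs : -(1 / 2) ≤ s.re) : ‖F.rr s‖ ≤ 1 := by
  unfold Sel.rr
  rw [norm_pow, norm_div]
  apply pow_le_one₀ (by positivity)
  have h1 := one_le_norm_add_two (s := s) (by linarith)
  rw [div_le_one (by linarith)]
  rw [Complex.norm_def, Complex.norm_def]
  apply Real.sqrt_le_sqrt
  rw [Complex.normSq_apply, Complex.normSq_apply]
  simp only [Complex.sub_re, Complex.one_re, Complex.sub_im, Complex.one_im, Complex.add_re,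
    Complex.add_im, Complex.re_ofNat, Complex.im_ofNat]
  nlinarith

theorem L_le_RR (F : Sel) (t : ℝ) :
    ‖F.L (ln (1 / 2) t)‖ ≤ 5 ^ F.m * ‖F.RR (ln (1 / 2) t)‖ := by
  set s := ln (1 / 2) t with hs
  have hre : s.re = 1 / 2 := by rw [hs, ln_re]
  have him : s.im = t := by rw [hs, ln_im]
  have h1 : ‖s + 2‖ ≤ 5 * ‖s - 1‖ := by
    rw [Complex.norm_def, Complex.norm_def]
    have h2 : (5 : ℝ) = √(25 : ℝ) := by
      rw [show (25:ℝ) = 5 ^ 2 by norm_num, Real.sqrt_sq (by norm_num)]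
    rw [h2, ← Real.sqrt_mul (by norm_num)]
    apply Real.sqrt_le_sqrt
    rw [Complex.normSq_apply, Complex.normSq_apply]
    simp only [Complex.sub_re, Complex.one_re, Complex.sub_im, Complex.one_im, Complex.add_re,
      Complex.add_im, Complex.re_ofNat, Complex.im_ofNat, hre, him]
    nlinarith [sq_nonneg t]
  have h3 : 0 < ‖s + 2‖ := by
    have := one_le_norm_add_two (s := s) (by rw [hre]; norm_num)
    linarith
  have h4 : 0 < ‖s - 1‖ := by nlinarith
  unfold Sel.L Sel.RR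
  rw [norm_div, norm_div, norm_pow, norm_pow, div_le_iff₀ (by positivity)]
  have h5 : ‖s + 2‖ ^ F.m ≤ 5 ^ F.m * ‖s - 1‖ ^ F.m := by
    rw [← mul_pow]
    exact pow_le_pow_left₀ h3.le h1 _
  have h6 : 0 < ‖s + 2‖ ^ F.m := by positivity
  calc ‖F.P s‖ = ‖F.P s‖ / ‖s + 2‖ ^ F.m * ‖s + 2‖ ^ F.m := by field_simp
    _ ≤ ‖F.P s‖ / ‖s + 2‖ ^ F.m * (5 ^ F.m * ‖s - 1‖ ^ F.m) := by gcongr
    _ = 5 ^ F.m * (‖F.P s‖ / ‖s + 2‖ ^ F.m) * ‖s - 1‖ ^ F.m := by ring

private lemma RR_diffAt (F : Sel) {s : ℂ} (hs : -1 ≤ s.re) : DifferentiableAt ℂ F.RR s := by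
  unfold Sel.RR
  apply DifferentiableAt.div (F.P_diff s)
  · fun_prop
  · exact pow_ne_zero _ (add_two_ne hs)

private lemma rr_diffAt (F : Sel) {s : ℂ} (hs : -1 ≤ s.re) : DifferentiableAt ℂ F.rr s := by
  unfold Sel.rr
  apply DifferentiableAt.pow
  apply DifferentiableAt.div
  · fun_prop
  · fun_prop
  · exact add_two_ne hs

theorem RR_continuous (F : Sel) : Continuous (fun t : ℝ => F.RR (ln (1 / 2) t)) := by
  rw [continuous_iff_continuousAt]
  intro t
  have h1 : ContinuousAt F.RR (ln (1 / 2) t) :=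
    (RR_diffAt F (by rw [ln_re]; norm_num)).continuousAt
  have h2 : ContinuousAt (fun t : ℝ => ln (1 / 2) t) t := by
    unfold ln
    fun_prop
  exact ContinuousAt.comp (f := fun t : ℝ => ln (1 / 2) t) (g := F.RR) h1 h2

/-- `(1 + |v|)^(k+2) ≤ C e^{v²}` -/
private lemma pow_le_gauss (k : ℕ) : ∃ C : ℝ, 0 < C ∧ ∀ v : ℝ,
    (1 + |v|) ^ k * Real.exp (-v ^ 2) ≤ C / (1 + v ^ 2) := by
  refine ⟨((k + 2).factorial : ℝ) * Real.exp 2, by positivity, fun v => ?_⟩
  have h0 : 0 ≤ |v| := abs_nonneg v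
  have h1 := Real.pow_div_factorial_le_exp (1 + |v|) (by positivity) (k + 2)
  have h2 : Real.exp (1 + |v|) ≤ Real.exp 2 * Real.exp (v ^ 2) := by
    rw [← Real.exp_add]
    apply Real.exp_le_exp.2
    have : |v| ≤ v ^ 2 + 1 := by
      have := sq_abs v
      nlinarith [sq_nonneg (|v| - 1)]
    linarith
  have hf : (0:ℝ) < ((k + 2).factorial : ℝ) := by positivity
  rw [div_le_iff₀ hf] at h1
  have h3 : (1 + |v|) ^ (k + 2) ≤ ((k + 2).factorial : ℝ) * Real.exp 2 * Real.exp (v ^ 2) := by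
    calc (1 + |v|) ^ (k + 2) ≤ Real.exp (1 + |v|) * ((k + 2).factorial : ℝ) := h1
      _ ≤ (Real.exp 2 * Real.exp (v ^ 2)) * ((k + 2).factorial : ℝ) := by gcongr
      _ = _ := by ring
  have h4 : 1 + v ^ 2 ≤ (1 + |v|) ^ 2 := by
    have := sq_abs v
    nlinarith
  have hE : 0 < Real.exp (v ^ 2) := Real.exp_pos _
  rw [le_div_iff₀ (by positivity)]
  have h5 : (1 + |v|) ^ k * (1 + v ^ 2) ≤ ((k + 2).factorial : ℝ) * Real.exp 2 * Real.exp (v ^ 2) := by
    refine le_trans ?_ h3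
    rw [pow_add]
    gcongr
  calc (1 + |v|) ^ k * Real.exp (-v ^ 2) * (1 + v ^ 2)
      = ((1 + |v|) ^ k * (1 + v ^ 2)) * Real.exp (-v ^ 2) := by ring
    _ ≤ (((k + 2).factorial : ℝ) * Real.exp 2 * Real.exp (v ^ 2)) * Real.exp (-v ^ 2) := by gcongr
    _ = ((k + 2).factorial : ℝ) * Real.exp 2 := by
        rw [mul_assoc _ (Real.exp (v ^ 2)), ← Real.exp_add]
        simp

/-- polynomial growth in a strip -/
private def PolyG (Φ : ℂ → ℂ) (a b : ℝ) : Prop :=
  ∃ C : ℝ, ∃ k : ℕ, 0 < C ∧ ∀ z : ℂ, a ≤ z.re → z.re ≤ b → ‖Φ z‖ ≤ C * (1 + |z.im|) ^ k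

private lemma kern_bound {Φ : ℂ → ℂ} {a b U : ℝ} (hU : 0 < U) (t : ℝ)
    (hΦ : PolyG Φ (1 / 2 + a) (1 / 2 + b)) :
    ∃ B : ℝ, 0 < B ∧ ∀ w : ℂ, a ≤ w.re → w.re ≤ b →
      ‖Φ (ln (1 / 2) t + w) * ((U : ℂ) ^ w * cexp (w ^ 2))‖ ≤ B / (1 + w.im ^ 2) := by
  obtain ⟨C, k, hC, hb⟩ := hΦ
  obtain ⟨D, hD, hk⟩ := pow_le_gauss k
  refine ⟨C * (1 + |t|) ^ k * (U ^ a + U ^ b) * Real.exp (a ^ 2 + b ^ 2) * D, by positivity, ?_⟩
  intro w hwa hwb
  have h1 : ‖Φ (ln (1 / 2) t + w)‖ ≤ C * ((1 + |t|) ^ k * (1 + |w.im|) ^ k) := by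
    have h2 := hb (ln (1 / 2) t + w) (by rw [add_re, ln_re]; linarith)
      (by rw [add_re, ln_re]; linarith)
    refine h2.trans ?_
    rw [add_im, ln_im, ← mul_pow]
    gcongr
    have h3 := abs_add_le t w.im
    have h4 := abs_nonneg t
    have h5 := abs_nonneg w.im
    nlinarith
  have h2 : ‖(U : ℂ) ^ w‖ ≤ U ^ a + U ^ b := by
    rw [Complex.norm_cpow_eq_rpow_re_of_pos hU]
    have ha : 0 < U ^ a := Real.rpow_pos_of_pos hU _
    have hb' : 0 < U ^ b := Real.rpow_pos_of_pos hU _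
    rcases le_total 1 U with h | h
    · have := Real.rpow_le_rpow_of_exponent_le h hwb
      linarith
    · have := Real.rpow_le_rpow_of_exponent_ge hU h hwa
      linarith
  have h3 : ‖cexp (w ^ 2)‖ ≤ Real.exp (a ^ 2 + b ^ 2) * Real.exp (-w.im ^ 2) := by
    rw [Complex.norm_exp, ← Real.exp_add]
    apply Real.exp_le_exp.2
    have h4 : (w ^ 2).re = w.re ^ 2 - w.im ^ 2 := by
      rw [sq, mul_re]; ring
    rw [h4]
    have h5 : w.re ^ 2 ≤ a ^ 2 + b ^ 2 := by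
      rcases le_total 0 w.re with h | h
      · nlinarith [sq_nonneg a]
      · nlinarith [sq_nonneg b]
    linarith
  have h6 := hk w.im
  rw [norm_mul, norm_mul]
  calc ‖Φ (ln (1 / 2) t + w)‖ * (‖(U : ℂ) ^ w‖ * ‖cexp (w ^ 2)‖)
      ≤ (C * ((1 + |t|) ^ k * (1 + |w.im|) ^ k)) *
        ((U ^ a + U ^ b) * (Real.exp (a ^ 2 + b ^ 2) * Real.exp (-w.im ^ 2))) := by gcongr
    _ = C * (1 + |t|) ^ k * (U ^ a + U ^ b) * Real.exp (a ^ 2 + b ^ 2) *
        ((1 + |w.im|) ^ k * Real.exp (-w.im ^ 2)) := by ring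
    _ ≤ C * (1 + |t|) ^ k * (U ^ a + U ^ b) * Real.exp (a ^ 2 + b ^ 2) *
        (D / (1 + w.im ^ 2)) := by gcongr
    _ = _ := by ring

private lemma kern_diff {Φ : ℂ → ℂ} {U : ℝ} (hU : 0 < U) (t : ℝ) {w : ℂ}
    (hΦ : DifferentiableAt ℂ Φ (ln (1 / 2) t + w)) :
    DifferentiableAt ℂ (fun w => Φ (ln (1 / 2) t + w) * ((U : ℂ) ^ w * cexp (w ^ 2))) w := by
  have hU' : (U : ℂ) ≠ 0 := by exact_mod_cast hU.ne'
  apply DifferentiableAt.mul
  · have h1 : DifferentiableAt ℂ (fun w : ℂ => ln (1 / 2) t + w) w := by fun_prop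
    exact DifferentiableAt.comp w (g := Φ) hΦ h1
  · apply DifferentiableAt.mul
    · exact DifferentiableAt.const_cpow differentiableAt_id (Or.inl hU')
    · fun_prop

private lemma ln_add_ln (σ t v : ℝ) : ln (1 / 2) t + ln σ v = ln (1 / 2 + σ) (t + v) := by
  unfold ln; push_cast; ring

/-- shifting the line of integration of `Jop` -/
private lemma jop_shift {Φ : ℂ → ℂ} {a b U : ℝ} (hU : 0 < U) (hab : a ≤ b) (h0 : 0 < a ∨ b < 0) (t : ℝ)
    (hd : ∀ z : ℂ, 1 / 2 + a ≤ z.re → z.re ≤ 1 / 2 + b → DifferentiableAt ℂ Φ z)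
    (hΦ : PolyG Φ (1 / 2 + a) (1 / 2 + b)) :
    Jop a U (fun τ => Φ (ln (1 / 2 + a) τ)) t = Jop b U (fun τ => Φ (ln (1 / 2 + b) τ)) t ∧
    ∀ c : ℝ, a ≤ c → c ≤ b → Integrable (fun v : ℝ => Φ (ln (1 / 2 + c) (t + v)) *
      ((U : ℂ) ^ (ln c v) * cexp ((ln c v) ^ 2) / ln c v)) := by
  obtain ⟨B, hB, hbd⟩ := kern_bound (Φ := Φ) (a := a) (b := b) hU t hΦ
  set δ : ℝ := min |a| |b| with hδ
  have hδ0 : 0 < δ := by
    rw [hδ, lt_min_iff, abs_pos, abs_pos]
    rcases h0 with h | h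
    · exact ⟨h.ne', by linarith⟩
    · exact ⟨by linarith, h.ne⟩
  have hwδ : ∀ w : ℂ, a ≤ w.re → w.re ≤ b → δ ≤ ‖w‖ := by
    intro w h1 h2
    have h3 : |w.re| ≤ ‖w‖ := Complex.abs_re_le_norm w
    refine le_trans ?_ h3
    rw [hδ]
    rcases h0 with h | h
    · rw [abs_of_pos h, abs_of_pos (by linarith : 0 < w.re)]
      exact (min_le_left _ _).trans h1
    · rw [abs_of_neg h, abs_of_neg (by linarith : w.re < 0)]
      exact (min_le_right _ _).trans (by linarith)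
  have hw0 : ∀ w : ℂ, a ≤ w.re → w.re ≤ b → w ≠ 0 := by
    intro w h1 h2 h
    have := hwδ w h1 h2
    rw [h, norm_zero] at this
    linarith
  set H : ℂ → ℂ := fun w => Φ (ln (1 / 2) t + w) * ((U : ℂ) ^ w * cexp (w ^ 2)) / w with hH
  have hHd : ∀ w : ℂ, a ≤ w.re → w.re ≤ b → DifferentiableAt ℂ H w := by
    intro w h1 h2
    apply DifferentiableAt.div
    · apply kern_diff hU t
      apply hd
      · rw [add_re, ln_re]; linarith
      · rw [add_re, ln_re]; linarith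
    · exact differentiableAt_id
    · exact hw0 w h1 h2
  have hHb : ∀ w : ℂ, a ≤ w.re → w.re ≤ b → ‖H w‖ ≤ (B / δ) / (1 + w.im ^ 2) := by
    intro w h1 h2
    rw [hH]
    simp only
    rw [norm_div]
    have h3 := hbd w h1 h2
    have h4 := hwδ w h1 h2
    calc ‖Φ (ln (1 / 2) t + w) * ((U : ℂ) ^ w * cexp (w ^ 2))‖ / ‖w‖
        ≤ (B / (1 + w.im ^ 2)) / δ := by gcongr
      _ = _ := by ring
  have hpt : ∀ c v : ℝ, H (ln c v) = Φ (ln (1 / 2 + c) (t + v)) *
      ((U : ℂ) ^ (ln c v) * cexp ((ln c v) ^ 2) / ln c v) := by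
    intro c v
    rw [hH]
    simp only
    rw [ln_add_ln, mul_div_assoc]
  constructor
  · unfold Jop
    congr 1
    have h5 := shift_lines hab hHd hHb
    simp only [hpt] at h5
    exact h5
  · intro c hc1 hc2
    have h6 := line_integrable hc1 hc2 hHd hHb
    simp only [hpt] at h6
    exact h6

private lemma RR_poly (F : Sel) {a b : ℝ} (ha : -1 ≤ a) : PolyG F.RR a b := by
  obtain ⟨C, K, hC, h⟩ := P_growth F a b
  refine ⟨C, K, hC, fun z h1 h2 => ?_⟩
  refine le_trans ?_ (h z h1 h2)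
  unfold Sel.RR
  rw [norm_div, norm_pow]
  apply div_le_self (norm_nonneg _)
  exact one_le_pow₀ (one_le_norm_add_two (by linarith))

/-- the residue at `w = 0` -/
private lemma afe_res (F : Sel) {ε : ℝ} (hε : 0 < ε) (hε4 : ε ≤ 1 / 8) {U : ℝ} (hU : 0 < U) (t : ℝ) :
    F.RR (ln (1 / 2) t) =
      Jop (1 / 2 + 2 * ε) U (fun τ => F.RR (ln (1 + 2 * ε) τ)) t -
      Jop (-(1 / 2) - ε) U (fun τ => F.RR (ln (-ε) τ)) t := by
  set a : ℝ := -(1 / 2) - ε with ha
  set b : ℝ := 1 / 2 + 2 * ε with hb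
  set G : ℂ → ℂ := fun w => F.RR (ln (1 / 2) t + w) * ((U : ℂ) ^ w * cexp (w ^ 2)) with hG
  obtain ⟨B, hB, hbd⟩ := kern_bound (Φ := F.RR) (a := a) (b := b) hU t
    (RR_poly F (by rw [ha]; linarith))
  have hd : ∀ s : ℂ, a ≤ s.re → s.re ≤ b → DifferentiableAt ℂ G s := by
    intro w h1 h2
    apply kern_diff hU t
    apply RR_diffAt
    rw [add_re, ln_re]
    rw [ha] at h1
    linarith
  have h := strip_res (G := G) (a := a) (b := b) (w := 0) (B := B) (ρ := 1 / 4) (by norm_num)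
    (by rw [ha]; linarith) (by rw [hb]; linarith) hd hbd 1
  simp only [pow_one, Complex.ofReal_zero, sub_zero] at h
  have hc : (∮ z in C((0 : ℂ), 1 / 4), G z / (z - 0)) = 2 * Real.pi * I * G 0 := by
    have hball : ∀ z ∈ Metric.closedBall (0 : ℂ) (1 / 4), DifferentiableAt ℂ G z := by
      intro z hz
      rw [Metric.mem_closedBall, dist_zero_right] at hz
      have h1 := Complex.abs_re_le_norm z
      have h2 := abs_le.1 (h1.trans hz)
      apply hd
      · rw [ha]; linarith [h2.1]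
      · rw [hb]; linarith [h2.2]
    apply Complex.circleIntegral_div_sub_of_differentiable_on_off_countable Set.countable_empty
    · simp
    · intro z hz
      exact (hball z hz).continuousAt.continuousWithinAt
    · intro z hz
      exact hball z (Metric.ball_subset_closedBall hz.1)
  simp only [sub_zero] at hc
  rw [hc] at h
  have hG0 : G 0 = F.RR (ln (1 / 2) t) := by
    rw [hG]; simp
  rw [hG0, ← mul_assoc, inv_mul_cancel₀ (by simp [Real.pi_ne_zero]), one_mul] at h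
  rw [← h]
  have e1 : (1 / 2 : ℝ) + b = 1 + 2 * ε := by rw [hb]; ring
  have e2 : (1 / 2 : ℝ) + a = -ε := by rw [ha]; ring
  unfold Jop
  congr 1
  · congr 1
    apply integral_congr_ae
    filter_upwards with v
    rw [hG]
    simp only
    rw [ln_add_ln, e1, mul_div_assoc]
  · congr 1
    apply integral_congr_ae
    filter_upwards with v
    rw [hG]
    simp only
    rw [ln_add_ln, e2, mul_div_assoc]

private lemma Jop_split {σ U t : ℝ} {K : ℕ} {T : ℝ → ℂ} {f : ℕ → ℝ → ℂ} {g : ℝ → ℂ}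
    (h : ∀ τ, T τ = (∑ k ∈ Finset.range K, f k τ) + g τ)
    (hT : Integrable (fun v : ℝ => T (t + v) * ((U : ℂ) ^ (ln σ v) * cexp ((ln σ v) ^ 2) / ln σ v)))
    (hf : ∀ k, Integrable (fun v : ℝ =>
      f k (t + v) * ((U : ℂ) ^ (ln σ v) * cexp ((ln σ v) ^ 2) / ln σ v))) :
    Jop σ U T t = (∑ k ∈ Finset.range K, Jop σ U (f k) t) + Jop σ U g t := by
  unfold Jop
  rw [← Finset.mul_sum, ← mul_add]
  congr 1
  have hg : ∀ v, g (t + v) * ((U : ℂ) ^ (ln σ v) * cexp ((ln σ v) ^ 2) / ln σ v) =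
      T (t + v) * ((U : ℂ) ^ (ln σ v) * cexp ((ln σ v) ^ 2) / ln σ v) -
      ∑ k ∈ Finset.range K, f k (t + v) * ((U : ℂ) ^ (ln σ v) * cexp ((ln σ v) ^ 2) / ln σ v) := by
    intro v
    rw [h, ← Finset.sum_mul]
    ring
  simp only [hg]
  rw [integral_sub hT (integrable_finsetSum _ fun k _ => hf k),
    integral_finsetSum _ fun k _ => hf k]
  ring

private lemma conj_term (a : ℂ) (n : ℕ) (z : ℂ) :
    conj (a * (n : ℂ) ^ ((1 - conj z) - 1)) = conj a * (n : ℂ) ^ (-z) := by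
  rw [map_mul]
  congr 1
  have h1 : (1 - conj z) - 1 = conj (-z) := by simp
  rw [h1]
  have h2 : ((n : ℂ)).arg ≠ Real.pi := by
    rw [Complex.natCast_arg]
    exact Real.pi_ne_zero.symm
  rw [Complex.cpow_conj _ _ h2]
  simp

/-- `RR = rr * ddir cf` to the right of `1` -/
private lemma RR_right (F : Sel) {z : ℂ} (hz : 1 < z.re) : F.RR z = F.rr z * ddir F.cf z := by
  have hne : z - 1 ≠ 0 := by
    intro h
    have := congrArg Complex.re h
    simp at this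
    linarith
  have h1 : ddir F.cf z = LSeries F.f z := by
    unfold ddir dsum LSeries
    rw [Complex.conj_tsum]
    apply tsum_congr
    intro n
    rcases Nat.eq_zero_or_pos n with rfl | hn
    · simp [Sel.cf]
    · rw [conj_term _ _, LSeries.term_of_ne_zero hn.ne', Sel.cf, if_neg hn.ne',
        Complex.conj_conj, Complex.cpow_neg, div_eq_mul_inv]
  rw [h1, F.series z hz]
  unfold Sel.RR Sel.rr
  rw [div_pow]
  have h2 : (z + 2) ^ F.m ≠ 0 := pow_ne_zero _ (add_two_ne (by linarith))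
  have h3 : (z - 1) ^ F.m ≠ 0 := pow_ne_zero _ hne
  field_simp

private lemma RR_left (F : Sel) {z : ℂ} (hz : z.re < 0) (hz1 : -1 ≤ z.re) :
    F.RR z = F.rr z * F.chi z * dsum F.cf z := by
  have hne : z - 1 ≠ 0 := by
    intro h
    have := congrArg Complex.re h
    simp at this
    linarith
  rw [mul_assoc, ← fe_left F z hz]
  unfold Sel.RR Sel.rr Sel.L
  rw [div_pow]
  have h2 : (z + 2) ^ F.m ≠ 0 := pow_ne_zero _ (add_two_ne hz1)
  have h3 : (z - 1) ^ F.m ≠ 0 := pow_ne_zero _ hne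
  field_simp

private lemma ddir_split (F : Sel) (K : ℕ) {z : ℂ} (hz : 1 < z.re) :
    ddir F.cf z = (∑ k ∈ Finset.range K, ddir (F.blk k) z) + ddir (F.tl K) z := by
  unfold ddir
  rw [dsum_split F K (s := 1 - conj z) (by simp; linarith), map_add, map_sum]

private lemma ddir_diff (F : Sel) (k : ℕ) (z : ℂ) : DifferentiableAt ℂ (ddir (F.blk k)) z := by
  have h1 : DifferentiableAt ℂ (fun w : ℂ => dsum (F.blk k) (1 - w)) (conj z) := by
    have h2 : DifferentiableAt ℂ (fun w : ℂ => 1 - w) (conj z) := by fun_prop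
    exact DifferentiableAt.comp (conj z) (g := dsum (F.blk k)) (blk_diff F k _) h2
  have h3 := h1.conj_conj
  rw [Complex.conj_conj] at h3
  exact h3

private lemma right_term_poly (F : Sel) (k : ℕ) {a b : ℝ} (ha : -(1 / 2) ≤ a) :
    PolyG (fun z => F.rr z * ddir (F.blk k) z) a b := by
  obtain ⟨C, hC, h⟩ := blk_bound F k (1 - b) (1 - a)
  refine ⟨C, 0, hC, fun z h1 h2 => ?_⟩
  rw [pow_zero, mul_one, norm_mul]
  have h3 : ‖ddir (F.blk k) z‖ ≤ C := by
    unfold ddir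
    rw [Complex.norm_conj]
    apply h
    · simp; linarith
    · simp; linarith
  have h4 := rr_le F (s := z) (by linarith)
  calc ‖F.rr z‖ * ‖ddir (F.blk k) z‖ ≤ 1 * C := by gcongr
    _ = C := one_mul C

private lemma left_term_poly (F : Sel) (k : ℕ) {a b : ℝ} (ha : -(1 / 2) ≤ a) (hb : b < 1) :
    PolyG (fun z => F.rr z * F.chi z * dsum (F.blk k) z) a b := by
  obtain ⟨C, hC, h⟩ := blk_bound F k a b
  obtain ⟨D, hD, hchi⟩ := chi_bound F a b hb
  have hdeg : 0 ≤ F.deg := by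
    unfold Sel.deg
    have : 0 ≤ ∑ j, F.lam j := Finset.sum_nonneg fun j _ => (F.lam_pos j).le
    linarith
  obtain ⟨K, hK⟩ := exists_nat_ge (F.deg * (1 / 2 - a))
  refine ⟨D * C, K, by positivity, fun z h1 h2 => ?_⟩
  have h3 := h z h1 h2
  have h4 := rr_le F (s := z) (by linarith)
  have h5 : ‖F.chi z‖ ≤ D * (1 + |z.im|) ^ K := by
    have h6 := hchi z.re ⟨h1, h2⟩ z.im
    have h7 : ln z.re z.im = z := by
      unfold ln; exact Complex.re_add_im z
    rw [h7] at h6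
    refine h6.trans ?_
    apply mul_le_mul_of_nonneg_left _ hD.le
    rw [← Real.rpow_natCast]
    apply Real.rpow_le_rpow_of_exponent_le (by linarith [abs_nonneg z.im])
    refine le_trans ?_ hK
    apply mul_le_mul_of_nonneg_left _ hdeg
    linarith
  rw [norm_mul, norm_mul]
  calc ‖F.rr z‖ * ‖F.chi z‖ * ‖dsum (F.blk k) z‖ ≤ 1 * (D * (1 + |z.im|) ^ K) * C := by gcongr
    _ = _ := by ring

theorem afe (F : Sel) {ε : ℝ} (hε : 0 < ε) (hε4 : ε ≤ 1 / 8) (K : ℕ) {U : ℝ} (hU : 0 < U)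
    (t : ℝ) :
    F.RR (ln (1 / 2) t) =
      (∑ k ∈ Finset.range K, Jop ε U
        (fun τ => F.rr (ln (1 / 2 + ε) τ) * ddir (F.blk k) (ln (1 / 2 + ε) τ)) t) +
      Jop (1 / 2 + 2 * ε) U
        (fun τ => F.rr (ln (1 + 2 * ε) τ) * ddir (F.tl K) (ln (1 + 2 * ε) τ)) t -
      (∑ k ∈ Finset.range K, Jop (-ε) U
        (fun τ => F.rr (ln (1 / 2 - ε) τ) * F.chi (ln (1 / 2 - ε) τ) *
          dsum (F.blk k) (ln (1 / 2 - ε) τ)) t) -
      Jop (-(1 / 2) - ε) U
        (fun τ => F.rr (ln (-ε) τ) * F.chi (ln (-ε) τ) * dsum (F.tl K) (ln (-ε) τ)) t := by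
  -- the right line
  have hR : ∀ k, Jop ε U (fun τ => F.rr (ln (1 / 2 + ε) τ) * ddir (F.blk k) (ln (1 / 2 + ε) τ)) t =
        Jop (1 / 2 + 2 * ε) U
          (fun τ => F.rr (ln (1 + 2 * ε) τ) * ddir (F.blk k) (ln (1 + 2 * ε) τ)) t ∧
      Integrable (fun v : ℝ => F.rr (ln (1 + 2 * ε) (t + v)) * ddir (F.blk k) (ln (1 + 2 * ε) (t + v)) *
        ((U : ℂ) ^ (ln (1 / 2 + 2 * ε) v) * cexp ((ln (1 / 2 + 2 * ε) v) ^ 2) /
          ln (1 / 2 + 2 * ε) v)) := by
    intro k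
    have h := jop_shift (Φ := fun z => F.rr z * ddir (F.blk k) z) (a := ε) (b := 1 / 2 + 2 * ε)
      (U := U) hU (by linarith) (Or.inl hε) t
      (fun z h1 h2 => (rr_diffAt F (by linarith)).mul (ddir_diff F k z))
      (right_term_poly F k (by linarith))
    have e1 : (1 / 2 : ℝ) + (1 / 2 + 2 * ε) = 1 + 2 * ε := by ring
    rw [e1] at h
    refine ⟨h.1, ?_⟩
    have h2 := h.2 (1 / 2 + 2 * ε) (by linarith) le_rfl
    rw [e1] at h2
    exact h2
  have hL : ∀ k, Jop (-ε) U (fun τ => F.rr (ln (1 / 2 - ε) τ) * F.chi (ln (1 / 2 - ε) τ) *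
          dsum (F.blk k) (ln (1 / 2 - ε) τ)) t =
        Jop (-(1 / 2) - ε) U
          (fun τ => F.rr (ln (-ε) τ) * F.chi (ln (-ε) τ) * dsum (F.blk k) (ln (-ε) τ)) t ∧
      Integrable (fun v : ℝ => F.rr (ln (-ε) (t + v)) * F.chi (ln (-ε) (t + v)) *
        dsum (F.blk k) (ln (-ε) (t + v)) *
        ((U : ℂ) ^ (ln (-(1 / 2) - ε) v) * cexp ((ln (-(1 / 2) - ε) v) ^ 2) /
          ln (-(1 / 2) - ε) v)) := by
    intro k
    have h := jop_shift (Φ := fun z => F.rr z * F.chi z * dsum (F.blk k) z) (a := -(1 / 2) - ε)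
      (b := -ε) (U := U) hU (by linarith) (Or.inr (by linarith)) t
      (by
        intro z h1 h2
        have h3 : DifferentiableAt ℂ F.chi z := by
          apply (chi_diff F).differentiableAt
          apply IsOpen.mem_nhds
          · exact isOpen_lt Complex.continuous_re continuous_const
          · show z.re < 1
            linarith
        exact ((rr_diffAt F (by linarith)).mul h3).mul (blk_diff F k z))
      (left_term_poly F k (by linarith) (by linarith))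
    have e1 : (1 / 2 : ℝ) + (-(1 / 2) - ε) = -ε := by ring
    have e2 : (1 / 2 : ℝ) + -ε = 1 / 2 - ε := by ring
    rw [e1, e2] at h
    refine ⟨h.1.symm, ?_⟩
    have h2 := h.2 (-(1 / 2) - ε) le_rfl (by linarith)
    rw [e1] at h2
    exact h2
  have hres := afe_res F hε hε4 hU t
  -- total on the right line
  have hTR : Integrable (fun v : ℝ => F.RR (ln (1 + 2 * ε) (t + v)) *
        ((U : ℂ) ^ (ln (1 / 2 + 2 * ε) v) * cexp ((ln (1 / 2 + 2 * ε) v) ^ 2) /
          ln (1 / 2 + 2 * ε) v)) := by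
    have h := (jop_shift (Φ := F.RR) (a := 1 / 2 + 2 * ε) (b := 1 / 2 + 2 * ε)
      (U := U) hU le_rfl (Or.inl (by linarith)) t
      (fun z h1 h2 => RR_diffAt F (by linarith)) (RR_poly F (by linarith))).2
      (1 / 2 + 2 * ε) le_rfl le_rfl
    have e1 : (1 / 2 : ℝ) + (1 / 2 + 2 * ε) = 1 + 2 * ε := by ring
    rw [e1] at h
    exact h
  have hTL : Integrable (fun v : ℝ => F.RR (ln (-ε) (t + v)) *
        ((U : ℂ) ^ (ln (-(1 / 2) - ε) v) * cexp ((ln (-(1 / 2) - ε) v) ^ 2) /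
          ln (-(1 / 2) - ε) v)) := by
    have h := (jop_shift (Φ := F.RR) (a := -(1 / 2) - ε) (b := -(1 / 2) - ε)
      (U := U) hU le_rfl (Or.inr (by linarith)) t
      (fun z h1 h2 => RR_diffAt F (by linarith)) (RR_poly F (by linarith))).2
      (-(1 / 2) - ε) le_rfl le_rfl
    have e1 : (1 / 2 : ℝ) + (-(1 / 2) - ε) = -ε := by ring
    rw [e1] at h
    exact h
  have hsR := Jop_split (σ := 1 / 2 + 2 * ε) (U := U) (t := t) (K := K)
    (T := fun τ => F.RR (ln (1 + 2 * ε) τ))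
    (f := fun k τ => F.rr (ln (1 + 2 * ε) τ) * ddir (F.blk k) (ln (1 + 2 * ε) τ))
    (g := fun τ => F.rr (ln (1 + 2 * ε) τ) * ddir (F.tl K) (ln (1 + 2 * ε) τ))
    (by
      intro τ
      have h1 : 1 < (ln (1 + 2 * ε) τ).re := by rw [ln_re]; linarith
      rw [RR_right F h1, ddir_split F K h1, mul_add, Finset.mul_sum])
    hTR (fun k => (hR k).2)
  have hsL := Jop_split (σ := -(1 / 2) - ε) (U := U) (t := t) (K := K)
    (T := fun τ => F.RR (ln (-ε) τ))
    (f := fun k τ => F.rr (ln (-ε) τ) * F.chi (ln (-ε) τ) * dsum (F.blk k) (ln (-ε) τ))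
    (g := fun τ => F.rr (ln (-ε) τ) * F.chi (ln (-ε) τ) * dsum (F.tl K) (ln (-ε) τ))
    (by
      intro τ
      have h1 : (ln (-ε) τ).re < 0 := by rw [ln_re]; linarith
      rw [RR_left F h1 (by rw [ln_re]; linarith), dsum_split F K h1, mul_add, Finset.mul_sum])
    hTL (fun k => (hL k).2)
  rw [hres, hsR, hsL]
  simp only [(hR _).1, (hL _).1]
  ring

end HYM
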