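import Pool.Agent.HYM.EVq

set_option autoImplicit false

/-!
# HYM/Apx: the error term and its regularisation differ by `T^ε`

PROOFS. `E_sub_EV`: `E x - EV T x = ∫ kV T y (E x - E (x e^{-y})) dy` (`EV_eq`, `kV_integral`).
(i) `|S x - S x'| ≤ ∑_{n between} ‖f n‖ ≤ (|x-x'|+1) C max(x,x')^ε`; with `x' = x e^{-y}`,
`1 ≤ x ≤ T`: `|x - x'| ≤ T |y| e^{|y|}`.
(ii) `res`: deform the circle to radius `ρ = min (ε, 1/2)`;
`x^z - x'^z = x^z (1 - e^{-yz})` and `|1 - e^{-yz}| ≤ 2 |y| e^{2|y|}`.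
(iii) `∫ kV T y e^{3T|y|} dy = ∫ kV 1 u e^{3|u|} du`.
-/

open Complex MeasureTheory

namespace HYM

theorem res_measurable (F : Sel) : Measurable F.res := by
  have h1 : Measurable fun p : ℝ × ℝ => deriv (circleMap 1 (1 / 2)) p.2 •
      (F.L (circleMap 1 (1 / 2) p.2) * (p.1 : ℂ) ^ (circleMap 1 (1 / 2) p.2) /
        (circleMap 1 (1 / 2) p.2)) := by
    have hc : Measurable fun p : ℝ × ℝ => circleMap (1 : ℂ) (1 / 2) p.2 :=
      (continuous_circleMap _ _).measurable.comp measurable_snd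
    have hd : Measurable fun p : ℝ × ℝ => deriv (circleMap (1 : ℂ) (1 / 2)) p.2 := by
      have : Continuous fun θ : ℝ => deriv (circleMap (1 : ℂ) (1 / 2)) θ := by
        simp only [deriv_circleMap]
        exact (continuous_circleMap _ _).mul continuous_const
      exact this.measurable.comp measurable_snd
    have hL : Measurable fun p : ℝ × ℝ => F.L (circleMap 1 (1 / 2) p.2) := by
      unfold Sel.L
      exact (F.P_diff.continuous.measurable.comp hc).div ((hc.sub_const 1).pow_const _)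
    have hx : Measurable fun p : ℝ × ℝ => ((p.1 : ℝ) : ℂ) :=
      Complex.measurable_ofReal.comp measurable_fst
    exact hd.smul ((hL.mul (hx.pow hc)).div hc)
  have h2 := (h1.stronglyMeasurable).integral_prod_right'
    (ν := volume.restrict (Set.Ioc (0 : ℝ) (2 * Real.pi)))
  have h3 : F.res = fun x : ℝ => (2 * (Real.pi : ℂ) * I)⁻¹ *
      ∫ θ in Set.Ioc (0 : ℝ) (2 * Real.pi), deriv (circleMap 1 (1 / 2)) θ •
      (F.L (circleMap 1 (1 / 2) θ) * (x : ℂ) ^ (circleMap 1 (1 / 2) θ) /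
        (circleMap 1 (1 / 2) θ)) := by
    funext x
    rw [Sel.res, circleIntegral, intervalIntegral.integral_of_le Real.two_pi_pos.le]
  rw [h3]
  exact h2.measurable.const_mul _

theorem E_measurable (F : Sel) : Measurable F.E := by
  have hS : Measurable F.S := by
    have : F.S = (fun n : ℕ => ∑ k ∈ Finset.Icc 1 n, F.f k) ∘ fun x : ℝ => ⌊x⌋₊ := rfl
    rw [this]
    exact (measurable_of_countable _).comp Nat.measurable_floor
  exact hS.sub (res_measurable F)

theorem kV_scale {V : ℝ} (hV : 0 < V) (a : ℝ) :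
    ∫ y : ℝ, kV V y * Real.exp (a * V * |y|) = ∫ u : ℝ, kV 1 u * Real.exp (a * |u|) := by
  have h : ∀ y : ℝ, kV V y * Real.exp (a * V * |y|) =
      V * (fun u : ℝ => kV 1 u * Real.exp (a * |u|)) (V * y) := by
    intro y
    simp only [kV, one_mul, abs_mul, abs_of_pos hV]
    rw [show a * (V * |y|) = a * V * |y| by ring]
    ring
  rw [integral_congr_ae (Filter.Eventually.of_forall h), integral_const_mul,
    Measure.integral_comp_mul_left (fun u : ℝ => kV 1 u * Real.exp (a * |u|)) V, smul_eq_mul, abs_of_pos (inv_pos.2 hV), ← mul_assoc,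
    mul_inv_cancel₀ hV.ne', one_mul]

/-- The constant `∫ kV 1 u e^{a|u|} du`. -/
noncomputable def Ka (a : ℝ) : ℝ := ∫ u : ℝ, kV 1 u * Real.exp (a * |u|)

theorem Ka_nonneg (a : ℝ) : 0 ≤ Ka a :=
  integral_nonneg fun u => mul_nonneg (kV_pos one_pos u).le (Real.exp_pos _).le

theorem cpow_mul_exp {x : ℝ} (hx : 0 < x) (y : ℝ) (z : ℂ) :
    ((x * Real.exp (-y) : ℝ) : ℂ) ^ z = (x : ℂ) ^ z * cexp (-(y * z)) := by
  have hx' : 0 < x * Real.exp (-y) := mul_pos hx (Real.exp_pos _)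
  rw [Complex.cpow_def_of_ne_zero (by exact_mod_cast hx'.ne'),
    Complex.cpow_def_of_ne_zero (by exact_mod_cast hx.ne'), ← Complex.ofReal_log hx'.le,
    ← Complex.ofReal_log hx.le, Real.log_mul hx.ne' (Real.exp_pos _).ne', Real.log_exp,
    ← Complex.exp_add]
  congr 1
  push_cast
  ring

theorem norm_one_sub_cexp_le (w : ℂ) : ‖1 - cexp (-w)‖ ≤ ‖w‖ * Real.exp ‖w‖ := by
  have h := Complex.norm_exp_sub_sum_le_norm_mul_exp (-w) 1
  simp only [Finset.range_one, Finset.sum_singleton, pow_zero, Nat.factorial_zero, Nat.cast_one,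
    div_one, pow_one, norm_neg] at h
  rwa [norm_sub_rev]

/-- the residue on a smaller circle -/
theorem res_small (F : Sel) {ρ : ℝ} (hρ : 0 < ρ) (hρ2 : ρ ≤ 1 / 2) {x : ℝ} (hx : 0 < x) :
    F.res x = (2 * (Real.pi : ℂ) * I)⁻¹ * ∮ z in C(1, ρ), F.L z * (x : ℂ) ^ z / z := by
  rw [Sel.res]
  congr 1
  have hd : ∀ z : ℂ, z ≠ 1 → z ≠ 0 →
      DifferentiableAt ℂ (fun z => F.L z * (x : ℂ) ^ z / z) z := by
    intro z hz1 hz0
    have h1 : DifferentiableAt ℂ (fun z => F.L z) z := by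
      unfold Sel.L
      exact (F.P_diff z).div (by fun_prop) (pow_ne_zero _ (sub_ne_zero.2 hz1))
    have h2 : DifferentiableAt ℂ (fun z : ℂ => (x : ℂ) ^ z) z :=
      (differentiableAt_id).const_cpow (Or.inl (by exact_mod_cast hx.ne'))
    exact (h1.mul h2).div differentiableAt_id hz0
  have hz0 : ∀ z : ℂ, z ∈ Metric.closedBall (1 : ℂ) (1 / 2) → z ≠ 0 := by
    rintro z hz rfl
    rw [Metric.mem_closedBall, dist_eq_norm] at hz
    simp at hz
    norm_num at hz
  refine circleIntegral_eq_of_differentiable_on_annulus_off_countable hρ hρ2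
    (Set.countable_empty) ?_ ?_
  · intro z hz
    refine (hd z ?_ (hz0 z hz.1)).continuousAt.continuousWithinAt
    rintro rfl
    exact hz.2 (Metric.mem_ball_self hρ)
  · intro z hz
    refine hd z ?_ (hz0 z (Metric.ball_subset_closedBall hz.1.1))
    rintro rfl
    exact hz.1.2 (Metric.mem_closedBall_self hρ.le)

theorem res_diff (F : Sel) {ρ : ℝ} (hρ : 0 < ρ) (hρ2 : ρ ≤ 1 / 2) : ∃ C : ℝ, 0 < C ∧
    ∀ T : ℝ, 1 ≤ T → ∀ x : ℝ, 1 ≤ x → x ≤ T → ∀ y : ℝ,
      ‖F.res x - F.res (x * Real.exp (-y))‖ ≤ C * T ^ ρ * (T * |y| * Real.exp (2 * T * |y|)) := by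
  obtain ⟨M, hM⟩ := (isCompact_sphere (1 : ℂ) ρ).exists_bound_of_continuousOn
    (f := fun z => F.P z) F.P_diff.continuous.continuousOn
  have hz2 : ∀ z ∈ Metric.sphere (1 : ℂ) ρ, 1 / 2 ≤ ‖z‖ ∧ ‖z‖ ≤ 2 ∧ z.re ≤ 1 + ρ ∧
      ‖z - 1‖ = ρ := by
    intro z hz
    rw [Metric.mem_sphere, dist_eq_norm] at hz
    have h1 : ‖(1 : ℂ)‖ ≤ ‖z‖ + ‖z - 1‖ := by
      have := norm_sub_le z (z - 1)
      simpa using this
    have h2 : ‖z‖ ≤ ‖z - 1‖ + ‖(1 : ℂ)‖ := by
      have := norm_add_le (z - 1) 1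
      simpa using this
    have h3 : (z - 1).re ≤ ‖z - 1‖ := Complex.re_le_norm _
    rw [norm_one] at h1 h2
    simp only [Complex.sub_re, Complex.one_re] at h3
    exact ⟨by linarith, by linarith, by linarith, hz⟩
  have hLb : ∀ z ∈ Metric.sphere (1 : ℂ) ρ, ‖F.L z‖ ≤ |M| / ρ ^ F.m := by
    intro z hz
    rw [Sel.L, norm_div, norm_pow, (hz2 z hz).2.2.2]
    exact div_le_div_of_nonneg_right ((hM z hz).trans (le_abs_self M)) (by positivity)
  set C0 : ℝ := |M| / ρ ^ F.m + 1 with hC0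
  have hC0pos : 0 < C0 := by positivity
  refine ⟨4 * C0, by positivity, ?_⟩
  intro T hT x hx hxT y
  have hx0 : 0 < x := by linarith
  have hT0 : 0 < T := by linarith
  have hx' : 0 < x * Real.exp (-y) := mul_pos hx0 (Real.exp_pos _)
  have hci : ∀ u : ℝ, 0 < u → CircleIntegrable (fun z => F.L z * (u : ℂ) ^ z / z) 1 ρ := by
    intro u hu
    refine ContinuousOn.circleIntegrable hρ.le ?_
    intro z hz
    have hz1 : z ≠ 1 := by
      rintro rfl
      have := (hz2 _ hz).2.2.2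
      rw [sub_self, norm_zero] at this
      exact hρ.ne this
    have hz0 : z ≠ 0 := by
      rintro rfl
      have := (hz2 _ hz).1
      rw [norm_zero] at this
      linarith
    have h1 : ContinuousAt (fun z => F.L z) z := by
      unfold Sel.L
      exact (F.P_diff.continuous.continuousAt).div (by fun_prop)
        (pow_ne_zero _ (sub_ne_zero.2 hz1))
    have h2 : ContinuousAt (fun z : ℂ => (u : ℂ) ^ z) z :=
      ((differentiableAt_id).const_cpow (Or.inl (by exact_mod_cast hu.ne'))).continuousAt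
    exact ((h1.mul h2).div continuousAt_id hz0).continuousWithinAt
  rw [res_small F hρ hρ2 hx0, res_small F hρ hρ2 hx', ← mul_sub,
    ← circleIntegral.integral_sub (hci x hx0) (hci _ hx')]
  have hbound : ∀ z ∈ Metric.sphere (1 : ℂ) ρ, ‖F.L z * (x : ℂ) ^ z / z -
      F.L z * ((x * Real.exp (-y) : ℝ) : ℂ) ^ z / z‖
      ≤ 4 * C0 * (T ^ (1 + ρ) * (|y| * Real.exp (2 * |y|))) := by
    intro z hz
    obtain ⟨hz1, hz3, hz4, -⟩ := hz2 z hz
    rw [cpow_mul_exp hx0]
    have e1 : F.L z * (x : ℂ) ^ z / z - F.L z * ((x : ℂ) ^ z * cexp (-(y * z))) / z =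
        F.L z * ((x : ℂ) ^ z * (1 - cexp (-(y * z)))) / z := by ring
    rw [e1, norm_div, norm_mul, norm_mul, Complex.norm_cpow_eq_rpow_re_of_pos hx0]
    have h1 : ‖F.L z‖ ≤ C0 := (hLb z hz).trans (by rw [hC0]; linarith)
    have h2 : x ^ z.re ≤ T ^ (1 + ρ) :=
      (Real.rpow_le_rpow_of_exponent_le hx hz4).trans
        (Real.rpow_le_rpow hx0.le hxT (by linarith))
    have h3 : ‖1 - cexp (-(y * z))‖ ≤ 2 * (|y| * Real.exp (2 * |y|)) := by
      refine (norm_one_sub_cexp_le _).trans ?_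
      have h4 : ‖(y : ℂ) * z‖ ≤ 2 * |y| := by
        rw [norm_mul, Complex.norm_real, Real.norm_eq_abs]
        nlinarith [abs_nonneg y]
      calc ‖(y : ℂ) * z‖ * Real.exp ‖(y : ℂ) * z‖ ≤ (2 * |y|) * Real.exp (2 * |y|) :=
            mul_le_mul h4 (Real.exp_le_exp.2 h4) (Real.exp_pos _).le (by positivity)
        _ = _ := by ring
    have h5 : 0 ≤ |y| * Real.exp (2 * |y|) := by positivity
    rw [div_le_iff₀ (by linarith)]
    calc ‖F.L z‖ * (x ^ z.re * ‖1 - cexp (-(y * z))‖)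
        ≤ C0 * (T ^ (1 + ρ) * (2 * (|y| * Real.exp (2 * |y|)))) := by
          refine mul_le_mul h1 (mul_le_mul h2 h3 (norm_nonneg _) (by positivity))
            (by positivity) hC0pos.le
      _ = (4 * C0 * (T ^ (1 + ρ) * (|y| * Real.exp (2 * |y|)))) * (1 / 2) := by ring
      _ ≤ _ := mul_le_mul_of_nonneg_left hz1 (by positivity)
  have hint := circleIntegral.norm_integral_le_of_norm_le_const hρ.le hbound
  rw [norm_mul]
  have e2 : ‖(2 * (Real.pi : ℂ) * I)⁻¹‖ = (2 * Real.pi)⁻¹ := by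
    rw [norm_inv, norm_mul, norm_mul, Complex.norm_I, mul_one, Complex.norm_real,
      Real.norm_eq_abs, abs_of_pos Real.pi_pos]
    norm_num
  rw [e2]
  have hpi := Real.pi_pos
  calc (2 * Real.pi)⁻¹ * ‖∮ z in C(1, ρ), (F.L z * (x : ℂ) ^ z / z -
        F.L z * ((x * Real.exp (-y) : ℝ) : ℂ) ^ z / z)‖
      ≤ (2 * Real.pi)⁻¹ * (2 * Real.pi * ρ *
          (4 * C0 * (T ^ (1 + ρ) * (|y| * Real.exp (2 * |y|))))) :=
        mul_le_mul_of_nonneg_left hint (by positivity)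
    _ = ρ * (4 * C0 * (T ^ (1 + ρ) * (|y| * Real.exp (2 * |y|)))) := by
        field_simp
    _ ≤ 1 * (4 * C0 * (T ^ (1 + ρ) * (|y| * Real.exp (2 * |y|)))) :=
        mul_le_mul_of_nonneg_right (by linarith) (by positivity)
    _ = 4 * C0 * T ^ ρ * (T * |y| * Real.exp (2 * |y|)) := by
        rw [Real.rpow_add hT0, Real.rpow_one]; ring
    _ ≤ _ := by
        refine mul_le_mul_of_nonneg_left (mul_le_mul_of_nonneg_left (Real.exp_le_exp.2 ?_)
          (by positivity)) (by positivity)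
        nlinarith [abs_nonneg y]

theorem S_diff (F : Sel) {ρ : ℝ} (hρ : 0 < ρ) (hρ2 : ρ ≤ 1 / 2) : ∃ C : ℝ, 0 < C ∧
    ∀ T : ℝ, 1 ≤ T → ∀ x : ℝ, 1 ≤ x → x ≤ T → ∀ y : ℝ,
      ‖F.S x - F.S (x * Real.exp (-y))‖ ≤
        C * T ^ ρ * ((1 + T * |y|) * Real.exp (2 * T * |y|)) := by
  obtain ⟨C, hC⟩ := F.ram ρ hρ
  have hgen : ∀ u v : ℝ, 0 ≤ u → u ≤ v → ‖F.S v - F.S u‖ ≤ (|C| + 1) * (v - u + 1) * v ^ ρ := by
    intro u v hu huv
    have hfl : ⌊u⌋₊ ≤ ⌊v⌋₊ := Nat.floor_mono huv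
    have hv : 0 ≤ v := hu.trans huv
    have h1 : F.S v - F.S u = ∑ n ∈ Finset.Icc (⌊u⌋₊ + 1) ⌊v⌋₊, F.f n := by
      unfold Sel.S
      have h2 : Finset.Icc 1 ⌊v⌋₊ = Finset.Icc 1 ⌊u⌋₊ ∪ Finset.Icc (⌊u⌋₊ + 1) ⌊v⌋₊ := by
        ext n
        simp only [Finset.mem_union, Finset.mem_Icc]
        omega
      have h3 : Disjoint (Finset.Icc 1 ⌊u⌋₊) (Finset.Icc (⌊u⌋₊ + 1) ⌊v⌋₊) := by
        rw [Finset.disjoint_left]
        intro n hn hn2
        rw [Finset.mem_Icc] at hn hn2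
        omega
      rw [h2, Finset.sum_union h3]
      ring
    rw [h1]
    have h4 : ∀ n ∈ Finset.Icc (⌊u⌋₊ + 1) ⌊v⌋₊, ‖F.f n‖ ≤ (|C| + 1) * v ^ ρ := by
      intro n hn
      rw [Finset.mem_Icc] at hn
      have hn1 : 1 ≤ n := by omega
      have hnv : (n : ℝ) ≤ v := (Nat.cast_le.2 hn.2).trans (Nat.floor_le hv)
      refine (hC n hn1).trans ?_
      refine mul_le_mul ((le_abs_self C).trans (by linarith))
        (Real.rpow_le_rpow (Nat.cast_nonneg n) hnv hρ.le) (by positivity) (by positivity)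
    refine (norm_sum_le_of_le _ h4).trans ?_
    rw [Finset.sum_const, nsmul_eq_mul, Nat.card_Icc]
    have h5 : ((⌊v⌋₊ + 1 - (⌊u⌋₊ + 1) : ℕ) : ℝ) ≤ v - u + 1 := by
      have h6 : ((⌊v⌋₊ + 1 - (⌊u⌋₊ + 1) : ℕ) : ℝ) = (⌊v⌋₊ : ℝ) - ⌊u⌋₊ := by
        rw [Nat.add_sub_add_right, Nat.cast_sub hfl]
      rw [h6]
      have h7 := Nat.floor_le hv
      have h8 := Nat.lt_floor_add_one u
      linarith
    calc ((⌊v⌋₊ + 1 - (⌊u⌋₊ + 1) : ℕ) : ℝ) * ((|C| + 1) * v ^ ρ)
        ≤ (v - u + 1) * ((|C| + 1) * v ^ ρ) := mul_le_mul_of_nonneg_right h5 (by positivity)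
      _ = _ := by ring
  refine ⟨|C| + 1, by positivity, ?_⟩
  intro T hT x hx hxT y
  have hx0 : 0 < x := by linarith
  have hT0 : 0 < T := by linarith
  have hx' : 0 < x * Real.exp (-y) := mul_pos hx0 (Real.exp_pos _)
  have hay : -y ≤ |y| := neg_le_abs y
  have hmax : ∀ v : ℝ, 0 ≤ v → v ≤ T * Real.exp |y| → v ^ ρ ≤ T ^ ρ * Real.exp |y| := by
    intro v hv0 hv
    refine (Real.rpow_le_rpow hv0 hv hρ.le).trans ?_
    rw [Real.mul_rpow hT0.le (Real.exp_pos _).le, ← Real.exp_mul]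
    refine mul_le_mul_of_nonneg_left (Real.exp_le_exp.2 ?_) (by positivity)
    nlinarith [abs_nonneg y]
  have hdist : |x - x * Real.exp (-y)| ≤ T * (|y| * Real.exp |y|) := by
    have h1 : x - x * Real.exp (-y) = x * (1 - Real.exp (-y)) := by ring
    rw [h1, abs_mul, abs_of_pos hx0]
    refine mul_le_mul hxT ?_ (abs_nonneg _) hT0.le
    have h2 := norm_one_sub_cexp_le (y : ℂ)
    rw [Complex.norm_real, Real.norm_eq_abs] at h2
    have h3 : ‖1 - cexp (-(y : ℂ))‖ = |1 - Real.exp (-y)| := by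
      rw [← Real.norm_eq_abs, ← Complex.norm_real]
      push_cast
      rfl
    rwa [h3] at h2
  have hone : Real.exp |y| ≤ Real.exp (T * |y|) :=
    Real.exp_le_exp.2 (by nlinarith [abs_nonneg y])
  have h1e : 1 ≤ Real.exp |y| := Real.one_le_exp (abs_nonneg y)
  have hfin : ∀ v : ℝ, 0 ≤ v → v ≤ T * Real.exp |y| →
      (|C| + 1) * (|x - x * Real.exp (-y)| + 1) * v ^ ρ ≤
        (|C| + 1) * T ^ ρ * ((1 + T * |y|) * Real.exp (2 * T * |y|)) := by
    intro v hv0 hv
    have h2 : |x - x * Real.exp (-y)| + 1 ≤ (1 + T * |y|) * Real.exp |y| := by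
      have : 1 ≤ 1 * Real.exp |y| := by linarith
      calc |x - x * Real.exp (-y)| + 1 ≤ T * (|y| * Real.exp |y|) + 1 * Real.exp |y| := by linarith
        _ = _ := by ring
    have h3 : Real.exp |y| * Real.exp |y| ≤ Real.exp (2 * T * |y|) := by
      rw [← Real.exp_add]
      refine Real.exp_le_exp.2 ?_
      nlinarith [abs_nonneg y]
    calc (|C| + 1) * (|x - x * Real.exp (-y)| + 1) * v ^ ρ
        ≤ (|C| + 1) * ((1 + T * |y|) * Real.exp |y|) * (T ^ ρ * Real.exp |y|) := by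
          refine mul_le_mul (mul_le_mul_of_nonneg_left h2 (by positivity)) (hmax v hv0 hv)
            (by positivity) (by positivity)
      _ = (|C| + 1) * T ^ ρ * ((1 + T * |y|) * (Real.exp |y| * Real.exp |y|)) := by ring
      _ ≤ _ := by
          refine mul_le_mul_of_nonneg_left (mul_le_mul_of_nonneg_left h3 (by positivity))
            (by positivity)
  rcases le_total (x * Real.exp (-y)) x with hle | hle
  · refine (hgen _ _ hx'.le hle).trans ?_
    have h2 : x - x * Real.exp (-y) ≤ |x - x * Real.exp (-y)| := le_abs_self _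
    refine le_trans ?_ (hfin x hx0.le (hxT.trans ?_))
    · refine mul_le_mul_of_nonneg_right (mul_le_mul_of_nonneg_left (by linarith) (by positivity))
        (by positivity)
    · nlinarith
  · rw [norm_sub_rev]
    refine (hgen _ _ hx0.le hle).trans ?_
    have h2 : x * Real.exp (-y) - x ≤ |x - x * Real.exp (-y)| := by
      rw [abs_sub_comm]; exact le_abs_self _
    refine le_trans ?_ (hfin (x * Real.exp (-y)) hx'.le ?_)
    · refine mul_le_mul_of_nonneg_right (mul_le_mul_of_nonneg_left (by linarith) (by positivity))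
        (by positivity)
    · exact mul_le_mul hxT (Real.exp_le_exp.2 hay) (Real.exp_pos _).le hT0.le

theorem E_comp_bound (F : Sel) {C : ℝ} (hC : 0 < C)
    (h : ∀ x : ℝ, 0 < x → ‖F.E x‖ ≤ C * (1 + x ^ 2)) {x : ℝ} (hx : 0 < x) (y : ℝ) :
    ‖F.E (x * Real.exp (-y))‖ ≤ C * (1 + x ^ 2) * Real.exp (2 * |y|) := by
  have hx' : 0 < x * Real.exp (-y) := mul_pos hx (Real.exp_pos _)
  refine (h _ hx').trans ?_
  have h1 : (x * Real.exp (-y)) ^ 2 ≤ x ^ 2 * Real.exp (2 * |y|) := by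
    rw [mul_pow, ← Real.exp_nat_mul]
    refine mul_le_mul_of_nonneg_left (Real.exp_le_exp.2 ?_) (by positivity)
    have := neg_le_abs y
    push_cast
    linarith
  have h2 : 1 ≤ Real.exp (2 * |y|) := Real.one_le_exp (by positivity)
  calc C * (1 + (x * Real.exp (-y)) ^ 2) ≤ C * (Real.exp (2 * |y|) + x ^ 2 * Real.exp (2 * |y|)) :=
        mul_le_mul_of_nonneg_left (add_le_add h2 h1) hC.le
    _ = _ := by ring

theorem kE_integrable (F : Sel) {V x : ℝ} (hV : 0 < V) (hx : 0 < x) :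
    Integrable fun y : ℝ => (kV V y : ℂ) * F.E (x * Real.exp (-y)) := by
  obtain ⟨C, hC, h⟩ := E_crude F
  refine ((kV_exp_integrable hV 2).const_mul (C * (1 + x ^ 2))).mono' ?_
    (Filter.Eventually.of_forall fun y => ?_)
  · refine Measurable.aestronglyMeasurable ?_
    have h1 : Measurable fun y : ℝ => (kV V y : ℂ) := by
      refine Complex.measurable_ofReal.comp ?_
      unfold kV
      fun_prop
    have h2 : Measurable fun y : ℝ => x * Real.exp (-y) := by fun_prop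
    exact h1.mul ((E_measurable F).comp h2)
  · rw [norm_mul, Complex.norm_real, Real.norm_eq_abs, abs_of_pos (kV_pos hV y)]
    calc kV V y * ‖F.E (x * Real.exp (-y))‖
        ≤ kV V y * (C * (1 + x ^ 2) * Real.exp (2 * |y|)) :=
          mul_le_mul_of_nonneg_left (E_comp_bound F hC h hx y) (kV_pos hV y).le
      _ = _ := by ring

theorem E_sub_EV (F : Sel) {ε : ℝ} (hε : 0 < ε) : ∃ C : ℝ, 0 < C ∧ ∀ T : ℝ, 1 ≤ T →
    ∀ x : ℝ, 1 ≤ x → x ≤ T → ‖F.E x - F.EV T x‖ ≤ C * T ^ ε := by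
  set ρ : ℝ := min ε (1 / 2) with hρdef
  have hρ : 0 < ρ := lt_min hε (by norm_num)
  have hρ2 : ρ ≤ 1 / 2 := min_le_right _ _
  have hρε : ρ ≤ ε := min_le_left _ _
  obtain ⟨C1, hC1, h1⟩ := S_diff F hρ hρ2
  obtain ⟨C2, hC2, h2⟩ := res_diff F hρ hρ2
  refine ⟨(C1 + C2) * (Ka 3 + 1), by have := Ka_nonneg 3; positivity, ?_⟩
  intro T hT x hx hxT
  have hx0 : 0 < x := by linarith
  have hT0 : 0 < T := by linarith
  have hE : ∀ y : ℝ, ‖F.E x - F.E (x * Real.exp (-y))‖ ≤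
      (C1 + C2) * T ^ ρ * Real.exp (3 * T * |y|) := by
    intro y
    have e : F.E x - F.E (x * Real.exp (-y)) = (F.S x - F.S (x * Real.exp (-y))) -
        (F.res x - F.res (x * Real.exp (-y))) := by
      unfold Sel.E; ring
    rw [e]
    refine (norm_sub_le _ _).trans ((add_le_add (h1 T hT x hx hxT y) (h2 T hT x hx hxT y)).trans ?_)
    have h3 : 1 + T * |y| ≤ Real.exp (T * |y|) := by
      have := Real.add_one_le_exp (T * |y|)
      linarith
    have h4 : Real.exp (T * |y|) * Real.exp (2 * T * |y|) = Real.exp (3 * T * |y|) := by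
      rw [← Real.exp_add]; congr 1; ring
    have h5 : (1 + T * |y|) * Real.exp (2 * T * |y|) ≤ Real.exp (3 * T * |y|) := by
      rw [← h4]
      exact mul_le_mul_of_nonneg_right h3 (Real.exp_pos _).le
    have h6 : T * |y| * Real.exp (2 * T * |y|) ≤ Real.exp (3 * T * |y|) := by
      refine le_trans ?_ h5
      exact mul_le_mul_of_nonneg_right (by linarith) (Real.exp_pos _).le
    calc C1 * T ^ ρ * ((1 + T * |y|) * Real.exp (2 * T * |y|)) +
          C2 * T ^ ρ * (T * |y| * Real.exp (2 * T * |y|))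
        ≤ C1 * T ^ ρ * Real.exp (3 * T * |y|) + C2 * T ^ ρ * Real.exp (3 * T * |y|) :=
          add_le_add (mul_le_mul_of_nonneg_left h5 (by positivity))
            (mul_le_mul_of_nonneg_left h6 (by positivity))
      _ = _ := by ring
  have hkint : Integrable fun y : ℝ => (kV T y : ℂ) * F.E x :=
    ((kV_integrable hT0).ofReal).mul_const _
  have hEV : F.E x - F.EV T x = ∫ y : ℝ, (kV T y : ℂ) * (F.E x - F.E (x * Real.exp (-y))) := by
    have h3 : ∀ y : ℝ, (kV T y : ℂ) * (F.E x - F.E (x * Real.exp (-y))) =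
        (kV T y : ℂ) * F.E x - (kV T y : ℂ) * F.E (x * Real.exp (-y)) := fun y => by ring
    simp only [h3]
    rw [integral_sub hkint (kE_integrable F hT0 hx0), ← EV_eq F hT0 hx0]
    congr 1
    rw [integral_mul_const]
    have h4 : ∫ y : ℝ, (kV T y : ℂ) = ((∫ y : ℝ, kV T y : ℝ) : ℂ) := integral_ofReal
    rw [h4, kV_integral hT0, Complex.ofReal_one, one_mul]
  rw [hEV]
  have hle : ∫ y : ℝ, ‖(kV T y : ℂ) * (F.E x - F.E (x * Real.exp (-y)))‖ ≤
      ∫ y : ℝ, (C1 + C2) * T ^ ρ * (kV T y * Real.exp (3 * T * |y|)) := by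
    refine integral_mono_of_nonneg (Filter.Eventually.of_forall fun y => norm_nonneg _)
      ((kV_exp_integrable hT0 (3 * T)).const_mul _) (Filter.Eventually.of_forall fun y => ?_)
    simp only
    rw [norm_mul, Complex.norm_real, Real.norm_eq_abs, abs_of_pos (kV_pos hT0 y)]
    calc kV T y * ‖F.E x - F.E (x * Real.exp (-y))‖
        ≤ kV T y * ((C1 + C2) * T ^ ρ * Real.exp (3 * T * |y|)) :=
          mul_le_mul_of_nonneg_left (hE y) (kV_pos hT0 y).le
      _ = _ := by ring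
  refine (norm_integral_le_integral_norm _).trans (hle.trans ?_)
  rw [integral_const_mul, kV_scale hT0 3]
  have hK := Ka_nonneg 3
  have h7 : T ^ ρ ≤ T ^ ε := Real.rpow_le_rpow_of_exponent_le hT hρε
  calc (C1 + C2) * T ^ ρ * Ka 3 ≤ (C1 + C2) * T ^ ε * (Ka 3 + 1) :=
        mul_le_mul (mul_le_mul_of_nonneg_left h7 (by positivity)) (by linarith) hK (by positivity)
    _ = _ := by ring

theorem EV_crude (F : Sel) : ∃ C : ℝ, 0 < C ∧ ∀ V : ℝ, 1 ≤ V → ∀ x : ℝ, 0 < x →
    ‖F.EV V x‖ ≤ C * (1 + x ^ 2) := by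
  obtain ⟨C, hC, h⟩ := E_crude F
  refine ⟨C * (Ka 2 + 1), by have := Ka_nonneg 2; positivity, ?_⟩
  intro V hV x hx
  have hV0 : 0 < V := by linarith
  rw [EV_eq F hV0 hx]
  have hle : ∫ y : ℝ, ‖(kV V y : ℂ) * F.E (x * Real.exp (-y))‖ ≤
      ∫ y : ℝ, C * (1 + x ^ 2) * (kV V y * Real.exp (2 * V * |y|)) := by
    refine integral_mono_of_nonneg (Filter.Eventually.of_forall fun y => norm_nonneg _)
      ((kV_exp_integrable hV0 (2 * V)).const_mul _) (Filter.Eventually.of_forall fun y => ?_)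
    simp only
    rw [norm_mul, Complex.norm_real, Real.norm_eq_abs, abs_of_pos (kV_pos hV0 y)]
    have h1 : Real.exp (2 * |y|) ≤ Real.exp (2 * V * |y|) :=
      Real.exp_le_exp.2 (by nlinarith [abs_nonneg y])
    calc kV V y * ‖F.E (x * Real.exp (-y))‖
        ≤ kV V y * (C * (1 + x ^ 2) * Real.exp (2 * |y|)) :=
          mul_le_mul_of_nonneg_left (E_comp_bound F hC h hx y) (kV_pos hV0 y).le
      _ ≤ kV V y * (C * (1 + x ^ 2) * Real.exp (2 * V * |y|)) :=
          mul_le_mul_of_nonneg_left (mul_le_mul_of_nonneg_left h1 (by positivity))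
            (kV_pos hV0 y).le
      _ = _ := by ring
  refine (norm_integral_le_integral_norm _).trans (hle.trans ?_)
  rw [integral_const_mul, kV_scale hV0 2]
  have hK := Ka_nonneg 2
  calc C * (1 + x ^ 2) * Ka 2 ≤ C * (1 + x ^ 2) * (Ka 2 + 1) :=
        mul_le_mul_of_nonneg_left (by linarith) (by positivity)
    _ = _ := by ring

end HYM
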