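import Mathlib

set_option autoImplicit false

/-!
# Hybrid moments of Selberg-class error terms: definitions (MP_dafbe7_nt)

`Sel` collects the data and the axioms of a member of the (extended) Selberg class: coefficients
`f n` (`n ≥ 1`), an entire function `P s = (s - 1)^m L(s)` of finite order, a functional equation
with gamma factors `∏ Γ(lam j * s + mu j)`, `lam j > 0`, `Re (mu j) ≥ 0`, and the Ramanujan bound
`f n ≪ n^ε`. The Euler product is not asked for, so that `Sel` contains the whole Selberg class.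
-/

open Complex MeasureTheory

open scoped ComplexConjugate

namespace HYM

/-- A member of the (extended) Selberg class. -/
structure Sel where
  /-- the coefficients `f n`, used for `n ≥ 1` only -/
  f : ℕ → ℂ
  /-- an exponent which removes the possible pole at `s = 1` -/
  m : ℕ
  /-- the entire function `(s - 1)^m L(s)` -/
  P : ℂ → ℂ
  /-- the conductor parameter of the functional equation -/
  Q : ℝ
  /-- the number of gamma factors -/
  r : ℕ
  lam : Fin r → ℝ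
  mu : Fin r → ℂ
  /-- the sign of the functional equation -/
  om : ℂ
  P_diff : Differentiable ℂ P
  P_order : ∃ A B : ℝ, ∀ s : ℂ, ‖P s‖ ≤ A * Real.exp (‖s‖ ^ B)
  summable : ∀ s : ℂ, 1 < s.re → LSeriesSummable f s
  series : ∀ s : ℂ, 1 < s.re → LSeries f s = P s / (s - 1) ^ m
  Q_pos : 0 < Q
  lam_pos : ∀ j, 0 < lam j
  mu_re : ∀ j, 0 ≤ (mu j).re
  om_norm : ‖om‖ = 1
  /-- the functional equation `Λ(s) = om * conj (Λ(1 - conj s))` in the critical strip, where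
  `Λ(s) = Q^s * ∏ Γ(lam j * s + mu j) * L(s)` -/
  functional : ∀ s : ℂ, 0 < s.re → s.re < 1 →
    (Q : ℂ) ^ s * (∏ j, Gamma (lam j * s + mu j)) * (P s / (s - 1) ^ m) =
      om * conj ((Q : ℂ) ^ (1 - conj s) * (∏ j, Gamma (lam j * (1 - conj s) + mu j)) *
        (P (1 - conj s) / ((1 - conj s) - 1) ^ m))
  /-- the Ramanujan bound -/
  ram : ∀ ε : ℝ, 0 < ε → ∃ C : ℝ, ∀ n : ℕ, 1 ≤ n → ‖f n‖ ≤ C * (n : ℝ) ^ ε

/-- The function `L(s) = ∑ f(n) n^(-s)`, continued to the plane. -/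
noncomputable def Sel.L (F : Sel) (s : ℂ) : ℂ := F.P s / (s - 1) ^ F.m

/-- The degree `2 ∑ lam j`. -/
noncomputable def Sel.deg (F : Sel) : ℝ := 2 * ∑ j, F.lam j

/-- The summatory function `∑_{n ≤ x} f(n)`. -/
noncomputable def Sel.S (F : Sel) (x : ℝ) : ℂ := ∑ n ∈ Finset.Icc 1 ⌊x⌋₊, F.f n

/-- The main term: the residue of `L(s) x^s / s` at `s = 1`. -/
noncomputable def Sel.res (F : Sel) (x : ℝ) : ℂ :=
  (2 * (Real.pi : ℂ) * I)⁻¹ * ∮ z in C(1, 1 / 2), F.L z * (x : ℂ) ^ z / z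

/-- The error term `E(x) = ∑_{n ≤ x} f(n) - Res_{s = 1} L(s) x^s / s`. -/
noncomputable def Sel.E (F : Sel) (x : ℝ) : ℂ := F.S x - F.res x

/-! ## Auxiliary notions -/

/-- The point `c + i t`. -/
noncomputable def ln (c t : ℝ) : ℂ := (c : ℂ) + (t : ℂ) * I

/-- `(1 / 2π) ∫ Lam(t) x^(c + i t) dt`. -/
noncomputable def vint (c : ℝ) (Lam : ℝ → ℂ) (x : ℝ) : ℂ :=
  (2 * (Real.pi : ℂ))⁻¹ * ∫ t : ℝ, Lam t * (x : ℂ) ^ (ln c t)

/-- The Gaussian density `V / (2 √π) exp (-V² y² / 4)`, of Laplace transform `exp (s² / V²)`. -/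
noncomputable def kV (V y : ℝ) : ℝ := V / (2 * √Real.pi) * Real.exp (-(V * y) ^ 2 / 4)

/-- The distribution function of the Gaussian density. -/
noncomputable def Phi (V y : ℝ) : ℝ := ∫ u in Set.Iic y, kV V u

/-- The regularised error term: `(1 / 2π i) ∫_{Re s = 1/2} L(s) x^s exp (s² / V²) ds / s`. -/
noncomputable def Sel.EV (F : Sel) (V x : ℝ) : ℂ :=
  vint (1 / 2) (fun t => F.L (ln (1 / 2) t) / ln (1 / 2) t *
    cexp ((ln (1 / 2) t) ^ 2 / (V : ℂ) ^ 2)) x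

/-- The factor of the functional equation: `L(s) = chi(s) * conj (L(1 - conj s))`. -/
noncomputable def Sel.chi (F : Sel) (s : ℂ) : ℂ :=
  F.om * (F.Q : ℂ) ^ (1 - 2 * s) *
    ∏ j, (Gamma (F.lam j * (1 - s) + conj (F.mu j)) * (Gamma (F.lam j * s + F.mu j))⁻¹)

/-- The conjugate coefficients, with value `0` at `n = 0`. -/
noncomputable def Sel.cf (F : Sel) (n : ℕ) : ℂ := if n = 0 then 0 else conj (F.f n)

/-- The `k`-th dyadic block of the conjugate coefficients. -/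
noncomputable def Sel.blk (F : Sel) (k n : ℕ) : ℂ :=
  if 2 ^ k ≤ n ∧ n < 2 ^ (k + 1) then conj (F.f n) else 0

/-- The tail `n ≥ 2^K` of the conjugate coefficients. -/
noncomputable def Sel.tl (F : Sel) (K n : ℕ) : ℂ := if 2 ^ K ≤ n then conj (F.f n) else 0

/-- The dual Dirichlet series `∑ a(n) n^(s - 1)`. -/
noncomputable def dsum (a : ℕ → ℂ) (s : ℂ) : ℂ := ∑' n : ℕ, a n * (n : ℂ) ^ (s - 1)

/-- The number `K` with `2^(K-1) < T ≤ 2^K`. -/
noncomputable def KT (T : ℝ) : ℕ := Nat.clog 2 ⌈T⌉₊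

/-- The low part, on the line `Re s = -ε`. -/
noncomputable def Sel.low (F : Sel) (ε T t : ℝ) : ℂ :=
  F.chi (ln (-ε) t) / ln (-ε) t *
    ((∑ k ∈ Finset.range (KT T),
      dsum (F.blk k) (ln (-ε) t) * cexp ((ln (-ε) t) ^ 2 / ((2 : ℂ) ^ k) ^ 2)) +
      dsum (F.tl (KT T)) (ln (-ε) t) * cexp ((ln (-ε) t) ^ 2 / (T : ℂ) ^ 2))

/-- The high part, on the line `Re s = 1/2`. -/
noncomputable def Sel.high (F : Sel) (T t : ℝ) : ℂ :=
  F.chi (ln (1 / 2) t) / ln (1 / 2) t *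
    ∑ k ∈ Finset.range (KT T), dsum (F.blk k) (ln (1 / 2) t) *
      (cexp ((ln (1 / 2) t) ^ 2 / (T : ℂ) ^ 2) - cexp ((ln (1 / 2) t) ^ 2 / ((2 : ℂ) ^ k) ^ 2))

/-- The whole integrand on the line `Re s = -ε`. -/
noncomputable def Sel.full (F : Sel) (ε T t : ℝ) : ℂ :=
  F.L (ln (-ε) t) / ln (-ε) t * cexp ((ln (-ε) t) ^ 2 / (T : ℂ) ^ 2)

theorem ln_re (c t : ℝ) : (ln c t).re = c := by simp [ln]

theorem ln_im (c t : ℝ) : (ln c t).im = t := by simp [ln]

end HYM
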