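import Pool.Agent.HYM.SRes
import Pool.Agent.HYM.Gro

set_option autoImplicit false

/-!
# HYM/EVl: moving the line to `Re s = -ε`

PROOF. `strip_res` with `w = 0`, `m = 1`, `a = -ε`, `b = 1/2`, `ρ = ε`,
`G s = L s * x^s * e^{s²/V²}` (differentiable for `Re s ≤ 1/2`, decay by `P_growth`,
`|s - 1| ≥ 1/2` and the Gaussian factor). The circle integral is `2πi G 0 = 2πi L 0` by Cauchy's
formula (`Complex.circleIntegral_sub_inv_smul_of_differentiable_on_off_countable` or
`DiffContOnCl.circleIntegral_sub_inv_smul`).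
-/

open Complex MeasureTheory

namespace HYM

private theorem evl_poly (n : ℕ) (V t : ℝ) (hV : 0 < V) :
    (1 + |t|) ^ n * Real.exp (-(t ^ 2 / V ^ 2)) ≤ n.factorial * Real.exp (1 + V ^ 2 / 4) := by
  have h1 : (1 + |t|) ^ n / n.factorial ≤ Real.exp (1 + |t|) :=
    Real.pow_div_factorial_le_exp _ (by positivity) n
  have h2 : (1 + |t|) ^ n ≤ n.factorial * Real.exp (1 + |t|) := by
    rw [div_le_iff₀ (by positivity)] at h1
    linarith
  have h3 : (1 + |t|) + -(t ^ 2 / V ^ 2) ≤ 1 + V ^ 2 / 4 := by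
    have h4 : |t| - t ^ 2 / V ^ 2 = V ^ 2 / 4 - (|t| / V - V / 2) ^ 2 := by
      have : |t| ^ 2 = t ^ 2 := sq_abs t
      field_simp
      rw [← this]
      ring
    nlinarith [sq_nonneg (|t| / V - V / 2)]
  calc (1 + |t|) ^ n * Real.exp (-(t ^ 2 / V ^ 2))
      ≤ (n.factorial * Real.exp (1 + |t|)) * Real.exp (-(t ^ 2 / V ^ 2)) :=
        mul_le_mul_of_nonneg_right h2 (Real.exp_pos _).le
    _ = n.factorial * Real.exp ((1 + |t|) + -(t ^ 2 / V ^ 2)) := by
        rw [mul_assoc, ← Real.exp_add]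
    _ ≤ n.factorial * Real.exp (1 + V ^ 2 / 4) := by
        apply mul_le_mul_of_nonneg_left (Real.exp_le_exp.2 h3) (by positivity)

theorem EV_left (F : Sel) {ε V x : ℝ} (hε : 0 < ε) (hε2 : ε ≤ 1 / 2) (hV : 0 < V) (hx : 0 < x) :
    F.EV V x = F.L 0 + vint (-ε) (F.full ε V) x := by
  set G : ℂ → ℂ := fun s => F.L s * (x : ℂ) ^ s * cexp (s ^ 2 / (V : ℂ) ^ 2) with hG
  have hx0 : (x : ℂ) ≠ 0 := by exact_mod_cast hx.ne'
  have hdiff : ∀ s : ℂ, s.re ≤ 1 / 2 → DifferentiableAt ℂ G s := by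
    intro s hs
    have hne : s - 1 ≠ 0 := by
      intro h
      have := congrArg Complex.re h
      simp at this
      linarith
    have h1 : DifferentiableAt ℂ F.L s := by
      unfold Sel.L
      apply DifferentiableAt.div (F.P_diff s)
      · fun_prop
      · exact pow_ne_zero _ hne
    have h2 : DifferentiableAt ℂ (fun s : ℂ => (x : ℂ) ^ s) s :=
      DifferentiableAt.const_cpow differentiableAt_id (Or.inl hx0)
    have h3 : DifferentiableAt ℂ (fun s : ℂ => cexp (s ^ 2 / (V : ℂ) ^ 2)) s := by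
      fun_prop
    exact (h1.mul h2).mul h3
  obtain ⟨C, K, hC, hP⟩ := P_growth F (-ε) (1 / 2)
  set B : ℝ := C * 2 ^ F.m * Real.exp |Real.log x| * Real.exp (1 / (4 * V ^ 2)) *
    ((K + 2).factorial * Real.exp (1 + V ^ 2 / 4)) with hBdef
  have hB : ∀ s : ℂ, -ε ≤ s.re → s.re ≤ 1 / 2 → ‖G s‖ ≤ B / (1 + s.im ^ 2) := by
    intro s h1 h2
    have hPs := hP s h1 h2
    have hre : |s.re| ≤ 1 / 2 := by rw [abs_le]; constructor <;> linarith
    have hd : (1 / 2 : ℝ) ≤ ‖s - 1‖ := by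
      have h3 : |(s - 1).re| ≤ ‖s - 1‖ := Complex.abs_re_le_norm _
      have h4 : (s - 1).re = s.re - 1 := by simp
      rw [h4] at h3
      have h5 : 1 / 2 ≤ |s.re - 1| := by
        rw [le_abs]; right; linarith
      linarith
    have hL : ‖F.L s‖ ≤ C * 2 ^ F.m * (1 + |s.im|) ^ K := by
      unfold Sel.L
      rw [norm_div, norm_pow]
      have h6 : (1 / 2 : ℝ) ^ F.m ≤ ‖s - 1‖ ^ F.m := pow_le_pow_left₀ (by norm_num) hd _
      rw [div_le_iff₀ (lt_of_lt_of_le (by positivity) h6)]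
      have h7 : (1 : ℝ) = 2 ^ F.m * (1 / 2) ^ F.m := by rw [← mul_pow]; norm_num
      calc ‖F.P s‖ ≤ C * (1 + |s.im|) ^ K := hPs
        _ = C * (1 + |s.im|) ^ K * 1 := by ring
        _ = C * (1 + |s.im|) ^ K * (2 ^ F.m * (1 / 2) ^ F.m) := by rw [← h7]
        _ = C * 2 ^ F.m * (1 + |s.im|) ^ K * (1 / 2) ^ F.m := by ring
        _ ≤ C * 2 ^ F.m * (1 + |s.im|) ^ K * ‖s - 1‖ ^ F.m :=
            mul_le_mul_of_nonneg_left h6 (by positivity)
    have hX : ‖(x : ℂ) ^ s‖ ≤ Real.exp |Real.log x| := by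
      rw [Complex.norm_cpow_eq_rpow_re_of_pos hx, Real.rpow_def_of_pos hx]
      apply Real.exp_le_exp.2
      calc Real.log x * s.re ≤ |Real.log x * s.re| := le_abs_self _
        _ = |Real.log x| * |s.re| := abs_mul _ _
        _ ≤ |Real.log x| * 1 := mul_le_mul_of_nonneg_left (by linarith) (abs_nonneg _)
        _ = |Real.log x| := mul_one _
    have hE : ‖cexp (s ^ 2 / (V : ℂ) ^ 2)‖ ≤
        Real.exp (1 / (4 * V ^ 2)) * Real.exp (-(s.im ^ 2 / V ^ 2)) := by
      rw [Complex.norm_exp, ← Real.exp_add]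
      apply Real.exp_le_exp.2
      have h8 : (s ^ 2 / (V : ℂ) ^ 2).re = (s.re ^ 2 - s.im ^ 2) / V ^ 2 := by
        rw [← Complex.ofReal_pow, Complex.div_ofReal_re]
        congr 1
        rw [sq, Complex.mul_re]
        ring
      rw [h8, sub_div, sub_eq_add_neg]
      have h9 : s.re ^ 2 ≤ 1 / 4 := by
        have := sq_abs s.re
        nlinarith [abs_nonneg s.re]
      have h10 : s.re ^ 2 / V ^ 2 ≤ 1 / (4 * V ^ 2) := by
        rw [div_le_div_iff₀ (by positivity) (by positivity)]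
        nlinarith [sq_nonneg V]
      linarith
    have hfac : (1 + |s.im|) ^ K * Real.exp (-(s.im ^ 2 / V ^ 2)) * (1 + s.im ^ 2) ≤
        (K + 2).factorial * Real.exp (1 + V ^ 2 / 4) := by
      refine le_trans ?_ (evl_poly (K + 2) V s.im hV)
      have h11 : 1 + s.im ^ 2 ≤ (1 + |s.im|) ^ 2 := by
        have := sq_abs s.im
        nlinarith [abs_nonneg s.im]
      calc (1 + |s.im|) ^ K * Real.exp (-(s.im ^ 2 / V ^ 2)) * (1 + s.im ^ 2)
          ≤ (1 + |s.im|) ^ K * Real.exp (-(s.im ^ 2 / V ^ 2)) * (1 + |s.im|) ^ 2 :=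
            mul_le_mul_of_nonneg_left h11 (by positivity)
        _ = (1 + |s.im|) ^ (K + 2) * Real.exp (-(s.im ^ 2 / V ^ 2)) := by
            rw [pow_add]; ring
    rw [le_div_iff₀ (by positivity)]
    calc ‖G s‖ * (1 + s.im ^ 2)
        = ‖F.L s‖ * ‖(x : ℂ) ^ s‖ * ‖cexp (s ^ 2 / (V : ℂ) ^ 2)‖ * (1 + s.im ^ 2) := by
          simp only [hG, norm_mul]
      _ ≤ (C * 2 ^ F.m * (1 + |s.im|) ^ K) * Real.exp |Real.log x| *
          (Real.exp (1 / (4 * V ^ 2)) * Real.exp (-(s.im ^ 2 / V ^ 2))) * (1 + s.im ^ 2) := by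
          gcongr
      _ = C * 2 ^ F.m * Real.exp |Real.log x| * Real.exp (1 / (4 * V ^ 2)) *
          ((1 + |s.im|) ^ K * Real.exp (-(s.im ^ 2 / V ^ 2)) * (1 + s.im ^ 2)) := by ring
      _ ≤ B := by
          rw [hBdef]
          exact mul_le_mul_of_nonneg_left hfac (by positivity)
  have hmain := strip_res (G := G) (a := -ε) (b := 1 / 2) (w := 0) (B := B) (ρ := ε) hε
    (by linarith) (by linarith) (fun s _ h2 => hdiff s h2) hB 1
  have hcauchy : (∮ z in C(((0 : ℝ) : ℂ), ε), G z / (z - ((0 : ℝ) : ℂ)) ^ 1) =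
      (2 * (Real.pi : ℂ) * I) * F.L 0 := by
    have hball : ∀ z ∈ Metric.closedBall (0 : ℂ) ε, z.re ≤ 1 / 2 := by
      intro z hz
      rw [mem_closedBall_zero_iff] at hz
      have := Complex.re_le_norm z
      linarith
    have h1 := Complex.circleIntegral_sub_inv_smul_of_differentiable_on_off_countable
      (f := G) (c := 0) (w := 0) (R := ε) Set.countable_empty (Metric.mem_ball_self hε)
      (fun z hz => (hdiff z (hball z hz)).continuousAt.continuousWithinAt)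
      (fun z hz => hdiff z (hball z (Metric.ball_subset_closedBall hz.1)))
    have h2 : G 0 = F.L 0 := by
      simp [hG]
    rw [h2, smul_eq_mul] at h1
    rw [← h1]
    simp only [Complex.ofReal_zero, sub_zero, pow_one, smul_eq_mul]
    congr 1
    ext z
    rw [div_eq_inv_mul]
  rw [hcauchy] at hmain
  have hpi : (2 * (Real.pi : ℂ) * I) ≠ 0 := by
    simp [Real.pi_ne_zero]
  rw [inv_mul_cancel_left₀ hpi] at hmain
  have e1 : F.EV V x = (2 * (Real.pi : ℂ))⁻¹ *
      (∫ t : ℝ, G (ln (1 / 2) t) / (ln (1 / 2) t - ((0 : ℝ) : ℂ)) ^ 1) := by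
    unfold Sel.EV vint
    congr 2
    ext t
    simp only [hG, Complex.ofReal_zero, sub_zero, pow_one]
    ring
  have e2 : vint (-ε) (F.full ε V) x = (2 * (Real.pi : ℂ))⁻¹ *
      (∫ t : ℝ, G (ln (-ε) t) / (ln (-ε) t - ((0 : ℝ) : ℂ)) ^ 1) := by
    unfold vint Sel.full
    congr 2
    ext t
    simp only [hG, Complex.ofReal_zero, sub_zero, pow_one]
    ring
  rw [e1, e2]
  linear_combination hmain

end HYM
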