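import Pool.Agent.HYM.Ser
import Pool.Agent.HYM.SRes
import Pool.Agent.HYM.Gro

set_option autoImplicit false

/-!
# HYM/EVq: the regularised error term is a Gaussian average of the error term

PROOFS. `res_bound`: `|L z|` is bounded on the circle (`P` continuous, `|z-1| = 1/2`),
`1/2 ≤ |z|`, and `|x^z| = x^{Re z}` with `1/2 ≤ Re z ≤ 3/2`.
`EV_eq`: `strip_res` with `w = 1`, `a = 1/2`, `b = 2`, `ρ = 1/2`, `m = F.m`,
`G s = P s * x^s * e^{s²/V²} / s` (decay by `P_growth` and the Gaussian factor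
`|e^{s²/V²}| = e^{(σ²-t²)/V²}`) gives
`EV V x = vint 2 (...) x - (2πi)⁻¹ ∮ L z x^z e^{z²/V²}/z dz`. By `series_side` the first term is
`∫ kV V y S(x e^{-y}) dy`; the second is `∫ kV V y res (x e^{-y}) dy` by Fubini on the circle and
`kV_mgf` (`(x e^{-y})^z = x^z e^{-zy}`).
-/

open Complex MeasureTheory

namespace HYM

theorem EVq_cpow {x : ℝ} (hx : 0 < x) (y : ℝ) (z : ℂ) :
    ((x * Real.exp (-y) : ℝ) : ℂ) ^ z = (x : ℂ) ^ z * cexp (-(z * y)) := by
  have h0 : 0 < x * Real.exp (-y) := mul_pos hx (Real.exp_pos _)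
  have h1 : ((x * Real.exp (-y) : ℝ) : ℂ) ≠ 0 := by exact_mod_cast h0.ne'
  have h2 : (x : ℂ) ≠ 0 := by exact_mod_cast hx.ne'
  rw [Complex.cpow_def_of_ne_zero h1, Complex.cpow_def_of_ne_zero h2, ← Complex.exp_add,
    ← Complex.ofReal_log h0.le, ← Complex.ofReal_log hx.le,
    Real.log_mul hx.ne' (Real.exp_pos _).ne', Real.log_exp]
  congr 1
  push_cast
  ring

theorem EVq_sph {z : ℂ} (hz : z ∈ Metric.sphere (1 : ℂ) (1 / 2)) :
    1 / 2 ≤ z.re ∧ z.re ≤ 3 / 2 ∧ z - 1 ≠ 0 ∧ z ≠ 0 ∧ 1 / 2 ≤ ‖z‖ := by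
  rw [mem_sphere_iff_norm] at hz
  have h1 : |(z - 1).re| ≤ ‖z - 1‖ := Complex.abs_re_le_norm _
  rw [hz, Complex.sub_re, Complex.one_re, abs_le] at h1
  have h2 : 1 / 2 ≤ z.re := by linarith [h1.1]
  refine ⟨h2, by linarith [h1.2], ?_, ?_, ?_⟩
  · intro h
    rw [h] at hz
    simp at hz
  · rintro rfl
    simp at h2
    linarith
  · exact h2.trans ((le_abs_self _).trans (Complex.abs_re_le_norm z))

theorem EVq_rpow {x a b σ : ℝ} (hx : 0 < x) (h1 : a ≤ σ) (h2 : σ ≤ b) :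
    x ^ σ ≤ x ^ a + x ^ b := by
  rcases le_total x 1 with h | h
  · have h3 := Real.rpow_le_rpow_of_exponent_ge hx h h1
    have h4 := Real.rpow_pos_of_pos hx b
    linarith
  · have h3 := Real.rpow_le_rpow_of_exponent_le h h2
    have h4 := Real.rpow_pos_of_pos hx a
    linarith

theorem EVq_Lcont (F : Sel) : ContinuousOn F.L (Metric.sphere (1 : ℂ) (1 / 2)) := by
  have h : F.L = fun s => F.P s / (s - 1) ^ F.m := rfl
  rw [h]
  exact F.P_diff.continuous.continuousOn.div (by fun_prop) fun z hz =>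
    pow_ne_zero _ (EVq_sph hz).2.2.1

theorem EVq_Lbound (F : Sel) :
    ∃ M : ℝ, 0 < M ∧ ∀ z ∈ Metric.sphere (1 : ℂ) (1 / 2), ‖F.L z‖ ≤ M := by
  obtain ⟨M, hM⟩ := (isCompact_sphere (1 : ℂ) (1 / 2)).exists_bound_of_continuousOn (EVq_Lcont F)
  exact ⟨max M 1, by positivity, fun z hz => (hM z hz).trans (le_max_left _ _)⟩

/-- the weight on the circle -/
noncomputable def EVq_J (F : Sel) (θ : ℝ) : ℂ :=
  circleMap 0 (1 / 2) θ * I * F.L (circleMap 1 (1 / 2) θ) / circleMap 1 (1 / 2) θ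

theorem EVq_cm (θ : ℝ) : circleMap (1 : ℂ) (1 / 2) θ ∈ Metric.sphere (1 : ℂ) (1 / 2) :=
  circleMap_mem_sphere 1 (by norm_num) θ

theorem EVq_J_cont (F : Sel) : Continuous (EVq_J F) := by
  have h1 : Continuous fun θ : ℝ => F.L (circleMap 1 (1 / 2) θ) :=
    (EVq_Lcont F).comp_continuous (continuous_circleMap 1 (1 / 2)) EVq_cm
  exact (((continuous_circleMap 0 (1 / 2)).mul continuous_const).mul h1).div
    (continuous_circleMap 1 (1 / 2)) fun θ => (EVq_sph (EVq_cm θ)).2.2.2.1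

theorem EVq_circ (F : Sel) (g : ℂ → ℂ) :
    (∮ z in C(1, 1 / 2), F.L z * g z / z) =
      ∫ θ in (0 : ℝ)..(2 * Real.pi), EVq_J F θ * g (circleMap 1 (1 / 2) θ) := by
  rw [circleIntegral]
  refine intervalIntegral.integral_congr fun θ _ => ?_
  simp only [deriv_circleMap, smul_eq_mul, EVq_J]
  ring

theorem EVq_res (F : Sel) (x : ℝ) : F.res x = (2 * (Real.pi : ℂ) * I)⁻¹ *
    ∫ θ in (0 : ℝ)..(2 * Real.pi), EVq_J F θ * (x : ℂ) ^ (circleMap 1 (1 / 2) θ) := by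
  rw [Sel.res, EVq_circ F fun z => (x : ℂ) ^ z]

theorem res_bound (F : Sel) : ∃ C : ℝ, 0 < C ∧ ∀ x : ℝ, 0 < x →
    ‖F.res x‖ ≤ C * (x ^ (1 / 2 : ℝ) + x ^ (3 / 2 : ℝ)) := by
  obtain ⟨M, hM, hM1⟩ := EVq_Lbound F
  refine ⟨M, hM, fun x hx => ?_⟩
  have h0 : 0 ≤ x ^ (1 / 2 : ℝ) + x ^ (3 / 2 : ℝ) := by positivity
  have h := circleIntegral.norm_two_pi_i_inv_smul_integral_le_of_norm_le_const (c := 1)
    (R := 1 / 2) (f := fun z => F.L z * (x : ℂ) ^ z / z)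
    (C := M * (x ^ (1 / 2 : ℝ) + x ^ (3 / 2 : ℝ)) * 2) (by norm_num) (fun z hz => by
      obtain ⟨h1, h2, _, _, h5⟩ := EVq_sph hz
      rw [norm_div, norm_mul, Complex.norm_cpow_eq_rpow_re_of_pos hx, div_le_iff₀ (by linarith)]
      have h6 := EVq_rpow hx h1 h2
      have h7 := hM1 z hz
      calc ‖F.L z‖ * x ^ z.re ≤ M * (x ^ (1 / 2 : ℝ) + x ^ (3 / 2 : ℝ)) :=
            mul_le_mul h7 h6 (by positivity) hM.le
        _ = M * (x ^ (1 / 2 : ℝ) + x ^ (3 / 2 : ℝ)) * 2 * (1 / 2) := by ring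
        _ ≤ M * (x ^ (1 / 2 : ℝ) + x ^ (3 / 2 : ℝ)) * 2 * ‖z‖ :=
            mul_le_mul_of_nonneg_left h5 (by positivity))
  rw [smul_eq_mul] at h
  calc ‖F.res x‖ ≤ 1 / 2 * (M * (x ^ (1 / 2 : ℝ) + x ^ (3 / 2 : ℝ)) * 2) := h
    _ = M * (x ^ (1 / 2 : ℝ) + x ^ (3 / 2 : ℝ)) := by ring

theorem res_continuousOn (F : Sel) : ContinuousOn F.res (Set.Ioi 0) := by
  have hJ := EVq_J_cont F
  have h1 : Continuous fun u : ℝ => ∫ θ in (0 : ℝ)..(2 * Real.pi),
      EVq_J F θ * cexp ((u : ℂ) * circleMap 1 (1 / 2) θ) := by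
    refine intervalIntegral.continuous_parametric_intervalIntegral_of_continuous' ?_ _ _
    have h2 := continuous_circleMap 1 (1 / 2)
    have h3 : Continuous fun p : ℝ × ℝ => EVq_J F p.2 * cexp ((p.1 : ℂ) *
        circleMap 1 (1 / 2) p.2) := by
      fun_prop
    exact h3
  have h2 : ContinuousOn (fun x : ℝ => (2 * (Real.pi : ℂ) * I)⁻¹ *
      ∫ θ in (0 : ℝ)..(2 * Real.pi),
        EVq_J F θ * cexp ((Real.log x : ℂ) * circleMap 1 (1 / 2) θ)) (Set.Ioi 0) := by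
    refine continuousOn_const.mul ?_
    refine h1.comp_continuousOn (f := Real.log) ?_
    exact Real.continuousOn_log.mono fun x hx => (Set.mem_Ioi.1 hx).ne'
  refine h2.congr fun x hx => ?_
  have hx0 : (0 : ℝ) < x := hx
  have hx1 : (x : ℂ) ≠ 0 := by exact_mod_cast hx0.ne'
  rw [EVq_res]
  congr 1
  refine intervalIntegral.integral_congr fun θ _ => ?_
  simp only [Complex.cpow_def_of_ne_zero hx1, Complex.ofReal_log hx0.le]

theorem E_crude (F : Sel) : ∃ C : ℝ, 0 < C ∧ ∀ x : ℝ, 0 < x → ‖F.E x‖ ≤ C * (1 + x ^ 2) := by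
  obtain ⟨C1, hC1, h1⟩ := S_crude F
  obtain ⟨C2, hC2, h2⟩ := res_bound F
  refine ⟨C1 + 2 * C2, by positivity, fun x hx => ?_⟩
  have e1 := h1 x hx.le
  have e2 := h2 x hx
  have e3 : x ^ (1 / 2 : ℝ) ≤ 1 + x ^ 2 := by
    have := EVq_rpow (a := 0) (b := 2) (σ := 1 / 2) hx (by norm_num) (by norm_num)
    rw [Real.rpow_zero] at this
    exact_mod_cast this
  have e4 : x ^ (3 / 2 : ℝ) ≤ 1 + x ^ 2 := by
    have := EVq_rpow (a := 0) (b := 2) (σ := 3 / 2) hx (by norm_num) (by norm_num)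
    rw [Real.rpow_zero] at this
    exact_mod_cast this
  have e5 : ‖F.E x‖ ≤ ‖F.S x‖ + ‖F.res x‖ := norm_sub_le _ _
  nlinarith [sq_nonneg x]

theorem EVq_kV_cont (V : ℝ) : Continuous (kV V) := by
  unfold kV
  fun_prop

theorem EVq_S_meas (F : Sel) : Measurable F.S := by
  have h : F.S = (fun n : ℕ => ∑ k ∈ Finset.Icc 1 n, F.f k) ∘ fun x : ℝ => ⌊x⌋₊ := rfl
  rw [h]
  exact (measurable_of_countable _).comp Nat.measurable_floor

theorem EVq_exp_abs {a c y : ℝ} (h : |a| ≤ c) : Real.exp (a * y) ≤ Real.exp (c * |y|) := by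
  refine Real.exp_le_exp.2 ?_
  calc a * y ≤ |a * y| := le_abs_self _
    _ = |a| * |y| := abs_mul _ _
    _ ≤ c * |y| := mul_le_mul_of_nonneg_right h (abs_nonneg _)

theorem EVq_int_S (F : Sel) {V x : ℝ} (hV : 0 < V) (hx : 0 < x) :
    Integrable fun y : ℝ => (kV V y : ℂ) * F.S (x * Real.exp (-y)) := by
  obtain ⟨C, hC, h1⟩ := S_crude F
  have h2 := (kV_exp_integrable hV 2).const_mul (C * x ^ 2)
  refine h2.mono' ?_ (Filter.Eventually.of_forall fun y => ?_)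
  · refine Measurable.aestronglyMeasurable ?_
    exact (Complex.measurable_ofReal.comp (EVq_kV_cont V).measurable).mul
      ((EVq_S_meas F).comp (by fun_prop))
  · rw [norm_mul, Complex.norm_real, Real.norm_eq_abs, abs_of_pos (kV_pos hV y)]
    have h3 := h1 (x * Real.exp (-y)) (by positivity)
    have h4 : (Real.exp (-y)) ^ 2 ≤ Real.exp (2 * |y|) := by
      rw [← Real.exp_nat_mul]
      have := EVq_exp_abs (a := -2) (c := 2) (y := y) (by norm_num)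
      refine le_trans (le_of_eq ?_) this
      congr 1
      push_cast
      ring
    calc kV V y * ‖F.S (x * Real.exp (-y))‖ ≤ kV V y * (C * (x * Real.exp (-y)) ^ 2) :=
          mul_le_mul_of_nonneg_left h3 (kV_pos hV y).le
      _ = C * x ^ 2 * (kV V y * (Real.exp (-y)) ^ 2) := by ring
      _ ≤ C * x ^ 2 * (kV V y * Real.exp (2 * |y|)) := by
          refine mul_le_mul_of_nonneg_left ?_ (by positivity)
          exact mul_le_mul_of_nonneg_left h4 (kV_pos hV y).le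

theorem EVq_fub_int (F : Sel) {V x : ℝ} (hV : 0 < V) (hx : 0 < x) :
    Integrable (Function.uncurry fun (y θ : ℝ) => (kV V y : ℂ) *
      (EVq_J F θ * ((x * Real.exp (-y) : ℝ) : ℂ) ^ (circleMap 1 (1 / 2) θ)))
      ((volume : Measure ℝ).prod ((volume : Measure ℝ).restrict (Set.Ioc 0 (2 * Real.pi)))) := by
  have hJ := EVq_J_cont F
  have hcm := continuous_circleMap 1 (1 / 2)
  have hk := EVq_kV_cont V
  have hx1 : (x : ℂ) ≠ 0 := by exact_mod_cast hx.ne'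
  obtain ⟨M, hM⟩ := (isCompact_Icc (a := (0 : ℝ)) (b := 2 * Real.pi)).exists_bound_of_continuousOn
    hJ.continuousOn
  have h1 := (kV_exp_integrable hV (3 / 2)).const_mul (x ^ (1 / 2 : ℝ) + x ^ (3 / 2 : ℝ))
  have h2 : Integrable (fun _ : ℝ => M)
      ((volume : Measure ℝ).restrict (Set.Ioc 0 (2 * Real.pi))) := by
    have : IsFiniteMeasure ((volume : Measure ℝ).restrict (Set.Ioc 0 (2 * Real.pi))) :=
      ⟨by rw [Measure.restrict_apply_univ]; exact measure_Ioc_lt_top⟩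
    exact integrable_const _
  have h3 := h1.mul_prod h2
  refine h3.mono' ?_ ?_
  · have h4 : Continuous (Function.uncurry fun (y θ : ℝ) => (kV V y : ℂ) *
        (EVq_J F θ * ((x : ℂ) ^ (circleMap 1 (1 / 2) θ) *
          cexp (-(circleMap 1 (1 / 2) θ * y))))) := by
      have h5 : Continuous fun θ : ℝ => (x : ℂ) ^ (circleMap 1 (1 / 2) θ) :=
        hcm.const_cpow (Or.inl hx1)
      have h6 : Continuous fun p : ℝ × ℝ => (kV V p.1 : ℂ) *
        (EVq_J F p.2 * ((x : ℂ) ^ (circleMap 1 (1 / 2) p.2) *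
          cexp (-(circleMap 1 (1 / 2) p.2 * (p.1 : ℂ))))) := by
        have h7 : Continuous fun p : ℝ × ℝ => cexp (-(circleMap 1 (1 / 2) p.2 * (p.1 : ℂ))) := by
          fun_prop
        exact (Complex.continuous_ofReal.comp (hk.comp continuous_fst)).mul
          ((hJ.comp continuous_snd).mul ((h5.comp continuous_snd).mul h7))
      exact h6
    refine h4.aestronglyMeasurable.congr (Filter.Eventually.of_forall fun p => ?_)
    simp only [Function.uncurry, EVq_cpow hx]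
  · have h5 : ∀ᵐ p : ℝ × ℝ ∂((volume : Measure ℝ).prod
        ((volume : Measure ℝ).restrict (Set.Ioc 0 (2 * Real.pi)))),
        p.2 ∈ Set.Ioc 0 (2 * Real.pi) := by
      have h6 : ∀ᵐ θ : ℝ ∂((volume : Measure ℝ).restrict (Set.Ioc 0 (2 * Real.pi))),
          θ ∈ Set.Ioc 0 (2 * Real.pi) := ae_restrict_mem measurableSet_Ioc
      exact Measure.quasiMeasurePreserving_snd.ae h6
    filter_upwards [h5] with p hp
    have hp' : p.2 ∈ Set.Icc 0 (2 * Real.pi) := ⟨hp.1.le, hp.2⟩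
    obtain ⟨g1, g2, _, _, _⟩ := EVq_sph (EVq_cm p.2)
    simp only [Function.uncurry]
    rw [norm_mul, norm_mul, Complex.norm_real, Real.norm_eq_abs, abs_of_pos (kV_pos hV _),
      Complex.norm_cpow_eq_rpow_re_of_pos (by positivity),
      Real.mul_rpow hx.le (Real.exp_pos _).le, ← Real.exp_mul]
    have g3 := EVq_rpow hx g1 g2
    have g4 : Real.exp (-p.1 * (circleMap 1 (1 / 2) p.2).re) ≤ Real.exp (3 / 2 * |p.1|) := by
      have := EVq_exp_abs (a := -(circleMap 1 (1 / 2) p.2).re) (c := 3 / 2) (y := p.1) (by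
        rw [abs_neg, abs_of_nonneg (by linarith)]
        exact g2)
      refine le_trans (le_of_eq ?_) this
      congr 1
      ring
    have g5 := hM p.2 hp'
    have g6 : x ^ (circleMap 1 (1 / 2) p.2).re * Real.exp (-p.1 * (circleMap 1 (1 / 2) p.2).re)
        ≤ (x ^ (1 / 2 : ℝ) + x ^ (3 / 2 : ℝ)) * Real.exp (3 / 2 * |p.1|) :=
      mul_le_mul g3 g4 (Real.exp_pos _).le (by positivity)
    calc kV V p.1 * (‖EVq_J F p.2‖ * (x ^ (circleMap 1 (1 / 2) p.2).re *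
          Real.exp (-p.1 * (circleMap 1 (1 / 2) p.2).re)))
        ≤ kV V p.1 * (M * ((x ^ (1 / 2 : ℝ) + x ^ (3 / 2 : ℝ)) * Real.exp (3 / 2 * |p.1|))) := by
          refine mul_le_mul_of_nonneg_left ?_ (kV_pos hV _).le
          exact mul_le_mul g5 g6 (by positivity) ((norm_nonneg _).trans g5)
      _ = (x ^ (1 / 2 : ℝ) + x ^ (3 / 2 : ℝ)) * (kV V p.1 * Real.exp (3 / 2 * |p.1|)) * M := by
          ring

theorem EVq_int_res (F : Sel) {V x : ℝ} (hV : 0 < V) (hx : 0 < x) :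
    Integrable fun y : ℝ => (kV V y : ℂ) * F.res (x * Real.exp (-y)) := by
  have h1 := (EVq_fub_int F hV hx).integral_prod_left
  have h2 := h1.const_mul ((2 * (Real.pi : ℂ) * I)⁻¹)
  refine h2.congr (Filter.Eventually.of_forall fun y => ?_)
  simp only [Function.uncurry]
  rw [EVq_res, intervalIntegral.integral_of_le (by positivity), integral_const_mul]
  ring

theorem EVq_fub (F : Sel) {V x : ℝ} (hV : 0 < V) (hx : 0 < x) :
    ∫ y : ℝ, (kV V y : ℂ) * F.res (x * Real.exp (-y)) =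
      (2 * (Real.pi : ℂ) * I)⁻¹ * ∮ z in C(1, 1 / 2),
        F.L z * ((x : ℂ) ^ z * cexp (z ^ 2 / (V : ℂ) ^ 2)) / z := by
  rw [EVq_circ F fun z => (x : ℂ) ^ z * cexp (z ^ 2 / (V : ℂ) ^ 2)]
  have h1 : ∀ y : ℝ, (kV V y : ℂ) * F.res (x * Real.exp (-y)) = (2 * (Real.pi : ℂ) * I)⁻¹ *
      ∫ θ in Set.Ioc 0 (2 * Real.pi), (kV V y : ℂ) *
        (EVq_J F θ * ((x * Real.exp (-y) : ℝ) : ℂ) ^ (circleMap 1 (1 / 2) θ)) := by
    intro y
    rw [EVq_res, intervalIntegral.integral_of_le (by positivity), integral_const_mul]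
    ring
  simp only [h1]
  rw [integral_const_mul, integral_integral_swap (EVq_fub_int F hV hx),
    intervalIntegral.integral_of_le (by positivity)]
  congr 1
  refine integral_congr_ae (Filter.Eventually.of_forall fun θ => ?_)
  simp only [EVq_cpow hx]
  rw [← kV_mgf hV, ← mul_assoc, ← integral_const_mul]
  congr 1
  ext y
  ring

theorem EVq_gauss {V : ℝ} (hV : 0 < V) (K : ℕ) (t : ℝ) :
    (1 + |t|) ^ K * Real.exp (-(t ^ 2) / V ^ 2) ≤
      Real.exp (((K : ℝ) + 2) ^ 2 * V ^ 2 / 4) / (1 + t ^ 2) := by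
  rw [le_div_iff₀ (by positivity)]
  have h1 : 1 + t ^ 2 ≤ (1 + |t|) ^ 2 := by
    have := abs_nonneg t
    nlinarith [sq_abs t]
  have h2 : 1 + |t| ≤ Real.exp |t| := by
    have := Real.add_one_le_exp |t|
    linarith
  calc (1 + |t|) ^ K * Real.exp (-(t ^ 2) / V ^ 2) * (1 + t ^ 2)
      ≤ (1 + |t|) ^ K * Real.exp (-(t ^ 2) / V ^ 2) * (1 + |t|) ^ 2 :=
        mul_le_mul_of_nonneg_left h1 (by positivity)
    _ = (1 + |t|) ^ (K + 2) * Real.exp (-(t ^ 2) / V ^ 2) := by ring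
    _ ≤ (Real.exp |t|) ^ (K + 2) * Real.exp (-(t ^ 2) / V ^ 2) := by
        refine mul_le_mul_of_nonneg_right ?_ (Real.exp_pos _).le
        exact pow_le_pow_left₀ (by positivity) h2 _
    _ = Real.exp (((K : ℝ) + 2) * |t| - t ^ 2 / V ^ 2) := by
        rw [← Real.exp_nat_mul, ← Real.exp_add]
        congr 1
        push_cast
        ring
    _ ≤ Real.exp (((K : ℝ) + 2) ^ 2 * V ^ 2 / 4) := by
        refine Real.exp_le_exp.2 ?_
        have h3 : 0 ≤ (|t| / V - ((K : ℝ) + 2) * V / 2) ^ 2 := sq_nonneg _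
        have h4 : (|t| / V - ((K : ℝ) + 2) * V / 2) ^ 2 =
            t ^ 2 / V ^ 2 - ((K : ℝ) + 2) * |t| + ((K : ℝ) + 2) ^ 2 * V ^ 2 / 4 := by
          rw [← sq_abs t]
          field_simp
          ring
        linarith

theorem EVq_strip (F : Sel) {V x : ℝ} (hV : 0 < V) (hx : 0 < x) :
    vint 2 (fun t => F.L (ln 2 t) / ln 2 t * cexp ((ln 2 t) ^ 2 / (V : ℂ) ^ 2)) x -
      F.EV V x = (2 * (Real.pi : ℂ) * I)⁻¹ * ∮ z in C(1, 1 / 2),
        F.L z * ((x : ℂ) ^ z * cexp (z ^ 2 / (V : ℂ) ^ 2)) / z := by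
  have hx1 : (x : ℂ) ≠ 0 := by exact_mod_cast hx.ne'
  obtain ⟨C, K, hC, hP⟩ := P_growth F (1 / 2) 2
  set G : ℂ → ℂ := fun s => F.P s * (x : ℂ) ^ s * cexp (s ^ 2 / (V : ℂ) ^ 2) / s with hG
  have hd : ∀ s : ℂ, 1 / 2 ≤ s.re → s.re ≤ 2 → DifferentiableAt ℂ G s := by
    intro s h1 _
    have hs0 : s ≠ 0 := by
      rintro rfl
      simp at h1
      linarith
    refine DifferentiableAt.div ?_ differentiableAt_id hs0
    refine ((F.P_diff s).mul ?_).mul (by fun_prop)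
    exact differentiableAt_id.const_cpow (Or.inl hx1)
  have hB : ∀ s : ℂ, 1 / 2 ≤ s.re → s.re ≤ 2 →
      ‖G s‖ ≤ (2 * C * (x ^ (1 / 2 : ℝ) + x ^ (2 : ℝ)) * Real.exp (4 / V ^ 2) *
        Real.exp (((K : ℝ) + 2) ^ 2 * V ^ 2 / 4)) / (1 + s.im ^ 2) := by
    intro s h1 h2
    have hsn : 1 / 2 ≤ ‖s‖ := h1.trans ((le_abs_self _).trans (Complex.abs_re_le_norm s))
    have h3 := hP s h1 h2
    have h4 := EVq_rpow hx h1 h2
    have h5 : ‖cexp (s ^ 2 / (V : ℂ) ^ 2)‖ ≤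
        Real.exp (4 / V ^ 2) * Real.exp (-(s.im ^ 2) / V ^ 2) := by
      rw [Complex.norm_exp, ← Real.exp_add]
      refine Real.exp_le_exp.2 ?_
      have h6 : (s ^ 2 / (V : ℂ) ^ 2).re = (s.re ^ 2 - s.im ^ 2) / V ^ 2 := by
        have h7 : s ^ 2 / (V : ℂ) ^ 2 = s ^ 2 / ((V ^ 2 : ℝ) : ℂ) := by push_cast; rfl
        rw [h7, Complex.div_ofReal_re, sq, Complex.mul_re]
        ring
      rw [h6, ← add_div]
      refine div_le_div_of_nonneg_right ?_ (by positivity)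
      nlinarith
    have h6 := EVq_gauss hV K s.im
    have h7 : ‖G s‖ = ‖F.P s‖ * x ^ s.re * ‖cexp (s ^ 2 / (V : ℂ) ^ 2)‖ / ‖s‖ := by
      simp only [hG]
      rw [norm_div, norm_mul, norm_mul, Complex.norm_cpow_eq_rpow_re_of_pos hx]
    rw [h7, div_le_iff₀ (by linarith)]
    calc ‖F.P s‖ * x ^ s.re * ‖cexp (s ^ 2 / (V : ℂ) ^ 2)‖
        ≤ (C * (1 + |s.im|) ^ K) * (x ^ (1 / 2 : ℝ) + x ^ (2 : ℝ)) *
            (Real.exp (4 / V ^ 2) * Real.exp (-(s.im ^ 2) / V ^ 2)) := by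
          refine mul_le_mul ?_ h5 (norm_nonneg _) (by positivity)
          exact mul_le_mul h3 h4 (by positivity) (by positivity)
      _ = C * (x ^ (1 / 2 : ℝ) + x ^ (2 : ℝ)) * Real.exp (4 / V ^ 2) *
            ((1 + |s.im|) ^ K * Real.exp (-(s.im ^ 2) / V ^ 2)) := by ring
      _ ≤ C * (x ^ (1 / 2 : ℝ) + x ^ (2 : ℝ)) * Real.exp (4 / V ^ 2) *
            (Real.exp (((K : ℝ) + 2) ^ 2 * V ^ 2 / 4) / (1 + s.im ^ 2)) :=
          mul_le_mul_of_nonneg_left h6 (by positivity)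
      _ = (2 * C * (x ^ (1 / 2 : ℝ) + x ^ (2 : ℝ)) * Real.exp (4 / V ^ 2) *
            Real.exp (((K : ℝ) + 2) ^ 2 * V ^ 2 / 4)) / (1 + s.im ^ 2) * (1 / 2) := by ring
      _ ≤ (2 * C * (x ^ (1 / 2 : ℝ) + x ^ (2 : ℝ)) * Real.exp (4 / V ^ 2) *
            Real.exp (((K : ℝ) + 2) ^ 2 * V ^ 2 / 4)) / (1 + s.im ^ 2) * ‖s‖ :=
          mul_le_mul_of_nonneg_left hsn (by positivity)
  have key := strip_res (G := G) (a := 1 / 2) (b := 2) (w := 1) (ρ := 1 / 2)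
    (by norm_num) (by norm_num) (by norm_num) hd hB F.m
  have hl : ∀ c t : ℝ, G (ln c t) / (ln c t - ((1 : ℝ) : ℂ)) ^ F.m =
      F.L (ln c t) / ln c t * cexp ((ln c t) ^ 2 / (V : ℂ) ^ 2) * (x : ℂ) ^ (ln c t) := by
    intro c t
    simp only [hG, Sel.L, Complex.ofReal_one]
    ring
  have hr : ∀ z : ℂ, G z / (z - ((1 : ℝ) : ℂ)) ^ F.m =
      F.L z * ((x : ℂ) ^ z * cexp (z ^ 2 / (V : ℂ) ^ 2)) / z := by
    intro z
    simp only [hG, Sel.L, Complex.ofReal_one]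
    ring
  simp only [hl, hr] at key
  rw [Complex.ofReal_one] at key
  exact key

theorem EV_eq (F : Sel) {V x : ℝ} (hV : 0 < V) (hx : 0 < x) :
    F.EV V x = ∫ y : ℝ, (kV V y : ℂ) * F.E (x * Real.exp (-y)) := by
  have h1 := EVq_strip F hV hx
  rw [series_side F hV hx, ← EVq_fub F hV hx] at h1
  have h2 : ∀ y : ℝ, (kV V y : ℂ) * F.E (x * Real.exp (-y)) =
      (kV V y : ℂ) * F.S (x * Real.exp (-y)) - (kV V y : ℂ) * F.res (x * Real.exp (-y)) := by
    intro y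
    rw [Sel.E]
    ring
  simp only [h2]
  rw [integral_sub (EVq_int_S F hV hx) (EVq_int_res F hV hx), ← h1]
  ring

end HYM
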