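import Pool.Agent.HYM.Defs

set_option autoImplicit false

/-!
# HYM/GamA: how `|Γ(b + i y)|` changes with `b` (one step `θ ∈ [0, 1]`)

PROOF. By `Complex.GammaSeq_tendsto_Gamma`, `Γ(s) = lim n^s n! / (s (s+1) ... (s+n))`. So with
`R(y) = |Γ(b+θ+iy)| / |Γ(b+iy)|` one has
`R(y)^2 / R(0)^2 = lim_n ∏_{j ≤ n} (1 + y²/(b+j)²) / (1 + y²/(b+θ+j)²)`.
Put `h(v) = log (1 + y²/v²)` for `v > 0`; it is decreasing and CONVEX (`h'(v) = -2y²/(v(v²+y²))` is
increasing). By convexity, for `v > 0`, `0 ≤ θ ≤ 1`: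
(lower) `h(v) - h(v+θ) ≥ θ (h(v) - h(v+1))`;
(upper, `v > 1`) `h(v) - h(v+θ) ≤ θ (h(v-1) - h(v))`.
Lower bound: sum over `v = b + j`: `∑_{j ≤ n} (h(b+j) - h(b+θ+j)) ≥ θ (h(b) - h(b+n+1)) → θ h(b)`.
Upper bound: the term `j = 0` is `h(b) - h(b+θ) ≤ log ((b+θ)²/b²)` (as
`(1+y²/b²)/(1+y²/(b+θ)²) ≤ (b+θ)²/b²`), the terms `j ≥ 1` sum to at most `θ h(b)`.
(Instead of logarithms one may work with products and `ConvexOn.slope_mono_adjacent`, or prove the
two inequalities through the weighted AM-GM inequality.)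
-/

open Complex Filter Topology

namespace HYM

/-- `log (1 + y^2/v^2)` -/
private noncomputable def gaH (y v : ℝ) : ℝ := Real.log (1 + y ^ 2 / v ^ 2)

private lemma gaH_nonneg (y v : ℝ) : 0 ≤ gaH y v := by
  unfold gaH
  apply Real.log_nonneg
  have : 0 ≤ y ^ 2 / v ^ 2 := by positivity
  linarith

private lemma gaH_hasDeriv (y : ℝ) {v : ℝ} (hv : 0 < v) :
    HasDerivAt (gaH y) (-(2 * y ^ 2) / (v * (v ^ 2 + y ^ 2))) v := by
  have h1 : HasDerivAt (fun v : ℝ => 1 + y ^ 2 / v ^ 2) (-(2 * y ^ 2) / v ^ 3) v := by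
    have h2 : HasDerivAt (fun v : ℝ => v ^ 2) (2 * v) v := by
      simpa using hasDerivAt_pow 2 v
    have h3 := (h2.inv (pow_ne_zero 2 hv.ne')).const_mul (y ^ 2)
    have h4 := h3.const_add 1
    refine HasDerivAt.congr_deriv (h4.congr_of_eventuallyEq ?_) ?_
    · exact Eventually.of_forall (fun w => by simp [div_eq_mul_inv])
    · field_simp
  have hne : 1 + y ^ 2 / v ^ 2 ≠ 0 := by positivity
  refine HasDerivAt.congr_deriv (h1.log hne) ?_
  have h5 : v ^ 2 + y ^ 2 ≠ 0 := by positivity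
  field_simp

private lemma gaH_convex (y : ℝ) : ConvexOn ℝ (Set.Ioi 0) (gaH y) := by
  refine MonotoneOn.convexOn_of_deriv (convex_Ioi 0) ?_ ?_ ?_
  · intro v hv
    exact (gaH_hasDeriv y hv).continuousAt.continuousWithinAt
  · rw [interior_Ioi]
    intro v hv
    exact (gaH_hasDeriv y hv).differentiableAt.differentiableWithinAt
  · rw [interior_Ioi]
    intro v hv w hw hvw
    have hv' : 0 < v := hv
    have hw' : 0 < w := hw
    rw [(gaH_hasDeriv y hv').deriv, (gaH_hasDeriv y hw').deriv, neg_div, neg_div, neg_le_neg_iff]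
    refine div_le_div_of_nonneg_left (by positivity) (by positivity) ?_
    have : v ^ 2 ≤ w ^ 2 := by nlinarith
    exact mul_le_mul hvw (by linarith) (by positivity) hw'.le

/-- lower inequality -/
private lemma gaH_lo (y : ℝ) {v θ : ℝ} (hv : 0 < v) (h0 : 0 ≤ θ) (h1 : θ ≤ 1) :
    θ * (gaH y v - gaH y (v + 1)) ≤ gaH y v - gaH y (v + θ) := by
  have h := (gaH_convex y).2 (show v ∈ Set.Ioi (0 : ℝ) from hv)
    (show v + 1 ∈ Set.Ioi (0 : ℝ) from by show 0 < v + 1; linarith)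
    (by linarith : 0 ≤ 1 - θ) h0 (by ring)
  simp only [smul_eq_mul] at h
  have h2 : (1 - θ) * v + θ * (v + 1) = v + θ := by ring
  rw [h2] at h
  linarith

/-- upper inequality -/
private lemma gaH_up (y : ℝ) {v θ : ℝ} (hv : 1 < v) (h0 : 0 ≤ θ) :
    gaH y v - gaH y (v + θ) ≤ θ * (gaH y (v - 1) - gaH y v) := by
  have hd : 0 < 1 + θ := by linarith
  have h := (gaH_convex y).2 (show v - 1 ∈ Set.Ioi (0 : ℝ) from by show 0 < v - 1; linarith)
    (show v + θ ∈ Set.Ioi (0 : ℝ) from by show 0 < v + θ; linarith)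
    (by positivity : 0 ≤ θ / (1 + θ)) (by positivity : 0 ≤ 1 / (1 + θ)) (by field_simp; ring)
  simp only [smul_eq_mul] at h
  have h2 : θ / (1 + θ) * (v - 1) + 1 / (1 + θ) * (v + θ) = v := by
    field_simp
    ring
  rw [h2] at h
  have h3 := mul_le_mul_of_nonneg_left h hd.le
  have h4 : (1 + θ) * (θ / (1 + θ) * gaH y (v - 1) + 1 / (1 + θ) * gaH y (v + θ)) =
      θ * gaH y (v - 1) + gaH y (v + θ) := by
    field_simp
  rw [h4] at h3
  linarith

/-- the product formula -/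
private lemma gaSeq (b y : ℝ) (hb : 0 < b) (n : ℕ) (hn : 0 < n) :
    ‖Complex.GammaSeq ((b : ℂ) + (y : ℂ) * I) n‖ =
      Real.GammaSeq b n * Real.exp (-(1 / 2) * ∑ j ∈ Finset.range (n + 1), gaH y (b + j)) := by
  unfold Complex.GammaSeq Real.GammaSeq
  have hn0 : (0 : ℝ) < n := by exact_mod_cast hn
  rw [norm_div, norm_mul, Complex.norm_natCast_cpow_of_pos hn, norm_prod]
  have hre : ((b : ℂ) + (y : ℂ) * I).re = b := by simp
  rw [hre]
  have hfac : ‖((n.factorial : ℕ) : ℂ)‖ = (n.factorial : ℝ) := by simp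
  rw [hfac]
  have hterm : ∀ j ∈ Finset.range (n + 1), ‖(b : ℂ) + (y : ℂ) * I + (j : ℂ)‖ =
      (b + j) * Real.exp (1 / 2 * gaH y (b + j)) := by
    intro j _
    have hj : (0 : ℝ) ≤ j := Nat.cast_nonneg j
    have hbj : 0 < b + j := by linarith
    have h1 : (b : ℂ) + (y : ℂ) * I + (j : ℂ) = ((b + j : ℝ) : ℂ) + ((y : ℝ) : ℂ) * I := by
      push_cast; ring
    rw [h1, Complex.norm_add_mul_I]
    have h2 : (b + j) ^ 2 + y ^ 2 = (b + j) ^ 2 * (1 + y ^ 2 / (b + j) ^ 2) := by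
      field_simp
    rw [h2, Real.sqrt_mul (by positivity), Real.sqrt_sq hbj.le]
    congr 1
    have h3 : 0 < 1 + y ^ 2 / (b + j) ^ 2 := by positivity
    unfold gaH
    rw [Real.sqrt_eq_rpow, Real.rpow_def_of_pos h3]
    congr 1; ring
  rw [Finset.prod_congr rfl hterm, Finset.prod_mul_distrib, ← Real.exp_sum, ← Finset.mul_sum]
  rw [neg_mul, Real.exp_neg]
  have h5 : ∏ j ∈ Finset.range (n + 1), (b + (j : ℝ)) ≠ 0 := by
    refine Finset.prod_ne_zero_iff.2 (fun j _ => ?_)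
    have : (0 : ℝ) ≤ j := Nat.cast_nonneg j
    positivity
  field_simp

private lemma gaSeq_pos {b : ℝ} (hb : 0 < b) {n : ℕ} (hn : 0 < n) : 0 < Real.GammaSeq b n := by
  unfold Real.GammaSeq
  have hn0 : (0 : ℝ) < n := by exact_mod_cast hn
  have h5 : 0 < ∏ j ∈ Finset.range (n + 1), (b + (j : ℝ)) := by
    refine Finset.prod_pos (fun j _ => ?_)
    have : (0 : ℝ) ≤ j := Nat.cast_nonneg j
    positivity
  positivity

private lemma gaH_tendsto (y b : ℝ) :
    Tendsto (fun n : ℕ => gaH y (b + n)) atTop (𝓝 0) := by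
  unfold gaH
  have h1 : Tendsto (fun n : ℕ => b + (n : ℝ)) atTop atTop :=
    tendsto_atTop_add_const_left _ _ tendsto_natCast_atTop_atTop
  have h2 : Tendsto (fun n : ℕ => 1 + y ^ 2 / (b + (n : ℝ)) ^ 2) atTop (𝓝 (1 + 0)) :=
    tendsto_const_nhds.add (Tendsto.div_atTop tendsto_const_nhds
      ((tendsto_pow_atTop (by norm_num)).comp h1))
  rw [add_zero] at h2
  have h3 := h2.log one_ne_zero
  rwa [Real.log_one] at h3

private lemma gaRatio {b θ : ℝ} (hb : 0 < b) (h0 : 0 ≤ θ) (y : ℝ) {n : ℕ} (hn : 0 < n) :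
    ‖Complex.GammaSeq ((b + θ : ℝ) + (y : ℂ) * I) n‖ =
      Real.GammaSeq (b + θ) n / Real.GammaSeq b n *
        Real.exp (1 / 2 * ∑ j ∈ Finset.range (n + 1), (gaH y (b + j) - gaH y (b + j + θ))) *
        ‖Complex.GammaSeq ((b : ℂ) + (y : ℂ) * I) n‖ := by
  have h1 := gaSeq (b + θ) y (by linarith) n hn
  have h2 := gaSeq b y hb n hn
  rw [h1, h2]
  have h3 := gaSeq_pos hb hn
  rw [div_mul_eq_mul_div, div_mul_eq_mul_div, eq_div_iff h3.ne']
  have h4 : Real.exp (-(1 / 2) * ∑ j ∈ Finset.range (n + 1), gaH y (b + θ + j)) =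
      Real.exp (1 / 2 * ∑ j ∈ Finset.range (n + 1), (gaH y (b + j) - gaH y (b + j + θ))) *
      Real.exp (-(1 / 2) * ∑ j ∈ Finset.range (n + 1), gaH y (b + j)) := by
    rw [← Real.exp_add]
    congr 1
    rw [Finset.sum_sub_distrib]
    have h5 : ∑ j ∈ Finset.range (n + 1), gaH y (b + θ + j) =
        ∑ j ∈ Finset.range (n + 1), gaH y (b + j + θ) := by
      refine Finset.sum_congr rfl (fun j _ => ?_)
      congr 1; ring
    rw [h5]; ring
  rw [h4]
  ring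

theorem gam_up {b θ : ℝ} (hb : 0 < b) (h0 : 0 ≤ θ) (h1 : θ ≤ 1) (y : ℝ) :
    ‖Gamma ((b + θ : ℝ) + (y : ℂ) * I)‖ ≤
      ((b + θ) / b) * (Real.Gamma (b + θ) / Real.Gamma b) * (1 + y ^ 2 / b ^ 2) ^ (θ / 2) *
        ‖Gamma ((b : ℂ) + (y : ℂ) * I)‖ := by
  have hq : 0 < 1 + y ^ 2 / b ^ 2 := by positivity
  have hGb : 0 < Real.Gamma b := Real.Gamma_pos_of_pos hb
  have hR : Tendsto (fun n : ℕ => Real.GammaSeq (b + θ) n / Real.GammaSeq b n) atTop
      (𝓝 (Real.Gamma (b + θ) / Real.Gamma b)) :=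
    (Real.GammaSeq_tendsto_Gamma (b + θ)).div (Real.GammaSeq_tendsto_Gamma b) hGb.ne'
  have hE : (1 + y ^ 2 / b ^ 2) ^ (θ / 2) = Real.exp (1 / 2 * (θ * gaH y b)) := by
    rw [Real.rpow_def_of_pos hq]
    unfold gaH
    congr 1; ring
  have hrhs : Tendsto (fun n : ℕ => ((b + θ) / b) * (Real.GammaSeq (b + θ) n / Real.GammaSeq b n) *
      (1 + y ^ 2 / b ^ 2) ^ (θ / 2) * ‖Complex.GammaSeq ((b : ℂ) + (y : ℂ) * I) n‖) atTop
      (𝓝 (((b + θ) / b) * (Real.Gamma (b + θ) / Real.Gamma b) * (1 + y ^ 2 / b ^ 2) ^ (θ / 2) *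
        ‖Gamma ((b : ℂ) + (y : ℂ) * I)‖)) :=
    ((hR.const_mul _).mul_const _).mul (Complex.GammaSeq_tendsto_Gamma _).norm
  refine le_of_tendsto_of_tendsto (Complex.GammaSeq_tendsto_Gamma _).norm hrhs ?_
  filter_upwards [eventually_gt_atTop 0] with n hn
  rw [gaRatio hb h0 y hn]
  have hpos : 0 < Real.GammaSeq (b + θ) n / Real.GammaSeq b n :=
    div_pos (gaSeq_pos (by linarith) hn) (gaSeq_pos hb hn)
  refine mul_le_mul_of_nonneg_right ?_ (norm_nonneg _)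
  have hsum : ∑ j ∈ Finset.range (n + 1), (gaH y (b + j) - gaH y (b + j + θ)) ≤
      2 * Real.log ((b + θ) / b) + θ * gaH y b := by
    rw [Finset.sum_range_succ']
    have h2 : ∑ j ∈ Finset.range n, (gaH y (b + (j + 1 : ℕ)) - gaH y (b + (j + 1 : ℕ) + θ)) ≤
        θ * (gaH y b - gaH y (b + n)) := by
      have h3 : ∀ j ∈ Finset.range n, gaH y (b + (j + 1 : ℕ)) - gaH y (b + (j + 1 : ℕ) + θ) ≤
          θ * (gaH y (b + (j : ℕ)) - gaH y (b + (j + 1 : ℕ))) := by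
        intro j _
        have hj : (0 : ℝ) ≤ j := Nat.cast_nonneg j
        have h4 := gaH_up y (v := b + (j + 1 : ℕ)) (θ := θ) (by push_cast; linarith) h0
        have h5 : b + ((j + 1 : ℕ) : ℝ) - 1 = b + (j : ℕ) := by push_cast; ring
        rw [h5] at h4
        exact h4
      refine (Finset.sum_le_sum h3).trans (le_of_eq ?_)
      rw [← Finset.mul_sum]
      congr 1
      have h6 := Finset.sum_range_sub' (fun j : ℕ => gaH y (b + (j : ℕ))) n
      simp only [Nat.cast_zero, add_zero] at h6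
      exact h6
    have h7 : gaH y (b + ((0 : ℕ) : ℝ)) - gaH y (b + ((0 : ℕ) : ℝ) + θ) ≤
        2 * Real.log ((b + θ) / b) := by
      simp only [Nat.cast_zero, add_zero]
      have hbθ : 0 < b + θ := by linarith
      have hq2 : 0 < 1 + y ^ 2 / (b + θ) ^ 2 := by positivity
      have h8 : 1 + y ^ 2 / b ^ 2 ≤ ((b + θ) / b) ^ 2 * (1 + y ^ 2 / (b + θ) ^ 2) := by
        have h9 : ((b + θ) / b) ^ 2 * (1 + y ^ 2 / (b + θ) ^ 2) =
            ((b + θ) / b) ^ 2 + y ^ 2 / b ^ 2 := by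
          field_simp
        have h10 : 1 ≤ ((b + θ) / b) ^ 2 := by
          have : 1 ≤ (b + θ) / b := by
            rw [le_div_iff₀ hb]; linarith
          nlinarith
        linarith
      have h11 := Real.log_le_log hq h8
      rw [Real.log_mul (by positivity) hq2.ne', Real.log_pow] at h11
      push_cast at h11
      unfold gaH
      linarith
    have h12 : 0 ≤ θ * gaH y (b + n) := mul_nonneg h0 (gaH_nonneg _ _)
    linarith
  have h13 : Real.exp (1 / 2 * ∑ j ∈ Finset.range (n + 1), (gaH y (b + j) - gaH y (b + j + θ))) ≤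
      (b + θ) / b * Real.exp (1 / 2 * (θ * gaH y b)) := by
    have hbb : 0 < (b + θ) / b := div_pos (by linarith) hb
    calc Real.exp (1 / 2 * ∑ j ∈ Finset.range (n + 1), (gaH y (b + j) - gaH y (b + j + θ)))
        ≤ Real.exp (Real.log ((b + θ) / b) + 1 / 2 * (θ * gaH y b)) := by
          rw [Real.exp_le_exp]; linarith
      _ = (b + θ) / b * Real.exp (1 / 2 * (θ * gaH y b)) := by
          rw [Real.exp_add, Real.exp_log hbb]
  rw [hE]
  calc Real.GammaSeq (b + θ) n / Real.GammaSeq b n *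
        Real.exp (1 / 2 * ∑ j ∈ Finset.range (n + 1), (gaH y (b + j) - gaH y (b + j + θ)))
      ≤ Real.GammaSeq (b + θ) n / Real.GammaSeq b n *
        ((b + θ) / b * Real.exp (1 / 2 * (θ * gaH y b))) :=
        mul_le_mul_of_nonneg_left h13 hpos.le
    _ = _ := by ring

theorem gam_lo {b θ : ℝ} (hb : 0 < b) (h0 : 0 ≤ θ) (h1 : θ ≤ 1) (y : ℝ) :
    (Real.Gamma (b + θ) / Real.Gamma b) * (1 + y ^ 2 / b ^ 2) ^ (θ / 2) *
        ‖Gamma ((b : ℂ) + (y : ℂ) * I)‖ ≤ ‖Gamma ((b + θ : ℝ) + (y : ℂ) * I)‖ := by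
  have hq : 0 < 1 + y ^ 2 / b ^ 2 := by positivity
  have hGb : 0 < Real.Gamma b := Real.Gamma_pos_of_pos hb
  have hR : Tendsto (fun n : ℕ => Real.GammaSeq (b + θ) n / Real.GammaSeq b n) atTop
      (𝓝 (Real.Gamma (b + θ) / Real.Gamma b)) :=
    (Real.GammaSeq_tendsto_Gamma (b + θ)).div (Real.GammaSeq_tendsto_Gamma b) hGb.ne'
  have hE : (1 + y ^ 2 / b ^ 2) ^ (θ / 2) = Real.exp (1 / 2 * (θ * (gaH y b - 0))) := by
    rw [Real.rpow_def_of_pos hq]
    unfold gaH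
    congr 1; ring
  have htail : Tendsto (fun n : ℕ => Real.exp (1 / 2 * (θ * (gaH y b - gaH y (b + (n + 1 : ℕ)))))) 
      atTop (𝓝 (Real.exp (1 / 2 * (θ * (gaH y b - 0))))) := by
    refine (Real.continuous_exp.tendsto _).comp ?_
    refine Tendsto.const_mul _ (Tendsto.const_mul _ (tendsto_const_nhds.sub ?_))
    exact (gaH_tendsto y b).comp (tendsto_add_atTop_nat 1)
  have hlhs : Tendsto (fun n : ℕ => (Real.GammaSeq (b + θ) n / Real.GammaSeq b n) *
      Real.exp (1 / 2 * (θ * (gaH y b - gaH y (b + (n + 1 : ℕ))))) *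
        ‖Complex.GammaSeq ((b : ℂ) + (y : ℂ) * I) n‖) atTop
      (𝓝 ((Real.Gamma (b + θ) / Real.Gamma b) * (1 + y ^ 2 / b ^ 2) ^ (θ / 2) *
        ‖Gamma ((b : ℂ) + (y : ℂ) * I)‖)) := by
    rw [hE]
    exact (hR.mul htail).mul (Complex.GammaSeq_tendsto_Gamma _).norm
  refine le_of_tendsto_of_tendsto hlhs (Complex.GammaSeq_tendsto_Gamma _).norm ?_
  filter_upwards [eventually_gt_atTop 0] with n hn
  rw [gaRatio hb h0 y hn]
  have hpos : 0 < Real.GammaSeq (b + θ) n / Real.GammaSeq b n :=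
    div_pos (gaSeq_pos (by linarith) hn) (gaSeq_pos hb hn)
  refine mul_le_mul_of_nonneg_right ?_ (norm_nonneg _)
  refine mul_le_mul_of_nonneg_left ?_ hpos.le
  rw [Real.exp_le_exp]
  refine mul_le_mul_of_nonneg_left ?_ (by norm_num)
  have h3 : ∀ j ∈ Finset.range (n + 1), θ * (gaH y (b + (j : ℕ)) - gaH y (b + (j + 1 : ℕ))) ≤
      gaH y (b + j) - gaH y (b + j + θ) := by
    intro j _
    have hj : (0 : ℝ) ≤ j := Nat.cast_nonneg j
    have h4 := gaH_lo y (v := b + (j : ℕ)) (θ := θ) (by linarith) h0 h1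
    have h5 : b + (j : ℕ) + 1 = b + ((j + 1 : ℕ) : ℝ) := by push_cast; ring
    rw [h5] at h4
    exact h4
  refine le_trans (le_of_eq ?_) (Finset.sum_le_sum h3)
  rw [← Finset.mul_sum]
  congr 1
  have h6 := Finset.sum_range_sub' (fun j : ℕ => gaH y (b + (j : ℕ))) (n + 1)
  simp only [Nat.cast_zero, add_zero] at h6
  exact h6.symm

end HYM
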