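import Pool.Agent.HYM.GamA

set_option autoImplicit false

/-!
# HYM/GamB: `|Γ(a + i y) / Γ(b + i y)| ≤ C (1 + |y|)^(a - b)`, uniformly on compact sets

PROOF. Step 1: for `a, b'` in a compact interval `[α, β]`, `α > 0`:
`‖Γ(a+iy)‖ ≤ C (1+|y|)^(a-b') ‖Γ(b'+iy)‖`.
If `a ≥ b'`, write `a = b' + n + θ`, `n : ℕ`, `θ ∈ [0,1]` (`n ≤ β - α`), use `n` times
`Γ(z+1) = z Γ(z)` with `|z| ≤ (1+β)(1+|y|)` and once `gam_up` (`1 + y²/b² ≤ C (1+|y|)²`; the constant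
`((b+θ)/b) Γ(b+θ)/Γ(b)` is bounded for `b ∈ [α, β]`, `θ ∈ [0,1]` by continuity, `Real.Gamma` being
continuous and positive on `(0, ∞)`).
If `a < b'`, write `b' = a + n + θ` and use `|a + j + iy| ≥ c (1+|y|)` and `gam_lo`
(`1 + y²/a² ≥ c (1+|y|)²`).
Step 2: for general `b ∈ [b₁, b₂]` choose `k : ℕ` with `b₁ + k ≥ 1`; then
`(Γ(b+iy))⁻¹ = ∏_{i<k} (b + i + iy) * (Γ(b+k+iy))⁻¹` (valid also at the poles, where Lean's `Γ` is
`0`: both sides are `0` there; `Complex.Gamma_add_one` needs `z ≠ 0`, but for `z = 0` both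
`(Γ z)⁻¹ = 0` and `z = 0`), and `∏ |b+i+iy| ≤ C (1+|y|)^k`.
-/

open Complex

namespace HYM

private lemma gb_bounds {α β : ℝ} (hα : 0 < α) : ∃ m M : ℝ, 0 < m ∧ 0 < M ∧
    ∀ v ∈ Set.Icc α (β + 1), m ≤ Real.Gamma v ∧ Real.Gamma v ≤ M := by
  have hcont : ContinuousOn Real.Gamma (Set.Icc α (β + 1)) := by
    intro v hv
    refine (Real.differentiableAt_Gamma (fun m => ?_)).continuousAt.continuousWithinAt
    have h1 : 0 < v := lt_of_lt_of_le hα hv.1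
    have h2 : (0 : ℝ) ≤ m := Nat.cast_nonneg m
    linarith
  rcases (Set.Icc α (β + 1)).eq_empty_or_nonempty with h0 | h0
  · refine ⟨1, 1, one_pos, one_pos, fun v hv => ?_⟩
    rw [h0] at hv
    exact absurd hv (Set.notMem_empty v)
  · obtain ⟨u, hu, humin⟩ := isCompact_Icc.exists_isMinOn h0 hcont
    obtain ⟨w, hw, hwmax⟩ := isCompact_Icc.exists_isMaxOn h0 hcont
    exact ⟨Real.Gamma u, Real.Gamma w, Real.Gamma_pos_of_pos (lt_of_lt_of_le hα hu.1),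
      Real.Gamma_pos_of_pos (lt_of_lt_of_le hα hw.1), fun v hv => ⟨humin hv, hwmax hv⟩⟩

private lemma gb_up {α β : ℝ} (hα : 0 < α) : ∃ C : ℝ, 1 ≤ C ∧ ∀ b ∈ Set.Icc α β, ∀ θ : ℝ,
    0 ≤ θ → θ ≤ 1 → ∀ y : ℝ, ‖Gamma ((b + θ : ℝ) + (y : ℂ) * I)‖ ≤
      C * (1 + |y|) ^ θ * ‖Gamma ((b : ℂ) + (y : ℂ) * I)‖ := by
  obtain ⟨m, M, hm, hM, hmM⟩ := gb_bounds (β := β) hα
  refine ⟨max 1 ((1 + 1 / α) * (M / m) * (1 + 1 / α)), le_max_left _ _, ?_⟩
  intro b hb θ h0 h1 y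
  have hb0 : 0 < b := lt_of_lt_of_le hα hb.1
  refine (gam_up hb0 h0 h1 y).trans ?_
  refine mul_le_mul_of_nonneg_right ?_ (norm_nonneg _)
  have hy : 0 ≤ |y| := abs_nonneg y
  have hb1 : (b + θ) / b ≤ 1 + 1 / α := by
    rw [add_div, div_self hb0.ne']
    have : θ / b ≤ 1 / α := div_le_div₀ (by norm_num) h1 hα hb.1
    linarith
  have hG : Real.Gamma (b + θ) / Real.Gamma b ≤ M / m := by
    refine div_le_div₀ hM.le (hmM (b + θ) ⟨by linarith [hb.1], by linarith [hb.2]⟩).2 hm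
      (hmM b ⟨hb.1, by linarith [hb.2]⟩).1
  have hq : (1 + y ^ 2 / b ^ 2) ^ (θ / 2) ≤ (1 + 1 / α) * (1 + |y|) ^ θ := by
    have h2 : 1 + y ^ 2 / b ^ 2 ≤ ((1 + 1 / α) * (1 + |y|)) ^ 2 := by
      have h3 : y ^ 2 / b ^ 2 = (|y| / b) ^ 2 := by rw [div_pow, sq_abs]
      have h4 : |y| / b ≤ |y| / α := div_le_div_of_nonneg_left hy hα hb.1
      have h5 : 0 ≤ |y| / b := by positivity
      have h6 : (1 + 1 / α) * (1 + |y|) = 1 + 1 / α + |y| + |y| / α := by ring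
      have h7 : 0 < 1 / α := by positivity
      rw [h3, h6]
      nlinarith
    have h8 : 0 ≤ (1 + 1 / α) * (1 + |y|) := by positivity
    calc (1 + y ^ 2 / b ^ 2) ^ (θ / 2) ≤ (((1 + 1 / α) * (1 + |y|)) ^ 2) ^ (θ / 2) :=
          Real.rpow_le_rpow (by positivity) h2 (by linarith)
      _ = ((1 + 1 / α) * (1 + |y|)) ^ θ := by
          rw [← Real.rpow_natCast, ← Real.rpow_mul h8]
          congr 1
          push_cast; ring
      _ = (1 + 1 / α) ^ θ * (1 + |y|) ^ θ := Real.mul_rpow (by positivity) (by positivity)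
      _ ≤ (1 + 1 / α) * (1 + |y|) ^ θ := by
          refine mul_le_mul_of_nonneg_right ?_ (by positivity)
          calc (1 + 1 / α) ^ θ ≤ (1 + 1 / α) ^ (1 : ℝ) :=
                Real.rpow_le_rpow_of_exponent_le (by
                  have : 0 < 1 / α := by positivity
                  linarith) h1
            _ = 1 + 1 / α := Real.rpow_one _
  have hGpos : 0 ≤ Real.Gamma (b + θ) / Real.Gamma b :=
    div_nonneg (Real.Gamma_pos_of_pos (by linarith)).le (Real.Gamma_pos_of_pos hb0).le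
  calc (b + θ) / b * (Real.Gamma (b + θ) / Real.Gamma b) * (1 + y ^ 2 / b ^ 2) ^ (θ / 2)
      ≤ (1 + 1 / α) * (M / m) * ((1 + 1 / α) * (1 + |y|) ^ θ) := by
        refine mul_le_mul (mul_le_mul hb1 hG hGpos (by positivity)) hq (by positivity)
          (by positivity)
    _ = (1 + 1 / α) * (M / m) * (1 + 1 / α) * (1 + |y|) ^ θ := by ring
    _ ≤ max 1 ((1 + 1 / α) * (M / m) * (1 + 1 / α)) * (1 + |y|) ^ θ :=
        mul_le_mul_of_nonneg_right (le_max_right _ _) (by positivity)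

private lemma gb_lo {α β : ℝ} (hα : 0 < α) : ∃ C : ℝ, 1 ≤ C ∧ ∀ b ∈ Set.Icc α β, ∀ θ : ℝ,
    0 ≤ θ → θ ≤ 1 → ∀ y : ℝ, (1 + |y|) ^ θ * ‖Gamma ((b : ℂ) + (y : ℂ) * I)‖ ≤
      C * ‖Gamma ((b + θ : ℝ) + (y : ℂ) * I)‖ := by
  obtain ⟨m, M, hm, hM, hmM⟩ := gb_bounds (β := β) hα
  refine ⟨max 1 ((M / m) * (2 * (1 + β ^ 2))), le_max_left _ _, ?_⟩
  intro b hb θ h0 h1 y
  have hb0 : 0 < b := lt_of_lt_of_le hα hb.1
  have hlo := gam_lo hb0 h0 h1 y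
  have hy : 0 ≤ |y| := abs_nonneg y
  have hB : 1 ≤ 2 * (1 + β ^ 2) := by nlinarith [sq_nonneg β]
  have hG : m / M ≤ Real.Gamma (b + θ) / Real.Gamma b := by
    refine div_le_div₀ (Real.Gamma_pos_of_pos (by linarith)).le
      (hmM (b + θ) ⟨by linarith [hb.1], by linarith [hb.2]⟩).1 (Real.Gamma_pos_of_pos hb0)
      (hmM b ⟨hb.1, by linarith [hb.2]⟩).2
  have hq : (1 + |y|) ^ θ ≤ 2 * (1 + β ^ 2) * (1 + y ^ 2 / b ^ 2) ^ (θ / 2) := by
    have hbβ : b ^ 2 ≤ β ^ 2 := by nlinarith [hb.2]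
    have h2 : (1 + |y|) ^ 2 ≤ 2 * (1 + β ^ 2) * (1 + y ^ 2 / b ^ 2) := by
      have h3 : y ^ 2 ≤ β ^ 2 * (y ^ 2 / b ^ 2) := by
        rw [mul_div_assoc', le_div_iff₀ (by positivity)]
        nlinarith [sq_nonneg y]
      have h4 : (1 + |y|) ^ 2 ≤ 2 * (1 + y ^ 2) := by
        have := sq_abs y
        nlinarith [sq_nonneg (1 - |y|)]
      have h5 : 0 ≤ y ^ 2 / b ^ 2 := by positivity
      nlinarith [sq_nonneg β]
    calc (1 + |y|) ^ θ = ((1 + |y|) ^ 2) ^ (θ / 2) := by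
          rw [← Real.rpow_natCast, ← Real.rpow_mul (by positivity)]
          congr 1
          push_cast; ring
      _ ≤ (2 * (1 + β ^ 2) * (1 + y ^ 2 / b ^ 2)) ^ (θ / 2) :=
          Real.rpow_le_rpow (by positivity) h2 (by linarith)
      _ = (2 * (1 + β ^ 2)) ^ (θ / 2) * (1 + y ^ 2 / b ^ 2) ^ (θ / 2) :=
          Real.mul_rpow (by positivity) (by positivity)
      _ ≤ 2 * (1 + β ^ 2) * (1 + y ^ 2 / b ^ 2) ^ (θ / 2) := by
          refine mul_le_mul_of_nonneg_right ?_ (by positivity)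
          calc (2 * (1 + β ^ 2)) ^ (θ / 2) ≤ (2 * (1 + β ^ 2)) ^ (1 : ℝ) :=
                Real.rpow_le_rpow_of_exponent_le hB (by linarith)
            _ = 2 * (1 + β ^ 2) := Real.rpow_one _
  have hn1 : 0 ≤ ‖Gamma ((b : ℂ) + (y : ℂ) * I)‖ := norm_nonneg _
  have hn2 : 0 ≤ ‖Gamma ((b + θ : ℝ) + (y : ℂ) * I)‖ := norm_nonneg _
  have hqp : 0 ≤ (1 + y ^ 2 / b ^ 2) ^ (θ / 2) := by positivity
  have h6 : m / M * ((1 + y ^ 2 / b ^ 2) ^ (θ / 2) * ‖Gamma ((b : ℂ) + (y : ℂ) * I)‖) ≤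
      ‖Gamma ((b + θ : ℝ) + (y : ℂ) * I)‖ := by
    refine le_trans ?_ hlo
    rw [mul_assoc (Real.Gamma (b + θ) / Real.Gamma b)]
    exact mul_le_mul_of_nonneg_right hG (mul_nonneg hqp hn1)
  have h7 : (1 + y ^ 2 / b ^ 2) ^ (θ / 2) * ‖Gamma ((b : ℂ) + (y : ℂ) * I)‖ ≤
      M / m * ‖Gamma ((b + θ : ℝ) + (y : ℂ) * I)‖ := by
    have h8 := mul_le_mul_of_nonneg_left h6 (by positivity : 0 ≤ M / m)
    have h9 : M / m * (m / M * ((1 + y ^ 2 / b ^ 2) ^ (θ / 2) *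
        ‖Gamma ((b : ℂ) + (y : ℂ) * I)‖)) =
        (1 + y ^ 2 / b ^ 2) ^ (θ / 2) * ‖Gamma ((b : ℂ) + (y : ℂ) * I)‖ := by
      field_simp
    rwa [h9] at h8
  calc (1 + |y|) ^ θ * ‖Gamma ((b : ℂ) + (y : ℂ) * I)‖
      ≤ 2 * (1 + β ^ 2) * (1 + y ^ 2 / b ^ 2) ^ (θ / 2) * ‖Gamma ((b : ℂ) + (y : ℂ) * I)‖ :=
        mul_le_mul_of_nonneg_right hq hn1
    _ = 2 * (1 + β ^ 2) * ((1 + y ^ 2 / b ^ 2) ^ (θ / 2) *
          ‖Gamma ((b : ℂ) + (y : ℂ) * I)‖) := by ring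
    _ ≤ 2 * (1 + β ^ 2) * (M / m * ‖Gamma ((b + θ : ℝ) + (y : ℂ) * I)‖) :=
        mul_le_mul_of_nonneg_left h7 (by positivity)
    _ = M / m * (2 * (1 + β ^ 2)) * ‖Gamma ((b + θ : ℝ) + (y : ℂ) * I)‖ := by ring
    _ ≤ max 1 (M / m * (2 * (1 + β ^ 2))) * ‖Gamma ((b + θ : ℝ) + (y : ℂ) * I)‖ :=
        mul_le_mul_of_nonneg_right (le_max_right _ _) hn2

private lemma gb_pos {α β : ℝ} (hα : 0 < α) : ∃ C : ℝ, 0 < C ∧ ∀ a ∈ Set.Icc α β,
    ∀ b ∈ Set.Icc α β, ∀ y : ℝ, ‖Gamma ((a : ℂ) + (y : ℂ) * I)‖ ≤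
      C * (1 + |y|) ^ (a - b) * ‖Gamma ((b : ℂ) + (y : ℂ) * I)‖ := by
  obtain ⟨C1, hC1, hup⟩ := gb_up (β := β) hα
  obtain ⟨C2, hC2, hlo⟩ := gb_lo (β := β) hα
  obtain ⟨N, hN⟩ := exists_nat_ge (max 1 (β - α))
  have hN1 : (1 : ℝ) ≤ N := (le_max_left _ _).trans hN
  have hNβ : β - α ≤ N := (le_max_right _ _).trans hN
  have hN0 : (0 : ℝ) < N := by linarith
  refine ⟨(C1 * C2) ^ N, by positivity, ?_⟩
  intro a ha b hb y
  have hy : 0 < 1 + |y| := by positivity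
  rcases le_total b a with hab | hab
  · set θ : ℝ := (a - b) / N with hθ
    have hθ0 : 0 ≤ θ := div_nonneg (by linarith) hN0.le
    have hθ1 : θ ≤ 1 := by
      rw [hθ, div_le_one hN0]; linarith [ha.2, hb.1]
    have hNθ : N * θ = a - b := by rw [hθ]; field_simp
    have hind : ∀ j : ℕ, j ≤ N → ‖Gamma (((b + j * θ : ℝ) : ℂ) + (y : ℂ) * I)‖ ≤
        (C1 * (1 + |y|) ^ θ) ^ j * ‖Gamma ((b : ℂ) + (y : ℂ) * I)‖ := by
      intro j
      induction j with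
      | zero => intro _; simp
      | succ j ih =>
        intro hj
        have h1 := ih (by omega)
        have hjN : (j : ℝ) * θ ≤ N * θ :=
          mul_le_mul_of_nonneg_right (by exact_mod_cast (by omega : j ≤ N)) hθ0
        have hj0 : 0 ≤ (j : ℝ) * θ := by positivity
        have h2 := hup (b + j * θ) ⟨by linarith [hb.1], by linarith [ha.2]⟩ θ hθ0 hθ1 y
        have h3 : b + j * θ + θ = b + ((j + 1 : ℕ) : ℝ) * θ := by push_cast; ring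
        rw [h3] at h2
        refine h2.trans ?_
        rw [pow_succ']
        rw [mul_assoc (C1 * (1 + |y|) ^ θ)]
        exact mul_le_mul_of_nonneg_left h1 (by positivity)
    have h4 := hind N le_rfl
    have h5 : b + N * θ = a := by rw [hNθ]; ring
    rw [h5] at h4
    refine h4.trans ?_
    refine mul_le_mul_of_nonneg_right ?_ (norm_nonneg _)
    rw [mul_pow, ← Real.rpow_natCast ((1 + |y|) ^ θ), ← Real.rpow_mul hy.le, mul_comm θ, hNθ]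
    refine mul_le_mul_of_nonneg_right ?_ (by positivity)
    rw [mul_pow]
    exact le_mul_of_one_le_right (by positivity) (one_le_pow₀ hC2)
  · set θ : ℝ := (b - a) / N with hθ
    have hθ0 : 0 ≤ θ := div_nonneg (by linarith) hN0.le
    have hθ1 : θ ≤ 1 := by
      rw [hθ, div_le_one hN0]; linarith [hb.2, ha.1]
    have hNθ : N * θ = b - a := by rw [hθ]; field_simp
    have hind : ∀ j : ℕ, j ≤ N → ((1 + |y|) ^ θ) ^ j * ‖Gamma ((a : ℂ) + (y : ℂ) * I)‖ ≤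
        C2 ^ j * ‖Gamma (((a + j * θ : ℝ) : ℂ) + (y : ℂ) * I)‖ := by
      intro j
      induction j with
      | zero => intro _; simp
      | succ j ih =>
        intro hj
        have h1 := ih (by omega)
        have hjN : (j : ℝ) * θ ≤ N * θ :=
          mul_le_mul_of_nonneg_right (by exact_mod_cast (by omega : j ≤ N)) hθ0
        have hj0 : 0 ≤ (j : ℝ) * θ := by positivity
        have h2 := hlo (a + j * θ) ⟨by linarith [ha.1], by linarith [hb.2]⟩ θ hθ0 hθ1 y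
        have h3 : a + j * θ + θ = a + ((j + 1 : ℕ) : ℝ) * θ := by push_cast; ring
        rw [h3] at h2
        have h4 := mul_le_mul_of_nonneg_left h1 (by positivity : 0 ≤ (1 + |y|) ^ θ)
        have h5 := mul_le_mul_of_nonneg_left h2 (by positivity : 0 ≤ C2 ^ j)
        calc ((1 + |y|) ^ θ) ^ (j + 1) * ‖Gamma ((a : ℂ) + (y : ℂ) * I)‖
            = (1 + |y|) ^ θ * (((1 + |y|) ^ θ) ^ j * ‖Gamma ((a : ℂ) + (y : ℂ) * I)‖) := by
              rw [pow_succ']; ring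
          _ ≤ (1 + |y|) ^ θ * (C2 ^ j * ‖Gamma (((a + j * θ : ℝ) : ℂ) + (y : ℂ) * I)‖) := h4
          _ = C2 ^ j * ((1 + |y|) ^ θ * ‖Gamma (((a + j * θ : ℝ) : ℂ) + (y : ℂ) * I)‖) := by
              ring
          _ ≤ C2 ^ j * (C2 * ‖Gamma (((a + ((j + 1 : ℕ) : ℝ) * θ : ℝ) : ℂ) + (y : ℂ) * I)‖) := h5
          _ = C2 ^ (j + 1) *
              ‖Gamma (((a + ((j + 1 : ℕ) : ℝ) * θ : ℝ) : ℂ) + (y : ℂ) * I)‖ := by
              rw [pow_succ]; ring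
    have h4 := hind N le_rfl
    have h5 : a + N * θ = b := by rw [hNθ]; ring
    rw [h5, ← Real.rpow_natCast ((1 + |y|) ^ θ), ← Real.rpow_mul hy.le, mul_comm θ, hNθ] at h4
    have h6 : (1 + |y|) ^ (a - b) * (1 + |y|) ^ (b - a) = 1 := by
      rw [← Real.rpow_add hy]
      have : a - b + (b - a) = 0 := by ring
      rw [this, Real.rpow_zero]
    have h7 := mul_le_mul_of_nonneg_left h4 (by positivity : 0 ≤ (1 + |y|) ^ (a - b))
    rw [← mul_assoc, h6, one_mul] at h7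
    refine h7.trans ?_
    have h8 : C2 ^ N ≤ (C1 * C2) ^ N := by
      rw [mul_pow]
      exact le_mul_of_one_le_left (by positivity) (one_le_pow₀ hC1)
    calc (1 + |y|) ^ (a - b) * (C2 ^ N * ‖Gamma ((b : ℂ) + (y : ℂ) * I)‖)
        = C2 ^ N * ((1 + |y|) ^ (a - b) * ‖Gamma ((b : ℂ) + (y : ℂ) * I)‖) := by ring
      _ ≤ (C1 * C2) ^ N * ((1 + |y|) ^ (a - b) * ‖Gamma ((b : ℂ) + (y : ℂ) * I)‖) :=
          mul_le_mul_of_nonneg_right h8 (by positivity)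
      _ = _ := by ring

private lemma gb_inv (B : ℝ) (k : ℕ) : ∃ M : ℝ, 0 < M ∧ ∀ b : ℝ, |b| ≤ B → ∀ y : ℝ,
    ‖(Gamma ((b : ℂ) + (y : ℂ) * I))⁻¹‖ ≤
      M * (1 + |y|) ^ k * ‖(Gamma (((b + k : ℝ) : ℂ) + (y : ℂ) * I))⁻¹‖ := by
  induction k with
  | zero =>
    refine ⟨1, one_pos, fun b _ y => ?_⟩
    simp
  | succ k ih =>
    obtain ⟨M, hM, h⟩ := ih
    have hBk : 0 < |B| + k + 1 := by positivity
    refine ⟨M * (|B| + k + 1), by positivity, fun b hb y => ?_⟩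
    refine (h b hb y).trans ?_
    have hy : 0 ≤ |y| := abs_nonneg y
    have h1 := Complex.one_div_Gamma_eq_self_mul_one_div_Gamma_add_one
      (((b + k : ℝ) : ℂ) + (y : ℂ) * I)
    have h2 : ((b + k : ℝ) : ℂ) + (y : ℂ) * I + 1 =
        ((b + ((k + 1 : ℕ) : ℝ) : ℝ) : ℂ) + (y : ℂ) * I := by
      push_cast; ring
    rw [h2] at h1
    rw [h1, norm_mul]
    have h3 : ‖((b + k : ℝ) : ℂ) + (y : ℂ) * I‖ ≤ (|B| + k + 1) * (1 + |y|) := by
      refine (norm_add_le _ _).trans ?_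
      rw [norm_mul, Complex.norm_I, mul_one, Complex.norm_real, Complex.norm_real,
        Real.norm_eq_abs, Real.norm_eq_abs]
      have h4 : |b + k| ≤ |B| + k := by
        refine (abs_add_le _ _).trans ?_
        rw [abs_of_nonneg (Nat.cast_nonneg k : (0 : ℝ) ≤ k)]
        linarith [hb.trans (le_abs_self B)]
      have h5 : 0 ≤ |B| + k := by positivity
      nlinarith
    have h6 : 0 ≤ ‖(Gamma (((b + ((k + 1 : ℕ) : ℝ) : ℝ) : ℂ) + (y : ℂ) * I))⁻¹‖ := norm_nonneg _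
    calc M * (1 + |y|) ^ k * (‖((b + k : ℝ) : ℂ) + (y : ℂ) * I‖ *
          ‖(Gamma (((b + ((k + 1 : ℕ) : ℝ) : ℝ) : ℂ) + (y : ℂ) * I))⁻¹‖)
        ≤ M * (1 + |y|) ^ k * ((|B| + k + 1) * (1 + |y|) *
          ‖(Gamma (((b + ((k + 1 : ℕ) : ℝ) : ℝ) : ℂ) + (y : ℂ) * I))⁻¹‖) := by
          refine mul_le_mul_of_nonneg_left ?_ (by positivity)
          exact mul_le_mul_of_nonneg_right h3 h6
      _ = _ := by rw [pow_succ]; ring

theorem gam_ratio (a₁ a₂ b₁ b₂ : ℝ) (ha : 0 < a₁) :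
    ∃ C : ℝ, 0 < C ∧ ∀ a ∈ Set.Icc a₁ a₂, ∀ b ∈ Set.Icc b₁ b₂, ∀ y : ℝ,
      ‖Gamma ((a : ℂ) + (y : ℂ) * I)‖ * ‖(Gamma ((b : ℂ) + (y : ℂ) * I))⁻¹‖ ≤
        C * (1 + |y|) ^ (a - b) := by
  obtain ⟨k, hk⟩ := exists_nat_ge (1 - b₁)
  obtain ⟨C, hC, hpos⟩ := gb_pos (α := min a₁ 1) (β := max a₂ (b₂ + k)) (by positivity)
  obtain ⟨M, hM, hinv⟩ := gb_inv (max |b₁| |b₂|) k
  refine ⟨M * C, by positivity, ?_⟩
  intro a hma b hmb y
  have hy : 0 < 1 + |y| := by positivity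
  have hbB : |b| ≤ max |b₁| |b₂| := abs_le_max_abs_abs hmb.1 hmb.2
  have h1 := hinv b hbB y
  have h2 := hpos a ⟨(min_le_left _ _).trans hma.1, hma.2.trans (le_max_left _ _)⟩ (b + k)
    ⟨(min_le_right _ _).trans (by linarith [hmb.1]),
      le_trans (by linarith [hmb.2]) (le_max_right _ _)⟩ y
  have hbk : 0 < b + k := by linarith [hmb.1]
  have hne : Gamma (((b + k : ℝ) : ℂ) + (y : ℂ) * I) ≠ 0 := by
    refine Complex.Gamma_ne_zero_of_re_pos ?_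
    simpa using hbk
  have hn : 0 < ‖Gamma (((b + k : ℝ) : ℂ) + (y : ℂ) * I)‖ := norm_pos_iff.2 hne
  calc ‖Gamma ((a : ℂ) + (y : ℂ) * I)‖ * ‖(Gamma ((b : ℂ) + (y : ℂ) * I))⁻¹‖
      ≤ (C * (1 + |y|) ^ (a - (b + k)) * ‖Gamma (((b + k : ℝ) : ℂ) + (y : ℂ) * I)‖) *
        (M * (1 + |y|) ^ k * ‖(Gamma (((b + k : ℝ) : ℂ) + (y : ℂ) * I))⁻¹‖) :=
        mul_le_mul h2 h1 (norm_nonneg _) (by positivity)
    _ = M * C * ((1 + |y|) ^ (a - (b + k)) * (1 + |y|) ^ (k : ℝ)) := by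
        rw [norm_inv, Real.rpow_natCast]
        field_simp
    _ = M * C * (1 + |y|) ^ (a - b) := by
        rw [← Real.rpow_add hy]
        congr 2
        ring

end HYM
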