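import Pool.Agent.HYM.Defs

set_option autoImplicit false

/-!
# HYM/Jms: the averaging operator of the approximate functional equation

`Jop σ U G t = (1/2π) ∫ G(t+v) U^(σ+iv) exp((σ+iv)²)/(σ+iv) dv`.

PROOF of `Jop_ms`. `|U^(σ+iv) e^{(σ+iv)²}/(σ+iv)| ≤ U^σ e^{σ²} e^{-v²}/|σ|`. Cauchy-Schwarz in `v`:
`|J|² ≤ C_σ U^{2σ} ∫ e^{-v²} |G(t+v)|² dv`. Tonelli and `t = τ - v`:
`e^{-(τ-v)²/U²} ≤ e^{-τ²/(2U²)} e^{v²/U²}` (`(τ-v)² ≥ τ²/2 - v²`), `∫ e^{-v²+v²/U²} dv < ∞` uniformly for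
`U ≥ 2`. Everything is nonnegative, use `lintegral` (Tonelli), then go back to real integrals with
the integrability assumption on the right.
-/

open Complex MeasureTheory

namespace HYM

/-- The averaging operator. -/
noncomputable def Jop (σ U : ℝ) (G : ℝ → ℂ) (t : ℝ) : ℂ :=
  (2 * (Real.pi : ℂ))⁻¹ * ∫ v : ℝ, G (t + v) * ((U : ℂ) ^ (ln σ v) * cexp ((ln σ v) ^ 2) / ln σ v)

private lemma sq_lintegral_le {f g : ℝ → ENNReal} (hf : Measurable f) (hg : Measurable g) :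
    (∫⁻ v, f v * g v) ^ 2 ≤ (∫⁻ v, f v ^ 2) * ∫⁻ v, g v ^ 2 := by
  have h := ENNReal.lintegral_mul_le_Lp_mul_Lq volume Real.HolderConjugate.two_two
    hf.aemeasurable hg.aemeasurable
  have h2 := pow_le_pow_left' h 2
  rw [mul_pow, ← ENNReal.rpow_natCast (_ ^ (1 / 2 : ℝ)) 2,
    ← ENNReal.rpow_natCast ((∫⁻ a, g a ^ (2 : ℝ)) ^ (1 / 2 : ℝ)) 2,
    ← ENNReal.rpow_mul, ← ENNReal.rpow_mul] at h2
  norm_num at h2
  simpa using h2

/-- the kernel -/
private noncomputable def Kj (σ U v : ℝ) : ℂ :=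
  (U : ℂ) ^ (ln σ v) * cexp ((ln σ v) ^ 2) / ln σ v

private lemma ln_ne {σ : ℝ} (hσ : σ ≠ 0) (v : ℝ) : ln σ v ≠ 0 := by
  intro h
  apply hσ
  rw [← ln_re σ v, h, Complex.zero_re]

private lemma Kj_norm {σ U : ℝ} (hσ : σ ≠ 0) (hU : 0 < U) (v : ℝ) :
    ‖Kj σ U v‖ ≤ U ^ σ * Real.exp (σ ^ 2) / |σ| * Real.exp (-v ^ 2) := by
  unfold Kj
  have h1 : ‖(U : ℂ) ^ (ln σ v)‖ = U ^ σ := by
    rw [Complex.norm_cpow_eq_rpow_re_of_pos hU, ln_re]
  have h2 : ‖cexp ((ln σ v) ^ 2)‖ = Real.exp (σ ^ 2) * Real.exp (-v ^ 2) := by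
    rw [Complex.norm_exp, ← Real.exp_add]
    congr 1
    rw [pow_two, Complex.mul_re, ln_re, ln_im]
    ring
  have h3 : |σ| ≤ ‖ln σ v‖ := by
    have := Complex.abs_re_le_norm (ln σ v)
    rwa [ln_re] at this
  have h4 : 0 < |σ| := abs_pos.2 hσ
  rw [norm_div, norm_mul, h1, h2]
  calc U ^ σ * (Real.exp (σ ^ 2) * Real.exp (-v ^ 2)) / ‖ln σ v‖
      ≤ U ^ σ * (Real.exp (σ ^ 2) * Real.exp (-v ^ 2)) / |σ| :=
        div_le_div_of_nonneg_left (by positivity) h4 h3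
    _ = _ := by ring

private lemma continuous_ln (σ : ℝ) : Continuous (ln σ) := by
  unfold ln
  fun_prop

private lemma continuous_Kj {σ U : ℝ} (hσ : σ ≠ 0) (hU : 0 < U) : Continuous (Kj σ U) := by
  unfold Kj
  refine Continuous.div ?_ (continuous_ln σ) (ln_ne hσ)
  refine Continuous.mul ?_ ?_
  · refine Continuous.const_cpow (continuous_ln σ) (Or.inl ?_)
    exact_mod_cast hU.ne'
  · exact Complex.continuous_exp.comp ((continuous_ln σ).pow 2)

private lemma lint_gauss {b : ℝ} (hb : 0 < b) :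
    ∫⁻ v : ℝ, ENNReal.ofReal (Real.exp (-b * v ^ 2)) = ENNReal.ofReal (√(Real.pi / b)) := by
  rw [← ofReal_integral_eq_lintegral_ofReal (integrable_exp_neg_mul_sq hb)
    (Filter.Eventually.of_forall fun v => (Real.exp_pos _).le), integral_gaussian]

/-- the half kernel -/
private noncomputable def hf (v : ℝ) : ENNReal := ENNReal.ofReal (Real.exp (-v ^ 2 / 2))

private lemma hf_meas : Measurable hf := by
  unfold hf
  fun_prop

private lemma hf_sq (v : ℝ) : hf v ^ 2 = ENNReal.ofReal (Real.exp (-1 * v ^ 2)) := by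
  unfold hf
  rw [← ENNReal.ofReal_pow (Real.exp_pos _).le, ← Real.exp_nat_mul]
  congr 2
  push_cast
  ring

private lemma Jop_enorm {σ U : ℝ} (hσ : σ ≠ 0) (hU : 0 < U) {G : ℝ → ℂ} (hG : Continuous G)
    (t : ℝ) : ‖Jop σ U G t‖ₑ ^ 2 ≤
      ENNReal.ofReal ((2 * Real.pi)⁻¹ * (U ^ σ * Real.exp (σ ^ 2) / |σ|)) ^ 2 *
        ((∫⁻ v, (‖G (t + v)‖ₑ * hf v) ^ 2) * ENNReal.ofReal (√(Real.pi / 1))) := by
  have h1 : ‖Jop σ U G t‖ₑ ≤
      ENNReal.ofReal ((2 * Real.pi)⁻¹ * (U ^ σ * Real.exp (σ ^ 2) / |σ|)) *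
        ∫⁻ v, (‖G (t + v)‖ₑ * hf v) * hf v := by
    unfold Jop
    rw [enorm_mul]
    have h2 : ‖(2 * (Real.pi : ℂ))⁻¹‖ₑ = ENNReal.ofReal (2 * Real.pi)⁻¹ := by
      rw [← ofReal_norm]
      congr 1
      rw [norm_inv, norm_mul, Complex.norm_real, Real.norm_of_nonneg Real.pi_pos.le]
      norm_num
    rw [h2, ENNReal.ofReal_mul (by positivity), mul_assoc]
    refine mul_le_mul_right ?_ _
    refine (enorm_integral_le_lintegral_enorm _).trans ?_
    rw [← lintegral_const_mul' _ _ ENNReal.ofReal_ne_top]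
    refine lintegral_mono fun v => ?_
    have h3 : ‖(U : ℂ) ^ (ln σ v) * cexp ((ln σ v) ^ 2) / ln σ v‖ₑ ≤
        ENNReal.ofReal (U ^ σ * Real.exp (σ ^ 2) / |σ|) * (hf v * hf v) := by
      have h4 : hf v * hf v = ENNReal.ofReal (Real.exp (-v ^ 2)) := by
        rw [← pow_two, hf_sq]
        congr 2
        ring
      rw [h4, ← ENNReal.ofReal_mul (by positivity), ← ofReal_norm]
      exact ENNReal.ofReal_le_ofReal (Kj_norm hσ hU v)
    simp only [enorm_mul]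
    calc _ ≤ ‖G (t + v)‖ₑ * (ENNReal.ofReal (U ^ σ * Real.exp (σ ^ 2) / |σ|) *
          (hf v * hf v)) := by
          refine mul_le_mul_right ?_ _
          exact h3
      _ = _ := by ring
  calc ‖Jop σ U G t‖ₑ ^ 2 ≤ (ENNReal.ofReal ((2 * Real.pi)⁻¹ * (U ^ σ * Real.exp (σ ^ 2) / |σ|)) *
        ∫⁻ v, (‖G (t + v)‖ₑ * hf v) * hf v) ^ 2 := pow_le_pow_left' h1 2
    _ = ENNReal.ofReal ((2 * Real.pi)⁻¹ * (U ^ σ * Real.exp (σ ^ 2) / |σ|)) ^ 2 *
        (∫⁻ v, (‖G (t + v)‖ₑ * hf v) * hf v) ^ 2 := mul_pow _ _ _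
    _ ≤ _ := by
        refine mul_le_mul_right ?_ _
        refine (sq_lintegral_le ((hG.comp (continuous_const.add
          continuous_id)).enorm.measurable.mul hf_meas) hf_meas).trans ?_
        refine mul_le_mul_right ?_ _
        rw [← lint_gauss one_pos]
        exact le_of_eq (lintegral_congr hf_sq)

private lemma swap_bound {U : ℝ} (hU : 2 ≤ U) {G : ℝ → ℂ} (hG : Continuous G) :
    ∫⁻ t, ENNReal.ofReal (Real.exp (-(t / U) ^ 2)) * ∫⁻ v, (‖G (t + v)‖ₑ * hf v) ^ 2 ≤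
      ENNReal.ofReal (√(Real.pi / (3 / 4))) *
        ∫⁻ t, ENNReal.ofReal (Real.exp (-(t / U) ^ 2 / 2)) * ‖G t‖ₑ ^ 2 := by
  have hm1 : Measurable fun p : ℝ × ℝ => ENNReal.ofReal (Real.exp (-(p.1 / U) ^ 2)) *
      (‖G (p.1 + p.2)‖ₑ * hf p.2) ^ 2 := by
    have m1 : Measurable fun p : ℝ × ℝ => ‖G (p.1 + p.2)‖ₑ :=
      (hG.comp (continuous_fst.add continuous_snd)).enorm.measurable
    have m2 : Measurable fun p : ℝ × ℝ => hf p.2 := hf_meas.comp measurable_snd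
    have m3 : Measurable fun p : ℝ × ℝ => ENNReal.ofReal (Real.exp (-(p.1 / U) ^ 2)) := by
      fun_prop
    exact m3.mul ((m1.mul m2).pow_const 2)
  have hm2 : Measurable fun t : ℝ => ENNReal.ofReal (Real.exp (-(t / U) ^ 2 / 2)) * ‖G t‖ₑ ^ 2 := by
    refine Measurable.mul ?_ (hG.enorm.measurable.pow_const 2)
    fun_prop
  calc ∫⁻ t, ENNReal.ofReal (Real.exp (-(t / U) ^ 2)) * ∫⁻ v, (‖G (t + v)‖ₑ * hf v) ^ 2
      = ∫⁻ t, ∫⁻ v, ENNReal.ofReal (Real.exp (-(t / U) ^ 2)) * (‖G (t + v)‖ₑ * hf v) ^ 2 := by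
        refine lintegral_congr fun t => ?_
        rw [lintegral_const_mul]
        exact ((hG.comp (continuous_const.add continuous_id)).enorm.measurable.mul
          hf_meas).pow_const 2
    _ = ∫⁻ v, ∫⁻ t, ENNReal.ofReal (Real.exp (-(t / U) ^ 2)) * (‖G (t + v)‖ₑ * hf v) ^ 2 :=
        lintegral_lintegral_swap hm1.aemeasurable
    _ = ∫⁻ v, ∫⁻ t, ENNReal.ofReal (Real.exp (-((t - v) / U) ^ 2)) *
          (‖G t‖ₑ * hf v) ^ 2 := by
        refine lintegral_congr fun v => ?_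
        rw [← lintegral_sub_right_eq_self (fun t => ENNReal.ofReal (Real.exp (-(t / U) ^ 2)) *
          (‖G (t + v)‖ₑ * hf v) ^ 2) v]
        simp only [sub_add_cancel]
    _ ≤ ∫⁻ v, ∫⁻ t, ENNReal.ofReal (Real.exp (-(3 / 4) * v ^ 2)) *
          (ENNReal.ofReal (Real.exp (-(t / U) ^ 2 / 2)) * ‖G t‖ₑ ^ 2) := by
        refine lintegral_mono fun v => lintegral_mono fun t => ?_
        dsimp only
        rw [mul_pow, hf_sq]
        have h1 : ENNReal.ofReal (Real.exp (-((t - v) / U) ^ 2)) *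
            ENNReal.ofReal (Real.exp (-1 * v ^ 2)) ≤
            ENNReal.ofReal (Real.exp (-(3 / 4) * v ^ 2)) *
              ENNReal.ofReal (Real.exp (-(t / U) ^ 2 / 2)) := by
          rw [← ENNReal.ofReal_mul (Real.exp_pos _).le, ← ENNReal.ofReal_mul (Real.exp_pos _).le,
            ← Real.exp_add, ← Real.exp_add]
          refine ENNReal.ofReal_le_ofReal (Real.exp_le_exp.2 ?_)
          have hU0 : 0 < U := by linarith
          have h2 : (v / U) ^ 2 ≤ v ^ 2 / 4 := by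
            rw [div_pow]
            have h3 : (4 : ℝ) ≤ U ^ 2 := by nlinarith
            exact div_le_div_of_nonneg_left (sq_nonneg v) (by norm_num) h3
          have h4 : ((t - v) / U) = t / U - v / U := by ring
          rw [h4]
          nlinarith [sq_nonneg (t / U - 2 * (v / U))]
        calc ENNReal.ofReal (Real.exp (-((t - v) / U) ^ 2)) *
              (‖G t‖ₑ ^ 2 * ENNReal.ofReal (Real.exp (-1 * v ^ 2)))
            = (ENNReal.ofReal (Real.exp (-((t - v) / U) ^ 2)) *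
              ENNReal.ofReal (Real.exp (-1 * v ^ 2))) * ‖G t‖ₑ ^ 2 := by ring
          _ ≤ (ENNReal.ofReal (Real.exp (-(3 / 4) * v ^ 2)) *
              ENNReal.ofReal (Real.exp (-(t / U) ^ 2 / 2))) * ‖G t‖ₑ ^ 2 :=
              mul_le_mul_left h1 _
          _ = _ := by ring
    _ = ∫⁻ v, ENNReal.ofReal (Real.exp (-(3 / 4) * v ^ 2)) *
          ∫⁻ t, ENNReal.ofReal (Real.exp (-(t / U) ^ 2 / 2)) * ‖G t‖ₑ ^ 2 := by
        refine lintegral_congr fun v => ?_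
        rw [lintegral_const_mul _ hm2]
    _ = _ := by
        rw [lintegral_mul_const _ (by fun_prop), lint_gauss (by norm_num)]

theorem Jop_ms {σ : ℝ} (hσ : σ ≠ 0) : ∃ C : ℝ, 0 < C ∧ ∀ U : ℝ, 2 ≤ U → ∀ G : ℝ → ℂ,
    Continuous G → Integrable (fun t : ℝ => Real.exp (-(t / U) ^ 2 / 2) * ‖G t‖ ^ 2) →
    Integrable (fun t : ℝ => Real.exp (-(t / U) ^ 2) * ‖Jop σ U G t‖ ^ 2) ∧
    ∫ t : ℝ, Real.exp (-(t / U) ^ 2) * ‖Jop σ U G t‖ ^ 2 ≤
      C * U ^ (2 * σ) * ∫ t : ℝ, Real.exp (-(t / U) ^ 2 / 2) * ‖G t‖ ^ 2 := by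
  have hs0 : 0 < |σ| := abs_pos.2 hσ
  have hpi := Real.pi_pos
  refine ⟨((2 * Real.pi)⁻¹ * (Real.exp (σ ^ 2) / |σ|)) ^ 2 *
    (√(Real.pi / 1) * √(Real.pi / (3 / 4))), by positivity, fun U hU G hG hint => ?_⟩
  have hU0 : 0 < U := by linarith
  have hJm : StronglyMeasurable (Jop σ U G) := by
    unfold Jop
    refine StronglyMeasurable.const_mul ?_ _
    have hc : Continuous (fun p : ℝ × ℝ => G (p.1 + p.2) * Kj σ U p.2) :=
      (hG.comp (continuous_fst.add continuous_snd)).mul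
        ((continuous_Kj hσ hU0).comp continuous_snd)
    exact hc.stronglyMeasurable.integral_prod_right
  have hcon : ∀ (a b : ℝ), 0 ≤ a → ∀ z : ℂ, ENNReal.ofReal (a * ‖z‖ ^ 2) =
      ENNReal.ofReal a * ‖z‖ₑ ^ 2 := by
    intro a b ha z
    rw [ENNReal.ofReal_mul ha, ENNReal.ofReal_pow (norm_nonneg _), ofReal_norm]
  have hRHS : ∫⁻ t, ENNReal.ofReal (Real.exp (-(t / U) ^ 2 / 2)) * ‖G t‖ₑ ^ 2 =
      ENNReal.ofReal (∫ t : ℝ, Real.exp (-(t / U) ^ 2 / 2) * ‖G t‖ ^ 2) := by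
    rw [ofReal_integral_eq_lintegral_ofReal hint
      (Filter.Eventually.of_forall fun t => by positivity)]
    exact lintegral_congr fun t => (hcon _ 0 (Real.exp_pos _).le _).symm
  have key : ∫⁻ t, ENNReal.ofReal (Real.exp (-(t / U) ^ 2) * ‖Jop σ U G t‖ ^ 2) ≤
      ENNReal.ofReal (((2 * Real.pi)⁻¹ * (Real.exp (σ ^ 2) / |σ|)) ^ 2 *
        (√(Real.pi / 1) * √(Real.pi / (3 / 4))) * U ^ (2 * σ) *
        ∫ t : ℝ, Real.exp (-(t / U) ^ 2 / 2) * ‖G t‖ ^ 2) := by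
    have hA : ((2 * Real.pi)⁻¹ * (U ^ σ * Real.exp (σ ^ 2) / |σ|)) ^ 2 =
        ((2 * Real.pi)⁻¹ * (Real.exp (σ ^ 2) / |σ|)) ^ 2 * U ^ (2 * σ) := by
      have : U ^ (2 * σ) = (U ^ σ) ^ 2 := by
        rw [mul_comm, Real.rpow_mul hU0.le, Real.rpow_two]
      rw [this]
      ring
    calc ∫⁻ t, ENNReal.ofReal (Real.exp (-(t / U) ^ 2) * ‖Jop σ U G t‖ ^ 2)
        = ∫⁻ t, ENNReal.ofReal (Real.exp (-(t / U) ^ 2)) * ‖Jop σ U G t‖ₑ ^ 2 :=
          lintegral_congr fun t => hcon _ 0 (Real.exp_pos _).le _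
      _ ≤ ∫⁻ t, (ENNReal.ofReal ((2 * Real.pi)⁻¹ * (U ^ σ * Real.exp (σ ^ 2) / |σ|)) ^ 2 *
            ENNReal.ofReal (√(Real.pi / 1))) * (ENNReal.ofReal (Real.exp (-(t / U) ^ 2)) *
            ∫⁻ v, (‖G (t + v)‖ₑ * hf v) ^ 2) := by
          refine lintegral_mono fun t => ?_
          refine (mul_le_mul_right (Jop_enorm hσ hU0 hG t) _).trans (le_of_eq ?_)
          ring
      _ = (ENNReal.ofReal ((2 * Real.pi)⁻¹ * (U ^ σ * Real.exp (σ ^ 2) / |σ|)) ^ 2 *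
            ENNReal.ofReal (√(Real.pi / 1))) * ∫⁻ t, (ENNReal.ofReal (Real.exp (-(t / U) ^ 2)) *
            ∫⁻ v, (‖G (t + v)‖ₑ * hf v) ^ 2) := by
          refine lintegral_const_mul' _ _ ?_
          exact ENNReal.mul_ne_top (ENNReal.pow_ne_top ENNReal.ofReal_ne_top)
            ENNReal.ofReal_ne_top
      _ ≤ (ENNReal.ofReal ((2 * Real.pi)⁻¹ * (U ^ σ * Real.exp (σ ^ 2) / |σ|)) ^ 2 *
            ENNReal.ofReal (√(Real.pi / 1))) * (ENNReal.ofReal (√(Real.pi / (3 / 4))) *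
            ENNReal.ofReal (∫ t : ℝ, Real.exp (-(t / U) ^ 2 / 2) * ‖G t‖ ^ 2)) := by
          refine mul_le_mul_right ?_ _
          rw [← hRHS]
          exact swap_bound hU hG
      _ = _ := by
          rw [← ENNReal.ofReal_pow (by positivity), hA, ← ENNReal.ofReal_mul (by positivity),
            ← ENNReal.ofReal_mul (by positivity), ← ENNReal.ofReal_mul (by positivity)]
          congr 1
          ring
  have hmeas : AEStronglyMeasurable (fun t : ℝ => Real.exp (-(t / U) ^ 2) *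
      ‖Jop σ U G t‖ ^ 2) := by
    refine AEStronglyMeasurable.mul (by fun_prop) ?_
    exact (hJm.norm.pow 2).aestronglyMeasurable
  have hnn : ∀ t : ℝ, 0 ≤ Real.exp (-(t / U) ^ 2) * ‖Jop σ U G t‖ ^ 2 := fun t => by positivity
  refine ⟨⟨hmeas, ?_⟩, ?_⟩
  · rw [hasFiniteIntegral_iff_ofReal (Filter.Eventually.of_forall hnn)]
    exact key.trans_lt ENNReal.ofReal_lt_top
  · rw [integral_eq_lintegral_of_nonneg_ae (Filter.Eventually.of_forall hnn) hmeas]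
    refine ENNReal.toReal_le_of_le_ofReal ?_ key
    have : 0 ≤ ∫ t : ℝ, Real.exp (-(t / U) ^ 2 / 2) * ‖G t‖ ^ 2 :=
      integral_nonneg fun t => by positivity
    positivity

end HYM
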