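import Pool.Agent.HYM.Defs

set_option autoImplicit false

/-!
# HYM/LSG: the Gaussian large sieve

PROOF. Expand the square (absolute convergence by `Summable ‖a n‖`) and integrate termwise:
`∫ e^{-(t/W)²} |∑ a(n) n^{it}|² dt = ∑_{n,k ≥ 1} a(n) conj (a k) √π W exp (-W² log²(n/k)/4)`
(Gaussian Fourier transform). By `|a(n) a(k)| ≤ (|a n|² + |a k|²)/2` and symmetry it is at most
`√π W ∑_n |a n|² ∑_k exp (-W² log²(n/k)/4)`. CLAIM: `∑_{k ≥ 1} exp (-W² log²(n/k)/4) ≤ C (1 + n/W)`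
for `W ≥ 1`, `n ≥ 1`. For `k ≤ 2n`: `|log (n/k)| ≥ |n-k|/max(n,k) ≥ |n-k|/(2n)`, so these terms are at
most `exp (-(W (n-k)/(4n))²)`, with sum `≤ 1 + 2 ∑_{j≥1} exp (-(Wj/4n)²) ≤ 1 + C n/W` (e.g.
`exp (-x²) ≤ 1/(1+x²)` and `∑_{j ≥ 1} 1/(1+(cj)²) ≤ π/(2c)`-type bound by comparison with the
integral of `1/(1+x²)`). For `k > 2n`: `L = log (k/n) ≥ log 2`,
`e^{-W²L²/4} ≤ e^{-(W²-1) (log 2)²/4} e^{-L²/4}`, `∑_k e^{-L²/4} ≤ C n` (e.g. `e^{-L²/4} ≤ C e^{-2L}
= C (n/k)²`) and `e^{-(W²-1)(log 2)²/4} ≤ C/W`.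
-/

open Complex MeasureTheory

namespace HYM

private lemma norm_log_sub {n k : ℝ} (hn : 0 < n) (hk : 0 < k) :
    |n - k| / max n k ≤ |Real.log n - Real.log k| := by
  have key : ∀ x y : ℝ, 0 < x → 0 < y → y ≤ x → (x - y) / x ≤ Real.log x - Real.log y := by
    intro x y hx hy hxy
    have h1 := Real.log_le_sub_one_of_pos (div_pos hy hx)
    rw [Real.log_div hy.ne' hx.ne'] at h1
    have h2 : (x - y) / x = 1 - y / x := by field_simp
    rw [h2]; linarith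
  rcases le_total k n with h | h
  · rw [max_eq_left h, abs_of_nonneg (sub_nonneg.mpr h),
      abs_of_nonneg (sub_nonneg.mpr (Real.log_le_log hk h))]
    exact key n k hn hk h
  · rw [max_eq_right h, abs_sub_comm n k, abs_sub_comm (Real.log n),
      abs_of_nonneg (sub_nonneg.mpr h),
      abs_of_nonneg (sub_nonneg.mpr (Real.log_le_log hn h))]
    exact key k n hk hn h

private lemma exp_neg_le {x : ℝ} (hx : 0 ≤ x) : Real.exp (-x ^ 2) ≤ 2 / (1 + x) ^ 2 := by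
  have h1 : x ^ 2 + 1 ≤ Real.exp (x ^ 2) := Real.add_one_le_exp _
  rw [Real.exp_neg, inv_eq_one_div, div_le_div_iff₀ (Real.exp_pos _) (by positivity)]
  nlinarith [sq_nonneg (x - 1)]

private lemma near {n k : ℕ} {W : ℝ} (hW : 1 ≤ W) (hn : 1 ≤ n) (hk : 1 ≤ k) (hkn : k ≤ 2 * n) :
    Real.exp (-(W ^ 2 * (Real.log n - Real.log k) ^ 2 / 4)) ≤
      2 / (1 + W / (4 * n) * |(n : ℝ) - k|) ^ 2 := by
  have hn' : (0 : ℝ) < n := by exact_mod_cast hn
  have hk' : (0 : ℝ) < k := by exact_mod_cast hk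
  have hkn' : (k : ℝ) ≤ 2 * n := by exact_mod_cast hkn
  have h1 := norm_log_sub hn' hk'
  have h2 : |(n : ℝ) - k| / (2 * n) ≤ |Real.log n - Real.log k| := by
    refine le_trans ?_ h1
    apply div_le_div_of_nonneg_left (abs_nonneg _) (lt_max_of_lt_left hn')
    exact max_le (by linarith) hkn'
  have h3 : 0 ≤ W / (4 * n) * |(n : ℝ) - k| := by positivity
  refine le_trans (Real.exp_le_exp.mpr ?_) (exp_neg_le h3)
  have h4 : W / (4 * n) * |(n : ℝ) - k| ≤ W / 2 * |Real.log n - Real.log k| := by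
    have : W / (4 * n) * |(n : ℝ) - k| = W / 2 * (|(n : ℝ) - k| / (2 * n)) := by
      field_simp
      ring
    rw [this]
    exact mul_le_mul_of_nonneg_left h2 (by positivity)
  have h5 : (W / (4 * n) * |(n : ℝ) - k|) ^ 2 ≤ (W / 2 * |Real.log n - Real.log k|) ^ 2 :=
    pow_le_pow_left₀ h3 h4 2
  have h6 : (W / 2 * |Real.log n - Real.log k|) ^ 2 =
      W ^ 2 * (Real.log n - Real.log k) ^ 2 / 4 := by
    rw [mul_pow, sq_abs]; ring
  linarith

private lemma far {n k : ℕ} {W : ℝ} (hW : 1 ≤ W) (hn : 1 ≤ n) (hkn : 2 * n < k) :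
    Real.exp (-(W ^ 2 * (Real.log n - Real.log k) ^ 2 / 4)) ≤
      72 * Real.exp 8 * ((n : ℝ) ^ 2 / ((n : ℝ) + k) ^ 2) / W := by
  have hn' : (0 : ℝ) < n := by exact_mod_cast hn
  have hkn' : 2 * (n : ℝ) < k := by exact_mod_cast hkn
  have hk' : (0 : ℝ) < k := by linarith
  set u := Real.log k - Real.log n with hu
  have hu1 : 1 / 2 ≤ u := by
    have h1 : Real.log 2 ≤ u := by
      rw [hu, ← Real.log_div hk'.ne' hn'.ne']
      apply Real.log_le_log (by norm_num)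
      rw [le_div_iff₀ hn']
      linarith
    have := Real.log_two_gt_d9
    linarith
  have hsq : (Real.log n - Real.log k) ^ 2 = u ^ 2 := by rw [hu]; ring
  rw [hsq]
  have hexp : Real.exp (-(2 * u)) = (n : ℝ) ^ 2 / (k : ℝ) ^ 2 := by
    have : -(2 * u) = 2 * Real.log n - 2 * Real.log k := by rw [hu]; ring
    rw [this, Real.exp_sub]
    have e1 : ∀ x : ℝ, 0 < x → Real.exp (2 * Real.log x) = x ^ 2 := by
      intro x hx
      rw [two_mul, Real.exp_add, Real.exp_log hx]; ring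
    rw [e1 _ hn', e1 _ hk']
  have hW0 : 0 < W := by linarith
  have hWu : W ^ 2 * u ^ 2 / 8 ≥ u ^ 2 / 8 := by
    have : 1 ≤ W ^ 2 := by nlinarith
    nlinarith [sq_nonneg u]
  have h1 : Real.exp (2 * u) ≤ Real.exp 8 * Real.exp (W ^ 2 * u ^ 2 / 8) := by
    rw [← Real.exp_add]
    apply Real.exp_le_exp.mpr
    nlinarith [sq_nonneg (u - 8)]
  have h2 : W ≤ 32 * Real.exp (W ^ 2 * u ^ 2 / 8) := by
    have h3 : W ^ 2 * u ^ 2 / 8 + 1 ≤ Real.exp (W ^ 2 * u ^ 2 / 8) := Real.add_one_le_exp _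
    have h4 : W / 32 ≤ W ^ 2 * u ^ 2 / 8 := by
      have h5 : 1 / 4 ≤ u ^ 2 := by nlinarith
      have h6 : W ≤ W ^ 2 := by nlinarith
      nlinarith
    linarith
  have h3 : W * Real.exp (2 * u) ≤ 32 * Real.exp 8 * Real.exp (W ^ 2 * u ^ 2 / 4) := by
    have h4 : Real.exp (W ^ 2 * u ^ 2 / 4) =
        Real.exp (W ^ 2 * u ^ 2 / 8) * Real.exp (W ^ 2 * u ^ 2 / 8) := by
      rw [← Real.exp_add]; ring_nf
    rw [h4]
    calc W * Real.exp (2 * u) ≤ (32 * Real.exp (W ^ 2 * u ^ 2 / 8)) *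
          (Real.exp 8 * Real.exp (W ^ 2 * u ^ 2 / 8)) :=
          mul_le_mul h2 h1 (Real.exp_pos _).le (by positivity)
      _ = _ := by ring
  have h4 : Real.exp (-(W ^ 2 * u ^ 2 / 4)) ≤ 32 * Real.exp 8 * Real.exp (-(2 * u)) / W := by
    rw [Real.exp_neg, Real.exp_neg, le_div_iff₀ hW0, inv_mul_le_iff₀ (Real.exp_pos _)]
    calc W = (W * Real.exp (2 * u)) * (Real.exp (2 * u))⁻¹ := by
          field_simp
      _ ≤ (32 * Real.exp 8 * Real.exp (W ^ 2 * u ^ 2 / 4)) * (Real.exp (2 * u))⁻¹ :=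
          mul_le_mul_of_nonneg_right h3 (by positivity)
      _ = _ := by ring
  refine h4.trans ?_
  rw [hexp]
  apply div_le_div_of_nonneg_right _ hW0.le
  have h5 : (n : ℝ) ^ 2 / (k : ℝ) ^ 2 ≤ 9 / 4 * ((n : ℝ) ^ 2 / ((n : ℝ) + k) ^ 2) := by
    have h6 : ((n : ℝ) + k) ^ 2 ≤ 9 / 4 * (k : ℝ) ^ 2 := by nlinarith
    rw [div_le_iff₀ (by positivity)]
    have h7 : 9 / 4 * ((n : ℝ) ^ 2 / ((n : ℝ) + k) ^ 2) * (k : ℝ) ^ 2 =
        (n : ℝ) ^ 2 * ((9 / 4 * (k : ℝ) ^ 2) / ((n : ℝ) + k) ^ 2) := by ring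
    rw [h7]
    have h8 : 1 ≤ (9 / 4 * (k : ℝ) ^ 2) / ((n : ℝ) + k) ^ 2 := by
      rw [le_div_iff₀ (by positivity)]; linarith
    nlinarith [sq_nonneg (n : ℝ)]
  have h9 : 0 < Real.exp 8 := Real.exp_pos _
  nlinarith

/-- the kernel -/
private noncomputable def Ker (W : ℝ) (n k : ℕ) : ℝ :=
  if n = 0 ∨ k = 0 then 0 else
    √Real.pi * W * Real.exp (-(W ^ 2 * (Real.log n - Real.log k) ^ 2 / 4))

private lemma Ker_nonneg {W : ℝ} (hW : 1 ≤ W) (n k : ℕ) : 0 ≤ Ker W n k := by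
  unfold Ker
  split_ifs
  · exact le_rfl
  · positivity

private lemma Ker_symm (W : ℝ) (n k : ℕ) : Ker W n k = Ker W k n := by
  unfold Ker
  have : (n = 0 ∨ k = 0) ↔ (k = 0 ∨ n = 0) := or_comm
  by_cases h : n = 0 ∨ k = 0
  · rw [if_pos h, if_pos (this.mp h)]
  · rw [if_neg h, if_neg (fun h' => h (this.mpr h'))]
    congr 2
    ring

private lemma sum_h {c : ℝ} (hc : 0 < c) (m : ℕ) :
    ∑ j ∈ Finset.range m, 2 / (1 + c * ((j : ℝ) + 1)) ^ 2 ≤ 2 / c - 2 / (c * (1 + c * m)) := by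
  induction m with
  | zero => simp
  | succ m ih =>
    rw [Finset.sum_range_succ]
    have h1 : 0 < 1 + c * (m : ℝ) := by positivity
    have h2 : 0 < 1 + c * ((m : ℝ) + 1) := by positivity
    have h3 : 2 / (1 + c * ((m : ℝ) + 1)) ^ 2 ≤
        2 / (c * (1 + c * m)) - 2 / (c * (1 + c * ((m : ℝ) + 1))) := by
      have h4 : 2 / (c * (1 + c * m)) - 2 / (c * (1 + c * ((m : ℝ) + 1))) =
          2 / ((1 + c * m) * (1 + c * ((m : ℝ) + 1))) := by
        field_simp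
        ring
      rw [h4]
      apply div_le_div_of_nonneg_left (by norm_num) (by positivity)
      nlinarith
    push_cast
    linarith

private lemma sum_near {c : ℝ} (hc : 0 < c) (n N : ℕ) :
    ∑ k ∈ Finset.range N, 2 / (1 + c * |(n : ℝ) - k|) ^ 2 ≤ 4 + 4 / c := by
  have h0 : ∀ m : ℕ, ∑ j ∈ Finset.range (m + 1), 2 / (1 + c * (j : ℝ)) ^ 2 ≤ 2 + 2 / c := by
    intro m
    rw [Finset.sum_range_succ']
    have h1 := sum_h hc m
    have h2 : 0 ≤ 2 / (c * (1 + c * (m : ℝ))) := by positivity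
    have h3 : ∑ k ∈ Finset.range m, 2 / (1 + c * ((k + 1 : ℕ) : ℝ)) ^ 2 =
        ∑ j ∈ Finset.range m, 2 / (1 + c * ((j : ℝ) + 1)) ^ 2 := by
      refine Finset.sum_congr rfl fun j _ => ?_
      push_cast; rfl
    rw [h3]
    simp only [Nat.cast_zero, mul_zero, add_zero, one_pow, div_one]
    linarith
  have hmono : ∑ k ∈ Finset.range N, 2 / (1 + c * |(n : ℝ) - k|) ^ 2 ≤
      ∑ k ∈ Finset.range ((n + 1) + N), 2 / (1 + c * |(n : ℝ) - k|) ^ 2 := by
    apply Finset.sum_le_sum_of_subset_of_nonneg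
    · intro x hx
      rw [Finset.mem_range] at hx ⊢
      omega
    · intro x _ _
      positivity
  refine hmono.trans ?_
  rw [Finset.sum_range_add]
  have h1 : ∑ x ∈ Finset.range (n + 1), 2 / (1 + c * |(n : ℝ) - x|) ^ 2 ≤ 2 + 2 / c := by
    rw [← Finset.sum_range_reflect]
    refine le_trans (le_of_eq ?_) (h0 n)
    refine Finset.sum_congr rfl fun j hj => ?_
    have hj' : j ≤ n := by have := Finset.mem_range.mp hj; omega
    have h2 : n + 1 - 1 - j = n - j := by omega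
    rw [h2, Nat.cast_sub hj']
    congr 3
    rw [abs_of_nonneg] <;> [ring; skip]
    have : (0 : ℝ) ≤ j := Nat.cast_nonneg j
    linarith
  have h2 : ∑ x ∈ Finset.range N, 2 / (1 + c * |(n : ℝ) - ((n + 1 + x : ℕ) : ℝ)|) ^ 2 ≤
      2 + 2 / c := by
    refine le_trans ?_ (h0 N)
    rw [Finset.sum_range_succ']
    refine le_trans (le_of_eq ?_) (le_add_of_nonneg_right (by positivity))
    refine Finset.sum_congr rfl fun j hj => ?_
    congr 3
    push_cast
    rw [abs_sub_comm, abs_of_nonneg] <;> [ring; skip]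
    have : (0 : ℝ) ≤ j := Nat.cast_nonneg j
    linarith
  have h4 : 4 + 4 / c = (2 + 2 / c) + (2 + 2 / c) := by ring
  rw [h4]
  exact add_le_add h1 h2

private lemma sum_far {n : ℕ} (hn : 1 ≤ n) (N : ℕ) :
    ∑ k ∈ Finset.range N, (n : ℝ) ^ 2 / ((n : ℝ) + k) ^ 2 ≤ 2 * n := by
  have hn' : (1 : ℝ) ≤ n := by exact_mod_cast hn
  have h1 : ∀ m : ℕ, ∑ k ∈ Finset.range m, (n : ℝ) ^ 2 / ((n : ℝ) + (k + 1)) ^ 2 ≤
      (n : ℝ) ^ 2 * (1 / n - 1 / ((n : ℝ) + m)) := by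
    intro m
    induction m with
    | zero => simp
    | succ m ih =>
      rw [Finset.sum_range_succ]
      have hm : (0 : ℝ) ≤ m := Nat.cast_nonneg m
      have h3 : (n : ℝ) ^ 2 / ((n : ℝ) + (m + 1)) ^ 2 ≤
          (n : ℝ) ^ 2 * (1 / ((n : ℝ) + m) - 1 / ((n : ℝ) + (m + 1))) := by
        have h4 : 1 / ((n : ℝ) + m) - 1 / ((n : ℝ) + (m + 1)) =
            1 / (((n : ℝ) + m) * ((n : ℝ) + (m + 1))) := by
          field_simp
          ring
        rw [h4, mul_one_div]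
        apply div_le_div_of_nonneg_left (by positivity) (by positivity)
        nlinarith
      push_cast
      nlinarith
  have hmono : ∑ k ∈ Finset.range N, (n : ℝ) ^ 2 / ((n : ℝ) + k) ^ 2 ≤
      ∑ k ∈ Finset.range (N + 1), (n : ℝ) ^ 2 / ((n : ℝ) + k) ^ 2 := by
    rw [Finset.sum_range_succ]
    exact le_add_of_nonneg_right (by positivity)
  refine hmono.trans ?_
  rw [Finset.sum_range_succ']
  have h2 := h1 N
  have h3 : ∑ k ∈ Finset.range N, (n : ℝ) ^ 2 / ((n : ℝ) + ((k + 1 : ℕ) : ℝ)) ^ 2 =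
      ∑ k ∈ Finset.range N, (n : ℝ) ^ 2 / ((n : ℝ) + (k + 1)) ^ 2 := by
    refine Finset.sum_congr rfl fun j _ => ?_
    push_cast; rfl
  rw [h3]
  have h4 : (n : ℝ) ^ 2 / ((n : ℝ) + ((0 : ℕ) : ℝ)) ^ 2 = 1 := by
    have : (n : ℝ) ≠ 0 := by linarith
    simp [this]
  rw [h4]
  have h5 : (n : ℝ) ^ 2 * (1 / n - 1 / ((n : ℝ) + N)) ≤ n := by
    have h6 : 0 ≤ (n : ℝ) ^ 2 * (1 / ((n : ℝ) + N)) := by positivity
    have h7 : (n : ℝ) ^ 2 * (1 / n) = n := by
      have : (n : ℝ) ≠ 0 := by linarith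
      field_simp
    rw [mul_sub, h7]
    linarith
  linarith

private lemma sum_Ker {W : ℝ} (hW : 1 ≤ W) (n N : ℕ) :
    ∑ k ∈ Finset.range N, Ker W n k ≤
      √Real.pi * (16 + 144 * Real.exp 8) * (W + n) := by
  have hW0 : 0 < W := by linarith
  have hpi : 0 ≤ √Real.pi := Real.sqrt_nonneg _
  have he : 0 < Real.exp 8 := Real.exp_pos _
  rcases Nat.eq_zero_or_pos n with h0 | h0
  · have : ∑ k ∈ Finset.range N, Ker W n k = 0 := by
      refine Finset.sum_eq_zero fun k _ => ?_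
      unfold Ker
      rw [if_pos (Or.inl h0)]
    rw [this]
    positivity
  have hn' : (0 : ℝ) < n := by exact_mod_cast h0
  have hpt : ∀ k ∈ Finset.range N, Ker W n k ≤ √Real.pi * W *
      (2 / (1 + W / (4 * n) * |(n : ℝ) - k|) ^ 2 +
        72 * Real.exp 8 * ((n : ℝ) ^ 2 / ((n : ℝ) + k) ^ 2) / W) := by
    intro k _
    unfold Ker
    split_ifs with hc
    · positivity
    · push Not at hc
      apply mul_le_mul_of_nonneg_left _ (by positivity)
      rcases Nat.lt_or_ge (2 * n) k with h | h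
      · exact (far hW h0 h).trans (le_add_of_nonneg_left (by positivity))
      · exact (near hW h0 (Nat.pos_of_ne_zero hc.2) h).trans
          (le_add_of_nonneg_right (by positivity))
  refine (Finset.sum_le_sum hpt).trans ?_
  rw [← Finset.mul_sum, Finset.sum_add_distrib]
  have h1 := sum_near (c := W / (4 * n)) (by positivity) n N
  have h2 := sum_far h0 N
  have h3 : ∑ k ∈ Finset.range N, 72 * Real.exp 8 * ((n : ℝ) ^ 2 / ((n : ℝ) + k) ^ 2) / W =
      72 * Real.exp 8 / W * ∑ k ∈ Finset.range N, (n : ℝ) ^ 2 / ((n : ℝ) + k) ^ 2 := by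
    rw [Finset.mul_sum]
    refine Finset.sum_congr rfl fun k _ => ?_
    ring
  rw [h3]
  have h4 : 72 * Real.exp 8 / W * ∑ k ∈ Finset.range N, (n : ℝ) ^ 2 / ((n : ℝ) + k) ^ 2 ≤
      72 * Real.exp 8 / W * (2 * n) := mul_le_mul_of_nonneg_left h2 (by positivity)
  calc √Real.pi * W * _ ≤ √Real.pi * W * ((4 + 4 / (W / (4 * n))) +
        72 * Real.exp 8 / W * (2 * n)) :=
        mul_le_mul_of_nonneg_left (add_le_add h1 h4) (by positivity)
    _ = √Real.pi * (4 * W + 16 * n + 144 * Real.exp 8 * n) := by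
        field_simp
        ring
    _ ≤ _ := by
        rw [mul_assoc (√Real.pi) (16 + 144 * Real.exp 8)]
        apply mul_le_mul_of_nonneg_left _ hpi
        nlinarith

private lemma term_eq {a : ℕ → ℂ} (ha : a 0 = 0) (n : ℕ) (t : ℝ) :
    a n * (n : ℂ) ^ (t * I) = a n * cexp (I * (Real.log n : ℝ) * t) := by
  rcases Nat.eq_zero_or_pos n with h | h
  · rw [h, ha, zero_mul, zero_mul]
  · have hn : (n : ℂ) ≠ 0 := by exact_mod_cast h.ne'
    rw [cpow_def_of_ne_zero hn, Complex.natCast_log]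
    congr 2
    ring

private lemma norm_unit (n : ℕ) (t : ℝ) : ‖cexp (I * (Real.log n : ℝ) * t)‖ = 1 := by
  have : I * ((Real.log n : ℝ) : ℂ) * (t : ℂ) = ((Real.log n * t : ℝ) : ℂ) * I := by
    push_cast; ring
  rw [this, Complex.norm_exp_ofReal_mul_I]

theorem large_sieve : ∃ C : ℝ, 0 < C ∧ ∀ a : ℕ → ℂ, a 0 = 0 → Summable (fun n => ‖a n‖) →
    Summable (fun n : ℕ => ‖a n‖ ^ 2 * n) → ∀ W : ℝ, 1 ≤ W →
    Integrable (fun t : ℝ => Real.exp (-(t / W) ^ 2) * ‖∑' n : ℕ, a n * (n : ℂ) ^ (t * I)‖ ^ 2) ∧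
    ∫ t : ℝ, Real.exp (-(t / W) ^ 2) * ‖∑' n : ℕ, a n * (n : ℂ) ^ (t * I)‖ ^ 2 ≤
      C * ∑' n : ℕ, ‖a n‖ ^ 2 * (W + n) := by
  obtain ⟨C, hCdef⟩ : ∃ C, C = √Real.pi * (16 + 144 * Real.exp 8) := ⟨_, rfl⟩
  have hpi : 0 < √Real.pi := Real.sqrt_pos.mpr Real.pi_pos
  have hC : 0 < C := by rw [hCdef]; positivity
  refine ⟨C, hC, ?_⟩
  intro a ha0 has has2 W hW
  have hW0 : 0 < W := by linarith
  -- the series
  obtain ⟨b, hb⟩ : ∃ b : ℕ → ℝ → ℂ, b = fun (n : ℕ) (t : ℝ) => a n * cexp (I * (Real.log n : ℝ) * t) :=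
    ⟨_, rfl⟩
  have hbn : ∀ n t, ‖b n t‖ = ‖a n‖ := by
    intro n t
    rw [hb]
    simp only
    rw [norm_mul, norm_unit, mul_one]
  have hbc : ∀ n, Continuous (b n) := by
    intro n
    rw [hb]
    simp only
    fun_prop
  have hg : ∀ t : ℝ, ∑' n : ℕ, a n * (n : ℂ) ^ (t * I) = ∑' n, b n t := by
    intro t
    rw [hb]
    exact tsum_congr fun n => term_eq ha0 n t
  have hgc : Continuous (fun t : ℝ => ∑' n, b n t) :=
    continuous_tsum hbc has (fun n t => (hbn n t).le)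
  have hgb : ∀ t : ℝ, ‖∑' n, b n t‖ ≤ ∑' n, ‖a n‖ := by
    intro t
    have h1 : Summable (fun n => ‖b n t‖) := by simpa only [hbn] using has
    have h2 := norm_tsum_le_tsum_norm h1
    simpa only [hbn] using h2
  have hgi : Integrable (fun t : ℝ => Real.exp (-(t / W) ^ 2)) := by
    have := integrable_exp_neg_mul_sq (b := 1 / W ^ 2) (by positivity)
    refine this.congr (Filter.Eventually.of_forall fun t => ?_)
    show Real.exp (-(1 / W ^ 2) * t ^ 2) = Real.exp (-(t / W) ^ 2)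
    congr 1
    rw [div_pow]; ring
  have hI : Integrable (fun t : ℝ => Real.exp (-(t / W) ^ 2) * ‖∑' n, b n t‖ ^ 2) := by
    refine Integrable.mono' (hgi.mul_const ((∑' n, ‖a n‖) ^ 2)) ?_ ?_
    · apply Continuous.aestronglyMeasurable
      have : Continuous (fun t : ℝ => ‖∑' n, b n t‖ ^ 2) := hgc.norm.pow 2
      exact Continuous.mul (by fun_prop) this
    · refine Filter.Eventually.of_forall fun t => ?_
      rw [Real.norm_of_nonneg (by positivity)]
      exact mul_le_mul_of_nonneg_left (pow_le_pow_left₀ (norm_nonneg _) (hgb t) 2)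
        (Real.exp_pos _).le
  simp only [hg]
  refine ⟨hI, ?_⟩
  -- the double series
  obtain ⟨F, hF⟩ : ∃ F : ℕ × ℕ → ℝ → ℂ, F = fun p t =>
    (Real.exp (-(t / W) ^ 2) : ℂ) * (b p.1 t * (starRingEnd ℂ) (b p.2 t)) := ⟨_, rfl⟩
  have hFn : ∀ p t, ‖F p t‖ = Real.exp (-(t / W) ^ 2) * (‖a p.1‖ * ‖a p.2‖) := by
    intro p t
    rw [hF]
    simp only
    rw [norm_mul, norm_mul, RCLike.norm_conj, hbn, hbn, Complex.norm_real, Real.norm_of_nonneg
      (Real.exp_pos _).le]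
  have hFc : ∀ p, Continuous (F p) := by
    intro p
    rw [hF]
    simp only
    have h1 := hbc p.1
    have h2 := hbc p.2
    have h3 : Continuous fun t : ℝ => (starRingEnd ℂ) (b p.2 t) := Complex.continuous_conj.comp h2
    exact Continuous.mul (by fun_prop) (h1.mul h3)
  have hFi : ∀ p, Integrable (F p) := by
    intro p
    refine Integrable.mono' (hgi.mul_const (‖a p.1‖ * ‖a p.2‖)) (hFc p).aestronglyMeasurable ?_
    exact Filter.Eventually.of_forall fun t => (hFn p t).le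
  have hprod : Summable (fun p : ℕ × ℕ => ‖a p.1‖ * ‖a p.2‖) :=
    has.mul_of_nonneg has (fun _ => norm_nonneg _) (fun _ => norm_nonneg _)
  have hFs : Summable (fun p => ∫ t, ‖F p t‖) := by
    have h1 : ∀ p, ∫ t, ‖F p t‖ = (∫ t : ℝ, Real.exp (-(t / W) ^ 2)) * (‖a p.1‖ * ‖a p.2‖) := by
      intro p
      simp only [hFn]
      rw [integral_mul_const]
    simp only [h1]
    exact hprod.mul_left _
  have hsum := hasSum_integral_of_summable_integral_norm hFi hFs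
  have hpt : ∀ t, ∑' p, F p t = ((Real.exp (-(t / W) ^ 2) * ‖∑' n, b n t‖ ^ 2 : ℝ) : ℂ) := by
    intro t
    have h1 : Summable (fun n => ‖b n t‖) := by simpa only [hbn] using has
    have h2 : Summable (fun n => ‖(starRingEnd ℂ) (b n t)‖) := by
      simpa only [RCLike.norm_conj] using h1
    have h3 := tsum_mul_tsum_of_summable_norm h1 h2
    rw [hF]
    simp only
    rw [tsum_mul_left, ← h3, ← Complex.conj_tsum, Complex.mul_conj, Complex.normSq_eq_norm_sq]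
    push_cast
    ring
  have hint : ((∫ t : ℝ, Real.exp (-(t / W) ^ 2) * ‖∑' n, b n t‖ ^ 2 : ℝ) : ℂ) =
      ∑' p, ∫ t, F p t := by
    rw [hsum.tsum_eq, ← integral_complex_ofReal]
    exact integral_congr_ae (Filter.Eventually.of_forall fun t => (hpt t).symm)
  -- the individual integrals
  have hFint : ∀ p, ‖∫ t, F p t‖ = ‖a p.1‖ * ‖a p.2‖ * Ker W p.1 p.2 := by
    rintro ⟨n, k⟩
    by_cases hc : n = 0 ∨ k = 0
    · have h1 : ∀ t, F (n, k) t = 0 := by
        intro t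
        rw [← norm_eq_zero, hFn]
        rcases hc with h | h
        · simp [h, ha0]
        · simp [h, ha0]
      simp only [h1, integral_zero, norm_zero]
      unfold Ker
      rw [if_pos hc, mul_zero]
    · have h1 : ∀ t : ℝ, F (n, k) t = (a n * (starRingEnd ℂ) (a k)) *
          (cexp (I * ((Real.log n - Real.log k : ℝ) : ℂ) * t) *
            cexp (-((1 / W ^ 2 : ℝ) : ℂ) * (t : ℂ) ^ 2)) := by
        intro t
        rw [hF, hb]
        simp only
        have h2 : (Real.exp (-(t / W) ^ 2) : ℂ) = cexp (-((1 / W ^ 2 : ℝ) : ℂ) * (t : ℂ) ^ 2) := by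
          rw [Complex.ofReal_exp]
          congr 1
          push_cast
          ring
        have h3 : (starRingEnd ℂ) (a k * cexp (I * (Real.log k : ℝ) * t)) =
            (starRingEnd ℂ) (a k) * cexp (-(I * (Real.log k : ℝ) * t)) := by
          rw [map_mul, ← Complex.exp_conj]
          congr 2
          rw [map_mul, map_mul, Complex.conj_I, Complex.conj_ofReal, Complex.conj_ofReal]
          ring
        have h4 : cexp (I * ((Real.log n - Real.log k : ℝ) : ℂ) * t) =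
            cexp (I * (Real.log n : ℝ) * t) * cexp (-(I * (Real.log k : ℝ) * t)) := by
          rw [← Complex.exp_add]
          congr 1
          push_cast
          ring
        rw [h2, h3, h4]
        ring
      simp only [h1]
      rw [integral_const_mul, norm_mul, norm_mul, RCLike.norm_conj]
      have hbre : 0 < (((1 / W ^ 2 : ℝ) : ℂ)).re := by
        rw [Complex.ofReal_re]; positivity
      rw [fourierIntegral_gaussian hbre, norm_mul]
      unfold Ker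
      rw [if_neg hc]
      congr 1
      have h5 : (Real.pi : ℂ) / ((1 / W ^ 2 : ℝ) : ℂ) = ((Real.pi * W ^ 2 : ℝ) : ℂ) := by
        push_cast
        field_simp
      have h6 : ‖((Real.pi : ℂ) / ((1 / W ^ 2 : ℝ) : ℂ)) ^ (1 / 2 : ℂ)‖ = √Real.pi * W := by
        rw [h5, Complex.norm_cpow_eq_rpow_re_of_pos (by positivity)]
        have h7 : ((1 / 2 : ℂ)).re = 1 / 2 := by norm_num
        rw [h7, ← Real.sqrt_eq_rpow, Real.sqrt_mul Real.pi_pos.le, Real.sqrt_sq hW0.le]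
      have h8 : -(((Real.log n - Real.log k : ℝ) : ℂ)) ^ 2 / (4 * ((1 / W ^ 2 : ℝ) : ℂ)) =
          ((-(W ^ 2 * (Real.log n - Real.log k) ^ 2 / 4) : ℝ) : ℂ) := by
        push_cast
        field_simp
      rw [h6, h8, Complex.norm_exp_ofReal]
  -- the final estimate
  have hKs : ∀ n, Summable (fun k => Ker W n k) := fun n =>
    summable_of_sum_range_le (fun k => Ker_nonneg hW n k) (fun N => sum_Ker hW n N)
  have hKt : ∀ n : ℕ, ∑' k, Ker W n k ≤ C * (W + n) := fun n => by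
    rw [hCdef]
    exact Real.tsum_le_of_sum_range_le (fun k => Ker_nonneg hW n k) (fun N => sum_Ker hW n N)
  have ha2 : Summable (fun n => ‖a n‖ ^ 2) := by
    have h1 : ∀ᶠ n in Filter.atTop, ‖a n‖ ≤ 1 := by
      have := has.tendsto_atTop_zero
      exact this.eventually (Iic_mem_nhds (by norm_num : (0 : ℝ) < 1))
    refine Summable.of_norm_bounded_eventually_nat has ?_
    filter_upwards [h1] with n hn
    rw [Real.norm_of_nonneg (by positivity), sq]
    exact mul_le_of_le_one_left (norm_nonneg _) hn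
  have hRs : Summable (fun n : ℕ => ‖a n‖ ^ 2 * (W + n)) := by
    have : (fun n : ℕ => ‖a n‖ ^ 2 * (W + n)) = fun n : ℕ => ‖a n‖ ^ 2 * W + ‖a n‖ ^ 2 * n := by
      funext n; ring
    rw [this]
    exact (ha2.mul_right W).add has2
  have hGs : Summable (fun p : ℕ × ℕ => ‖a p.1‖ ^ 2 * Ker W p.1 p.2) := by
    rw [summable_prod_of_nonneg (fun p => mul_nonneg (by positivity) (Ker_nonneg hW _ _))]
    refine ⟨fun n => (hKs n).mul_left (‖a n‖ ^ 2), ?_⟩
    simp only [tsum_mul_left]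
    refine Summable.of_nonneg_of_le (fun n => mul_nonneg (by positivity)
      (tsum_nonneg fun k => Ker_nonneg hW n k)) (fun n => ?_) (hRs.mul_left C)
    have := mul_le_mul_of_nonneg_left (hKt n) (by positivity : 0 ≤ ‖a n‖ ^ 2)
    linarith
  have hGt : ∑' p : ℕ × ℕ, ‖a p.1‖ ^ 2 * Ker W p.1 p.2 ≤ C * ∑' n : ℕ, ‖a n‖ ^ 2 * (W + n) := by
    rw [hGs.tsum_prod' (fun n => (hKs n).mul_left (‖a n‖ ^ 2)), ← tsum_mul_left]
    simp only [tsum_mul_left]
    have hs1 : Summable (fun n => ‖a n‖ ^ 2 * ∑' k, Ker W n k) := by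
      refine Summable.of_nonneg_of_le (fun n => mul_nonneg (by positivity)
        (tsum_nonneg fun k => Ker_nonneg hW n k)) (fun n => ?_) (hRs.mul_left C)
      have := mul_le_mul_of_nonneg_left (hKt n) (by positivity : 0 ≤ ‖a n‖ ^ 2)
      linarith
    rw [← tsum_mul_left]
    refine hs1.tsum_le_tsum (fun n => ?_) (hRs.mul_left C)
    have := mul_le_mul_of_nonneg_left (hKt n) (by positivity : 0 ≤ ‖a n‖ ^ 2)
    linarith
  have hGs' : Summable (fun p : ℕ × ℕ => ‖a p.2‖ ^ 2 * Ker W p.1 p.2) := by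
    have h1 := (Equiv.prodComm ℕ ℕ).summable_iff.mpr hGs
    refine h1.congr fun p => ?_
    show ‖a p.2‖ ^ 2 * Ker W p.2 p.1 = _
    rw [Ker_symm]
  have hGt' : ∑' p : ℕ × ℕ, ‖a p.2‖ ^ 2 * Ker W p.1 p.2 =
      ∑' p : ℕ × ℕ, ‖a p.1‖ ^ 2 * Ker W p.1 p.2 := by
    rw [← (Equiv.prodComm ℕ ℕ).tsum_eq]
    refine tsum_congr fun p => ?_
    show ‖a p.1‖ ^ 2 * Ker W p.2 p.1 = _
    rw [Ker_symm]
  have hHs : Summable (fun p : ℕ × ℕ => ‖a p.1‖ * ‖a p.2‖ * Ker W p.1 p.2) := by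
    refine Summable.of_nonneg_of_le (fun p => mul_nonneg (by positivity) (Ker_nonneg hW _ _))
      (fun p => ?_) (hGs.add hGs')
    have h1 : 2 * (‖a p.1‖ * ‖a p.2‖) ≤ ‖a p.1‖ ^ 2 + ‖a p.2‖ ^ 2 := by
      nlinarith [sq_nonneg (‖a p.1‖ - ‖a p.2‖)]
    have h2 : 0 ≤ ‖a p.1‖ * ‖a p.2‖ := by positivity
    nlinarith [Ker_nonneg hW p.1 p.2]
  have hfin : ∑' p : ℕ × ℕ, ‖a p.1‖ * ‖a p.2‖ * Ker W p.1 p.2 ≤
      ∑' p : ℕ × ℕ, ‖a p.1‖ ^ 2 * Ker W p.1 p.2 := by
    have h1 : ∑' p : ℕ × ℕ, ‖a p.1‖ * ‖a p.2‖ * Ker W p.1 p.2 ≤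
        ∑' p : ℕ × ℕ, (1 / 2 : ℝ) * (‖a p.1‖ ^ 2 * Ker W p.1 p.2 + ‖a p.2‖ ^ 2 * Ker W p.1 p.2) := by
      refine hHs.tsum_le_tsum (fun p => ?_) ((hGs.add hGs').mul_left _)
      have h1 : 2 * (‖a p.1‖ * ‖a p.2‖) ≤ ‖a p.1‖ ^ 2 + ‖a p.2‖ ^ 2 := by
        nlinarith [sq_nonneg (‖a p.1‖ - ‖a p.2‖)]
      nlinarith [Ker_nonneg hW p.1 p.2]
    rw [tsum_mul_left, hGs.tsum_add hGs', hGt'] at h1
    linarith
  have hnorm : ‖∑' p, ∫ t, F p t‖ ≤ ∑' p : ℕ × ℕ, ‖a p.1‖ * ‖a p.2‖ * Ker W p.1 p.2 := by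
    have h1 : Summable (fun p => ‖∫ t, F p t‖) := by simpa only [hFint] using hHs
    have h2 := norm_tsum_le_tsum_norm h1
    simpa only [hFint] using h2
  rw [← hint] at hnorm
  have hle : ∫ t : ℝ, Real.exp (-(t / W) ^ 2) * ‖∑' n, b n t‖ ^ 2 ≤
      ‖((∫ t : ℝ, Real.exp (-(t / W) ^ 2) * ‖∑' n, b n t‖ ^ 2 : ℝ) : ℂ)‖ := by
    rw [Complex.norm_real]
    exact le_abs_self _
  exact hle.trans (hnorm.trans (hfin.trans hGt))

end HYM
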