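import Pool.Agent.HYM.GP

set_option autoImplicit false

/-!
# HYM/Ser: the smoothed Perron formula for the Dirichlet series

PROOF. On `Re s = 2` `L s = ∑ f(n) n^(-s)` converges absolutely (field `series`, `summable`), so
`vint 2 (...) x = ∑_{n ≥ 1} f(n) (1/2π) ∫ (x/n)^s e^{s²/V²}/s dt = ∑ f(n) Phi V (log (x/n))` by
`perron_pos` (`y = log (x/n)`; interchange of sum and integral: the integrand is bounded by
`‖f n‖ n^{-2} x² e^{(4-t²)/V²}/2`). On the other side `Phi V (log (x/n)) = ∫ kV V y 1[y ≤ log (x/n)]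
dy` and `y ≤ log (x/n) ↔ n ≤ x e^{-y}`, so `∑_n f(n) Phi V (log (x/n)) = ∫ kV V y S(x e^{-y}) dy`
(interchange: `∑ ‖f n‖ Phi V (log (x/n)) < ∞` since `1[n ≤ x e^{-y}] ≤ (x e^{-y}/n)²` and
`∫ kV V y e^{-2y} dy < ∞`, `∑ ‖f n‖ n^{-2} < ∞`).
-/

open Complex MeasureTheory

namespace HYM

/-- A crude bound for the summatory function. -/
theorem S_crude (F : Sel) : ∃ C : ℝ, 0 < C ∧ ∀ x : ℝ, 0 ≤ x → ‖F.S x‖ ≤ C * x ^ 2 := by
  obtain ⟨C, hC⟩ := F.ram 1 one_pos
  have h1 := hC 1 le_rfl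
  rw [Nat.cast_one, Real.one_rpow, mul_one] at h1
  have hC0 : 0 ≤ C := (norm_nonneg _).trans h1
  refine ⟨C + 1, by linarith, fun x hx => ?_⟩
  unfold Sel.S
  refine (norm_sum_le _ _).trans ?_
  have h2 : ∑ n ∈ Finset.Icc 1 ⌊x⌋₊, ‖F.f n‖ ≤ ∑ _n ∈ Finset.Icc 1 ⌊x⌋₊, C * x := by
    apply Finset.sum_le_sum
    intro n hn
    rw [Finset.mem_Icc] at hn
    refine (hC n hn.1).trans ?_
    rw [Real.rpow_one]
    apply mul_le_mul_of_nonneg_left _ hC0
    exact (Nat.le_floor_iff hx).1 hn.2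
  refine h2.trans ?_
  rw [Finset.sum_const, Nat.card_Icc, nsmul_eq_mul, Nat.add_sub_cancel]
  have h3 : (⌊x⌋₊ : ℝ) ≤ x := Nat.floor_le hx
  have h4 : (⌊x⌋₊ : ℝ) * (C * x) ≤ x * (C * x) :=
    mul_le_mul_of_nonneg_right h3 (by positivity)
  have h5 : 0 ≤ x ^ 2 := by positivity
  nlinarith

private theorem sum_f2 (F : Sel) : Summable (fun n : ℕ => ‖F.f n‖ / (n : ℝ) ^ 2 *
    (if n = 0 then 0 else 1)) := by
  have h := (F.summable 2 (by norm_num)).norm
  refine h.congr fun n => ?_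
  rw [LSeries.norm_term_eq]
  split_ifs with h0
  · simp
  · rw [mul_one]
    congr 1
    rw [show (2 : ℂ).re = ((2 : ℕ) : ℝ) by norm_num, Real.rpow_natCast]

/-- the terms of the series, integrated -/
private theorem term_int (F : Sel) {V x : ℝ} (hV : 0 < V) (n : ℕ) :
    Integrable (fun t : ℝ => (if n = 0 then 0 else F.f n) *
      (cexp ((ln 2 t) ^ 2 / (V : ℂ) ^ 2 + (Real.log (x / n) : ℂ) * ln 2 t) / ln 2 t)) ∧
    ∫ t : ℝ, ‖(if n = 0 then 0 else F.f n) *
      (cexp ((ln 2 t) ^ 2 / (V : ℂ) ^ 2 + (Real.log (x / n) : ℂ) * ln 2 t) / ln 2 t)‖ ≤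
      (if n = 0 then 0 else ‖F.f n‖) * Real.exp (2 * Real.log (x / n)) *
        ∫ t : ℝ, Real.exp ((4 - t ^ 2) / V ^ 2) := by
  have hg : Integrable (fun t : ℝ => Real.exp ((4 - t ^ 2) / V ^ 2)) := by
    have h1 : (fun t : ℝ => Real.exp ((4 - t ^ 2) / V ^ 2)) =
        fun t : ℝ => Real.exp (4 / V ^ 2) * Real.exp (-(1 / V ^ 2) * t ^ 2) := by
      funext t
      rw [← Real.exp_add]
      congr 1
      ring
    rw [h1]
    exact (integrable_exp_neg_mul_sq (by positivity)).const_mul _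
  have hg2 := hg.const_mul ((if n = 0 then 0 else ‖F.f n‖) * Real.exp (2 * Real.log (x / n)))
  have hne : ∀ t : ℝ, ln 2 t ≠ 0 := by
    intro t h
    have := congrArg Complex.re h
    rw [ln_re, Complex.zero_re] at this
    norm_num at this
  have hbd : ∀ t : ℝ, ‖(if n = 0 then 0 else F.f n) *
      (cexp ((ln 2 t) ^ 2 / (V : ℂ) ^ 2 + (Real.log (x / n) : ℂ) * ln 2 t) / ln 2 t)‖ ≤
      (if n = 0 then 0 else ‖F.f n‖) * Real.exp (2 * Real.log (x / n)) *
        Real.exp ((4 - t ^ 2) / V ^ 2) := by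
    intro t
    rw [norm_mul, norm_div]
    have e1 : ‖(if n = 0 then 0 else F.f n)‖ = (if n = 0 then 0 else ‖F.f n‖) := by
      split_ifs <;> simp
    have e2 : ‖cexp ((ln 2 t) ^ 2 / (V : ℂ) ^ 2 + (Real.log (x / n) : ℂ) * ln 2 t)‖ =
        Real.exp (2 * Real.log (x / n)) * Real.exp ((4 - t ^ 2) / V ^ 2) := by
      rw [Complex.norm_exp, ← Real.exp_add]
      congr 1
      have h1 : (ln 2 t) ^ 2 / (V : ℂ) ^ 2 + (Real.log (x / n) : ℂ) * ln 2 t =
          ((2 * Real.log (x / n) + (4 - t ^ 2) / V ^ 2 : ℝ) : ℂ) +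
            ((4 * t / V ^ 2 + Real.log (x / n) * t : ℝ) : ℂ) * I := by
        unfold ln
        push_cast
        have hI : I ^ 2 = -1 := Complex.I_sq
        linear_combination ((t : ℂ) ^ 2 / (V : ℂ) ^ 2) * hI
      rw [h1, Complex.add_re, Complex.ofReal_re, Complex.re_ofReal_mul, Complex.I_re, mul_zero,
        add_zero]
    have e3 : 1 ≤ ‖ln 2 t‖ := by
      have := Complex.abs_re_le_norm (ln 2 t)
      rw [ln_re, abs_two] at this
      linarith
    rw [e1, e2, mul_assoc]
    apply mul_le_mul_of_nonneg_left _ (by split_ifs <;> simp)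
    exact div_le_self (by positivity) e3
  have hcont : Continuous (fun t : ℝ => (if n = 0 then 0 else F.f n) *
      (cexp ((ln 2 t) ^ 2 / (V : ℂ) ^ 2 + (Real.log (x / n) : ℂ) * ln 2 t) / ln 2 t)) := by
    have h1 : Continuous (fun t : ℝ => ln 2 t) := by unfold ln; fun_prop
    apply Continuous.mul continuous_const
    apply Continuous.div _ h1 hne
    fun_prop
  have hint := hg2.mono' hcont.aestronglyMeasurable (Filter.Eventually.of_forall hbd)
  refine ⟨hint, ?_⟩
  rw [← integral_const_mul]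
  exact integral_mono hint.norm hg2 hbd

private theorem exp_two_log {x : ℝ} (hx : 0 < x) {n : ℕ} (hn : n ≠ 0) :
    Real.exp (2 * Real.log (x / n)) = x ^ 2 / (n : ℝ) ^ 2 := by
  have hn' : (0 : ℝ) < n := by exact_mod_cast Nat.pos_of_ne_zero hn
  have : 2 * Real.log (x / n) = ((2 : ℕ) : ℝ) * Real.log (x / n) := by norm_num
  rw [this, Real.exp_nat_mul, Real.exp_log (by positivity), div_pow]

/-- left side as a series -/
private theorem left_series (F : Sel) {V x : ℝ} (hV : 0 < V) (hx : 0 < x) :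
    vint 2 (fun t => F.L (ln 2 t) / ln 2 t * cexp ((ln 2 t) ^ 2 / (V : ℂ) ^ 2)) x =
      ∑' n : ℕ, (if n = 0 then 0 else F.f n) * (Phi V (Real.log (x / n)) : ℂ) := by
  have hxc : (x : ℂ) ≠ 0 := by exact_mod_cast hx.ne'
  have hpt : ∀ t : ℝ, F.L (ln 2 t) / ln 2 t * cexp ((ln 2 t) ^ 2 / (V : ℂ) ^ 2) *
      (x : ℂ) ^ (ln 2 t) = ∑' n : ℕ, (if n = 0 then 0 else F.f n) *
      (cexp ((ln 2 t) ^ 2 / (V : ℂ) ^ 2 + (Real.log (x / n) : ℂ) * ln 2 t) / ln 2 t) := by
    intro t
    have hL : F.L (ln 2 t) = LSeries F.f (ln 2 t) :=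
      (F.series (ln 2 t) (by rw [ln_re]; norm_num)).symm
    rw [hL]
    unfold LSeries
    rw [div_mul_eq_mul_div, div_mul_eq_mul_div, mul_assoc, ← tsum_mul_right, ← tsum_div_const]
    apply tsum_congr
    intro n
    rcases Nat.eq_zero_or_pos n with rfl | hn
    · simp
    · have hn' : (0 : ℝ) < n := by exact_mod_cast hn
      have hnc : (n : ℂ) ≠ 0 := by exact_mod_cast hn.ne'
      rw [LSeries.term_of_ne_zero hn.ne', if_neg hn.ne']
      have e1 : cexp ((ln 2 t) ^ 2 / (V : ℂ) ^ 2 + (Real.log (x / n) : ℂ) * ln 2 t) =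
          cexp ((ln 2 t) ^ 2 / (V : ℂ) ^ 2) * (x : ℂ) ^ (ln 2 t) / (n : ℂ) ^ (ln 2 t) := by
        rw [Complex.cpow_def_of_ne_zero hxc, Complex.cpow_def_of_ne_zero hnc, ← Complex.exp_add,
          ← Complex.exp_sub]
        congr 1
        rw [Real.log_div hx.ne' hn'.ne']
        push_cast [Complex.ofReal_log hx.le]
        rw [← Complex.natCast_log]
        ring
      rw [e1]
      ring
  unfold vint
  have h2 : ∫ t : ℝ, F.L (ln 2 t) / ln 2 t * cexp ((ln 2 t) ^ 2 / (V : ℂ) ^ 2) *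
      (x : ℂ) ^ (ln 2 t) = ∫ t : ℝ, ∑' n : ℕ, (if n = 0 then 0 else F.f n) *
      (cexp ((ln 2 t) ^ 2 / (V : ℂ) ^ 2 + (Real.log (x / n) : ℂ) * ln 2 t) / ln 2 t) := by
    congr 1
    funext t
    exact hpt t
  rw [h2, ← integral_tsum_of_summable_integral_norm (fun n => (term_int F (x := x) hV n).1)]
  · rw [← tsum_mul_left]
    apply tsum_congr
    intro n
    rw [integral_const_mul, ← perron_pos hV (by norm_num : (0 : ℝ) < 2) (Real.log (x / n))]
    ring
  · have h3 := ((sum_f2 F).mul_left (x ^ 2)).mul_right (∫ t : ℝ, Real.exp ((4 - t ^ 2) / V ^ 2))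
    refine Summable.of_nonneg_of_le (fun n => integral_nonneg fun t => norm_nonneg _)
      (fun n => (term_int F (x := x) hV n).2) (h3.congr fun n => ?_)
    rcases Nat.eq_zero_or_pos n with rfl | hn
    · simp
    · rw [if_neg hn.ne', if_neg hn.ne', exp_two_log hx hn.ne']
      ring

private theorem le_iff_log {x : ℝ} (hx : 0 < x) {n : ℕ} (hn : n ≠ 0) (y : ℝ) :
    (n : ℝ) ≤ x * Real.exp (-y) ↔ y ≤ Real.log (x / n) := by
  have hn' : (0 : ℝ) < n := by exact_mod_cast Nat.pos_of_ne_zero hn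
  rw [Real.le_log_iff_exp_le (by positivity), le_div_iff₀ hn', Real.exp_neg,
    ← div_eq_mul_inv, le_div_iff₀ (Real.exp_pos y), mul_comm]

/-- right side as a series -/
private theorem right_series (F : Sel) {V x : ℝ} (hV : 0 < V) (hx : 0 < x) :
    ∫ y : ℝ, (kV V y : ℂ) * F.S (x * Real.exp (-y)) =
      ∑' n : ℕ, (if n = 0 then 0 else F.f n) * (Phi V (Real.log (x / n)) : ℂ) := by
  set G : ℕ → ℝ → ℂ := fun n y => (if n = 0 then 0 else F.f n) *
    (((Set.Iic (Real.log (x / n))).indicator (kV V) y : ℝ) : ℂ) with hG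
  have hpt : ∀ y : ℝ, (kV V y : ℂ) * F.S (x * Real.exp (-y)) = ∑' n, G n y := by
    intro y
    rw [tsum_eq_sum (s := Finset.Icc 1 ⌊x * Real.exp (-y)⌋₊)]
    · unfold Sel.S
      rw [Finset.mul_sum]
      apply Finset.sum_congr rfl
      intro n hn
      rw [Finset.mem_Icc] at hn
      have hn0 : n ≠ 0 := by omega
      have h1 : (n : ℝ) ≤ x * Real.exp (-y) := (Nat.le_floor_iff (by positivity)).1 hn.2
      rw [le_iff_log hx hn0] at h1
      simp only [hG]
      rw [if_neg hn0, Set.indicator_of_mem (show y ∈ Set.Iic (Real.log (x / n)) from h1)]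
      ring
    · intro n hn
      rw [Finset.mem_Icc, not_and_or] at hn
      simp only [hG]
      by_cases hn0 : n = 0
      · rw [if_pos hn0, zero_mul]
      · have h1 : ¬ n ≤ ⌊x * Real.exp (-y)⌋₊ := by
          rcases hn with hn | hn
          · omega
          · exact hn
        rw [Nat.le_floor_iff (by positivity), le_iff_log hx hn0] at h1
        rw [Set.indicator_of_notMem (show y ∉ Set.Iic (Real.log (x / n)) from h1)]
        simp
  have hkc : Integrable (fun y => ((kV V y : ℝ) : ℂ)) := (kV_integrable hV).ofReal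
  have hGint : ∀ n, Integrable (G n) := by
    intro n
    have h1 : Integrable ((Set.Iic (Real.log (x / n))).indicator (kV V)) :=
      (kV_integrable hV).indicator measurableSet_Iic
    exact h1.ofReal.const_mul _
  have hval : ∀ n, ∫ y, G n y = (if n = 0 then 0 else F.f n) *
      (Phi V (Real.log (x / n)) : ℂ) := by
    intro n
    simp only [hG]
    rw [integral_const_mul]
    congr 1
    rw [integral_complex_ofReal, integral_indicator measurableSet_Iic]
    rfl
  have hE : Integrable (fun y : ℝ => kV V y * Real.exp (2 * |y|)) := kV_exp_integrable hV 2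
  have hsum : Summable (fun n => ∫ y, ‖G n y‖) := by
    have h3 := ((sum_f2 F).mul_left (x ^ 2)).mul_right (∫ y : ℝ, kV V y * Real.exp (2 * |y|))
    refine Summable.of_nonneg_of_le (fun n => integral_nonneg fun t => norm_nonneg _)
      (fun n => ?_) h3
    rcases Nat.eq_zero_or_pos n with rfl | hn
    · simp [hG]
    · have hn' : (0 : ℝ) < n := by exact_mod_cast hn
      rw [if_neg hn.ne', mul_one]
      have h4 : ∫ y, ‖G n y‖ ≤ ∫ y, ‖F.f n‖ * (x ^ 2 / (n : ℝ) ^ 2) *
          (kV V y * Real.exp (2 * |y|)) := by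
        apply integral_mono (hGint n).norm (hE.const_mul _)
        intro y
        have hk := kV_pos hV y
        simp only [hG]
        rw [if_neg hn.ne', norm_mul, Complex.norm_real]
        by_cases hy : y ∈ Set.Iic (Real.log (x / n))
        · rw [Set.indicator_of_mem hy, Real.norm_of_nonneg hk.le]
          have hy' : (n : ℝ) ≤ x * Real.exp (-y) := (le_iff_log hx hn.ne' y).2 hy
          have h5 : 1 ≤ x ^ 2 / (n : ℝ) ^ 2 * Real.exp (2 * |y|) := by
            have h6 : (n : ℝ) ≤ x * Real.exp |y| := by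
              refine hy'.trans (mul_le_mul_of_nonneg_left ?_ hx.le)
              exact Real.exp_le_exp.2 (neg_le_abs y)
            have h7 : (n : ℝ) ^ 2 ≤ (x * Real.exp |y|) ^ 2 := pow_le_pow_left₀ hn'.le h6 2
            have h8 : Real.exp (2 * |y|) = Real.exp |y| ^ 2 := by
              rw [← Real.exp_nat_mul]
              norm_num
            rw [h8, div_mul_eq_mul_div, one_le_div (by positivity), ← mul_pow]
            exact h7
          calc ‖F.f n‖ * kV V y = ‖F.f n‖ * kV V y * 1 := (mul_one _).symm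
            _ ≤ ‖F.f n‖ * kV V y * (x ^ 2 / (n : ℝ) ^ 2 * Real.exp (2 * |y|)) :=
                mul_le_mul_of_nonneg_left h5 (by positivity)
            _ = _ := by ring
        · rw [Set.indicator_of_notMem hy, norm_zero, mul_zero]
          positivity
      rw [integral_const_mul] at h4
      refine h4.trans (le_of_eq ?_)
      ring
  have h9 : ∫ y : ℝ, (kV V y : ℂ) * F.S (x * Real.exp (-y)) = ∫ y : ℝ, ∑' n, G n y := by
    congr 1
    funext y
    exact hpt y
  rw [h9, ← integral_tsum_of_summable_integral_norm hGint hsum]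
  exact tsum_congr hval

theorem series_side (F : Sel) {V x : ℝ} (hV : 0 < V) (hx : 0 < x) :
    vint 2 (fun t => F.L (ln 2 t) / ln 2 t * cexp ((ln 2 t) ^ 2 / (V : ℂ) ^ 2)) x =
      ∫ y : ℝ, (kV V y : ℂ) * F.S (x * Real.exp (-y)) := by
  rw [left_series F hV hx, right_series F hV hx]

end HYM
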