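import Pool.Agent.HYM.Defs

set_option autoImplicit false

/-!
# HYM/Shf: moving a line of integration

PROOF. `Complex.integral_boundary_rect_eq_zero_of_differentiableOn` on the rectangle
`[a, b] × [-R, R]`; the horizontal sides are at most `(b-a) B / (1+R²) → 0`; the vertical sides tend
to the full integrals because `t ↦ H (c + it)` is integrable (continuous, bounded by `B/(1+t²)`).
-/

open Complex MeasureTheory

namespace HYM

private theorem line_integrable_aux {H : ℂ → ℂ} {a b B c : ℝ} (ha : a ≤ c) (hb : c ≤ b)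
    (hd : ∀ s : ℂ, a ≤ s.re → s.re ≤ b → DifferentiableAt ℂ H s)
    (hB : ∀ s : ℂ, a ≤ s.re → s.re ≤ b → ‖H s‖ ≤ B / (1 + s.im ^ 2)) :
    Integrable (fun t : ℝ => H (ln c t)) := by
  have hcont : Continuous (fun t : ℝ => H (ln c t)) := by
    rw [continuous_iff_continuousAt]
    intro t
    have h1 : ContinuousAt H (ln c t) := (hd _ (by rw [ln_re]; exact ha)
      (by rw [ln_re]; exact hb)).continuousAt
    have h2 : Continuous (fun t : ℝ => ln c t) := by
      unfold ln
      fun_prop
    exact ContinuousAt.comp (f := fun t : ℝ => ln c t) h1 h2.continuousAt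
  have hint : Integrable (fun t : ℝ => B * (1 + t ^ 2)⁻¹) := integrable_inv_one_add_sq.const_mul B
  refine hint.mono' hcont.aestronglyMeasurable ?_
  filter_upwards with t
  have h := hB (ln c t) (by rw [ln_re]; exact ha) (by rw [ln_re]; exact hb)
  rw [ln_im] at h
  exact h

theorem shift_lines {H : ℂ → ℂ} {a b B : ℝ} (hab : a ≤ b)
    (hd : ∀ s : ℂ, a ≤ s.re → s.re ≤ b → DifferentiableAt ℂ H s)
    (hB : ∀ s : ℂ, a ≤ s.re → s.re ≤ b → ‖H s‖ ≤ B / (1 + s.im ^ 2)) :
    ∫ t : ℝ, H (ln a t) = ∫ t : ℝ, H (ln b t) := by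
  have hia := line_integrable_aux le_rfl hab hd hB
  have hib := line_integrable_aux hab le_rfl hd hB
  have hta : Filter.Tendsto (fun R : ℝ => ∫ t in (-R)..R, H (ln a t)) Filter.atTop
      (nhds (∫ t : ℝ, H (ln a t))) :=
    intervalIntegral_tendsto_integral hia Filter.tendsto_neg_atTop_atBot Filter.tendsto_id
  have htb : Filter.Tendsto (fun R : ℝ => ∫ t in (-R)..R, H (ln b t)) Filter.atTop
      (nhds (∫ t : ℝ, H (ln b t))) :=
    intervalIntegral_tendsto_integral hib Filter.tendsto_neg_atTop_atBot Filter.tendsto_id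
  have hsub := htb.sub hta
  have hzero : Filter.Tendsto (fun R : ℝ => (∫ t in (-R)..R, H (ln b t)) -
      ∫ t in (-R)..R, H (ln a t)) Filter.atTop (nhds 0) := by
    have hbound : ∀ R : ℝ, ‖(∫ t in (-R)..R, H (ln b t)) - ∫ t in (-R)..R, H (ln a t)‖ ≤
        2 * (B / (1 + R ^ 2) * (b - a)) := by
      intro R
      have hrect := Complex.integral_boundary_rect_eq_zero_of_differentiableOn H
        (ln a (-R)) (ln b R) (by
          intro s hs
          rw [mem_reProdIm, ln_re, ln_re] at hs
          have hs1 := hs.1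
          rw [Set.uIcc_of_le hab] at hs1
          exact (hd s hs1.1 hs1.2).differentiableWithinAt)
      rw [ln_re, ln_re, ln_im, ln_im] at hrect
      have h1 : ‖∫ x : ℝ in a..b, H ((x : ℂ) + ((-R : ℝ) : ℂ) * I)‖ ≤
          B / (1 + R ^ 2) * (b - a) := by
        have h := intervalIntegral.norm_integral_le_of_norm_le_const (a := a) (b := b)
          (C := B / (1 + R ^ 2)) (f := fun x : ℝ => H ((x : ℂ) + ((-R : ℝ) : ℂ) * I)) (by
            intro x hx
            rw [Set.uIoc_of_le hab] at hx
            have := hB ((x : ℂ) + ((-R : ℝ) : ℂ) * I) (by simp; exact hx.1.le) (by simp; exact hx.2)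
            refine this.trans (le_of_eq ?_)
            simp)
        rwa [abs_of_nonneg (by linarith)] at h
      have h2 : ‖∫ x : ℝ in a..b, H ((x : ℂ) + (R : ℂ) * I)‖ ≤
          B / (1 + R ^ 2) * (b - a) := by
        have h := intervalIntegral.norm_integral_le_of_norm_le_const (a := a) (b := b)
          (C := B / (1 + R ^ 2)) (f := fun x : ℝ => H ((x : ℂ) + (R : ℂ) * I)) (by
            intro x hx
            rw [Set.uIoc_of_le hab] at hx
            have := hB ((x : ℂ) + (R : ℂ) * I) (by simp; exact hx.1.le) (by simp; exact hx.2)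
            refine this.trans (le_of_eq ?_)
            simp)
        rwa [abs_of_nonneg (by linarith)] at h
      have h3 : I • ((∫ t in (-R)..R, H (ln b t)) - ∫ t in (-R)..R, H (ln a t)) =
          (∫ x : ℝ in a..b, H ((x : ℂ) + (R : ℂ) * I)) -
            ∫ x : ℝ in a..b, H ((x : ℂ) + ((-R : ℝ) : ℂ) * I) := by
        unfold ln
        rw [smul_sub]
        linear_combination hrect
      have h4 : ‖I • ((∫ t in (-R)..R, H (ln b t)) - ∫ t in (-R)..R, H (ln a t))‖ =
          ‖(∫ t in (-R)..R, H (ln b t)) - ∫ t in (-R)..R, H (ln a t)‖ := by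
        rw [norm_smul, Complex.norm_I, one_mul]
      rw [← h4, h3]
      refine (norm_sub_le _ _).trans ?_
      linarith
    have hlim : Filter.Tendsto (fun R : ℝ => 2 * (B / (1 + R ^ 2) * (b - a))) Filter.atTop
        (nhds 0) := by
      have h1 : Filter.Tendsto (fun R : ℝ => 1 + R ^ 2) Filter.atTop Filter.atTop :=
        Filter.tendsto_atTop_add_const_left _ _ (Filter.tendsto_pow_atTop two_ne_zero)
      have h2 := (Filter.Tendsto.const_div_atTop h1 B).mul_const (b - a)
      have h3 := h2.const_mul 2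
      simpa using h3
    exact squeeze_zero_norm hbound hlim
  have := tendsto_nhds_unique hsub hzero
  exact (sub_eq_zero.1 this).symm

theorem line_integrable {H : ℂ → ℂ} {a b B c : ℝ} (ha : a ≤ c) (hb : c ≤ b)
    (hd : ∀ s : ℂ, a ≤ s.re → s.re ≤ b → DifferentiableAt ℂ H s)
    (hB : ∀ s : ℂ, a ≤ s.re → s.re ≤ b → ‖H s‖ ≤ B / (1 + s.im ^ 2)) :
    Integrable (fun t : ℝ => H (ln c t)) :=
  line_integrable_aux ha hb hd hB

end HYM
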